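import Mathlib

/-! # Basic definitions for the d-bar problem on indicator functions -/

open MeasureTheory Complex Metric Set Filter Topology
open scoped ContDiff ENNReal NNReal

namespace H98.Dbar

/-- The operator `∂/∂z̄ = ½(∂ₓ + i ∂ᵧ)`. -/
noncomputable def dbar (f : ℂ → ℂ) (z : ℂ) : ℂ :=
  (1 / 2 : ℂ) * (fderiv ℝ f z 1 + I * fderiv ℝ f z I)

lemma dbar_add {f g : ℂ → ℂ} {z : ℂ} (hf : DifferentiableAt ℝ f z)
    (hg : DifferentiableAt ℝ g z) :
    dbar (fun w => f w + g w) z = dbar f z + dbar g z := by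
  unfold dbar
  rw [show (fun w => f w + g w) = f + g from rfl, fderiv_add hf hg]
  simp only [add_apply]
  ring

lemma dbar_sub {f g : ℂ → ℂ} {z : ℂ} (hf : DifferentiableAt ℝ f z)
    (hg : DifferentiableAt ℝ g z) :
    dbar (fun w => f w - g w) z = dbar f z - dbar g z := by
  unfold dbar
  rw [show (fun w => f w - g w) = f - g from rfl, fderiv_sub hf hg]
  simp only [sub_apply]
  ring

lemma dbar_mul {f g : ℂ → ℂ} {z : ℂ} (hf : DifferentiableAt ℝ f z)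
    (hg : DifferentiableAt ℝ g z) :
    dbar (fun w => f w * g w) z = dbar f z * g z + f z * dbar g z := by
  unfold dbar
  rw [show (fun w => f w * g w) = f * g from rfl, fderiv_mul hf hg]
  simp only [add_apply, smul_apply, smul_eq_mul]
  ring

lemma dbar_const_mul {g : ℂ → ℂ} {z : ℂ} (c : ℂ) (hg : DifferentiableAt ℝ g z) :
    dbar (fun w => c * g w) z = c * dbar g z := by
  unfold dbar
  rw [show (fun w => c * g w) = c • g from rfl, fderiv_const_smul hg]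
  simp only [smul_apply, smul_eq_mul]
  ring

lemma dbar_const_smul {g : ℂ → ℂ} {z : ℂ} (c : ℂ) (hg : DifferentiableAt ℝ g z) :
    dbar (c • g) z = c * dbar g z := dbar_const_mul c hg

lemma dbar_congr {f g : ℂ → ℂ} {z : ℂ} (h : f =ᶠ[𝓝 z] g) : dbar f z = dbar g z := by
  unfold dbar
  rw [h.fderiv_eq]

lemma dbar_const (c z : ℂ) : dbar (fun _ => c) z = 0 := by
  unfold dbar
  simp

lemma dbar_holo {f : ℂ → ℂ} {z : ℂ} (hf : DifferentiableAt ℂ f z) : dbar f z = 0 := by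
  unfold dbar
  have h1 : fderiv ℝ f z = (fderiv ℂ f z).restrictScalars ℝ := by
    exact (hf.hasFDerivAt.restrictScalars ℝ).fderiv
  rw [h1]
  simp only [ContinuousLinearMap.coe_restrictScalars']
  have : fderiv ℂ f z I = I * fderiv ℂ f z 1 := by
    rw [← smul_eq_mul, ← ContinuousLinearMap.map_smul]; simp
  rw [this, ← mul_assoc, I_mul_I]
  ring

lemma norm_dbar_le (f : ℂ → ℂ) (z : ℂ) : ‖dbar f z‖ ≤ ‖fderiv ℝ f z‖ := by
  unfold dbar
  have h1 : ‖fderiv ℝ f z 1‖ ≤ ‖fderiv ℝ f z‖ := by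
    simpa using (fderiv ℝ f z).le_opNorm 1
  have h2 : ‖fderiv ℝ f z I‖ ≤ ‖fderiv ℝ f z‖ := by
    simpa using (fderiv ℝ f z).le_opNorm I
  calc ‖(1 / 2 : ℂ) * (fderiv ℝ f z 1 + I * fderiv ℝ f z I)‖
      = (1/2) * ‖fderiv ℝ f z 1 + I * fderiv ℝ f z I‖ := by
        rw [norm_mul]; norm_num
    _ ≤ (1/2) * (‖fderiv ℝ f z 1‖ + ‖I * fderiv ℝ f z I‖) := by
        gcongr; exact norm_add_le _ _
    _ = (1/2) * (‖fderiv ℝ f z 1‖ + ‖fderiv ℝ f z I‖) := by
        rw [norm_mul, Complex.norm_I, one_mul]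
    _ ≤ (1/2) * (‖fderiv ℝ f z‖ + ‖fderiv ℝ f z‖) := by gcongr
    _ = ‖fderiv ℝ f z‖ := by ring

lemma contDiff_dbar {f : ℂ → ℂ} (hf : ContDiff ℝ ∞ f) : ContDiff ℝ ∞ (dbar f) := by
  have h := hf.fderiv_right (m := ∞) (by simp)
  unfold dbar
  fun_prop

lemma hasCompactSupport_dbar {f : ℂ → ℂ} (hf : HasCompactSupport f) :
    HasCompactSupport (dbar f) := by
  have h := hf.fderiv ℝ
  refine h.mono ?_
  intro z hz
  rw [Function.mem_support] at hz ⊢
  contrapose! hz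
  unfold dbar
  rw [hz]; simp

/-- If `f` takes real values then `|∇f| ≤ 4 |∂f/∂z̄|`. -/
lemma norm_fderiv_le_dbar {u : ℂ → ℝ} {z : ℂ} (hu : DifferentiableAt ℝ u z) :
    ‖fderiv ℝ u z‖ ≤ 4 * ‖dbar (fun w => (u w : ℂ)) z‖ := by
  have h0 : fderiv ℝ (fun w => (u w : ℂ)) z = Complex.ofRealCLM.comp (fderiv ℝ u z) := by
    exact (Complex.ofRealCLM.hasFDerivAt.comp z hu.hasFDerivAt).fderiv
  have h1 : dbar (fun w => (u w : ℂ)) z = (1 / 2 : ℂ) * ((fderiv ℝ u z 1 : ℝ) + I * (fderiv ℝ u z I : ℝ)) := by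
    unfold dbar
    rw [h0]; simp
  have hre : (dbar (fun w => (u w : ℂ)) z).re = (1/2) * fderiv ℝ u z 1 := by
    rw [h1]; simp [Complex.mul_re, Complex.mul_im]
  have him : (dbar (fun w => (u w : ℂ)) z).im = (1/2) * fderiv ℝ u z I := by
    rw [h1]; simp [Complex.mul_re, Complex.mul_im]
  have hr := Complex.abs_re_le_norm (dbar (fun w => (u w : ℂ)) z)
  have hi := Complex.abs_im_le_norm (dbar (fun w => (u w : ℂ)) z)
  rw [hre, abs_mul] at hr
  rw [him, abs_mul] at hi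
  have e : |(1/2 : ℝ)| = 1/2 := by norm_num
  rw [e] at hr hi
  refine ContinuousLinearMap.opNorm_le_bound _ (by positivity) ?_
  intro w
  have hw : fderiv ℝ u z w = w.re * fderiv ℝ u z 1 + w.im * fderiv ℝ u z I := by
    conv_lhs => rw [← Complex.re_add_im w]
    rw [map_add]
    have e1 : ((w.re : ℂ)) = w.re • (1 : ℂ) := by simp
    have e2 : ((w.im : ℂ)) * I = w.im • I := by simp
    rw [e1, e2, map_smul, map_smul]
    simp
  rw [hw, Real.norm_eq_abs]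
  calc |w.re * fderiv ℝ u z 1 + w.im * fderiv ℝ u z I|
      ≤ |w.re| * |fderiv ℝ u z 1| + |w.im| * |fderiv ℝ u z I| := by
        rw [← abs_mul, ← abs_mul]; exact abs_add_le _ _
    _ ≤ ‖w‖ * (2 * ‖dbar (fun w => (u w : ℂ)) z‖) + ‖w‖ * (2 * ‖dbar (fun w => (u w : ℂ)) z‖) := by
        gcongr
        · exact Complex.abs_re_le_norm w
        · linarith
        · exact Complex.abs_im_le_norm w
        · linarith
    _ = 4 * ‖dbar (fun w => (u w : ℂ)) z‖ * ‖w‖ := by ring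

/-- A radial profile. -/
structure IsProfile (H : ℝ → ℝ) : Prop where
  smooth : ContDiff ℝ ∞ H
  mono : Monotone H
  zero : ∃ s₀ : ℝ, 0 < s₀ ∧ ∀ s ≤ s₀, H s = 0
  one : ∀ s : ℝ, 1 ≤ s → H s = 1

/-- The radial bump `φ(z) = H'(|z|²)/π`. -/
noncomputable def bump (H : ℝ → ℝ) (z : ℂ) : ℝ := deriv H (‖z‖ ^ 2) / Real.pi

/-- The `L¹`-normalised dyadic dilate `4^j φ(2^j z)`. -/
noncomputable def bumpAt (H : ℝ → ℝ) (j : ℕ) (z : ℂ) : ℝ := 4 ^ j * bump H (2 ^ j * z)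

/-- The mollified indicator `χ_Ω * φ_j`. -/
noncomputable def moll (H : ℝ → ℝ) (j : ℕ) (Ω : Set ℂ) (z : ℂ) : ℝ :=
  ∫ w in Ω, bumpAt H j (z - w)

end H98.Dbar
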