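import Mathlib
import Pool.Agent.H98.Dbar.Basic

/-! # The radial kernels -/

open MeasureTheory Complex Metric Set Filter Topology
open scoped ContDiff ENNReal NNReal

namespace H98.Dbar

variable {H : ℝ → ℝ}

lemma IsProfile.deriv_smooth (hH : IsProfile H) : ContDiff ℝ ∞ (deriv H) := by
  have := hH.smooth
  exact (contDiff_infty_iff_deriv.1 this).2

lemma IsProfile.deriv_nonneg (hH : IsProfile H) (s : ℝ) : 0 ≤ deriv H s :=
  hH.mono.deriv_nonneg

lemma IsProfile.deriv_zero (hH : IsProfile H) : ∃ s₀ : ℝ, 0 < s₀ ∧ ∀ s < s₀, deriv H s = 0 := by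
  obtain ⟨s₀, h0, h⟩ := hH.zero
  refine ⟨s₀, h0, fun s hs => ?_⟩
  have : H =ᶠ[𝓝 s] fun _ => (0 : ℝ) := by
    filter_upwards [Iio_mem_nhds hs] with x hx
    exact h x (le_of_lt hx)
  rw [this.deriv_eq]; simp

lemma IsProfile.deriv_one (hH : IsProfile H) {s : ℝ} (hs : 1 < s) : deriv H s = 0 := by
  have : H =ᶠ[𝓝 s] fun _ => (1 : ℝ) := by
    filter_upwards [Ioi_mem_nhds hs] with x hx
    exact hH.one x (le_of_lt hx)
  rw [this.deriv_eq]; simp

lemma bump_contDiff (hH : IsProfile H) : ContDiff ℝ ∞ (bump H) := by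
  unfold bump
  have h1 : ContDiff ℝ ∞ (fun z : ℂ => ‖z‖ ^ 2) := contDiff_norm_sq ℝ
  exact (hH.deriv_smooth.comp h1).div_const _

lemma bump_nonneg (hH : IsProfile H) (z : ℂ) : 0 ≤ bump H z :=
  div_nonneg (hH.deriv_nonneg _) Real.pi_pos.le

lemma bump_eq_zero (hH : IsProfile H) {z : ℂ} (hz : 1 < ‖z‖) : bump H z = 0 := by
  unfold bump
  rw [hH.deriv_one]; · simp
  nlinarith

lemma bump_hasCompactSupport (hH : IsProfile H) : HasCompactSupport (bump H) := by
  refine HasCompactSupport.of_support_subset_isCompact (isCompact_closedBall (0:ℂ) 1) ?_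
  intro z hz
  rw [Function.mem_support] at hz
  rw [mem_closedBall, dist_zero_right]
  by_contra h
  exact hz (bump_eq_zero hH (not_le.1 h))

lemma bump_neg (z : ℂ) : bump H (-z) = bump H z := by unfold bump; simp

lemma integral_bump (hH : IsProfile H) : ∫ z, bump H z = 1 := by
  unfold bump
  rw [MeasureTheory.integral_fun_norm_addHaar (E := ℂ) (μ := volume)
    (fun r : ℝ => deriv H (r ^ 2) / Real.pi)]
  rw [Complex.finrank_real_complex]
  have hball : (volume : Measure ℂ).real (ball 0 1) = Real.pi := by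
    rw [measureReal_def, Complex.volume_ball]
    simp
  rw [hball]
  -- integral over Ioi 0
  have hI : ∫ y in Ioi (0:ℝ), y ^ (2 - 1) • (deriv H (y ^ 2) / Real.pi) = 1 / (2 * Real.pi) := by
    have hd : ∀ x : ℝ, HasDerivAt (fun y : ℝ => H (y ^ 2) / (2 * Real.pi))
        (x ^ (2 - 1) • (deriv H (x ^ 2) / Real.pi)) x := by
      intro x
      have h1 : HasDerivAt (fun y : ℝ => y ^ 2) (2 * x) x := by
        simpa using hasDerivAt_pow 2 x
      have h2 : HasDerivAt H (deriv H (x ^ 2)) (x ^ 2) :=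
        ((hH.smooth.differentiable (by simp)) _).hasDerivAt
      have h3 := (HasDerivAt.comp (h₂ := H) (h := fun y : ℝ => y ^ 2) x h2 h1).div_const (2 * Real.pi)
      refine h3.congr_deriv ?_
      simp only [Nat.add_one_sub_one, pow_one, smul_eq_mul]
      have := Real.pi_pos
      field_simp
    have hlim : Tendsto (fun y : ℝ => H (y ^ 2) / (2 * Real.pi)) atTop (𝓝 (1 / (2 * Real.pi))) := by
      apply tendsto_const_nhds.congr'
      filter_upwards [eventually_ge_atTop (1:ℝ)] with y hy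
      rw [hH.one]
      nlinarith
    have hint : IntegrableOn (fun y : ℝ => y ^ (2 - 1) • (deriv H (y ^ 2) / Real.pi)) (Ioi 0) := by
      apply integrableOn_Ioi_deriv_of_nonneg (g := fun y : ℝ => H (y ^ 2) / (2 * Real.pi))
        (l := 1 / (2 * Real.pi))
      · exact (hd 0).continuousAt.continuousWithinAt
      · intro x _; exact hd x
      · intro x hx
        have hx' : (0:ℝ) < x := hx
        have := hH.deriv_nonneg (x ^ 2)
        simp only [Nat.add_one_sub_one, pow_one, smul_eq_mul]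
        have := Real.pi_pos
        positivity
      · exact hlim
    rw [integral_Ioi_of_hasDerivAt_of_tendsto (f := fun y : ℝ => H (y ^ 2) / (2 * Real.pi))
      ((hd 0).continuousAt.continuousWithinAt) (fun x _ => hd x) hint hlim]
    obtain ⟨s₀, h0, h⟩ := hH.zero
    rw [show (0:ℝ) ^ 2 = 0 by norm_num, h 0 h0.le]
    simp
  rw [hI]
  simp only [smul_eq_mul, nsmul_eq_mul, Nat.cast_ofNat]
  field_simp

lemma bumpAt_contDiff (hH : IsProfile H) (j : ℕ) : ContDiff ℝ ∞ (bumpAt H j) := by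
  unfold bumpAt
  have h : ContDiff ℝ ∞ (fun z : ℂ => (2:ℂ) ^ j * z) := by fun_prop
  exact ((bump_contDiff hH).comp h).const_smul ((4:ℝ) ^ j)

lemma bumpAt_nonneg (hH : IsProfile H) (j : ℕ) (z : ℂ) : 0 ≤ bumpAt H j z :=
  mul_nonneg (by positivity) (bump_nonneg hH _)

lemma bumpAt_eq_zero (hH : IsProfile H) (j : ℕ) {z : ℂ} (hz : (1 / 2 : ℝ) ^ j < ‖z‖) :
    bumpAt H j z = 0 := by
  unfold bumpAt
  rw [bump_eq_zero hH, mul_zero]
  rw [norm_mul, norm_pow, Complex.norm_ofNat]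
  rw [one_div, inv_pow] at hz
  have h2 : (0:ℝ) < 2 ^ j := by positivity
  calc (1:ℝ) = 2 ^ j * (2 ^ j)⁻¹ := by field_simp
    _ < 2 ^ j * ‖z‖ := by gcongr

lemma bumpAt_neg (j : ℕ) (z : ℂ) : bumpAt H j (-z) = bumpAt H j z := by
  unfold bumpAt
  rw [mul_neg, bump_neg]

lemma bumpAt_hasCompactSupport (hH : IsProfile H) (j : ℕ) : HasCompactSupport (bumpAt H j) := by
  refine HasCompactSupport.of_support_subset_isCompact (isCompact_closedBall (0:ℂ) ((1/2)^j)) ?_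
  intro z hz
  rw [Function.mem_support] at hz
  rw [mem_closedBall, dist_zero_right]
  by_contra h
  exact hz (bumpAt_eq_zero hH j (not_le.1 h))

lemma integral_comp_two_pow_mul {F : Type*} [NormedAddCommGroup F] [NormedSpace ℝ F]
    (f : ℂ → F) (j : ℕ) :
    ∫ z, f ((2:ℂ) ^ j * z) = ((4:ℝ) ^ j)⁻¹ • ∫ z, f z := by
  have h := MeasureTheory.Measure.integral_comp_smul (volume : Measure ℂ) f ((2:ℝ) ^ j)
  rw [Complex.finrank_real_complex] at h
  have e1 : ∀ z : ℂ, (2:ℂ) ^ j * z = (2:ℝ) ^ j • z := by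
    intro z; rw [Complex.real_smul]; push_cast; rfl
  simp_rw [e1]
  rw [h]
  congr 1
  rw [abs_of_nonneg (by positivity), ← pow_mul, mul_comm j 2, pow_mul]
  norm_num

lemma integral_bumpAt (hH : IsProfile H) (j : ℕ) : ∫ z, bumpAt H j z = 1 := by
  unfold bumpAt
  rw [integral_const_mul, integral_comp_two_pow_mul (bump H) j, integral_bump hH]
  simp

/-- The complex-valued kernel. -/
noncomputable def bumpC (H : ℝ → ℝ) (j : ℕ) (z : ℂ) : ℂ := (bumpAt H j z : ℂ)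

/-- The compactly supported kernel with `∂K = φ₁ - φ₀`. -/
noncomputable def ker (H : ℝ → ℝ) (z : ℂ) : ℂ :=
  ((H (4 * ‖z‖ ^ 2) - H (‖z‖ ^ 2) : ℝ) : ℂ) / (Real.pi * z)

/-- `K_j(z) = 2^j K(2^j z)`. -/
noncomputable def kerAt (H : ℝ → ℝ) (j : ℕ) (z : ℂ) : ℂ := 2 ^ j * ker H (2 ^ j * z)

lemma bumpC_contDiff (hH : IsProfile H) (j : ℕ) : ContDiff ℝ ∞ (bumpC H j) :=
  Complex.ofRealCLM.contDiff.comp (bumpAt_contDiff hH j)

lemma bumpC_hasCompactSupport (hH : IsProfile H) (j : ℕ) : HasCompactSupport (bumpC H j) :=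
  (bumpAt_hasCompactSupport hH j).comp_left (g := fun x : ℝ => (x : ℂ)) (by simp)

lemma bumpC_neg (j : ℕ) (z : ℂ) : bumpC H j (-z) = bumpC H j z := by
  unfold bumpC; rw [bumpAt_neg]

lemma ker_eventually_zero (hH : IsProfile H) : ker H =ᶠ[𝓝 0] fun _ => (0:ℂ) := by
  obtain ⟨s₀, h0, h⟩ := hH.zero
  have hc : ContinuousAt (fun z : ℂ => 4 * ‖z‖ ^ 2) 0 := by fun_prop
  have : ∀ᶠ z : ℂ in 𝓝 0, 4 * ‖z‖ ^ 2 < s₀ := by
    apply hc.eventually_lt continuousAt_const
    simpa using h0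
  filter_upwards [this] with z hz
  unfold ker
  rw [h _ hz.le, h (‖z‖^2) (by nlinarith [sq_nonneg ‖z‖])]
  simp

lemma ker_contDiff (hH : IsProfile H) : ContDiff ℝ ∞ (ker H) := by
  rw [contDiff_iff_contDiffAt]
  intro z
  by_cases hz : z = 0
  · subst hz
    exact contDiffAt_const.congr_of_eventuallyEq (ker_eventually_zero hH)
  · unfold ker
    have h1 : ContDiff ℝ ∞ (fun z : ℂ => ‖z‖ ^ 2) := contDiff_norm_sq ℝ
    have h2 : ContDiff ℝ ∞ (fun z : ℂ => H (4 * ‖z‖ ^ 2)) :=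
      hH.smooth.comp (contDiff_const.mul h1)
    have h3 : ContDiff ℝ ∞ (fun z : ℂ => H (‖z‖ ^ 2)) := hH.smooth.comp h1
    have h4 : ContDiff ℝ ∞ (fun z : ℂ => ((H (4 * ‖z‖ ^ 2) - H (‖z‖ ^ 2) : ℝ) : ℂ)) :=
      Complex.ofRealCLM.contDiff.comp (h2.sub h3)
    have h5 : ContDiff ℝ ∞ (fun z : ℂ => (Real.pi : ℂ) * z) := by fun_prop
    have h6 : (Real.pi : ℂ) * z ≠ 0 := by
      have : (Real.pi : ℂ) ≠ 0 := by exact_mod_cast Real.pi_pos.ne'
      exact mul_ne_zero this hz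
    have h7 : ContDiffAt ℝ ∞ (fun z : ℂ => ((Real.pi : ℂ) * z)⁻¹) z := h5.contDiffAt.inv h6
    simp_rw [div_eq_mul_inv]
    exact h4.contDiffAt.mul h7

lemma ker_eq_zero (hH : IsProfile H) {z : ℂ} (hz : 1 ≤ ‖z‖) : ker H z = 0 := by
  unfold ker
  rw [hH.one (‖z‖ ^ 2) (by nlinarith), hH.one (4 * ‖z‖ ^ 2) (by nlinarith)]
  simp

lemma ker_hasCompactSupport (hH : IsProfile H) : HasCompactSupport (ker H) := by
  refine HasCompactSupport.of_support_subset_isCompact (isCompact_closedBall (0:ℂ) 1) ?_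
  intro z hz
  rw [Function.mem_support] at hz
  rw [mem_closedBall, dist_zero_right]
  by_contra h
  exact hz (ker_eq_zero hH (not_le.1 h).le)

lemma fderiv_norm_sq (z : ℂ) : HasFDerivAt (fun w : ℂ => ‖w‖ ^ 2)
    ((2 * z.re) • Complex.reCLM + (2 * z.im) • Complex.imCLM : ℂ →L[ℝ] ℝ) z := by
  have e : (fun w : ℂ => ‖w‖ ^ 2) = fun w : ℂ => w.re ^ 2 + w.im ^ 2 := by
    ext w
    rw [← Complex.normSq_eq_norm_sq, Complex.normSq_apply]; ring
  rw [e]
  have h1 : HasFDerivAt (fun w : ℂ => w.re) Complex.reCLM z := Complex.reCLM.hasFDerivAt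
  have h2 : HasFDerivAt (fun w : ℂ => w.im) Complex.imCLM z := Complex.imCLM.hasFDerivAt
  have h3 := (h1.pow 2).add (h2.pow 2)
  refine h3.congr_fderiv ?_
  ext <;> simp

lemma dbar_radial {G : ℝ → ℝ} (hG : Differentiable ℝ G) (c : ℝ) (z : ℂ) :
    dbar (fun w => ((G (c * ‖w‖ ^ 2) : ℝ) : ℂ)) z = (deriv G (c * ‖z‖ ^ 2) * c : ℝ) * z := by
  have h1 := fderiv_norm_sq z
  have h2 : HasFDerivAt (fun w : ℂ => c * ‖w‖ ^ 2)
      (c • ((2 * z.re) • Complex.reCLM + (2 * z.im) • Complex.imCLM : ℂ →L[ℝ] ℝ)) z := h1.const_mul c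
  have h3 : HasDerivAt G (deriv G (c * ‖z‖ ^ 2)) (c * ‖z‖ ^ 2) := (hG _).hasDerivAt
  have h4 := h3.comp_hasFDerivAt z h2
  have h5 := Complex.ofRealCLM.hasFDerivAt.comp z h4
  have h6 : fderiv ℝ (fun w : ℂ => ((G (c * ‖w‖ ^ 2) : ℝ) : ℂ)) z = _ := h5.fderiv
  unfold dbar
  rw [h6]
  simp only [ContinuousLinearMap.comp_apply, smul_apply, add_apply,
    Complex.ofRealCLM_apply, smul_eq_mul, Complex.reCLM_apply, Complex.imCLM_apply,
    Complex.one_re, Complex.one_im, Complex.I_re, Complex.I_im]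
  apply Complex.ext <;> simp <;> ring

lemma dbar_ker (hH : IsProfile H) (z : ℂ) :
    dbar (ker H) z = bumpC H 1 z - bumpC H 0 z := by
  by_cases hz : z = 0
  · subst hz
    rw [dbar_congr (ker_eventually_zero hH), dbar_const]
    obtain ⟨s₀, h0, h⟩ := hH.deriv_zero
    unfold bumpC bumpAt bump
    simp only [pow_one, mul_zero, norm_zero, ne_eq, OfNat.ofNat_ne_zero, not_false_eq_true,
      zero_pow, pow_zero, one_mul]
    rw [h 0 h0]; simp
  · have hpi : (Real.pi : ℂ) ≠ 0 := by exact_mod_cast Real.pi_pos.ne'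
    have hdH : Differentiable ℝ H := hH.smooth.differentiable (by simp)
    have h1 : ContDiff ℝ ∞ (fun z : ℂ => ‖z‖ ^ 2) := contDiff_norm_sq ℝ
    have h2 : ContDiff ℝ ∞ (fun z : ℂ => ((H (4 * ‖z‖ ^ 2) : ℝ) : ℂ)) :=
      Complex.ofRealCLM.contDiff.comp (hH.smooth.comp (contDiff_const.mul h1))
    have h3 : ContDiff ℝ ∞ (fun z : ℂ => ((H (1 * ‖z‖ ^ 2) : ℝ) : ℂ)) :=
      Complex.ofRealCLM.contDiff.comp (hH.smooth.comp (contDiff_const.mul h1))
    have e : ker H = fun w => (((H (4 * ‖w‖ ^ 2) : ℝ) : ℂ) - ((H (1 * ‖w‖ ^ 2) : ℝ) : ℂ)) *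
        ((Real.pi : ℂ) * w)⁻¹ := by
      ext w; unfold ker; rw [div_eq_mul_inv]; push_cast; simp
    have hd1 : DifferentiableAt ℝ (fun z : ℂ => ((H (4 * ‖z‖ ^ 2) : ℝ) : ℂ)) z :=
      (h2.differentiable (by simp)) z
    have hd2 : DifferentiableAt ℝ (fun z : ℂ => ((H (1 * ‖z‖ ^ 2) : ℝ) : ℂ)) z :=
      (h3.differentiable (by simp)) z
    have hd3 : DifferentiableAt ℂ (fun w : ℂ => ((Real.pi : ℂ) * w)⁻¹) z := by
      apply DifferentiableAt.inv
      · fun_prop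
      · exact mul_ne_zero hpi hz
    have hd12 : DifferentiableAt ℝ (fun w : ℂ => ((H (4 * ‖w‖ ^ 2) : ℝ) : ℂ) -
      ((H (1 * ‖w‖ ^ 2) : ℝ) : ℂ)) z := hd1.sub hd2
    rw [e, dbar_mul hd12 (hd3.restrictScalars ℝ), dbar_sub hd1 hd2, dbar_holo hd3,
      dbar_radial hdH, dbar_radial hdH]
    unfold bumpC bumpAt bump
    have e4 : ‖(2:ℂ) ^ 1 * z‖ ^ 2 = 4 * ‖z‖ ^ 2 := by
      rw [norm_mul, norm_pow, Complex.norm_ofNat]; ring
    rw [e4]
    simp only [pow_zero, one_mul, mul_one]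
    push_cast
    field_simp
    ring

lemma dbar_comp_scale {f : ℂ → ℂ} (hf : Differentiable ℝ f) (r : ℝ) (z : ℂ) :
    dbar (fun w => f ((r : ℂ) * w)) z = r * dbar f (r * z) := by
  have h1 : HasFDerivAt (fun w : ℂ => (r : ℂ) * w) ((r : ℂ) • ContinuousLinearMap.id ℝ ℂ) z := by
    exact (hasFDerivAt_id z).const_mul (r : ℂ)
  have h2 := ((hf ((r:ℂ) * z)).hasFDerivAt).comp z h1
  have h3 : fderiv ℝ (fun w => f ((r : ℂ) * w)) z = _ := h2.fderiv
  unfold dbar
  rw [h3]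
  simp only [ContinuousLinearMap.comp_apply, smul_apply, ContinuousLinearMap.id_apply,
    smul_eq_mul, mul_one]
  have e1 : ∀ v : ℂ, fderiv ℝ f ((r:ℂ) * z) ((r : ℂ) * v) = (r : ℂ) * fderiv ℝ f ((r:ℂ) * z) v := by
    intro v
    rw [← Complex.real_smul (x := r) (z := v), map_smul, Complex.real_smul]
  have e2 := e1 1
  rw [mul_one] at e2
  rw [e1, e2]
  ring

lemma dbar_kerAt (hH : IsProfile H) (j : ℕ) (z : ℂ) :
    dbar (kerAt H j) z = bumpC H (j + 1) z - bumpC H j z := by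
  have hdk : Differentiable ℝ (ker H) := (ker_contDiff hH).differentiable (by simp)
  have e : kerAt H j = fun w => (2:ℂ) ^ j * (fun w => ker H (((2 ^ j : ℝ) : ℂ) * w)) w := by
    ext w; unfold kerAt; push_cast; rfl
  rw [e, dbar_const_mul, dbar_comp_scale hdk, dbar_ker hH]
  · unfold bumpC bumpAt
    push_cast
    have : (2:ℂ) ^ 1 * ((2:ℂ) ^ j * z) = 2 ^ (j + 1) * z := by ring
    rw [this]
    have h4 : (4:ℂ) ^ j = 2 ^ j * 2 ^ j := by rw [← mul_pow]; norm_num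
    rw [pow_succ (4:ℂ) j, h4]
    simp only [pow_zero, one_mul, pow_one]
    ring
  · have : ContDiff ℝ ∞ (fun w : ℂ => ((2 ^ j : ℝ) : ℂ) * w) := by fun_prop
    exact (((ker_contDiff hH).comp this).differentiable (by simp)) z

lemma kerAt_contDiff (hH : IsProfile H) (j : ℕ) : ContDiff ℝ ∞ (kerAt H j) := by
  unfold kerAt
  have h : ContDiff ℝ ∞ (fun z : ℂ => (2:ℂ) ^ j * z) := by fun_prop
  exact contDiff_const.mul ((ker_contDiff hH).comp h)

lemma kerAt_hasCompactSupport (hH : IsProfile H) (j : ℕ) : HasCompactSupport (kerAt H j) := by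
  refine HasCompactSupport.of_support_subset_isCompact (isCompact_closedBall (0:ℂ) 1) ?_
  intro z hz
  rw [Function.mem_support] at hz
  rw [mem_closedBall, dist_zero_right]
  by_contra h
  apply hz
  unfold kerAt
  rw [ker_eq_zero hH, mul_zero]
  rw [norm_mul, norm_pow, Complex.norm_ofNat]
  have h2 : (1:ℝ) ≤ 2 ^ j := one_le_pow₀ (by norm_num)
  nlinarith [not_le.1 h]

end H98.Dbar
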