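import Mathlib
import Pool.Agent.H98.Dbar.Kernel

/-! # Convolution with test functions -/

open MeasureTheory Complex Metric Set Filter Topology
open scoped ContDiff ENNReal NNReal Convolution

namespace H98.Dbar

/-- Convolution of complex functions. -/
noncomputable def cv (κ F : ℂ → ℂ) (z : ℂ) : ℂ := ∫ w, κ w * F (z - w)

lemma cv_eq_conv (κ F : ℂ → ℂ) :
    cv κ F = MeasureTheory.convolution κ F (ContinuousLinearMap.mul ℝ ℂ) volume := by
  ext z
  rw [MeasureTheory.convolution_def]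
  rfl

lemma cv_swap (κ F : ℂ → ℂ) (z : ℂ) : cv κ F z = ∫ w, κ (z - w) * F w := by
  rw [cv_eq_conv, MeasureTheory.convolution_eq_swap]
  rfl

lemma cv_comm (κ F : ℂ → ℂ) : cv κ F = cv F κ := by
  ext z
  rw [cv_swap]
  unfold cv
  congr 1
  ext w
  ring

/-- Test functions. -/
def V : Submodule ℂ (ℂ → ℂ) where
  carrier := {f | ContDiff ℝ ∞ f ∧ HasCompactSupport f}
  add_mem' := by
    rintro f g ⟨hf, hf'⟩ ⟨hg, hg'⟩
    exact ⟨hf.add hg, hf'.add hg'⟩
  zero_mem' := ⟨contDiff_const, HasCompactSupport.zero⟩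
  smul_mem' := by
    rintro c f ⟨hf, hf'⟩
    refine ⟨hf.const_smul c, ?_⟩
    exact hf'.smul_left (f := fun _ => c)

lemma mem_V {f : ℂ → ℂ} : f ∈ V ↔ ContDiff ℝ ∞ f ∧ HasCompactSupport f := Iff.rfl

lemma V_cont {f : ℂ → ℂ} (hf : f ∈ V) : Continuous f := hf.1.continuous

lemma V_integrable {f : ℂ → ℂ} (hf : f ∈ V) : Integrable f :=
  hf.1.continuous.integrable_of_hasCompactSupport hf.2

lemma V_differentiable {f : ℂ → ℂ} (hf : f ∈ V) : Differentiable ℝ f :=
  hf.1.differentiable (by simp)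

/-- Bounded measurable functions. -/
structure Bm (F : ℂ → ℂ) (M : ℝ) : Prop where
  meas : Measurable F
  bd : ∀ z, ‖F z‖ ≤ M

lemma Bm.locInt {F : ℂ → ℂ} {M : ℝ} (hF : Bm F M) : LocallyIntegrable F := by
  apply MeasureTheory.LocallyIntegrable.mono (g := F) (f := fun _ : ℂ => M)
  · exact locallyIntegrable_const M
  · exact hF.meas.aestronglyMeasurable
  · filter_upwards with z
    exact (hF.bd z).trans (le_abs_self M)

lemma cv_mem_V {κ F : ℂ → ℂ} (hκ : κ ∈ V) (hF : LocallyIntegrable F)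
    (hFc : HasCompactSupport F) : cv κ F ∈ V := by
  refine ⟨?_, ?_⟩
  · rw [cv_eq_conv]
    exact hκ.2.contDiff_convolution_left _ hκ.1 hF
  · rw [cv_eq_conv]
    exact HasCompactSupport.convolution _ hκ.2 hFc

lemma cv_contDiff {κ F : ℂ → ℂ} (hκ : κ ∈ V) (hF : LocallyIntegrable F) :
    ContDiff ℝ ∞ (cv κ F) := by
  rw [cv_eq_conv]
  exact hκ.2.contDiff_convolution_left _ hκ.1 hF

lemma cv_integrand {κ F : ℂ → ℂ} (hκ : κ ∈ V) (hF : LocallyIntegrable F) (z : ℂ) :
    Integrable (fun w => κ w * F (z - w)) := by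
  have := hκ.2.convolutionExists_left (ContinuousLinearMap.mul ℝ ℂ) hκ.1.continuous hF z
  exact this

lemma cv_integrand' {κ F : ℂ → ℂ} (hκ : κ ∈ V) (hF : LocallyIntegrable F) (z : ℂ) :
    Integrable (fun w => κ (z - w) * F w) := by
  have := (hκ.2.convolutionExists_left (ContinuousLinearMap.mul ℝ ℂ) hκ.1.continuous hF z).integrable_swap
  exact this

lemma cv_bound {κ F : ℂ → ℂ} {M : ℝ} (hκ : Integrable κ) (hF : ∀ z, ‖F z‖ ≤ M) (z : ℂ) :
    ‖cv κ F z‖ ≤ (∫ w, ‖κ w‖) * M := by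
  unfold cv
  rw [← integral_mul_const]
  apply norm_integral_le_of_norm_le (hκ.norm.mul_const M)
  filter_upwards with w
  rw [norm_mul]
  gcongr
  exact hF _

lemma cv_add_right {κ F G : ℂ → ℂ} (hκ : κ ∈ V) (hF : LocallyIntegrable F)
    (hG : LocallyIntegrable G) : cv κ (F + G) = cv κ F + cv κ G := by
  ext z
  unfold cv
  simp only [Pi.add_apply, mul_add]
  exact integral_add (cv_integrand hκ hF z) (cv_integrand hκ hG z)

lemma cv_smul_right {κ F : ℂ → ℂ} (c : ℂ) : cv κ (c • F) = c • cv κ F := by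
  ext z
  unfold cv
  simp only [Pi.smul_apply, smul_eq_mul]
  rw [← integral_const_mul]
  congr 1; ext w; ring

lemma cv_sub_left {κ κ' F : ℂ → ℂ} (hκ : κ ∈ V) (hκ' : κ' ∈ V) (hF : LocallyIntegrable F)
    (z : ℂ) : cv (fun w => κ w - κ' w) F z = cv κ F z - cv κ' F z := by
  unfold cv
  simp only [sub_mul]
  exact integral_sub (cv_integrand hκ hF z) (cv_integrand hκ' hF z)

lemma fderiv_cv {κ F : ℂ → ℂ} (hκ : κ ∈ V) (hF : LocallyIntegrable F) (z v : ℂ) :
    fderiv ℝ (cv κ F) z v = ∫ w, fderiv ℝ κ w v * F (z - w) := by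
  have hκ1 : ContDiff ℝ 1 κ := hκ.1.of_le (by simp)
  have h1 := hκ.2.hasFDerivAt_convolution_left (ContinuousLinearMap.mul ℝ ℂ) hκ1 hF z
  rw [← cv_eq_conv] at h1
  rw [h1.fderiv, MeasureTheory.convolution_def]
  rw [ContinuousLinearMap.integral_apply]
  · rfl
  · have h2 := (hκ.2.fderiv ℝ).convolutionExists_left ((ContinuousLinearMap.mul ℝ ℂ).precompL ℂ)
      (hκ1.continuous_fderiv (by simp)) hF z
    exact h2

lemma dbar_cv_left {κ F : ℂ → ℂ} (hκ : κ ∈ V) (hF : LocallyIntegrable F) (z : ℂ) :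
    dbar (cv κ F) z = cv (dbar κ) F z := by
  unfold dbar
  rw [fderiv_cv hκ hF, fderiv_cv hκ hF]
  unfold cv
  rw [← integral_const_mul, ← integral_add, ← integral_const_mul]
  · congr 1
    ext w
    ring
  · have hκ1 : ContDiff ℝ ∞ (fun w => fderiv ℝ κ w 1) := by
      have h := hκ.1.fderiv_right (m := ∞) (by simp)
      fun_prop
    have hκ2 : HasCompactSupport (fun w => fderiv ℝ κ w 1) := hκ.2.fderiv_apply (𝕜 := ℝ) 1
    exact cv_integrand ⟨hκ1, hκ2⟩ hF z
  · have hκ1 : ContDiff ℝ ∞ (fun w => fderiv ℝ κ w I) := by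
      have h := hκ.1.fderiv_right (m := ∞) (by simp)
      fun_prop
    have hκ2 : HasCompactSupport (fun w => fderiv ℝ κ w I) := hκ.2.fderiv_apply (𝕜 := ℝ) I
    exact (cv_integrand ⟨hκ1, hκ2⟩ hF z).const_mul I

lemma dbar_mem_V {f : ℂ → ℂ} (hf : f ∈ V) : dbar f ∈ V :=
  ⟨contDiff_dbar hf.1, hasCompactSupport_dbar hf.2⟩

lemma V_locInt {f : ℂ → ℂ} (hf : f ∈ V) : LocallyIntegrable f :=
  (V_integrable hf).locallyIntegrable

lemma dbar_cv_right {κ F : ℂ → ℂ} (hκ : κ ∈ V) (hF : F ∈ V) (z : ℂ) :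
    dbar (cv κ F) z = cv κ (dbar F) z := by
  rw [cv_comm, dbar_cv_left hF (V_locInt hκ), cv_comm]

/-- Adjointness. -/
lemma adj {κ F G : ℂ → ℂ} {M : ℝ} (hκ : κ ∈ V) (hF : Bm F M) (hG : Integrable G) :
    ∫ z, F z * cv κ G z = ∫ w, cv (fun u => κ (-u)) F w * G w := by
  have h1 : Integrable (fun p : ℂ × ℂ => G p.2 * κ (p.1 - p.2)) (volume.prod volume) :=
    hG.convolution_integrand (ContinuousLinearMap.mul ℝ ℂ) (V_integrable hκ)
  have h2 : Integrable (fun p : ℂ × ℂ => F p.1 * (G p.2 * κ (p.1 - p.2))) (volume.prod volume) := by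
    refine h1.bdd_mul (c := M) ?_ ?_
    · exact (hF.meas.comp measurable_fst).aestronglyMeasurable
    · filter_upwards with p
      exact hF.bd _
  have h3 := MeasureTheory.integral_integral_swap (f := fun z w => F z * (G w * κ (z - w))) h2
  have e1 : ∀ z, F z * cv κ G z = ∫ w, F z * (G w * κ (z - w)) := by
    intro z
    rw [cv_swap, ← integral_const_mul]
    congr 1; ext w; ring
  have e2 : ∀ w, cv (fun u => κ (-u)) F w * G w = ∫ z, F z * (G w * κ (z - w)) := by
    intro w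
    rw [cv_swap, ← integral_mul_const]
    congr 1; ext z
    rw [neg_sub]; ring
  simp_rw [e1, e2]
  exact h3

/-- Associativity-commutativity for test kernels. -/
lemma cv_cv_comm {κ μ F : ℂ → ℂ} (hκ : κ ∈ V) (hμ : μ ∈ V) (hF : F ∈ V) :
    cv κ (cv μ F) = cv μ (cv κ F) := by
  have key : ∀ {κ μ F : ℂ → ℂ}, κ ∈ V → μ ∈ V → F ∈ V → cv κ (cv μ F) = cv (cv κ μ) F := by
    intro κ μ F hκ hμ hF
    ext z
    have hc : HasCompactSupport (fun x => ‖κ x‖) := hκ.2.norm
    rw [cv_eq_conv (cv κ μ), cv_eq_conv κ μ, cv_eq_conv κ (cv μ F), cv_eq_conv μ F]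
    rw [MeasureTheory.convolution_assoc (ContinuousLinearMap.mul ℝ ℂ) (ContinuousLinearMap.mul ℝ ℂ)
      (ContinuousLinearMap.mul ℝ ℂ) (ContinuousLinearMap.mul ℝ ℂ)]
    · intro x y z; simp [mul_assoc]
    · exact (V_cont hκ).aestronglyMeasurable
    · exact (V_cont hμ).aestronglyMeasurable
    · exact (V_cont hF).aestronglyMeasurable
    · filter_upwards with x
      exact hκ.2.convolutionExists_left (ContinuousLinearMap.mul ℝ ℂ) (V_cont hκ) (V_locInt hμ) x
    · filter_upwards with x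
      exact (hμ.2.norm).convolutionExists_left (ContinuousLinearMap.mul ℝ ℝ) (V_cont hμ).norm
        (V_integrable hF).norm.locallyIntegrable x
    · exact (hκ.2.norm).convolutionExists_left (ContinuousLinearMap.mul ℝ ℝ) (V_cont hκ).norm
        (by
          have : Continuous ((fun x => ‖μ x‖) ⋆[ContinuousLinearMap.mul ℝ ℝ, volume] fun x => ‖F x‖) :=
            (hμ.2.norm).continuous_convolution_left _ (V_cont hμ).norm (V_integrable hF).norm.locallyIntegrable
          exact this.locallyIntegrable) z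
  rw [key hκ hμ hF, key hμ hκ hF, cv_comm κ μ]

end H98.Dbar
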