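import Mathlib
import Pool.Agent.H98.Dbar.Conv

/-! # Operators on test functions -/

open MeasureTheory Complex Metric Set Filter Topology
open scoped ContDiff ENNReal NNReal Convolution

namespace H98.Dbar

/-- Convolution operator on test functions. -/
noncomputable def cvOp (κ : V) : Module.End ℂ V where
  toFun f := ⟨cv κ.1 f.1, cv_mem_V κ.2 (V_locInt f.2) f.2.2⟩
  map_add' f g := by
    apply Subtype.ext
    exact cv_add_right κ.2 (V_locInt f.2) (V_locInt g.2)
  map_smul' c f := by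
    apply Subtype.ext
    exact cv_smul_right c

lemma cvOp_apply (κ f : V) (z : ℂ) : (cvOp κ f).1 z = cv κ.1 f.1 z := rfl

/-- dbar operator on test functions. -/
noncomputable def dOp : Module.End ℂ V where
  toFun f := ⟨dbar f.1, dbar_mem_V f.2⟩
  map_add' f g := by
    apply Subtype.ext
    ext z
    exact dbar_add (V_differentiable f.2 z) (V_differentiable g.2 z)
  map_smul' c f := by
    apply Subtype.ext
    ext z
    exact dbar_const_smul c (V_differentiable f.2 z)

lemma tau_mem {f : ℂ → ℂ} (hf : f ∈ V) (w : ℂ) : (fun z => f (z - w)) ∈ V := by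
  refine ⟨?_, ?_⟩
  · have : ContDiff ℝ ∞ (fun z : ℂ => z - w) := by fun_prop
    exact hf.1.comp this
  · have := hf.2.comp_homeomorph (Homeomorph.subRight w)
    exact this

/-- Translation operator on test functions. -/
noncomputable def tau (w : ℂ) : Module.End ℂ V where
  toFun f := ⟨fun z => f.1 (z - w), tau_mem f.2 w⟩
  map_add' f g := by apply Subtype.ext; rfl
  map_smul' c f := by apply Subtype.ext; rfl

lemma tau_apply (w : ℂ) (f : V) (z : ℂ) : (tau w f).1 z = f.1 (z - w) := rfl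

lemma cvOp_comm (κ μ : V) : Commute (cvOp κ) (cvOp μ) := by
  apply LinearMap.ext
  intro f
  apply Subtype.ext
  exact cv_cv_comm κ.2 μ.2 f.2

lemma cvOp_dOp (κ : V) : Commute (cvOp κ) dOp := by
  apply LinearMap.ext
  intro f
  apply Subtype.ext
  ext z
  exact (dbar_cv_right κ.2 f.2 z).symm

lemma cvOp_tau (κ : V) (w : ℂ) : Commute (cvOp κ) (tau w) := by
  apply LinearMap.ext
  intro f
  apply Subtype.ext
  ext z
  change cv κ.1 (fun z => f.1 (z - w)) z = cv κ.1 f.1 (z - w)
  unfold cv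
  congr 1; ext u
  ring_nf

/-- A bound for an operator with respect to a seminorm. -/
def OpLe (N : Seminorm ℂ V) (T : Module.End ℂ V) (c : ℝ) : Prop := ∀ f, N (T f) ≤ c * N f

lemma OpLe.one (N : Seminorm ℂ V) : OpLe N 1 1 := fun f => by simp

lemma OpLe.mul {N : Seminorm ℂ V} {S T : Module.End ℂ V} {c d : ℝ} (hS : OpLe N S c)
    (hT : OpLe N T d) (hc : 0 ≤ c) : OpLe N (S * T) (c * d) := fun f => by
  calc N (S (T f)) ≤ c * N (T f) := hS _
    _ ≤ c * (d * N f) := by gcongr; exact hT f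
    _ = c * d * N f := by ring

lemma OpLe.add {N : Seminorm ℂ V} {S T : Module.End ℂ V} {c d : ℝ} (hS : OpLe N S c)
    (hT : OpLe N T d) : OpLe N (S + T) (c + d) := fun f => by
  calc N (S f + T f) ≤ N (S f) + N (T f) := map_add_le_add N _ _
    _ ≤ c * N f + d * N f := add_le_add (hS f) (hT f)
    _ = (c + d) * N f := by ring

lemma OpLe.sub {N : Seminorm ℂ V} {S T : Module.End ℂ V} {c d : ℝ} (hS : OpLe N S c)
    (hT : OpLe N T d) : OpLe N (S - T) (c + d) := fun f => by
  calc N (S f - T f) ≤ N (S f) + N (T f) := map_sub_le_add N _ _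
    _ ≤ c * N f + d * N f := add_le_add (hS f) (hT f)
    _ = (c + d) * N f := by ring

lemma OpLe.pow {N : Seminorm ℂ V} {S : Module.End ℂ V} {c : ℝ} (hS : OpLe N S c)
    (hc : 0 ≤ c) (n : ℕ) : OpLe N (S ^ n) (c ^ n) := by
  induction n with
  | zero => simpa using OpLe.one N
  | succ n ih =>
    rw [pow_succ, pow_succ]
    exact ih.mul hS (by positivity)

lemma OpLe.sum {N : Seminorm ℂ V} {S : ℕ → Module.End ℂ V} {c : ℕ → ℝ} (n : ℕ)
    (hS : ∀ i < n, OpLe N (S i) (c i)) : OpLe N (∑ i ∈ Finset.range n, S i)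
      (∑ i ∈ Finset.range n, c i) := by
  induction n with
  | zero =>
    intro f
    simp
  | succ n ih =>
    rw [Finset.sum_range_succ, Finset.sum_range_succ]
    exact (ih (fun i hi => hS i (by omega))).add (hS n (by omega))

lemma OpLe.mono {N : Seminorm ℂ V} {T : Module.End ℂ V} {c d : ℝ} (hT : OpLe N T c)
    (h : c ≤ d) : OpLe N T d := fun f =>
  (hT f).trans (mul_le_mul_of_nonneg_right h (apply_nonneg N f))

lemma V_bdd (f : V) : BddAbove (Set.range fun z => ‖f.1 z‖) := by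
  obtain ⟨C, hC⟩ := f.2.2.exists_bound_of_continuous (V_cont f.2)
  refine ⟨C, ?_⟩
  rintro _ ⟨z, rfl⟩
  exact hC z

/-- The sup norm. -/
noncomputable def supN : Seminorm ℂ V where
  toFun f := ⨆ z, ‖f.1 z‖
  map_zero' := by simp
  add_le' f g := by
    apply ciSup_le
    intro z
    calc ‖f.1 z + g.1 z‖ ≤ ‖f.1 z‖ + ‖g.1 z‖ := norm_add_le _ _
      _ ≤ _ := add_le_add (le_ciSup (V_bdd f) z) (le_ciSup (V_bdd g) z)
  neg' f := by
    congr 1
    ext z
    exact norm_neg _
  smul' c f := by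
    have : ∀ z, ‖(c • f).1 z‖ = ‖c‖ * ‖f.1 z‖ := fun z => norm_mul _ _
    simp_rw [this]
    rw [Real.mul_iSup_of_nonneg (norm_nonneg c)]

lemma le_supN (f : V) (z : ℂ) : ‖f.1 z‖ ≤ supN f := le_ciSup (V_bdd f) z

lemma supN_le {f : V} {M : ℝ} (h : ∀ z, ‖f.1 z‖ ≤ M) : supN f ≤ M := ciSup_le h

/-- The L1 norm. -/
noncomputable def l1N : Seminorm ℂ V where
  toFun f := ∫ z, ‖f.1 z‖
  map_zero' := by simp
  add_le' f g := by
    rw [← integral_add (V_integrable f.2).norm (V_integrable g.2).norm]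
    apply integral_mono (V_integrable (f + g).2).norm
      ((V_integrable f.2).norm.add (V_integrable g.2).norm)
    intro z
    exact norm_add_le _ _
  neg' f := by
    congr 1
    ext z
    exact norm_neg _
  smul' c f := by
    have : ∀ z, ‖(c • f).1 z‖ = ‖c‖ * ‖f.1 z‖ := fun z => norm_mul _ _
    simp_rw [this]
    rw [integral_const_mul]

lemma l1N_apply (f : V) : l1N f = ∫ z, ‖f.1 z‖ := rfl

lemma cvOp_supN (κ : V) : OpLe supN (cvOp κ) (∫ w, ‖κ.1 w‖) := by
  intro f
  apply supN_le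
  intro z
  exact cv_bound (V_integrable κ.2) (le_supN f) z

lemma cvOp_l1N (κ : V) : OpLe l1N (cvOp κ) (∫ w, ‖κ.1 w‖) := by
  intro f
  have h1 : Integrable (fun p : ℂ × ℂ => κ.1 p.2 * f.1 (p.1 - p.2)) (volume.prod volume) :=
    (V_integrable κ.2).convolution_integrand (ContinuousLinearMap.mul ℝ ℂ) (V_integrable f.2)
  have h2 : Integrable (fun z => ∫ w, ‖κ.1 w * f.1 (z - w)‖) := h1.integral_norm_prod_left
  rw [l1N_apply, l1N_apply]
  calc ∫ z, ‖(cvOp κ f).1 z‖ ≤ ∫ z, ∫ w, ‖κ.1 w * f.1 (z - w)‖ := by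
        apply integral_mono (V_integrable (cvOp κ f).2).norm h2
        intro z
        exact norm_integral_le_integral_norm _
    _ = ∫ w, ∫ z, ‖κ.1 w * f.1 (z - w)‖ := MeasureTheory.integral_integral_swap h1.norm
    _ = ∫ w, ‖κ.1 w‖ * ∫ z, ‖f.1 z‖ := by
        congr 1
        ext w
        simp_rw [norm_mul]
        rw [integral_const_mul]
        congr 1
        exact integral_sub_right_eq_self (fun z => ‖f.1 z‖) w
    _ = (∫ w, ‖κ.1 w‖) * ∫ z, ‖f.1 z‖ := integral_mul_const _ _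

lemma tele {R : Type*} [Ring R] {a b : R} (h : Commute a b) (k : ℕ) :
    (1 - (1 - a) ^ (k + 1)) ^ 2 - (1 - (1 - b) ^ (k + 1)) ^ 2 =
      (a - b) * ((∑ i ∈ Finset.range (k + 1), (1 - b) ^ i * (1 - a) ^ (k - i)) *
        ((1 - (1 - a) ^ (k + 1)) + (1 - (1 - b) ^ (k + 1)))) := by
  have hc : Commute (1 - b) (1 - a) := by
    apply Commute.sub_left
    · exact Commute.one_left _
    · apply Commute.sub_right
      · exact Commute.one_right _
      · exact h.symm
  have h1 := hc.mul_geom_sum₂ (k + 1)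
  have hAB : Commute (1 - (1 - a) ^ (k + 1)) (1 - (1 - b) ^ (k + 1)) := by
    apply Commute.sub_left
    · exact Commute.one_left _
    · apply Commute.sub_right
      · exact Commute.one_right _
      · exact (hc.symm.pow_left _).pow_right _
  have h2 : (1 - (1 - a) ^ (k + 1)) ^ 2 - (1 - (1 - b) ^ (k + 1)) ^ 2 =
      ((1 - (1 - a) ^ (k + 1)) - (1 - (1 - b) ^ (k + 1))) *
        ((1 - (1 - a) ^ (k + 1)) + (1 - (1 - b) ^ (k + 1))) := by
    have := hAB.eq
    rw [sub_mul, mul_add, mul_add, ← sq, ← sq, this]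
    abel
  rw [h2]
  have h3 : (1 - (1 - a) ^ (k + 1)) - (1 - (1 - b) ^ (k + 1)) = (1 - b) ^ (k + 1) - (1 - a) ^ (k + 1) := by
    abel
  rw [h3, ← h1, mul_assoc]
  congr 1
  abel

lemma geo {R : Type*} [Ring R] (a : R) (k : ℕ) :
    1 - (1 - a) ^ (k + 1) = (∑ i ∈ Finset.range (k + 1), (1 - a) ^ i) * a := by
  have := geom_sum_mul_neg (1 - a) (k + 1)
  rw [← this]
  congr 1
  abel

end H98.Dbar
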