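import Mathlib
import Pool.Agent.H98.Dbar.Ops

/-! # Mixed differences (Kemperman's identity) -/

open MeasureTheory Complex Metric Set Filter Topology
open scoped ContDiff ENNReal NNReal Convolution

namespace H98.Dbar

lemma powerset_cancel (g : ℂ → ℂ) (c : ℕ → ℂ) (s : Finset ℕ) (r0 : ℕ) (hr : r0 ∈ s)
    (hc : c r0 = 0) (z : ℂ) :
    ∑ D ∈ s.powerset, (-1 : ℂ) ^ D.card * g (z + ∑ r ∈ D, c r) = 0 := by
  rw [← Finset.insert_erase hr, Finset.sum_powerset_insert (Finset.notMem_erase _ _),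
    ← Finset.sum_add_distrib]
  apply Finset.sum_eq_zero
  intro D hD
  have h1 : r0 ∉ D := fun h => Finset.notMem_erase r0 s ((Finset.mem_powerset.1 hD) h)
  rw [Finset.card_insert_of_notMem h1, Finset.sum_insert h1, hc, zero_add, pow_succ]
  ring

lemma kemperman (g : ℂ → ℂ) (h : ℕ → ℂ) (n : ℕ) (z : ℂ) :
    ∑ D ∈ (Finset.range n).powerset, (-1 : ℂ) ^ D.card *
      (fwdDiff (-∑ r ∈ D, h r / (r + 1)))^[n] g (z + ∑ r ∈ D, h r) =
    (-1) ^ n * ∑ D ∈ (Finset.range n).powerset, (-1 : ℂ) ^ D.card * g (z + ∑ r ∈ D, h r) := by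
  simp_rw [fwdDiff_iter_eq_sum_shift, Finset.mul_sum]
  rw [Finset.sum_comm, Finset.sum_range_succ']
  have h0 : ∑ m ∈ Finset.range n, ∑ D ∈ (Finset.range n).powerset, (-1 : ℂ) ^ D.card *
      ((-1 : ℤ) ^ (n - (m + 1)) * (n.choose (m + 1) : ℤ)) •
        g (z + ∑ r ∈ D, h r + (m + 1) • -∑ r ∈ D, h r / (r + 1)) = 0 := by
    apply Finset.sum_eq_zero
    intro m hm
    have h1 := powerset_cancel g (fun r => (1 - ((m + 1 : ℕ) : ℂ) / (r + 1)) * h r) (Finset.range n)
      m hm (by
        have : ((m : ℂ) + 1) ≠ 0 := by exact_mod_cast Nat.succ_ne_zero m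
        push_cast
        rw [div_self this]; simp) z
    have h2 : ∀ D ∈ (Finset.range n).powerset, (-1 : ℂ) ^ D.card *
      ((-1 : ℤ) ^ (n - (m + 1)) * (n.choose (m + 1) : ℤ)) •
        g (z + ∑ r ∈ D, h r + (m + 1) • -∑ r ∈ D, h r / (r + 1)) =
        (((-1 : ℤ) ^ (n - (m + 1)) * (n.choose (m + 1) : ℤ) : ℤ) : ℂ) *
        ((-1 : ℂ) ^ D.card * g (z + ∑ r ∈ D, (1 - ((m + 1 : ℕ) : ℂ) / (r + 1)) * h r)) := by
      intro D _
      have e : z + ∑ r ∈ D, h r + (m + 1) • -∑ r ∈ D, h r / (r + 1) =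
          z + ∑ r ∈ D, (1 - ((m + 1 : ℕ) : ℂ) / (r + 1)) * h r := by
        rw [nsmul_eq_mul, mul_neg, Finset.mul_sum, add_assoc, ← sub_eq_add_neg,
          ← Finset.sum_sub_distrib]
        congr 1
        apply Finset.sum_congr rfl
        intro r _
        ring
      rw [e, zsmul_eq_mul]
      ring
    rw [Finset.sum_congr rfl h2, ← Finset.mul_sum, h1, mul_zero]
  rw [h0, zero_add]
  apply Finset.sum_congr rfl
  intro D _
  simp only [tsub_zero, Nat.choose_zero_right, Nat.cast_one, mul_one, zero_nsmul, smul_neg,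
    neg_zero, add_zero, zsmul_eq_mul]
  push_cast
  ring

/-- Iterated mixed difference operator. -/
noncomputable def mprod (W : List ℂ) : Module.End ℂ V := (W.map (fun w => 1 - tau w)).prod

lemma mprod_range (w : ℕ → ℂ) (n : ℕ) (f : V) (z : ℂ) :
    (mprod ((List.range n).map w) f).1 z =
      ∑ D ∈ (Finset.range n).powerset, (-1 : ℂ) ^ D.card * f.1 (z - ∑ r ∈ D, w r) := by
  induction n generalizing f with
  | zero => simp [mprod]
  | succ n ih =>
    have h1 : mprod ((List.range (n + 1)).map w) = mprod ((List.range n).map w) * (1 - tau (w n)) := by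
      unfold mprod
      rw [List.range_succ, List.map_append, List.map_append, List.prod_append]
      simp
    rw [h1, Module.End.mul_apply, ih, Finset.range_add_one,
      Finset.sum_powerset_insert Finset.notMem_range_self, ← Finset.sum_add_distrib]
    apply Finset.sum_congr rfl
    intro D hD
    have h2 : n ∉ D := fun h => Finset.notMem_range_self ((Finset.mem_powerset.1 hD) h)
    rw [Finset.card_insert_of_notMem h2, Finset.sum_insert h2, pow_succ]
    have h3 : ((1 - tau (w n)) f).1 (z - ∑ r ∈ D, w r) =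
        f.1 (z - ∑ r ∈ D, w r) - f.1 (z - ∑ r ∈ D, w r - w n) := rfl
    rw [h3]
    have h4 : z - (w n + ∑ r ∈ D, w r) = z - ∑ r ∈ D, w r - w n := by ring
    rw [h4]
    ring

lemma mprod_bound {f : V} {k : ℕ} {α B ρ : ℝ} (hα : 0 < α) (hB0 : 0 ≤ B) (hρ : 0 ≤ ρ)
    (hB : ∀ h z, ‖(fwdDiff h)^[k] f.1 z‖ ≤ B * ‖h‖ ^ α) (W : List ℂ) (hlen : W.length = k)
    (hW : ∀ w ∈ W, ‖w‖ ≤ ρ) : supN (mprod W f) ≤ 2 ^ k * (B * (k * ρ) ^ α) := by
  apply supN_le
  intro z
  set w : ℕ → ℂ := fun i => W.getD i 0 with hwdef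
  have hWw : W = (List.range k).map w := by
    apply List.ext_getElem
    · simp [hlen]
    · intro i h1 h2
      simp [hwdef, List.getElem?_eq_getElem h1]
  have hwn : ∀ i, ‖w i‖ ≤ ρ := by
    intro i
    by_cases hi : i < W.length
    · rw [hwdef]
      simp only
      rw [List.getD_eq_getElem _ _ hi]
      exact hW _ (List.getElem_mem hi)
    · rw [hwdef]
      simp only
      rw [List.getD_eq_default _ _ (not_lt.1 hi)]
      simpa using hρ
  rw [hWw, mprod_range]
  have h1 := kemperman f.1 (fun i => - w i) k z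
  have h2 : ∑ D ∈ (Finset.range k).powerset, (-1 : ℂ) ^ D.card * f.1 (z - ∑ r ∈ D, w r) =
      (-1) ^ k * ∑ D ∈ (Finset.range k).powerset, (-1 : ℂ) ^ D.card *
      (fwdDiff (-∑ r ∈ D, (- w r) / (r + 1)))^[k] f.1 (z + ∑ r ∈ D, (- w r)) := by
    rw [h1, ← mul_assoc, ← pow_add, ← two_mul, pow_mul]
    simp only [even_two, Even.neg_pow, one_pow, one_mul, Finset.sum_neg_distrib, ← sub_eq_add_neg]
  rw [h2, norm_mul, norm_pow, norm_neg, norm_one, one_pow, one_mul]
  calc ‖∑ D ∈ (Finset.range k).powerset, (-1 : ℂ) ^ D.card *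
      (fwdDiff (-∑ r ∈ D, (- w r) / (r + 1)))^[k] f.1 (z + ∑ r ∈ D, (- w r))‖
      ≤ ∑ D ∈ (Finset.range k).powerset, (B * (k * ρ) ^ α) := by
        apply norm_sum_le_of_le
        intro D hD
        rw [norm_mul, norm_pow, norm_neg, norm_one, one_pow, one_mul]
        refine (hB _ _).trans ?_
        gcongr
        rw [norm_neg]
        have hDk : D.card ≤ k := by
          simpa using Finset.card_le_card (Finset.mem_powerset.1 hD)
        calc ‖∑ r ∈ D, (- w r) / ((r : ℂ) + 1)‖ ≤ ∑ r ∈ D, ρ := by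
              apply norm_sum_le_of_le
              intro r _
              rw [norm_div, norm_neg]
              have h3 : (1:ℝ) ≤ ‖(r : ℂ) + 1‖ := by
                have : ((r : ℂ) + 1) = ((r + 1 : ℕ) : ℂ) := by push_cast; rfl
                rw [this, Complex.norm_natCast]
                exact_mod_cast Nat.succ_le_succ (Nat.zero_le r)
              rw [div_le_iff₀ (by linarith)]
              nlinarith [hwn r, norm_nonneg (w r)]
          _ = D.card * ρ := by simp
          _ ≤ k * ρ := by gcongr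
    _ = 2 ^ k * (B * (k * ρ) ^ α) := by
        rw [Finset.sum_const, Finset.card_powerset, Finset.card_range, nsmul_eq_mul]
        push_cast; rfl

/-- A probability kernel with small support. -/
structure Prob (κ : V) (ρ : ℝ) : Prop where
  intNorm : ∫ w, ‖κ.1 w‖ = 1
  int : ∫ w, κ.1 w = 1
  supp : ∀ w, ρ < ‖w‖ → κ.1 w = 0

lemma one_sub_cvOp_apply {κ : V} {ρ : ℝ} (hκ : Prob κ ρ) (f : V) (z : ℂ) :
    ((1 - cvOp κ) f).1 z = ∫ w, κ.1 w * ((1 - tau w) f).1 z := by
  have h1 : ∀ w, κ.1 w * ((1 - tau w) f).1 z = κ.1 w * f.1 z - κ.1 w * f.1 (z - w) := by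
    intro w
    have : ((1 - tau w) f).1 z = f.1 z - f.1 (z - w) := rfl
    rw [this]; ring
  simp_rw [h1]
  rw [integral_sub, integral_mul_const, hκ.int, one_mul]
  · rfl
  · exact (V_integrable κ.2).mul_const _
  · exact cv_integrand κ.2 (V_locInt f.2) z

lemma one_sub_cvOp_bound {κ : V} {ρ : ℝ} (hκ : Prob κ ρ) {f : V} {M : ℝ}
    (hM : ∀ w, ‖w‖ ≤ ρ → supN ((1 - tau w) f) ≤ M) :
    supN ((1 - cvOp κ) f) ≤ M := by
  apply supN_le
  intro z
  rw [one_sub_cvOp_apply hκ]
  calc ‖∫ w, κ.1 w * ((1 - tau w) f).1 z‖ ≤ ∫ w, ‖κ.1 w‖ * M := by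
        apply norm_integral_le_of_norm_le ((V_integrable κ.2).norm.mul_const M)
        filter_upwards with w
        rw [norm_mul]
        by_cases hw : ‖w‖ ≤ ρ
        · gcongr
          exact (le_supN _ z).trans (hM w hw)
        · rw [hκ.supp w (not_le.1 hw)]
          simp
    _ = M := by rw [integral_mul_const, hκ.intNorm, one_mul]

lemma comm_one_sub {R : Type*} [Ring R] {a b : R} (h : Commute a b) :
    Commute (1 - a) (1 - b) := by
  have h1 : Commute a (1 - b) := (Commute.one_right _).sub_right h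
  exact (Commute.one_left _).sub_left h1

lemma commute_listprod (L : List V) (w : ℂ) :
    Commute ((L.map (fun κ => 1 - cvOp κ)).prod) (1 - tau w) := by
  induction L with
  | nil => simp
  | cons κ L ih =>
    rw [List.map_cons, List.prod_cons]
    refine Commute.mul_left ?_ ih
    exact comm_one_sub (R := Module.End ℂ V) (cvOp_tau κ w)

lemma listprod_bound {ρ : ℝ} (L : List V) (hL : ∀ κ ∈ L, Prob κ ρ) (f : V) (M : ℝ)
    (hM : ∀ W : List ℂ, W.length = L.length → (∀ w ∈ W, ‖w‖ ≤ ρ) → supN (mprod W f) ≤ M) :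
    supN ((L.map (fun κ => 1 - cvOp κ)).prod f) ≤ M := by
  induction L generalizing f with
  | nil =>
    have := hM [] rfl (by simp)
    simpa [mprod] using this
  | cons κ L ih =>
    rw [List.map_cons, List.prod_cons, Module.End.mul_apply]
    apply one_sub_cvOp_bound (hL κ (by simp))
    intro w hw
    have h1 : (1 - tau w) ((L.map (fun κ => 1 - cvOp κ)).prod f) =
        (L.map (fun κ => 1 - cvOp κ)).prod ((1 - tau w) f) := by
      have := (commute_listprod L w).eq
      rw [← Module.End.mul_apply, ← Module.End.mul_apply, this]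
    rw [h1]
    apply ih (fun κ hκ => hL κ (by simp [hκ]))
    intro W hlen hW
    have h2 : mprod W ((1 - tau w) f) = mprod (W ++ [w]) f := by
      unfold mprod
      rw [List.map_append, List.prod_append]
      simp
    rw [h2]
    apply hM
    · simp [hlen]
    · intro w' hw'
      rw [List.mem_append] at hw'
      rcases hw' with h | h
      · exact hW _ h
      · simp at h; rw [h]; exact hw

lemma word_bound {f : V} {k : ℕ} {α B ρ : ℝ} (hα : 0 < α) (hB0 : 0 ≤ B) (hρ : 0 ≤ ρ)
    (hB : ∀ h z, ‖(fwdDiff h)^[k] f.1 z‖ ≤ B * ‖h‖ ^ α) {κ μ : V} (hκ : Prob κ ρ) (hμ : Prob μ ρ)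
    (i : ℕ) (hi : i ≤ k) :
    supN (((1 - cvOp κ) ^ i * (1 - cvOp μ) ^ (k - i)) f) ≤ 2 ^ k * (B * (k * ρ) ^ α) := by
  have h1 : (1 - cvOp κ) ^ i * (1 - cvOp μ) ^ (k - i) =
      ((List.replicate i κ ++ List.replicate (k - i) μ).map (fun κ => 1 - cvOp κ)).prod := by
    rw [List.map_append, List.prod_append]
    simp
  rw [h1]
  apply listprod_bound (ρ := ρ)
  · intro κ' h
    rw [List.mem_append] at h
    rcases h with h | h
    · rw [List.eq_of_mem_replicate h]; exact hκ
    · rw [List.eq_of_mem_replicate h]; exact hμ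
  · intro W hlen hW
    apply mprod_bound hα hB0 hρ hB W _ hW
    rw [hlen]
    simp; omega

end H98.Dbar
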