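import Mathlib
import Pool.Agent.H98.Dbar.Mixed

/-! # Sufficiency of the Littlewood-Paley criterion -/

open MeasureTheory Complex Metric Set Filter Topology
open scoped ContDiff ENNReal NNReal Convolution

namespace H98.Dbar

variable {H : ℝ → ℝ}

/-- The kernel as a test function. -/
noncomputable def bV (hH : IsProfile H) (j : ℕ) : V :=
  ⟨bumpC H j, bumpC_contDiff hH j, bumpC_hasCompactSupport hH j⟩

lemma bV_prob (hH : IsProfile H) (j : ℕ) : Prob (bV hH j) ((1 / 2 : ℝ) ^ j) where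
  intNorm := by
    have : ∀ w, ‖(bV hH j).1 w‖ = bumpAt H j w := by
      intro w
      change ‖((bumpAt H j w : ℝ) : ℂ)‖ = _
      rw [Complex.norm_real, Real.norm_eq_abs, abs_of_nonneg (bumpAt_nonneg hH j w)]
    simp_rw [this]
    exact integral_bumpAt hH j
  int := by
    change ∫ w, ((bumpAt H j w : ℝ) : ℂ) = 1
    rw [integral_complex_ofReal, integral_bumpAt hH j]
    simp
  supp := by
    intro w hw
    change ((bumpAt H j w : ℝ) : ℂ) = 0
    rw [bumpAt_eq_zero hH j hw]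
    simp

/-- The indicator function. -/
noncomputable def chi (Ω : Set ℂ) : ℂ → ℂ := Ω.indicator (fun _ => 1)

lemma chi_bm {Ω : Set ℂ} (hΩ : MeasurableSet Ω) : Bm (chi Ω) 1 where
  meas := measurable_const.indicator hΩ
  bd z := by
    unfold chi
    by_cases h : z ∈ Ω <;> simp [h]

lemma moll_eq {Ω : Set ℂ} (hΩ : MeasurableSet Ω) (j : ℕ) (z : ℂ) :
    (moll H j Ω z : ℂ) = cv (bumpC H j) (chi Ω) z := by
  rw [cv_swap]
  unfold moll chi
  rw [← integral_complex_ofReal, ← integral_indicator hΩ]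
  congr 1
  ext w
  by_cases h : w ∈ Ω
  · simp [h, bumpC]
  · simp [h]

lemma cvOp_sub_apply (κ μ G : V) (z : ℂ) :
    ((cvOp κ - cvOp μ) G).1 z = cv κ.1 G.1 z - cv μ.1 G.1 z := rfl

lemma setIntegral_chi {Ω : Set ℂ} (hΩ : MeasurableSet Ω) (g : ℂ → ℂ) :
    ∫ z in Ω, g z = ∫ z, chi Ω z * g z := by
  rw [← integral_indicator hΩ]
  congr 1
  ext z
  unfold chi
  by_cases h : z ∈ Ω <;> simp [h]

lemma integrable_chi_mul {Ω : Set ℂ} (hΩ : MeasurableSet Ω) {g : ℂ → ℂ} (hg : Integrable g) :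
    Integrable (fun z => chi Ω z * g z) :=
  hg.bdd_mul (c := 1) (chi_bm hΩ).meas.aestronglyMeasurable
    (Eventually.of_forall (chi_bm hΩ).bd)

lemma chi_norm_le {Ω : Set ℂ} (hΩ : MeasurableSet Ω) (g : V) :
    ‖∫ z, chi Ω z * g.1 z‖ ≤ l1N g := by
  apply norm_integral_le_of_norm_le (V_integrable g.2).norm
  filter_upwards with z
  rw [norm_mul]
  calc ‖chi Ω z‖ * ‖g.1 z‖ ≤ 1 * ‖g.1 z‖ := by gcongr; exact (chi_bm hΩ).bd z
    _ = _ := one_mul _

/-- (P1): high frequency pairing. -/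
lemma pair_diff (hH : IsProfile H) {Ω : Set ℂ} (hΩ : MeasurableSet Ω) (j : ℕ) (G : V) :
    ∫ z, chi Ω z * ((cvOp (bV hH (j + 1)) - cvOp (bV hH j)) G).1 z =
      ∫ z, ((moll H (j + 1) Ω z : ℂ) - (moll H j Ω z : ℂ)) * G.1 z := by
  have hG := V_integrable G.2
  have hφ : ∀ j, bumpC H j ∈ V := fun j => (bV hH j).2
  have e : ∀ z, chi Ω z * ((cvOp (bV hH (j + 1)) - cvOp (bV hH j)) G).1 z =
      chi Ω z * cv (bumpC H (j + 1)) G.1 z - chi Ω z * cv (bumpC H j) G.1 z := by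
    intro z
    rw [cvOp_sub_apply]
    simp only [bV]
    ring
  simp_rw [e]
  have hi : ∀ j, Integrable (fun z => chi Ω z * cv (bumpC H j) G.1 z) := fun j =>
    integrable_chi_mul hΩ (V_integrable (cvOp (bV hH j) G).2)
  rw [integral_sub (hi _) (hi _), adj (hφ _) (chi_bm hΩ) hG, adj (hφ _) (chi_bm hΩ) hG]
  have en : ∀ j, (fun u => bumpC H j (-u)) = bumpC H j := fun j => by ext u; exact bumpC_neg j u
  rw [en, en]
  have hb : ∀ j, Integrable (fun w => cv (bumpC H j) (chi Ω) w * G.1 w) := by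
    intro j
    refine hG.bdd_mul (c := 1) (cv_contDiff (hφ j) (chi_bm hΩ).locInt).continuous.aestronglyMeasurable
      (Eventually.of_forall fun z => ?_)
    have := cv_bound (V_integrable (hφ j)) (chi_bm hΩ).bd z
    rwa [show (∫ w, ‖bumpC H j w‖) = 1 from (bV_prob hH j).intNorm, one_mul] at this
  rw [← integral_sub (hb _) (hb _)]
  congr 1
  ext z
  rw [moll_eq hΩ, moll_eq hΩ]
  ring

lemma pair_diff_bound (hH : IsProfile H) {Ω : Set ℂ} (hΩ : MeasurableSet Ω) (j : ℕ) (G : V)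
    (hint : Integrable (fun z => moll H (j + 1) Ω z - moll H j Ω z)) :
    ‖∫ z, chi Ω z * ((cvOp (bV hH (j + 1)) - cvOp (bV hH j)) G).1 z‖ ≤
      (∫ z, ‖moll H (j + 1) Ω z - moll H j Ω z‖) * supN G := by
  rw [pair_diff hH hΩ, ← integral_mul_const]
  apply norm_integral_le_of_norm_le (hint.norm.mul_const _)
  filter_upwards with z
  rw [norm_mul, ← Complex.ofReal_sub, Complex.norm_real]
  gcongr
  exact le_supN G z

lemma dbar_neg_even {f : ℂ → ℂ} (hf : Differentiable ℝ f) (he : ∀ z, f (-z) = f z) (z : ℂ) :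
    dbar f (-z) = - dbar f z := by
  have h1 := dbar_comp_scale hf (-1) z
  have h2 : (fun w => f (((-1 : ℝ) : ℂ) * w)) = f := by
    ext w
    push_cast
    rw [neg_one_mul, he]
  rw [h2] at h1
  push_cast at h1
  rw [neg_one_mul, neg_one_mul] at h1
  rw [h1]; ring

/-- (P2): low frequency pairing. -/
lemma pair_low (hH : IsProfile H) {Ω : Set ℂ} (hΩ : MeasurableSet Ω) (G : V) :
    ∫ z, chi Ω z * (cvOp (bV hH 0) (dOp G)).1 z =
      - ∫ z, dbar (fun z => (moll H 0 Ω z : ℂ)) z * G.1 z := by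
  have hG := V_integrable G.2
  have hφ : bumpC H 0 ∈ V := (bV hH 0).2
  have e : ∀ z, (cvOp (bV hH 0) (dOp G)).1 z = cv (dbar (bumpC H 0)) G.1 z := by
    intro z
    change cv (bumpC H 0) (dbar G.1) z = _
    rw [← dbar_cv_right hφ G.2, dbar_cv_left hφ (V_locInt G.2)]
  simp_rw [e]
  rw [adj (dbar_mem_V hφ) (chi_bm hΩ) hG, ← integral_neg]
  congr 1
  ext z
  have e2 : (fun u => dbar (bumpC H 0) (-u)) = fun u => - dbar (bumpC H 0) u := by
    ext u
    exact dbar_neg_even (V_differentiable hφ) (bumpC_neg 0) u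
  rw [e2]
  have e3 : (fun z => (moll H 0 Ω z : ℂ)) = cv (bumpC H 0) (chi Ω) := by
    ext z; exact moll_eq hΩ 0 z
  rw [e3, dbar_cv_left hφ (chi_bm hΩ).locInt]
  unfold cv
  rw [← neg_mul, ← integral_neg]
  congr 2
  ext w
  ring

lemma moll_contDiff (hH : IsProfile H) {Ω : Set ℂ} (hΩ : MeasurableSet Ω) (j : ℕ) :
    ContDiff ℝ ∞ (moll H j Ω) := by
  have h1 : ContDiff ℝ ∞ (cv (bumpC H j) (chi Ω)) :=
    cv_contDiff (bV hH j).2 (chi_bm hΩ).locInt
  have h2 : moll H j Ω = fun z => (cv (bumpC H j) (chi Ω) z).re := by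
    ext z
    rw [← moll_eq hΩ, Complex.ofReal_re]
  rw [h2]
  exact Complex.reCLM.contDiff.comp h1

lemma pair_low_bound (hH : IsProfile H) {Ω : Set ℂ} (hΩ : MeasurableSet Ω) (G : V)
    (hint : Integrable (fun z => fderiv ℝ (moll H 0 Ω) z)) :
    ‖∫ z, chi Ω z * (cvOp (bV hH 0) (dOp G)).1 z‖ ≤
      (∫ z, ‖fderiv ℝ (moll H 0 Ω) z‖) * supN G := by
  rw [pair_low hH hΩ, norm_neg, ← integral_mul_const]
  apply norm_integral_le_of_norm_le (hint.norm.mul_const _)
  filter_upwards with z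
  rw [norm_mul]
  have hd : DifferentiableAt ℝ (moll H 0 Ω) z := ((moll_contDiff hH hΩ 0).differentiable (by simp)) z
  have h1 : ‖fderiv ℝ (fun z => (moll H 0 Ω z : ℂ)) z‖ ≤ ‖fderiv ℝ (moll H 0 Ω) z‖ := by
    have h0 : fderiv ℝ (fun w => (moll H 0 Ω w : ℂ)) z =
        Complex.ofRealCLM.comp (fderiv ℝ (moll H 0 Ω) z) :=
      (Complex.ofRealCLM.hasFDerivAt.comp z hd.hasFDerivAt).fderiv
    rw [h0]
    refine ContinuousLinearMap.opNorm_le_bound _ (norm_nonneg _) ?_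
    intro v
    simp only [ContinuousLinearMap.comp_apply, Complex.ofRealCLM_apply, Complex.norm_real]
    exact (fderiv ℝ (moll H 0 Ω) z).le_opNorm v
  gcongr
  · exact (norm_dbar_le _ _).trans h1
  · exact le_supN G z

/-- L1 norm of the derivative kernel. -/
noncomputable def C1 (H : ℝ → ℝ) : ℝ := ∫ z, ‖dbar (bumpC H 0) z‖

lemma dbar_bumpC (hH : IsProfile H) (j : ℕ) (z : ℂ) :
    dbar (bumpC H j) z = 4 ^ j * (2 ^ j * dbar (bumpC H 0) (2 ^ j * z)) := by
  have hd : Differentiable ℝ (bumpC H 0) := V_differentiable (bV hH 0).2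
  have e : bumpC H j = fun w => ((4:ℂ) ^ j) * (fun w => bumpC H 0 (((2 ^ j : ℝ) : ℂ) * w)) w := by
    ext w
    unfold bumpC bumpAt
    push_cast
    simp
  rw [e, dbar_const_mul, dbar_comp_scale hd]
  · push_cast; ring
  · have h : ContDiff ℝ ∞ (fun w : ℂ => ((2 ^ j : ℝ) : ℂ) * w) := by fun_prop
    exact (((bV hH 0).2.1.comp h).differentiable (by simp)) z

lemma integral_dbar_bumpC (hH : IsProfile H) (j : ℕ) :
    ∫ z, ‖dbar (bumpC H j) z‖ = 2 ^ j * C1 H := by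
  simp_rw [dbar_bumpC hH j, norm_mul, norm_pow, Complex.norm_ofNat]
  rw [integral_const_mul, integral_const_mul,
    integral_comp_two_pow_mul (fun z => ‖dbar (bumpC H 0) z‖) j, smul_eq_mul]
  unfold C1
  have : (4:ℝ) ^ j ≠ 0 := by positivity
  field_simp

lemma C1_nonneg (H : ℝ → ℝ) : 0 ≤ C1 H := integral_nonneg fun _ => norm_nonneg _

lemma cvOp_dOp_bound (hH : IsProfile H) (j : ℕ) (g : V) :
    supN (cvOp (bV hH j) (dOp g)) ≤ 2 ^ j * C1 H * supN g := by
  have hφ : bumpC H j ∈ V := (bV hH j).2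
  apply supN_le
  intro z
  have e : (cvOp (bV hH j) (dOp g)).1 z = cv (dbar (bumpC H j)) g.1 z := by
    change cv (bumpC H j) (dbar g.1) z = _
    rw [← dbar_cv_right hφ g.2, dbar_cv_left hφ (V_locInt g.2)]
  rw [e, ← integral_dbar_bumpC hH]
  exact cv_bound (V_integrable (dbar_mem_V hφ)) (le_supN g) z

end H98.Dbar
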