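import Mathlib
import Pool.Agent.H98.Dbar.Suff

/-! # Sufficiency of the Littlewood-Paley criterion, continued -/

open MeasureTheory Complex Metric Set Filter Topology
open scoped ContDiff ENNReal NNReal Convolution

namespace H98.Dbar

variable {H : ℝ → ℝ}

/-- `Φ_j`. -/
noncomputable def Ph (hH : IsProfile H) (j : ℕ) : Module.End ℂ V := cvOp (bV hH j)

/-- `Q_j = 1 - (1 - Φ_j)^(k+1)`. -/
noncomputable def Qo (hH : IsProfile H) (k j : ℕ) : Module.End ℂ V := 1 - (1 - Ph hH j) ^ (k + 1)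

/-- `X_j`. -/
noncomputable def Xo (hH : IsProfile H) (k j : ℕ) : Module.End ℂ V :=
  ∑ i ∈ Finset.range (k + 1), (1 - Ph hH j) ^ i * (1 - Ph hH (j + 1)) ^ (k - i)

/-- `Y_j`. -/
noncomputable def Yo (hH : IsProfile H) (k j : ℕ) : Module.End ℂ V :=
  ∑ i ∈ Finset.range (k + 1), (1 - Ph hH j) ^ i

lemma Ph_comm (hH : IsProfile H) (i j : ℕ) : Commute (Ph hH i) (Ph hH j) := cvOp_comm _ _

lemma Ph_dOp (hH : IsProfile H) (i : ℕ) : Commute (Ph hH i) dOp := cvOp_dOp _

lemma Qo_eq (hH : IsProfile H) (k j : ℕ) : Qo hH k j = Yo hH k j * Ph hH j :=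
  geo (R := Module.End ℂ V) (Ph hH j) k

lemma comm_one_sub_left {R : Type*} [Ring R] {a b : R} (h : Commute a b) :
    Commute (1 - a) b := (Commute.one_left _).sub_left h

lemma Xo_comm {hH : IsProfile H} {k j : ℕ} {T : Module.End ℂ V} (h : ∀ i, Commute (Ph hH i) T) :
    Commute (Xo hH k j) T := by
  unfold Xo
  apply Commute.sum_left
  intro i _
  apply Commute.mul_left
  · exact (comm_one_sub_left (R := Module.End ℂ V) (h j)).pow_left _
  · exact (comm_one_sub_left (R := Module.End ℂ V) (h (j + 1))).pow_left _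

lemma Yo_comm {hH : IsProfile H} {k j : ℕ} {T : Module.End ℂ V} (h : ∀ i, Commute (Ph hH i) T) :
    Commute (Yo hH k j) T := by
  unfold Yo
  apply Commute.sum_left
  intro i _
  exact (comm_one_sub_left (R := Module.End ℂ V) (h j)).pow_left _

lemma Qo_comm {hH : IsProfile H} {k j : ℕ} {T : Module.End ℂ V} (h : ∀ i, Commute (Ph hH i) T) :
    Commute (Qo hH k j) T := by
  unfold Qo
  exact comm_one_sub_left (R := Module.End ℂ V)
    ((comm_one_sub_left (R := Module.End ℂ V) (h j)).pow_left _)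

lemma Ph_supN (hH : IsProfile H) (j : ℕ) : OpLe supN (Ph hH j) 1 := by
  have h := cvOp_supN (bV hH j)
  rw [(bV_prob hH j).intNorm] at h
  exact h

lemma Ph_l1N (hH : IsProfile H) (j : ℕ) : OpLe l1N (Ph hH j) 1 := by
  have h := cvOp_l1N (bV hH j)
  rw [(bV_prob hH j).intNorm] at h
  exact h

lemma OneSub_le {N : Seminorm ℂ V} {T : Module.End ℂ V} (h : OpLe N T 1) : OpLe N (1 - T) 2 := by
  have := (OpLe.one N).sub h
  norm_num at this
  exact this

lemma Yo_le {N : Seminorm ℂ V} (hH : IsProfile H) (k j : ℕ) (h : OpLe N (Ph hH j) 1) :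
    OpLe N (Yo hH k j) (2 ^ (k + 1)) := by
  have h1 : OpLe N (Yo hH k j) (∑ i ∈ Finset.range (k + 1), (2:ℝ) ^ i) :=
    OpLe.sum (k + 1) fun i _ => (OneSub_le h).pow (by norm_num) i
  apply h1.mono
  rw [geom_sum_eq (by norm_num)]
  norm_num

lemma tele_ring {R : Type*} [Ring R] {a b d : R} (hab : Commute a b) (had : Commute a d)
    (hbd : Commute b d) (k : ℕ) :
    (1 - (1 - a) ^ (k + 1)) ^ 2 * d - (1 - (1 - b) ^ (k + 1)) ^ 2 * d =
      (a - b) * (((1 - (1 - a) ^ (k + 1)) + (1 - (1 - b) ^ (k + 1))) * d *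
        (∑ i ∈ Finset.range (k + 1), (1 - b) ^ i * (1 - a) ^ (k - i))) := by
  have h1 := tele hab k
  set X := ∑ i ∈ Finset.range (k + 1), (1 - b) ^ i * (1 - a) ^ (k - i) with hX
  have key : ∀ T : R, Commute a T → Commute b T → Commute X T := by
    intro T ha hb
    rw [hX]
    apply Commute.sum_left
    intro i _
    exact ((comm_one_sub_left hb).pow_left _).mul_left ((comm_one_sub_left ha).pow_left _)
  have key2 : ∀ T : R, Commute a T → Commute (1 - (1 - a) ^ (k + 1)) T := by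
    intro T ha
    exact comm_one_sub_left ((comm_one_sub_left ha).pow_left _)
  have key3 : ∀ T : R, Commute b T → Commute (1 - (1 - b) ^ (k + 1)) T := by
    intro T hb
    exact comm_one_sub_left ((comm_one_sub_left hb).pow_left _)
  have h2 : Commute X (((1 - (1 - a) ^ (k + 1)) + (1 - (1 - b) ^ (k + 1))) * d) := by
    apply Commute.mul_right
    · apply Commute.add_right
      · exact (key2 X (key a (Commute.refl a) hab.symm).symm).symm
      · exact (key3 X (key b hab (Commute.refl b)).symm).symm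
    · exact key d had hbd
  rw [← sub_mul, h1, ← h2.eq]
  simp only [mul_assoc]

/-- (P4): the telescoping identity. -/
lemma tele_op (hH : IsProfile H) (k j : ℕ) :
    (Qo hH k (j + 1)) ^ 2 * dOp - (Qo hH k j) ^ 2 * dOp =
      (Ph hH (j + 1) - Ph hH j) * ((Qo hH k (j + 1) + Qo hH k j) * dOp * Xo hH k j) :=
  tele_ring (R := Module.End ℂ V) (Ph_comm hH (j + 1) j) (Ph_dOp hH (j + 1)) (Ph_dOp hH j) k

lemma supN_sum_le (T : ℕ → V) (n : ℕ) (M : ℝ) (h : ∀ i < n, supN (T i) ≤ M) :
    supN (∑ i ∈ Finset.range n, T i) ≤ n * M := by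
  induction n with
  | zero => simp
  | succ n ih =>
    rw [Finset.sum_range_succ]
    refine (map_add_le_add supN _ _).trans ?_
    have h1 := ih (fun i hi => h i (by omega))
    have h2 := h n (by omega)
    push_cast
    linarith

/-- The bound of `X_j f`. -/
lemma Xo_bound (hH : IsProfile H) {f : V} {k : ℕ} {α B : ℝ} (hα : 0 < α) (hB0 : 0 ≤ B)
    (hB : ∀ h z, ‖(fwdDiff h)^[k] f.1 z‖ ≤ B * ‖h‖ ^ α) (j : ℕ) :
    supN (Xo hH k j f) ≤ (k + 1) * (2 ^ k * (B * (k * (1 / 2 : ℝ) ^ j) ^ α)) := by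
  have hp1 : Prob (bV hH j) ((1 / 2 : ℝ) ^ j) := bV_prob hH j
  have hp2 : Prob (bV hH (j + 1)) ((1 / 2 : ℝ) ^ j) := by
    have := bV_prob hH (j + 1)
    refine ⟨this.intNorm, this.int, fun w hw => this.supp w (lt_of_le_of_lt ?_ hw)⟩
    exact pow_le_pow_of_le_one (by norm_num) (by norm_num) (Nat.le_succ j)
  unfold Xo
  rw [LinearMap.sum_apply]
  have h := supN_sum_le (fun i => ((1 - Ph hH j) ^ i * (1 - Ph hH (j + 1)) ^ (k - i)) f) (k + 1)
    (2 ^ k * (B * (k * (1 / 2 : ℝ) ^ j) ^ α)) (fun i hi =>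
      word_bound hα hB0 (by positivity) hB hp1 hp2 i (by omega))
  refine h.trans (le_of_eq ?_)
  push_cast
  rfl

/-- `Q_j ∂` bound. -/
lemma Qo_dOp_bound (hH : IsProfile H) (k j : ℕ) (g : V) :
    supN (Qo hH k j (dOp g)) ≤ 2 ^ (k + 1) * (2 ^ j * C1 H * supN g) := by
  rw [Qo_eq, Module.End.mul_apply]
  refine (Yo_le hH k j (Ph_supN hH j) _).trans ?_
  gcongr
  exact cvOp_dOp_bound hH j g

lemma Gj_bound (hH : IsProfile H) (k j : ℕ) (g : V) :
    supN (((Qo hH k (j + 1) + Qo hH k j) * dOp) g) ≤ 2 ^ (k + 3) * (2 ^ j * C1 H * supN g) := by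
  rw [Module.End.mul_apply, LinearMap.add_apply]
  refine (map_add_le_add supN _ _).trans ?_
  have h1 := Qo_dOp_bound hH k (j + 1) g
  have h2 := Qo_dOp_bound hH k j g
  have h3 : 0 ≤ 2 ^ j * C1 H * supN g := by
    have := C1_nonneg H
    have := apply_nonneg supN g
    positivity
  calc _ ≤ 2 ^ (k + 1) * (2 ^ (j + 1) * C1 H * supN g) + 2 ^ (k + 1) * (2 ^ j * C1 H * supN g) :=
        add_le_add h1 h2
    _ = 3 * 2 ^ (k + 1) * (2 ^ j * C1 H * supN g) := by ring
    _ ≤ 2 ^ (k + 3) * (2 ^ j * C1 H * supN g) := by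
        apply mul_le_mul_of_nonneg_right _ h3
        rw [show k + 3 = (k + 1) + 2 by ring, pow_add 2 (k + 1) 2]
        have : (0:ℝ) < 2 ^ (k + 1) := by positivity
        nlinarith

/-- (P5): approximation. -/
lemma approx_one (hH : IsProfile H) (g : V) :
    Tendsto (fun J => l1N ((1 - Ph hH J) g)) atTop (𝓝 0) := by
  obtain ⟨L, hL⟩ := ContDiff.lipschitzWith_of_hasCompactSupport g.2.2 g.2.1 (by simp)
  obtain ⟨R, hR⟩ := g.2.2.isCompact.isBounded.subset_closedBall (0 : ℂ)
  have hR' : ∀ z, R < ‖z‖ → g.1 z = 0 := by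
    intro z hz
    apply image_eq_zero_of_notMem_tsupport
    intro h
    have := hR h
    rw [mem_closedBall, dist_zero_right] at this
    linarith
  have hbd : ∀ J, l1N ((1 - Ph hH J) g) ≤
      (L * (1 / 2 : ℝ) ^ J) * volume.real (closedBall (0:ℂ) (R + 1)) := by
    intro J
    have hp := bV_prob hH J
    rw [l1N_apply]
    have h1 : ∀ z, ‖((1 - Ph hH J) g).1 z‖ ≤
        (closedBall (0:ℂ) (R + 1)).indicator (fun _ => L * (1 / 2 : ℝ) ^ J) z := by
      intro z
      have e : ((1 - Ph hH J) g).1 z = ∫ w, (bV hH J).1 w * ((1 - tau w) g).1 z :=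
        one_sub_cvOp_apply hp g z
      rw [e]
      by_cases hz : z ∈ closedBall (0:ℂ) (R + 1)
      · rw [indicator_of_mem hz]
        calc ‖∫ w, (bV hH J).1 w * ((1 - tau w) g).1 z‖
            ≤ ∫ w, ‖(bV hH J).1 w‖ * (L * (1 / 2 : ℝ) ^ J) := by
              apply norm_integral_le_of_norm_le ((V_integrable (bV hH J).2).norm.mul_const _)
              filter_upwards with w
              rw [norm_mul]
              by_cases hw : ‖w‖ ≤ (1 / 2 : ℝ) ^ J
              · gcongr
                have h2 : ((1 - tau w) g).1 z = g.1 z - g.1 (z - w) := rfl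
                rw [h2]
                calc ‖g.1 z - g.1 (z - w)‖ ≤ L * ‖z - (z - w)‖ := hL.norm_sub_le _ _
                  _ = L * ‖w‖ := by congr 2; ring
                  _ ≤ L * (1 / 2 : ℝ) ^ J := by gcongr
              · rw [hp.supp w (not_le.1 hw)]; simp
          _ = L * (1 / 2 : ℝ) ^ J := by rw [integral_mul_const, hp.intNorm, one_mul]
      · rw [indicator_of_notMem hz]
        have hz' : R + 1 < ‖z‖ := by
          rw [mem_closedBall, dist_zero_right] at hz
          exact not_le.1 hz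
        have : ∫ w, (bV hH J).1 w * ((1 - tau w) g).1 z = 0 := by
          rw [← integral_zero ℂ ℂ]
          congr 1
          ext w
          by_cases hw : ‖w‖ ≤ (1 / 2 : ℝ) ^ J
          · have h2 : ((1 - tau w) g).1 z = g.1 z - g.1 (z - w) := rfl
            have h3 : (1 / 2 : ℝ) ^ J ≤ 1 := pow_le_one₀ (by norm_num) (by norm_num)
            have h4 : R < ‖z - w‖ := by
              have := norm_sub_norm_le z w
              linarith
            rw [h2, hR' z (by linarith), hR' _ h4]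
            simp
          · rw [hp.supp w (not_le.1 hw)]; simp
        rw [this]; simp
    calc ∫ z, ‖((1 - Ph hH J) g).1 z‖
        ≤ ∫ z, (closedBall (0:ℂ) (R + 1)).indicator (fun _ => L * (1 / 2 : ℝ) ^ J) z := by
          apply integral_mono (V_integrable ((1 - Ph hH J) g).2).norm _ h1
          rw [integrable_indicator_iff measurableSet_closedBall]
          exact integrableOn_const (measure_closedBall_lt_top.ne)
      _ = _ := by
          rw [integral_indicator measurableSet_closedBall, setIntegral_const, smul_eq_mul, mul_comm]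
  refine squeeze_zero (fun J => apply_nonneg l1N _) hbd ?_
  have h0 : Tendsto (fun J : ℕ => (1 / 2 : ℝ) ^ J) atTop (𝓝 0) :=
    tendsto_pow_atTop_nhds_zero_of_lt_one (by norm_num) (by norm_num)
  have h1 := (h0.const_mul (L : ℝ)).mul_const (volume.real (closedBall (0:ℂ) (R + 1)))
  simpa using h1

lemma approx_ring {R : Type*} [Ring R] (a : R) (k : ℕ) :
    1 - (1 - (1 - a) ^ (k + 1)) ^ 2 =
      ((1 + (1 - (1 - a) ^ (k + 1))) * (1 - a) ^ k) * (1 - a) := by
  rw [mul_assoc, ← pow_succ]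
  generalize (1 - a) ^ (k + 1) = c
  noncomm_ring

lemma approx_S (hH : IsProfile H) (k : ℕ) (g : V) :
    Tendsto (fun J => l1N ((1 - (Qo hH k J) ^ 2 : Module.End ℂ V) g)) atTop (𝓝 0) := by
  have h1 : ∀ J, (1 - (Qo hH k J) ^ 2 : Module.End ℂ V) =
      ((1 + Qo hH k J) * (1 - Ph hH J) ^ k) * (1 - Ph hH J) := fun J =>
    approx_ring (R := Module.End ℂ V) (Ph hH J) k
  have hQ : ∀ J, OpLe l1N (1 + Qo hH k J) (1 + (1 + 2 ^ (k + 1))) := by
    intro J
    exact (OpLe.one _).add ((OpLe.one _).sub ((OneSub_le (Ph_l1N hH J)).pow (by norm_num) _))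
  have hT : ∀ J, OpLe l1N ((1 + Qo hH k J) * (1 - Ph hH J) ^ k)
      ((1 + (1 + 2 ^ (k + 1))) * 2 ^ k) := fun J =>
    (hQ J).mul ((OneSub_le (Ph_l1N hH J)).pow (by norm_num) _) (by positivity)
  refine squeeze_zero (fun J => apply_nonneg l1N _)
    (g := fun J => ((1 + (1 + 2 ^ (k + 1))) * 2 ^ k) * l1N ((1 - Ph hH J) g)) ?_ ?_
  · intro J
    rw [h1, Module.End.mul_apply]
    exact hT J _
  · simpa using (approx_one hH g).const_mul ((1 + (1 + 2 ^ (k + 1))) * 2 ^ k)

end H98.Dbar
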