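import Mathlib
import Pool.Agent.H98.Dbar.Suff2

/-! # Sufficiency of the Littlewood-Paley criterion, final step -/

open MeasureTheory Complex Metric Set Filter Topology
open scoped ContDiff ENNReal NNReal Convolution

namespace H98.Dbar

variable {H : ℝ → ℝ}

/-- Working form of admissibility. -/
def AdmW (α : ℝ) (k : ℕ) (Ω : Set ℂ) : Prop :=
  ∃ C : ℝ, 0 ≤ C ∧ ∀ f : V, ∀ A B : ℝ, 0 ≤ A → 0 ≤ B → (∀ z, ‖f.1 z‖ ≤ A) →
    (∀ h z, ‖(fwdDiff h)^[k] f.1 z‖ ≤ B * ‖h‖ ^ α) →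
    ‖∫ z in Ω, dbar f.1 z‖ ≤ C * (A + B)

/-- The criterion. -/
def Crit (H : ℝ → ℝ) (α : ℝ) (Ω : Set ℂ) : Prop :=
  (∫⁻ z, ‖fderiv ℝ (moll H 0 Ω) z‖ₑ) < ⊤ ∧
  (∑' j : ℕ, ENNReal.ofReal ((2:ℝ) ^ ((1 - α) * j)) *
    ∫⁻ z, ‖moll H (j + 1) Ω z - moll H j Ω z‖ₑ) < ⊤

/-- L1 norms of differences. -/
noncomputable def cj (H : ℝ → ℝ) (Ω : Set ℂ) (j : ℕ) : ℝ :=
  ∫ z, ‖moll H (j + 1) Ω z - moll H j Ω z‖

lemma crit_integrable (hH : IsProfile H) {α : ℝ} {Ω : Set ℂ} (hΩ : MeasurableSet Ω)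
    (h : Crit H α Ω) (j : ℕ) : Integrable (fun z => moll H (j + 1) Ω z - moll H j Ω z) := by
  refine ⟨?_, ?_⟩
  · exact ((moll_contDiff hH hΩ (j + 1)).continuous.sub
      (moll_contDiff hH hΩ j).continuous).aestronglyMeasurable
  · have h1 := ENNReal.ne_top_of_tsum_ne_top h.2.ne j
    rw [hasFiniteIntegral_iff_enorm]
    by_contra hcon
    rw [not_lt, top_le_iff] at hcon
    rw [hcon] at h1
    apply h1
    rw [ENNReal.mul_top]
    rw [ne_eq, ENNReal.ofReal_eq_zero, not_le]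
    positivity

lemma crit_sum (hH : IsProfile H) {α : ℝ} {Ω : Set ℂ} (hΩ : MeasurableSet Ω)
    (h : Crit H α Ω) (J : ℕ) : ∑ j ∈ Finset.range J, (2:ℝ) ^ ((1 - α) * j) * cj H Ω j ≤
      (∑' j : ℕ, ENNReal.ofReal ((2:ℝ) ^ ((1 - α) * j)) *
        ∫⁻ z, ‖moll H (j + 1) Ω z - moll H j Ω z‖ₑ).toReal := by
  have h1 : ∀ j, cj H Ω j = (∫⁻ z, ‖moll H (j + 1) Ω z - moll H j Ω z‖ₑ).toReal := by
    intro j
    unfold cj
    rw [integral_norm_eq_lintegral_enorm (crit_integrable hH hΩ h j).1]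
  have h2 : ∀ j : ℕ, (2:ℝ) ^ ((1 - α) * j) * cj H Ω j =
      (ENNReal.ofReal ((2:ℝ) ^ ((1 - α) * j)) *
        ∫⁻ z, ‖moll H (j + 1) Ω z - moll H j Ω z‖ₑ).toReal := by
    intro j
    rw [ENNReal.toReal_mul, ENNReal.toReal_ofReal (by positivity), h1]
  simp_rw [h2]
  rw [← ENNReal.toReal_sum]
  · apply ENNReal.toReal_mono h.2.ne
    exact ENNReal.sum_le_tsum _
  · intro j _
    exact ENNReal.ne_top_of_tsum_ne_top h.2.ne j

lemma weight_eq (α : ℝ) (j : ℕ) :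
    (2:ℝ) ^ j * ((1 / 2 : ℝ) ^ j) ^ α = (2:ℝ) ^ ((1 - α) * j) := by
  have h1 : ((1 / 2 : ℝ) ^ j) ^ α = (2:ℝ) ^ (-(α * j)) := by
    rw [one_div, inv_pow, ← Real.rpow_natCast, ← Real.rpow_neg (by norm_num),
      ← Real.rpow_mul (by norm_num)]
    congr 1; ring
  rw [h1, ← Real.rpow_natCast, ← Real.rpow_add (by norm_num)]
  congr 1; ring

theorem sufficiency (hH : IsProfile H) {α : ℝ} (hα : 0 < α) {k : ℕ} {Ω : Set ℂ}
    (hΩ : MeasurableSet Ω) (h : Crit H α Ω) : AdmW α k Ω := by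
  set T : ℝ := (∑' j : ℕ, ENNReal.ofReal ((2:ℝ) ^ ((1 - α) * j)) *
        ∫⁻ z, ‖moll H (j + 1) Ω z - moll H j Ω z‖ₑ).toReal with hT
  have hT0 : 0 ≤ T := ENNReal.toReal_nonneg
  set D : ℝ := ∫ z, ‖fderiv ℝ (moll H 0 Ω) z‖ with hD
  have hD0 : 0 ≤ D := integral_nonneg fun _ => norm_nonneg _
  have hDint : Integrable (fun z => fderiv ℝ (moll H 0 Ω) z) := by
    refine ⟨?_, ?_⟩
    · exact ((moll_contDiff hH hΩ 0).continuous_fderiv (by simp)).aestronglyMeasurable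
    · rw [hasFiniteIntegral_iff_enorm]; exact h.1
  have hC1 := C1_nonneg H
  set K1 : ℝ := 2 ^ (k + 3) * (C1 H * ((k + 1) * (2 ^ k * (k:ℝ) ^ α))) with hK1
  have hK10 : 0 ≤ K1 := by rw [hK1]; positivity
  set K0 : ℝ := (1 + 2 ^ (k + 1)) * 2 ^ (k + 1) with hK0
  have hK00 : 0 ≤ K0 := by rw [hK0]; positivity
  refine ⟨D * K0 + K1 * T, by positivity, ?_⟩
  intro f A B hA hB hfA hfB
  set g : V := dOp f with hg
  have e0 : ∫ z in Ω, dbar f.1 z = ∫ z, chi Ω z * g.1 z := setIntegral_chi hΩ _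
  rw [e0]
  -- the bound for S_J g
  have low : ‖∫ z, chi Ω z * ((Qo hH k 0 ^ 2) g).1 z‖ ≤ D * (K0 * A) := by
    have e1 : (Qo hH k 0 ^ 2) g = cvOp (bV hH 0) (dOp ((Qo hH k 0 * Yo hH k 0) f)) := by
      have c1 : Commute (Qo hH k 0 * Yo hH k 0) (Ph hH 0 * dOp) := by
        apply Commute.mul_left
        · exact (Qo_comm fun i => (Ph_comm hH i 0)).mul_right (Qo_comm (Ph_dOp hH))
        · exact (Yo_comm fun i => (Ph_comm hH i 0)).mul_right (Yo_comm (Ph_dOp hH))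
      have c2 : Qo hH k 0 ^ 2 = (Qo hH k 0 * Yo hH k 0) * Ph hH 0 := by
        rw [sq, mul_assoc, ← Qo_eq]
      have c4 : (Qo hH k 0 ^ 2) * dOp = Ph hH 0 * dOp * (Qo hH k 0 * Yo hH k 0) := by
        rw [c2, mul_assoc, c1.eq]
      exact LinearMap.congr_fun c4 f
    rw [e1]
    refine (pair_low_bound hH hΩ _ hDint).trans ?_
    rw [← hD]
    gcongr
    have hQ : OpLe supN (Qo hH k 0) (1 + 2 ^ (k + 1)) :=
      (OpLe.one _).sub ((OneSub_le (Ph_supN hH 0)).pow (by norm_num) _)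
    have hQY := hQ.mul (Yo_le hH k 0 (Ph_supN hH 0)) (by positivity)
    refine (hQY f).trans ?_
    rw [← hK0]
    gcongr
    exact supN_le hfA
  have high : ∀ j, ‖∫ z, chi Ω z * (((Qo hH k (j + 1) ^ 2) g - (Qo hH k j ^ 2) g)).1 z‖ ≤
      K1 * B * ((2:ℝ) ^ ((1 - α) * j) * cj H Ω j) := by
    intro j
    have e1 : (Qo hH k (j + 1) ^ 2) g - (Qo hH k j ^ 2) g =
        (cvOp (bV hH (j + 1)) - cvOp (bV hH j))
          (((Qo hH k (j + 1) + Qo hH k j) * dOp) (Xo hH k j f)) :=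
      LinearMap.congr_fun (tele_op hH k j) f
    rw [e1]
    refine (pair_diff_bound hH hΩ j _ (crit_integrable hH hΩ h j)).trans ?_
    have h1 := Gj_bound hH k j (Xo hH k j f)
    have h2 := Xo_bound hH hα hB hfB j
    have hcj : 0 ≤ cj H Ω j := integral_nonneg fun _ => norm_nonneg _
    calc cj H Ω j * supN (((Qo hH k (j + 1) + Qo hH k j) * dOp) (Xo hH k j f))
        ≤ cj H Ω j * (2 ^ (k + 3) * (2 ^ j * C1 H *
          ((k + 1) * (2 ^ k * (B * (k * (1 / 2 : ℝ) ^ j) ^ α))))) := by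
          gcongr
          exact h1.trans (by gcongr)
      _ = K1 * B * ((2:ℝ) ^ ((1 - α) * j) * cj H Ω j) := by
          rw [← weight_eq, Real.mul_rpow (by positivity) (by positivity), hK1]
          ring
  have tel : ∀ J, ‖∫ z, chi Ω z * ((Qo hH k J ^ 2) g).1 z‖ ≤ D * (K0 * A) +
      ∑ j ∈ Finset.range J, K1 * B * ((2:ℝ) ^ ((1 - α) * j) * cj H Ω j) := by
    intro J
    induction J with
    | zero => simpa using low
    | succ J ih =>
      have e1 : ∫ z, chi Ω z * ((Qo hH k (J + 1) ^ 2) g).1 z =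
          (∫ z, chi Ω z * ((Qo hH k J ^ 2) g).1 z) +
          ∫ z, chi Ω z * (((Qo hH k (J + 1) ^ 2) g - (Qo hH k J ^ 2) g)).1 z := by
        rw [← integral_add (integrable_chi_mul hΩ (V_integrable (Subtype.property _)))
          (integrable_chi_mul hΩ (V_integrable (Subtype.property _)))]
        congr 1
        ext z
        have : ((Qo hH k (J + 1) ^ 2) g - (Qo hH k J ^ 2) g).1 z =
          ((Qo hH k (J + 1) ^ 2) g).1 z - ((Qo hH k J ^ 2) g).1 z := rfl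
        rw [this]
        ring
      rw [e1, Finset.sum_range_succ, ← add_assoc]
      exact (norm_add_le _ _).trans (add_le_add ih (high J))
  have main : ∀ J, ‖∫ z, chi Ω z * g.1 z‖ ≤
      l1N ((1 - (Qo hH k J) ^ 2 : Module.End ℂ V) g) + (D * (K0 * A) + K1 * B * T) := by
    intro J
    have e1 : ∫ z, chi Ω z * g.1 z =
        (∫ z, chi Ω z * ((1 - (Qo hH k J) ^ 2 : Module.End ℂ V) g).1 z) +
        ∫ z, chi Ω z * ((Qo hH k J ^ 2) g).1 z := by
      rw [← integral_add (integrable_chi_mul hΩ (V_integrable (Subtype.property _)))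
          (integrable_chi_mul hΩ (V_integrable (Subtype.property _)))]
      congr 1
      ext z
      have : ((1 - (Qo hH k J) ^ 2 : Module.End ℂ V) g).1 z = g.1 z - ((Qo hH k J ^ 2) g).1 z := rfl
      rw [this]
      ring
    rw [e1]
    refine (norm_add_le _ _).trans (add_le_add (chi_norm_le hΩ _) ((tel J).trans ?_))
    gcongr
    rw [← Finset.mul_sum]
    gcongr
    exact crit_sum hH hΩ h J
  have lim : Tendsto (fun J => l1N ((1 - (Qo hH k J) ^ 2 : Module.End ℂ V) g) +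
      (D * (K0 * A) + K1 * B * T)) atTop (𝓝 (0 + (D * (K0 * A) + K1 * B * T))) :=
    (approx_S hH k g).add_const _
  have fin := ge_of_tendsto' lim main
  calc ‖∫ z, chi Ω z * g.1 z‖ ≤ 0 + (D * (K0 * A) + K1 * B * T) := fin
    _ ≤ (D * K0 + K1 * T) * (A + B) := by
        have : 0 ≤ D * K0 * B := by positivity
        have : 0 ≤ K1 * T * A := by positivity
        nlinarith

end H98.Dbar
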