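import Mathlib
import Pool.Agent.H98.Dbar.Suff3

/-! # Necessity: difference estimates for kernels -/

open MeasureTheory Complex Metric Set Filter Topology
open scoped ContDiff ENNReal NNReal Convolution

namespace H98.Dbar

variable {H : ℝ → ℝ}

lemma fd_mem_V {f : ℂ → ℂ} (hf : f ∈ V) (h : ℂ) : fwdDiff h f ∈ V := by
  have h1 : (fun z => f (z - (-h))) ∈ V := tau_mem hf (-h)
  have h2 := V.sub_mem h1 hf
  have e : fwdDiff h f = (fun z => f (z - (-h))) - f := by
    ext z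
    simp [fwdDiff]
  rw [e]; exact h2

lemma fdk_mem_V {f : ℂ → ℂ} (hf : f ∈ V) (h : ℂ) (k : ℕ) : (fwdDiff h)^[k] f ∈ V := by
  induction k generalizing f with
  | zero => exact hf
  | succ k ih =>
    rw [Function.iterate_succ_apply]
    exact ih (fd_mem_V hf h)

lemma fderiv_apply_mem_V {f : ℂ → ℂ} (hf : f ∈ V) (v : ℂ) : (fun z => fderiv ℝ f z v) ∈ V := by
  refine ⟨?_, hf.2.fderiv_apply (𝕜 := ℝ) v⟩
  have h := hf.1.fderiv_right (m := ∞) (by simp)
  fun_prop

lemma fderiv_fd {f : ℂ → ℂ} (hf : f ∈ V) (h v : ℂ) :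
    (fun z => fderiv ℝ (fwdDiff h f) z v) = fwdDiff h (fun z => fderiv ℝ f z v) := by
  ext z
  have h1 : fderiv ℝ (fwdDiff h f) z = fderiv ℝ f (z + h) - fderiv ℝ f z := by
    have e : fwdDiff h f = fun z => f (z + h) - f z := rfl
    rw [e]
    have hd : DifferentiableAt ℝ (fun z => f (z + h)) z := by
      have := V_differentiable hf (z + h)
      exact DifferentiableAt.comp (f := fun z : ℂ => z + h) (g := f) z this (by fun_prop)
    rw [show (fun z => f (z + h) - f z) = (fun z => f (z + h)) - f from rfl,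
      fderiv_sub hd (V_differentiable hf z)]
    rw [fderiv_comp_add_right]
  rw [h1]
  rfl

lemma fderiv_fdk {f : ℂ → ℂ} (hf : f ∈ V) (h v : ℂ) (k : ℕ) :
    (fun z => fderiv ℝ ((fwdDiff h)^[k] f) z v) = (fwdDiff h)^[k] (fun z => fderiv ℝ f z v) := by
  induction k generalizing f with
  | zero => rfl
  | succ k ih =>
    rw [Function.iterate_succ_apply, Function.iterate_succ_apply, ih (fd_mem_V hf h),
      fderiv_fd hf]

/-- Taylor bound for iterated differences. -/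
lemma fdk_sup {f : ℂ → ℂ} (hf : f ∈ V) (k : ℕ) :
    ∃ M : ℝ, 0 ≤ M ∧ ∀ h z, ‖(fwdDiff h)^[k] f z‖ ≤ M * ‖h‖ ^ k := by
  induction k generalizing f with
  | zero =>
    obtain ⟨C, hC⟩ := hf.2.exists_bound_of_continuous (V_cont hf)
    refine ⟨C, (norm_nonneg _).trans (hC 0), fun h z => by simpa using hC z⟩
  | succ k ih =>
    obtain ⟨M1, hM1, h1⟩ := ih (fderiv_apply_mem_V hf 1)
    obtain ⟨M2, hM2, h2⟩ := ih (fderiv_apply_mem_V hf I)
    refine ⟨M1 + M2, by positivity, fun h z => ?_⟩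
    rw [Function.iterate_succ_apply']
    set G := (fwdDiff h)^[k] f with hG
    have hGV : G ∈ V := fdk_mem_V hf h k
    have hder : ∀ w, ‖fderiv ℝ G w‖ ≤ (M1 + M2) * ‖h‖ ^ k := by
      intro w
      refine ContinuousLinearMap.opNorm_le_bound _ (by positivity) ?_
      intro v
      have hv : fderiv ℝ G w v = v.re * fderiv ℝ G w 1 + v.im * fderiv ℝ G w I := by
        conv_lhs => rw [← Complex.re_add_im v]
        rw [map_add]
        have e1 : ((v.re : ℂ)) = v.re • (1 : ℂ) := by simp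
        have e2 : ((v.im : ℂ)) * I = v.im • I := by simp
        rw [e1, e2, map_smul, map_smul, Complex.real_smul, Complex.real_smul]
        simp
      rw [hv]
      have g1 : ‖fderiv ℝ G w 1‖ ≤ M1 * ‖h‖ ^ k := by
        have := congr_fun (fderiv_fdk hf h 1 k) w
        rw [← hG] at this
        rw [this]
        exact h1 h w
      have g2 : ‖fderiv ℝ G w I‖ ≤ M2 * ‖h‖ ^ k := by
        have := congr_fun (fderiv_fdk hf h I k) w
        rw [← hG] at this
        rw [this]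
        exact h2 h w
      calc ‖v.re * fderiv ℝ G w 1 + v.im * fderiv ℝ G w I‖
          ≤ ‖(v.re : ℂ) * fderiv ℝ G w 1‖ + ‖(v.im : ℂ) * fderiv ℝ G w I‖ := norm_add_le _ _
        _ ≤ ‖v‖ * (M1 * ‖h‖ ^ k) + ‖v‖ * (M2 * ‖h‖ ^ k) := by
            rw [norm_mul, norm_mul]
            gcongr
            · rw [Complex.norm_real]; exact Complex.abs_re_le_norm v
            · rw [Complex.norm_real]; exact Complex.abs_im_le_norm v
        _ = (M1 + M2) * ‖h‖ ^ k * ‖v‖ := by ring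
    have hmv := Convex.norm_image_sub_le_of_norm_fderiv_le (𝕜 := ℝ) (f := G) (s := Set.univ)
      (C := (M1 + M2) * ‖h‖ ^ k) (x := z) (y := z + h)
      (fun x _ => V_differentiable hGV x) (fun x _ => hder x) convex_univ (mem_univ _) (mem_univ _)
    have e3 : z + h - z = h := by ring
    rw [e3] at hmv
    calc ‖fwdDiff h G z‖ = ‖G (z + h) - G z‖ := rfl
      _ ≤ (M1 + M2) * ‖h‖ ^ k * ‖h‖ := hmv
      _ = (M1 + M2) * ‖h‖ ^ (k + 1) := by ring

lemma fd_l1 {f : ℂ → ℂ} (hf : f ∈ V) (h : ℂ) :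
    ∫ z, ‖fwdDiff h f z‖ ≤ 2 * ∫ z, ‖f z‖ := by
  have h1 : Integrable (fun z => f (z + h)) := (V_integrable hf).comp_add_right h
  calc ∫ z, ‖fwdDiff h f z‖ ≤ ∫ z, (‖f (z + h)‖ + ‖f z‖) := by
        apply integral_mono (V_integrable (fd_mem_V hf h)).norm (h1.norm.add (V_integrable hf).norm)
        intro z
        exact norm_sub_le _ _
    _ = (∫ z, ‖f (z + h)‖) + ∫ z, ‖f z‖ := integral_add h1.norm (V_integrable hf).norm
    _ = 2 * ∫ z, ‖f z‖ := by
        rw [integral_add_right_eq_self (fun z => ‖f z‖) h]; ring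

lemma fdk_l1 {f : ℂ → ℂ} (hf : f ∈ V) (h : ℂ) (k : ℕ) :
    ∫ z, ‖(fwdDiff h)^[k] f z‖ ≤ 2 ^ k * ∫ z, ‖f z‖ := by
  induction k generalizing f with
  | zero => simp
  | succ k ih =>
    rw [Function.iterate_succ_apply]
    calc _ ≤ 2 ^ k * ∫ z, ‖fwdDiff h f z‖ := ih (fd_mem_V hf h)
      _ ≤ 2 ^ k * (2 * ∫ z, ‖f z‖) := by gcongr; exact fd_l1 hf h
      _ = _ := by ring

lemma fdk_supp {f : ℂ → ℂ} {R : ℝ} (hf : ∀ z, R < ‖z‖ → f z = 0) (h : ℂ) (k : ℕ) :
    ∀ z, R + k * ‖h‖ < ‖z‖ → (fwdDiff h)^[k] f z = 0 := by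
  induction k with
  | zero => intro z hz; simp at hz; exact hf z hz
  | succ k ih =>
    intro z hz
    rw [Function.iterate_succ_apply']
    push_cast at hz
    have hn := norm_nonneg h
    have h1 : (fwdDiff h)^[k] f z = 0 := ih z (by nlinarith)
    have h2 : (fwdDiff h)^[k] f (z + h) = 0 := by
      apply ih
      have : ‖z‖ ≤ ‖z + h‖ + ‖h‖ := by
        calc ‖z‖ = ‖(z + h) - h‖ := by congr 1; ring
          _ ≤ _ := norm_sub_le _ _
      nlinarith
    change (fwdDiff h)^[k] f (z + h) - (fwdDiff h)^[k] f z = 0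
    rw [h1, h2]; simp

/-- `L¹` bound for iterated differences of a test function. -/
lemma fdk_l1_bound {f : ℂ → ℂ} (hf : f ∈ V) (k : ℕ) :
    ∃ M : ℝ, 0 ≤ M ∧ ∀ h, ∫ z, ‖(fwdDiff h)^[k] f z‖ ≤ M * min 1 (‖h‖ ^ k) := by
  obtain ⟨M, hM, hb⟩ := fdk_sup hf k
  obtain ⟨R, hR⟩ := hf.2.isCompact.isBounded.subset_closedBall (0 : ℂ)
  have hR' : ∀ z, R < ‖z‖ → f z = 0 := by
    intro z hz
    apply image_eq_zero_of_notMem_tsupport
    intro h
    have := hR h
    rw [mem_closedBall, dist_zero_right] at this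
    linarith
  have hI0 : 0 ≤ ∫ z, ‖f z‖ := integral_nonneg fun _ => norm_nonneg _
  refine ⟨M * volume.real (closedBall (0:ℂ) (R + k)) + 2 ^ k * ∫ z, ‖f z‖, by positivity, ?_⟩
  intro h
  by_cases hh : ‖h‖ ≤ 1
  · have hmin : min 1 (‖h‖ ^ k) = ‖h‖ ^ k := min_eq_right (pow_le_one₀ (norm_nonneg _) hh)
    rw [hmin]
    have h1 : ∫ z, ‖(fwdDiff h)^[k] f z‖ ≤ M * ‖h‖ ^ k * volume.real (closedBall (0:ℂ) (R + k)) := by
      calc ∫ z, ‖(fwdDiff h)^[k] f z‖
          ≤ ∫ z, (closedBall (0:ℂ) (R + k)).indicator (fun _ => M * ‖h‖ ^ k) z := by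
            apply integral_mono (V_integrable (fdk_mem_V hf h k)).norm
            · rw [integrable_indicator_iff measurableSet_closedBall]
              exact integrableOn_const (measure_closedBall_lt_top.ne)
            · intro z
              by_cases hz : z ∈ closedBall (0:ℂ) (R + k)
              · rw [indicator_of_mem hz]
                exact hb h z
              · rw [indicator_of_notMem hz]
                rw [mem_closedBall, dist_zero_right, not_le] at hz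
                have : (k:ℝ) * ‖h‖ ≤ k * 1 := by gcongr
                have h0 : (fwdDiff h)^[k] f z = 0 := fdk_supp hR' h k z (by linarith)
                simp [h0]
        _ = _ := by
            rw [integral_indicator measurableSet_closedBall, setIntegral_const, smul_eq_mul, mul_comm]
    have : 0 ≤ 2 ^ k * (∫ z, ‖f z‖) * ‖h‖ ^ k := by positivity
    nlinarith
  · have hmin : min 1 (‖h‖ ^ k) = 1 := min_eq_left (one_le_pow₀ (not_le.1 hh).le)
    rw [hmin, mul_one]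
    have := fdk_l1 hf h k
    have : 0 ≤ M * volume.real (closedBall (0:ℂ) (R + k)) := by positivity
    linarith

/-- Differences of the scaled kernels. -/
lemma fdk_scale (f : ℂ → ℂ) (j : ℕ) (h : ℂ) (k : ℕ) (z : ℂ) :
    (fwdDiff h)^[k] (fun w => 2 ^ j * f (2 ^ j * w)) z =
      2 ^ j * (fwdDiff (2 ^ j * h))^[k] f (2 ^ j * z) := by
  induction k generalizing z with
  | zero => rfl
  | succ k ih =>
    rw [Function.iterate_succ_apply', Function.iterate_succ_apply']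
    have e : ∀ (u : ℂ) (g : ℂ → ℂ) (z : ℂ), fwdDiff u g z = g (z + u) - g z := fun _ _ _ => rfl
    rw [e, e, ih, ih, ← mul_sub, mul_add]

lemma kerAt_fdk (hH : IsProfile H) (k : ℕ) :
    ∃ M : ℝ, 0 ≤ M ∧ ∀ j : ℕ, ∀ h : ℂ, ∫ z, ‖(fwdDiff h)^[k] (kerAt H j) z‖ ≤
      (1 / 2 : ℝ) ^ j * (M * min 1 ((2 ^ j * ‖h‖) ^ k)) := by
  obtain ⟨M, hM, hb⟩ := fdk_l1_bound (f := ker H) ⟨ker_contDiff hH, ker_hasCompactSupport hH⟩ k
  refine ⟨M, hM, fun j h => ?_⟩
  have e : kerAt H j = fun w => 2 ^ j * ker H (2 ^ j * w) := rfl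
  rw [e]
  simp_rw [fdk_scale, norm_mul, norm_pow, Complex.norm_ofNat]
  rw [integral_const_mul, integral_comp_two_pow_mul
    (fun z => ‖(fwdDiff ((2:ℂ) ^ j * h))^[k] (ker H) z‖) j, smul_eq_mul]
  have h1 := hb (2 ^ j * h)
  rw [norm_mul, norm_pow, Complex.norm_ofNat] at h1
  have e2 : (2:ℝ) ^ j * ((4 ^ j)⁻¹ * ∫ z, ‖(fwdDiff ((2:ℂ) ^ j * h))^[k] (ker H) z‖) =
      (1 / 2 : ℝ) ^ j * ∫ z, ‖(fwdDiff ((2:ℂ) ^ j * h))^[k] (ker H) z‖ := by
    rw [← mul_assoc]
    congr 1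
    have : (4:ℝ) ^ j = 2 ^ j * 2 ^ j := by rw [← mul_pow]; norm_num
    rw [this, one_div, inv_pow]
    field_simp
  rw [e2]
  gcongr

lemma kerAt_l1 (H : ℝ → ℝ) (j : ℕ) :
    ∫ z, ‖kerAt H j z‖ = (1 / 2 : ℝ) ^ j * ∫ z, ‖ker H z‖ := by
  have e : kerAt H j = fun w => 2 ^ j * ker H (2 ^ j * w) := rfl
  rw [e]
  simp_rw [norm_mul, norm_pow, Complex.norm_ofNat]
  rw [integral_const_mul, integral_comp_two_pow_mul (fun z => ‖ker H z‖) j, smul_eq_mul,
    ← mul_assoc]
  congr 1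
  have : (4:ℝ) ^ j = 2 ^ j * 2 ^ j := by rw [← mul_pow]; norm_num
  rw [this, one_div, inv_pow]
  field_simp

end H98.Dbar
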