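import Mathlib
import Pool.Agent.H98.Dbar.Nec

/-! # Necessity of the Littlewood-Paley criterion -/

open MeasureTheory Complex Metric Set Filter Topology
open scoped ContDiff ENNReal NNReal Convolution

namespace H98.Dbar

variable {H : ℝ → ℝ}

lemma half_pow_rpow (α : ℝ) (j : ℕ) : ((1 / 2 : ℝ) ^ j) ^ α = ((1 / 2 : ℝ) ^ α) ^ j := by
  rw [← Real.rpow_natCast, ← Real.rpow_mul (by norm_num), mul_comm, Real.rpow_mul (by norm_num),
    Real.rpow_natCast]

lemma geom_sum_le {q : ℝ} (hq0 : 0 ≤ q) (hq1 : q < 1) (J : ℕ) :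
    ∑ j ∈ Finset.range J, q ^ j ≤ 1 / (1 - q) := by
  have h := (summable_geometric_of_lt_one hq0 hq1).sum_le_tsum (Finset.range J)
    (fun i _ => pow_nonneg hq0 i)
  rw [tsum_geometric_of_lt_one hq0 hq1] at h
  rwa [one_div]

lemma geom_min {α : ℝ} (hα : 0 < α) {k : ℕ} (hk : α < k) :
    ∃ C : ℝ, 0 ≤ C ∧ ∀ (J : ℕ) (x : ℝ), 0 ≤ x →
      ∑ j ∈ Finset.range J, ((1 / 2 : ℝ) ^ j) ^ α * min 1 ((2 ^ j * x) ^ k) ≤ C * x ^ α := by
  set q : ℝ := (1 / 2 : ℝ) ^ α with hq
  have hq0 : 0 < q := by rw [hq]; positivity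
  have hq1 : q < 1 := Real.rpow_lt_one (by norm_num) (by norm_num) hα
  set r : ℝ := q * 2 ^ k with hr
  have hr1 : 1 < r := by
    rw [hr, hq, one_div, Real.inv_rpow (by norm_num), ← Real.rpow_neg (by norm_num),
      ← Real.rpow_natCast, ← Real.rpow_add (by norm_num)]
    apply Real.one_lt_rpow (by norm_num)
    linarith
  have h1q : 0 < 1 - q := by linarith
  have hr0 : 0 < r - 1 := by linarith
  refine ⟨2 ^ k / (r - 1) + 1 / (1 - q), by positivity, ?_⟩
  intro J x hx
  have hk0 : k ≠ 0 := by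
    rintro rfl
    simp at hk
    linarith
  simp_rw [half_pow_rpow, ← hq]
  have hterm0 : ∀ j, 0 ≤ q ^ j * min 1 ((2 ^ j * x) ^ k) := fun j => by positivity
  have hterm1 : ∀ j, q ^ j * min 1 ((2 ^ j * x) ^ k) ≤ q ^ j := fun j =>
    mul_le_of_le_one_right (by positivity) (min_le_left _ _)
  rcases hx.eq_or_lt with hx0 | hx0
  · rw [← hx0]
    have : ∑ j ∈ Finset.range J, q ^ j * min 1 (((2:ℝ) ^ j * 0) ^ k) = 0 := by
      apply Finset.sum_eq_zero
      intro j _
      rw [mul_zero, zero_pow hk0]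
      simp
    rw [this]
    positivity
  · by_cases hx1 : x ≤ 1
    · obtain ⟨N, hN1, hN2⟩ := exists_nat_pow_near_of_lt_one hx0 hx1 (y := (1 / 2 : ℝ))
        (by norm_num) (by norm_num)
      have hqN : q ^ (N + 1) ≤ x ^ α := by
        rw [hq, ← half_pow_rpow]
        exact Real.rpow_le_rpow (by positivity) hN1.le hα.le
      have hN3 : (2:ℝ) ^ N * x ≤ 1 := by
        calc (2:ℝ) ^ N * x ≤ 2 ^ N * (1 / 2) ^ N := by gcongr
          _ = 1 := by rw [← mul_pow]; norm_num
      calc ∑ j ∈ Finset.range J, q ^ j * min 1 ((2 ^ j * x) ^ k)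
          ≤ ∑ j ∈ Finset.range ((N + 1) + J), q ^ j * min 1 ((2 ^ j * x) ^ k) := by
            apply Finset.sum_le_sum_of_subset_of_nonneg
            · intro i hi
              simp only [Finset.mem_range] at hi ⊢
              omega
            · intro i _ _; exact hterm0 i
        _ = ∑ j ∈ Finset.range (N + 1), q ^ j * min 1 ((2 ^ j * x) ^ k) +
            ∑ j ∈ Finset.range J, q ^ (N + 1 + j) * min 1 ((2 ^ (N + 1 + j) * x) ^ k) :=
            Finset.sum_range_add _ _ _
        _ ≤ ∑ j ∈ Finset.range (N + 1), r ^ j * x ^ k +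
            ∑ j ∈ Finset.range J, q ^ (N + 1) * q ^ j := by
            apply add_le_add
            · apply Finset.sum_le_sum
              intro j _
              calc q ^ j * min 1 ((2 ^ j * x) ^ k) ≤ q ^ j * ((2 ^ j * x) ^ k) := by
                    gcongr; exact min_le_right _ _
                _ = r ^ j * x ^ k := by
                    rw [hr, mul_pow, mul_pow, ← pow_mul, ← pow_mul, mul_comm j k]; ring
            · apply Finset.sum_le_sum
              intro j _
              rw [← pow_add]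
              exact hterm1 _
        _ ≤ (2 ^ k / (r - 1)) * x ^ α + x ^ α * (1 / (1 - q)) := by
            apply add_le_add
            · rw [← Finset.sum_mul, geom_sum_eq hr1.ne']
              have h5 : r ^ (N + 1) * x ^ k ≤ 2 ^ k * x ^ α := by
                have : r ^ (N + 1) * x ^ k = q ^ (N + 1) * (2 * (2 ^ N * x)) ^ k := by
                  rw [hr, mul_pow, mul_pow, mul_pow, ← pow_mul, ← pow_mul]; ring
                rw [this]
                calc q ^ (N + 1) * (2 * (2 ^ N * x)) ^ k ≤ x ^ α * (2 * 1) ^ k := by gcongr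
                  _ = 2 ^ k * x ^ α := by ring
              rw [div_mul_eq_mul_div, div_mul_eq_mul_div]
              have h6 : 0 ≤ x ^ k := by positivity
              apply div_le_div_of_nonneg_right _ hr0.le
              nlinarith
            · rw [← Finset.mul_sum]
              gcongr
              exact geom_sum_le hq0.le hq1 J
        _ = _ := by ring
    · have hx1' : 1 ≤ x ^ α := Real.one_le_rpow (not_le.1 hx1).le hα.le
      calc ∑ j ∈ Finset.range J, q ^ j * min 1 ((2 ^ j * x) ^ k)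
          ≤ ∑ j ∈ Finset.range J, q ^ j := Finset.sum_le_sum fun j _ => hterm1 j
        _ ≤ 1 / (1 - q) := geom_sum_le hq0.le hq1 J
        _ ≤ (2 ^ k / (r - 1) + 1 / (1 - q)) * 1 := by
            have : 0 ≤ 2 ^ k / (r - 1) := by positivity
            linarith
        _ ≤ _ := by gcongr

/-- Truncated sign function. -/
noncomputable def sg (F : ℂ → ℝ) (R : ℝ) (z : ℂ) : ℂ :=
  if ‖z‖ ≤ R then (if 0 ≤ F z then 1 else -1) else 0

lemma sg_bm {F : ℂ → ℝ} (hF : Measurable F) (R : ℝ) : Bm (sg F R) 1 where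
  meas := by
    unfold sg
    apply Measurable.ite (measurableSet_le measurable_norm measurable_const)
    · exact Measurable.ite (measurableSet_le measurable_const hF) measurable_const measurable_const
    · exact measurable_const
  bd z := by
    unfold sg
    split_ifs <;> simp

lemma sg_supp (F : ℂ → ℝ) (R : ℝ) : HasCompactSupport (sg F R) := by
  refine HasCompactSupport.of_support_subset_isCompact (isCompact_closedBall (0:ℂ) R) ?_
  intro z hz
  rw [Function.mem_support] at hz
  rw [mem_closedBall, dist_zero_right]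
  by_contra h
  apply hz
  unfold sg
  rw [if_neg h]

lemma sg_integrable {F : ℂ → ℝ} (hF : Measurable F) (R : ℝ) : Integrable (sg F R) := by
  have h1 : IntegrableOn (fun _ : ℂ => (1 : ℝ)) (closedBall (0:ℂ) R) :=
    integrableOn_const (measure_closedBall_lt_top.ne)
  rw [← integrable_indicator_iff measurableSet_closedBall] at h1
  refine h1.mono' (sg_bm hF R).meas.aestronglyMeasurable ?_
  filter_upwards with z
  by_cases hz : z ∈ closedBall (0:ℂ) R
  · rw [indicator_of_mem hz]; exact (sg_bm hF R).bd z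
  · rw [indicator_of_notMem hz]
    rw [mem_closedBall, dist_zero_right] at hz
    unfold sg
    rw [if_neg hz]
    simp

lemma mul_sg (F : ℂ → ℝ) (R : ℝ) (z : ℂ) :
    (F z : ℂ) * sg F R z = (((closedBall (0:ℂ) R).indicator (fun z => ‖F z‖) z : ℝ) : ℂ) := by
  by_cases hz : z ∈ closedBall (0:ℂ) R
  · rw [indicator_of_mem hz]
    rw [mem_closedBall, dist_zero_right] at hz
    unfold sg
    rw [if_pos hz]
    by_cases h0 : 0 ≤ F z
    · rw [if_pos h0, Real.norm_eq_abs, abs_of_nonneg h0]; simp
    · rw [if_neg h0, Real.norm_eq_abs, abs_of_neg (not_le.1 h0)]; simp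
  · rw [indicator_of_notMem hz]
    rw [mem_closedBall, dist_zero_right] at hz
    unfold sg
    rw [if_neg hz]
    simp

lemma integral_mul_sg (F : ℂ → ℝ) (R : ℝ) :
    ∫ z, (F z : ℂ) * sg F R z = ((∫ z in closedBall (0:ℂ) R, ‖F z‖ : ℝ) : ℂ) := by
  simp_rw [mul_sg]
  rw [integral_complex_ofReal, integral_indicator measurableSet_closedBall]

/-- Generalised pairing with the mollified difference. -/
lemma pair_diff' (hH : IsProfile H) {Ω : Set ℂ} (hΩ : MeasurableSet Ω) (j : ℕ) {G : ℂ → ℂ}
    (hG : Integrable G) (hGc : HasCompactSupport G) :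
    ∫ z, chi Ω z * (cv (bumpC H (j + 1)) G z - cv (bumpC H j) G z) =
      ∫ z, ((moll H (j + 1) Ω z : ℂ) - (moll H j Ω z : ℂ)) * G z := by
  have hφ : ∀ j, bumpC H j ∈ V := fun j => (bV hH j).2
  have hi : ∀ j, Integrable (fun z => chi Ω z * cv (bumpC H j) G z) := fun j =>
    integrable_chi_mul hΩ (V_integrable (cv_mem_V (hφ j) hG.locallyIntegrable hGc))
  simp_rw [mul_sub]
  rw [integral_sub (hi _) (hi _), adj (hφ _) (chi_bm hΩ) hG, adj (hφ _) (chi_bm hΩ) hG]
  have en : ∀ j, (fun u => bumpC H j (-u)) = bumpC H j := fun j => by ext u; exact bumpC_neg j u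
  rw [en, en]
  have hb : ∀ j, Integrable (fun w => cv (bumpC H j) (chi Ω) w * G w) := by
    intro j
    refine hG.bdd_mul (c := 1) (cv_contDiff (hφ j) (chi_bm hΩ).locInt).continuous.aestronglyMeasurable
      (Eventually.of_forall fun z => ?_)
    have := cv_bound (V_integrable (hφ j)) (chi_bm hΩ).bd z
    rwa [show (∫ w, ‖bumpC H j w‖) = 1 from (bV_prob hH j).intNorm, one_mul] at this
  rw [← integral_sub (hb _) (hb _)]
  congr 1
  ext z
  rw [moll_eq hΩ, moll_eq hΩ]
  ring

/-- Pairing functional. -/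
noncomputable def chiL {Ω : Set ℂ} (hΩ : MeasurableSet Ω) : V →ₗ[ℂ] ℂ where
  toFun g := ∫ z, chi Ω z * g.1 z
  map_add' f g := by
    rw [← integral_add (integrable_chi_mul hΩ (V_integrable f.2))
      (integrable_chi_mul hΩ (V_integrable g.2))]
    congr 1
    ext z
    have : (f + g).1 z = f.1 z + g.1 z := rfl
    rw [this]; ring
  map_smul' c f := by
    rw [RingHom.id_apply, smul_eq_mul, ← integral_const_mul]
    congr 1
    ext z
    have : (c • f).1 z = c * f.1 z := rfl
    rw [this]; ring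

lemma chiL_apply {Ω : Set ℂ} (hΩ : MeasurableSet Ω) (g : V) :
    chiL hΩ g = ∫ z, chi Ω z * g.1 z := rfl

/-- Difference operator. -/
noncomputable def fdOp (h : ℂ) : Module.End ℂ V := tau (-h) - 1

lemma fdOp_pow (h : ℂ) (k : ℕ) (f : V) : (((fdOp h) ^ k) f).1 = (fwdDiff h)^[k] f.1 := by
  induction k generalizing f with
  | zero => rfl
  | succ k ih =>
    rw [pow_succ, Module.End.mul_apply, ih, Function.iterate_succ_apply]
    congr 1
    ext z
    change f.1 (z - (-h)) - f.1 z = f.1 (z + h) - f.1 z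
    rw [sub_neg_eq_add]

lemma fd_cv {κ G : ℂ → ℂ} (hκ : κ ∈ V) (hG : LocallyIntegrable G) (h : ℂ) :
    fwdDiff h (cv κ G) = cv (fwdDiff h κ) G := by
  ext z
  change cv κ G (z + h) - cv κ G z = _
  rw [cv_swap, cv_swap, cv_swap, ← integral_sub (cv_integrand' hκ hG _) (cv_integrand' hκ hG _)]
  congr 1
  ext w
  change _ = (κ (z - w + h) - κ (z - w)) * G w
  rw [← sub_mul]
  congr 3
  ring

lemma fdk_cv {κ G : ℂ → ℂ} (hκ : κ ∈ V) (hG : LocallyIntegrable G) (h : ℂ) (k : ℕ) :
    (fwdDiff h)^[k] (cv κ G) = cv ((fwdDiff h)^[k] κ) G := by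
  induction k generalizing κ with
  | zero => rfl
  | succ k ih =>
    rw [Function.iterate_succ_apply, Function.iterate_succ_apply, fd_cv hκ hG, ih (fd_mem_V hκ h)]

end H98.Dbar
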