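import Mathlib
import Pool.Agent.H98.Dbar.Nec2

/-! # Necessity of the Littlewood-Paley criterion: main estimates -/

open MeasureTheory Complex Metric Set Filter Topology
open scoped ContDiff ENNReal NNReal Convolution

namespace H98.Dbar

variable {H : ℝ → ℝ}

lemma sum_smul_le (N : Seminorm ℂ V) (c : ℕ → ℝ) (hc : ∀ j, 0 ≤ c j) (F : ℕ → V) (M : ℕ → ℝ)
    (hM : ∀ j, N (F j) ≤ M j) (J : ℕ) :
    N (∑ j ∈ Finset.range J, ((c j : ℝ) : ℂ) • F j) ≤ ∑ j ∈ Finset.range J, c j * M j := by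
  induction J with
  | zero => simp
  | succ J ih =>
    rw [Finset.sum_range_succ, Finset.sum_range_succ]
    refine (map_add_le_add N _ _).trans (add_le_add ih ?_)
    rw [map_smul_eq_mul, Complex.norm_real, Real.norm_eq_abs, abs_of_nonneg (hc J)]
    exact mul_le_mul_of_nonneg_left (hM J) (hc J)

/-- The real difference. -/
noncomputable def dj (H : ℝ → ℝ) (Ω : Set ℂ) (j : ℕ) (z : ℂ) : ℝ :=
  moll H (j + 1) Ω z - moll H j Ω z

lemma dj_cont (hH : IsProfile H) {Ω : Set ℂ} (hΩ : MeasurableSet Ω) (j : ℕ) :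
    Continuous (dj H Ω j) :=
  (moll_contDiff hH hΩ (j + 1)).continuous.sub (moll_contDiff hH hΩ j).continuous

theorem nec_high (hH : IsProfile H) {α : ℝ} (hα : 0 < α) {k : ℕ} (hk : α < k) {Ω : Set ℂ}
    (hΩ : MeasurableSet Ω) (h : AdmW α k Ω) : ∃ C' : ℝ, 0 ≤ C' ∧ ∀ (J : ℕ) (R : ℝ),
    ∑ j ∈ Finset.range J, (2:ℝ) ^ ((1 - α) * j) * ∫ z in closedBall (0:ℂ) R, ‖dj H Ω j z‖ ≤ C' := by
  obtain ⟨C, hC0, hC⟩ := h
  obtain ⟨M, hM0, hM⟩ := kerAt_fdk hH k
  obtain ⟨Cg, hCg0, hCg⟩ := geom_min hα hk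
  set q : ℝ := (1 / 2 : ℝ) ^ α with hq
  have hq0 : 0 < q := by rw [hq]; positivity
  have hq1 : q < 1 := Real.rpow_lt_one (by norm_num) (by norm_num) hα
  have h1q : 0 < 1 - q := by linarith
  set I0 : ℝ := ∫ z, ‖ker H z‖ with hI0
  have hI00 : 0 ≤ I0 := integral_nonneg fun _ => norm_nonneg _
  have hc : ∀ j : ℕ, (2:ℝ) ^ ((1 - α) * j) * (1 / 2 : ℝ) ^ j = ((1 / 2 : ℝ) ^ j) ^ α := by
    intro j
    rw [← weight_eq]
    have : (2:ℝ) ^ j * (1 / 2) ^ j = 1 := by rw [← mul_pow]; norm_num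
    calc _ = (2 ^ j * (1 / 2) ^ j) * ((1 / 2 : ℝ) ^ j) ^ α := by ring
      _ = _ := by rw [this, one_mul]
  refine ⟨C * (I0 * (1 / (1 - q)) + M * Cg), by positivity, ?_⟩
  intro J R
  have hkV : ∀ j, kerAt H j ∈ V := fun j => ⟨kerAt_contDiff hH j, kerAt_hasCompactSupport hH j⟩
  have hsgl : ∀ j, LocallyIntegrable (sg (dj H Ω j) R) := fun j =>
    (sg_bm (dj_cont hH hΩ j).measurable R).locInt
  set F : ℕ → V := fun j => ⟨cv (kerAt H j) (sg (dj H Ω j) R),
    cv_mem_V (hkV j) (hsgl j) (sg_supp _ _)⟩ with hF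
  set c : ℕ → ℝ := fun j => (2:ℝ) ^ ((1 - α) * j) with hcdef
  have hc0 : ∀ j, 0 ≤ c j := fun j => by rw [hcdef]; positivity
  set f : V := ∑ j ∈ Finset.range J, ((c j : ℝ) : ℂ) • F j with hf
  have hsup : ∀ j, supN (F j) ≤ (1 / 2 : ℝ) ^ j * I0 := by
    intro j
    apply supN_le
    intro z
    have := cv_bound (V_integrable (hkV j)) (sg_bm (dj_cont hH hΩ j).measurable R).bd z
    rw [mul_one, kerAt_l1] at this
    exact this
  have hA : ∀ z, ‖f.1 z‖ ≤ I0 * (1 / (1 - q)) := by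
    intro z
    refine (le_supN f z).trans ?_
    refine (sum_smul_le supN c hc0 F _ hsup J).trans ?_
    calc ∑ j ∈ Finset.range J, c j * ((1 / 2 : ℝ) ^ j * I0)
        = I0 * ∑ j ∈ Finset.range J, q ^ j := by
          rw [Finset.mul_sum]
          apply Finset.sum_congr rfl
          intro j _
          rw [← mul_assoc, hcdef]
          simp only
          rw [hc, half_pow_rpow, mul_comm]
      _ ≤ I0 * (1 / (1 - q)) := by
          gcongr
          exact geom_sum_le hq0.le hq1 J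
  have hB : ∀ h z, ‖(fwdDiff h)^[k] f.1 z‖ ≤ (M * Cg) * ‖h‖ ^ α := by
    intro h z
    rw [← fdOp_pow]
    have e1 : ((fdOp h) ^ k) f = ∑ j ∈ Finset.range J, ((c j : ℝ) : ℂ) • ((fdOp h) ^ k) (F j) := by
      rw [hf, map_sum]
      simp_rw [map_smul]
    refine (le_supN _ z).trans ?_
    rw [e1]
    refine (sum_smul_le supN c hc0 (fun j => ((fdOp h) ^ k) (F j))
      (fun j => (1 / 2 : ℝ) ^ j * (M * min 1 ((2 ^ j * ‖h‖) ^ k))) ?_ J).trans ?_
    · intro j
      apply supN_le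
      intro z
      rw [fdOp_pow]
      have e2 : (fwdDiff h)^[k] (F j).1 = cv ((fwdDiff h)^[k] (kerAt H j)) (sg (dj H Ω j) R) :=
        fdk_cv (hkV j) (hsgl j) h k
      rw [e2]
      have := cv_bound (V_integrable (fdk_mem_V (hkV j) h k))
        (sg_bm (dj_cont hH hΩ j).measurable R).bd z
      rw [mul_one] at this
      exact this.trans (hM j h)
    · calc ∑ j ∈ Finset.range J, c j * ((1 / 2 : ℝ) ^ j * (M * min 1 ((2 ^ j * ‖h‖) ^ k)))
          = M * ∑ j ∈ Finset.range J, ((1 / 2 : ℝ) ^ j) ^ α * min 1 ((2 ^ j * ‖h‖) ^ k) := by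
            rw [Finset.mul_sum]
            apply Finset.sum_congr rfl
            intro j _
            rw [← hc, hcdef]
            ring
        _ ≤ M * (Cg * ‖h‖ ^ α) := by
            gcongr
            exact hCg J ‖h‖ (norm_nonneg h)
        _ = (M * Cg) * ‖h‖ ^ α := by ring
  have hmain := hC f (I0 * (1 / (1 - q))) (M * Cg) (by positivity) (by positivity) hA hB
  have e0 : ∫ z in Ω, dbar f.1 z = chiL hΩ (dOp f) := by
    rw [chiL_apply]
    exact setIntegral_chi hΩ _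
  have e1 : chiL hΩ (dOp f) = ∑ j ∈ Finset.range J, ((c j : ℝ) : ℂ) * chiL hΩ (dOp (F j)) := by
    rw [hf, map_sum, map_sum]
    simp_rw [map_smul, smul_eq_mul]
  have e2 : ∀ j, chiL hΩ (dOp (F j)) = ((∫ z in closedBall (0:ℂ) R, ‖dj H Ω j z‖ : ℝ) : ℂ) := by
    intro j
    rw [chiL_apply]
    have e3 : ∀ z, (dOp (F j)).1 z = cv (bumpC H (j + 1)) (sg (dj H Ω j) R) z -
        cv (bumpC H j) (sg (dj H Ω j) R) z := by
      intro z
      change dbar (cv (kerAt H j) (sg (dj H Ω j) R)) z = _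
      rw [dbar_cv_left (hkV j) (hsgl j)]
      have e4 : dbar (kerAt H j) = fun w => bumpC H (j + 1) w - bumpC H j w := by
        ext w; exact dbar_kerAt hH j w
      rw [e4]
      exact cv_sub_left (bV hH (j + 1)).2 (bV hH j).2 (hsgl j) z
    simp_rw [e3]
    rw [pair_diff' hH hΩ j (sg_integrable (dj_cont hH hΩ j).measurable R) (sg_supp _ _)]
    rw [← integral_mul_sg]
    congr 1
    ext z
    unfold dj
    push_cast
    rfl
  rw [e0, e1] at hmain
  simp_rw [e2] at hmain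
  have e5 : (∑ j ∈ Finset.range J, ((c j : ℝ) : ℂ) *
      ((∫ z in closedBall (0:ℂ) R, ‖dj H Ω j z‖ : ℝ) : ℂ)) =
      ((∑ j ∈ Finset.range J, c j * ∫ z in closedBall (0:ℂ) R, ‖dj H Ω j z‖ : ℝ) : ℂ) := by
    push_cast
    rfl
  rw [e5, Complex.norm_real, Real.norm_eq_abs] at hmain
  exact (le_abs_self _).trans hmain

theorem crit_high (hH : IsProfile H) {α : ℝ} (hα : 0 < α) {k : ℕ} (hk : α < k) {Ω : Set ℂ}
    (hΩ : MeasurableSet Ω) (h : AdmW α k Ω) :
    (∑' j : ℕ, ENNReal.ofReal ((2:ℝ) ^ ((1 - α) * j)) *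
    ∫⁻ z, ‖moll H (j + 1) Ω z - moll H j Ω z‖ₑ) < ⊤ := by
  obtain ⟨C', hC'0, hC'⟩ := nec_high hH hα hk hΩ h
  have key : ∀ J : ℕ, ∑ j ∈ Finset.range J, ENNReal.ofReal ((2:ℝ) ^ ((1 - α) * j)) *
      ∫⁻ z, ‖moll H (j + 1) Ω z - moll H j Ω z‖ₑ ≤ ENNReal.ofReal C' := by
    intro J
    have hlim : Tendsto (fun n : ℕ => ∑ j ∈ Finset.range J, ENNReal.ofReal ((2:ℝ) ^ ((1 - α) * j)) *
        ∫⁻ z in closedBall (0:ℂ) n, ‖moll H (j + 1) Ω z - moll H j Ω z‖ₑ) atTop
        (𝓝 (∑ j ∈ Finset.range J, ENNReal.ofReal ((2:ℝ) ^ ((1 - α) * j)) *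
          ∫⁻ z, ‖moll H (j + 1) Ω z - moll H j Ω z‖ₑ)) := by
      apply tendsto_finsetSum
      intro j _
      apply ENNReal.Tendsto.const_mul
      · exact (aecover_closedBall (μ := volume) (x := (0:ℂ)) tendsto_natCast_atTop_atTop).lintegral_tendsto_of_countably_generated
          ((dj_cont hH hΩ j).measurable.enorm.aemeasurable)
      · right; exact ENNReal.ofReal_ne_top
    refine le_of_tendsto' hlim ?_
    intro n
    have h1 : ∀ j : ℕ, ENNReal.ofReal ((2:ℝ) ^ ((1 - α) * j)) *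
        ∫⁻ z in closedBall (0:ℂ) n, ‖moll H (j + 1) Ω z - moll H j Ω z‖ₑ =
        ENNReal.ofReal ((2:ℝ) ^ ((1 - α) * j) * ∫ z in closedBall (0:ℂ) n, ‖dj H Ω j z‖) := by
      intro j
      rw [ENNReal.ofReal_mul (by positivity)]
      congr 1
      have hint : IntegrableOn (dj H Ω j) (closedBall (0:ℂ) n) :=
        (dj_cont hH hΩ j).continuousOn.integrableOn_compact (isCompact_closedBall _ _)
      exact (ofReal_integral_norm_eq_lintegral_enorm hint).symm
    simp_rw [h1]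
    rw [← ENNReal.ofReal_sum_of_nonneg]
    · exact ENNReal.ofReal_le_ofReal (hC' J n)
    · intro j _
      exact mul_nonneg (by positivity) (integral_nonneg fun _ => norm_nonneg _)
  exact lt_of_le_of_lt (ENNReal.tsum_le_of_sum_range_le key) ENNReal.ofReal_lt_top

end H98.Dbar
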