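import Mathlib
import Pool.Agent.H98.Dbar.Nec3

/-! # Necessity of the gradient condition, and the criterion -/

open MeasureTheory Complex Metric Set Filter Topology
open scoped ContDiff ENNReal NNReal Convolution

namespace H98.Dbar

variable {H : ℝ → ℝ}

/-- Real truncated sign. -/
noncomputable def sgr (F : ℂ → ℝ) (R : ℝ) (z : ℂ) : ℝ :=
  if ‖z‖ ≤ R then (if 0 ≤ F z then 1 else -1) else 0

lemma sg_eq_sgr (F : ℂ → ℝ) (R : ℝ) (z : ℂ) : sg F R z = (sgr F R z : ℂ) := by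
  unfold sg sgr
  split_ifs <;> simp

lemma sgr_meas {F : ℂ → ℝ} (hF : Measurable F) (R : ℝ) : Measurable (sgr F R) := by
  unfold sgr
  apply Measurable.ite (measurableSet_le measurable_norm measurable_const)
  · exact Measurable.ite (measurableSet_le measurable_const hF) measurable_const measurable_const
  · exact measurable_const

lemma mul_sgr_self (F : ℂ → ℝ) (R : ℝ) (z : ℂ) :
    F z * sgr F R z = (closedBall (0:ℂ) R).indicator (fun z => ‖F z‖) z := by
  have := mul_sg F R z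
  rw [sg_eq_sgr] at this
  exact_mod_cast this

lemma cont_mul_sgr_integrable {F : ℂ → ℝ} (hF : Continuous F) {G : ℂ → ℝ} (hG : Measurable G)
    (R : ℝ) : Integrable (fun z => F z * sgr G R z) := by
  have h1 : IntegrableOn F (closedBall (0:ℂ) R) :=
    hF.continuousOn.integrableOn_compact (isCompact_closedBall _ _)
  rw [← integrable_indicator_iff measurableSet_closedBall] at h1
  refine h1.norm.mono' (hF.measurable.mul (sgr_meas hG R)).aestronglyMeasurable ?_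
  filter_upwards with z
  by_cases hz : z ∈ closedBall (0:ℂ) R
  · rw [indicator_of_mem hz, norm_mul]
    calc ‖F z‖ * ‖sgr G R z‖ ≤ ‖F z‖ * 1 := by
          gcongr
          unfold sgr
          split_ifs <;> simp
      _ = ‖F z‖ := mul_one _
  · rw [indicator_of_notMem hz]
    rw [mem_closedBall, dist_zero_right] at hz
    unfold sgr
    rw [if_neg hz]
    simp

/-- Generalised low frequency pairing. -/
lemma pair_low' (hH : IsProfile H) {Ω : Set ℂ} (hΩ : MeasurableSet Ω) {G : ℂ → ℂ}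
    (hG : Integrable G) :
    ∫ z, chi Ω z * cv (dbar (bumpC H 0)) G z =
      - ∫ z, dbar (fun z => (moll H 0 Ω z : ℂ)) z * G z := by
  have hφ : bumpC H 0 ∈ V := (bV hH 0).2
  rw [adj (dbar_mem_V hφ) (chi_bm hΩ) hG, ← integral_neg]
  congr 1
  ext z
  have e2 : (fun u => dbar (bumpC H 0) (-u)) = fun u => - dbar (bumpC H 0) u := by
    ext u
    exact dbar_neg_even (V_differentiable hφ) (bumpC_neg 0) u
  rw [e2]
  have e3 : (fun z => (moll H 0 Ω z : ℂ)) = cv (bumpC H 0) (chi Ω) := by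
    ext z; exact moll_eq hΩ 0 z
  rw [e3, dbar_cv_left hφ (chi_bm hΩ).locInt]
  unfold cv
  rw [← neg_mul, ← integral_neg]
  congr 2
  ext w
  ring

lemma dbar_real (u : ℂ → ℝ) (z : ℂ) (hu : DifferentiableAt ℝ u z) :
    dbar (fun w => (u w : ℂ)) z =
      (1 / 2 : ℂ) * ((fderiv ℝ u z 1 : ℝ) + I * (fderiv ℝ u z I : ℝ)) := by
  have h0 : fderiv ℝ (fun w => (u w : ℂ)) z = Complex.ofRealCLM.comp (fderiv ℝ u z) :=
    (Complex.ofRealCLM.hasFDerivAt.comp z hu.hasFDerivAt).fderiv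
  unfold dbar
  rw [h0]; simp

lemma min_one_pow_le {α : ℝ} (hα : 0 < α) {k : ℕ} (hk : α < k) {x : ℝ} (hx : 0 ≤ x) :
    min 1 (x ^ k) ≤ x ^ α := by
  by_cases h1 : x ≤ 1
  · refine (min_le_right _ _).trans ?_
    rcases hx.eq_or_lt with h0 | h0
    · rw [← h0, Real.zero_rpow hα.ne', zero_pow]
      rintro rfl
      simp at hk
      linarith
    · rw [← Real.rpow_natCast]
      exact Real.rpow_le_rpow_of_exponent_ge h0 h1 hk.le
  · exact (min_le_left _ _).trans (Real.one_le_rpow (not_le.1 h1).le hα.le)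

theorem nec_low (hH : IsProfile H) {α : ℝ} (hα : 0 < α) {k : ℕ} (hk : α < k) {Ω : Set ℂ}
    (hΩ : MeasurableSet Ω) (h : AdmW α k Ω) : ∃ C' : ℝ, 0 ≤ C' ∧ ∀ (v : ℂ), (v = 1 ∨ v = I) →
    ∀ (R : ℝ), ∫ z in closedBall (0:ℂ) R, ‖fderiv ℝ (moll H 0 Ω) z v‖ ≤ C' := by
  obtain ⟨C, hC0, hC⟩ := h
  have hφ : bumpC H 0 ∈ V := (bV hH 0).2
  obtain ⟨M, hM0, hM⟩ := fdk_l1_bound hφ k
  refine ⟨2 * (C * (1 + M)), by positivity, ?_⟩
  intro v hv R
  set u := moll H 0 Ω with hu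
  have hus : ContDiff ℝ ∞ u := moll_contDiff hH hΩ 0
  have hud : Differentiable ℝ u := hus.differentiable (by simp)
  have hcont : ∀ w : ℂ, Continuous (fun z => fderiv ℝ u z w) := fun w =>
    (hus.continuous_fderiv (by simp)).clm_apply continuous_const
  set F : ℂ → ℝ := fun z => fderiv ℝ u z v with hF
  have hFm : Measurable F := (hcont v).measurable
  have hsgl : LocallyIntegrable (sg F R) := (sg_bm hFm R).locInt
  set f : V := ⟨cv (bumpC H 0) (sg F R), cv_mem_V hφ hsgl (sg_supp _ _)⟩ with hf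
  have hA : ∀ z, ‖f.1 z‖ ≤ 1 := by
    intro z
    have := cv_bound (V_integrable hφ) (sg_bm hFm R).bd z
    rw [mul_one, show (∫ w, ‖bumpC H 0 w‖) = 1 from (bV_prob hH 0).intNorm] at this
    exact this
  have hB : ∀ h z, ‖(fwdDiff h)^[k] f.1 z‖ ≤ M * ‖h‖ ^ α := by
    intro h z
    have e2 : (fwdDiff h)^[k] f.1 = cv ((fwdDiff h)^[k] (bumpC H 0)) (sg F R) :=
      fdk_cv hφ hsgl h k
    rw [e2]
    have := cv_bound (V_integrable (fdk_mem_V hφ h k)) (sg_bm hFm R).bd z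
    rw [mul_one] at this
    refine this.trans ((hM h).trans ?_)
    gcongr
    exact min_one_pow_le hα hk (norm_nonneg h)
  have hmain := hC f 1 M (by norm_num) hM0 hA hB
  have e0 : ∫ z in Ω, dbar f.1 z = - ∫ z, dbar (fun z => (u z : ℂ)) z * sg F R z := by
    rw [setIntegral_chi hΩ, ← pair_low' hH hΩ (sg_integrable hFm R)]
    congr 1
    ext z
    rw [← dbar_cv_left hφ hsgl]
  have e1 : ∀ z, dbar (fun z => (u z : ℂ)) z * sg F R z =
      (1 / 2 : ℂ) * (((fderiv ℝ u z 1 * sgr F R z : ℝ) : ℂ) +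
        I * ((fderiv ℝ u z I * sgr F R z : ℝ) : ℂ)) := by
    intro z
    rw [dbar_real u z (hud z), sg_eq_sgr]
    push_cast
    ring
  have e2 : ∫ z, dbar (fun z => (u z : ℂ)) z * sg F R z =
      (1 / 2 : ℂ) * (((∫ z, fderiv ℝ u z 1 * sgr F R z : ℝ) : ℂ) +
        I * ((∫ z, fderiv ℝ u z I * sgr F R z : ℝ) : ℂ)) := by
    simp_rw [e1]
    rw [integral_const_mul, integral_add, integral_const_mul, integral_complex_ofReal,
      integral_complex_ofReal]
    · exact (cont_mul_sgr_integrable (hcont 1) hFm R).ofReal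
    · exact ((cont_mul_sgr_integrable (hcont I) hFm R).ofReal).const_mul I
  rw [e0, norm_neg, e2] at hmain
  set a : ℝ := ∫ z, fderiv ℝ u z 1 * sgr F R z with ha
  set b : ℝ := ∫ z, fderiv ℝ u z I * sgr F R z with hb
  have hre : |a| ≤ 2 * (C * (1 + M)) := by
    have h1 := Complex.abs_re_le_norm ((1 / 2 : ℂ) * ((a : ℂ) + I * (b : ℂ)))
    have h2 : ((1 / 2 : ℂ) * ((a : ℂ) + I * (b : ℂ))).re = 1 / 2 * a := by
      simp [Complex.mul_re, Complex.mul_im]
    rw [h2, abs_mul, abs_of_pos (by norm_num : (0:ℝ) < 1 / 2)] at h1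
    linarith
  have him : |b| ≤ 2 * (C * (1 + M)) := by
    have h1 := Complex.abs_im_le_norm ((1 / 2 : ℂ) * ((a : ℂ) + I * (b : ℂ)))
    have h2 : ((1 / 2 : ℂ) * ((a : ℂ) + I * (b : ℂ))).im = 1 / 2 * b := by
      simp [Complex.mul_re, Complex.mul_im]
    rw [h2, abs_mul, abs_of_pos (by norm_num : (0:ℝ) < 1 / 2)] at h1
    linarith
  have e3 : ∫ z in closedBall (0:ℂ) R, ‖F z‖ = ∫ z, F z * sgr F R z := by
    simp_rw [mul_sgr_self]
    rw [integral_indicator measurableSet_closedBall]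
  change ∫ z in closedBall (0:ℂ) R, ‖F z‖ ≤ _
  rw [e3]
  rcases hv with hv | hv
  · have : ∫ z, F z * sgr F R z = a := by rw [ha, hF, hv]
    rw [this]
    exact (le_abs_self a).trans hre
  · have : ∫ z, F z * sgr F R z = b := by rw [hb, hF, hv]
    rw [this]
    exact (le_abs_self b).trans him

lemma norm_le_parts (T : ℂ →L[ℝ] ℝ) : ‖T‖ ≤ ‖T 1‖ + ‖T I‖ := by
  refine ContinuousLinearMap.opNorm_le_bound _ (by positivity) ?_
  intro w
  have hw : T w = w.re * T 1 + w.im * T I := by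
    conv_lhs => rw [← Complex.re_add_im w]
    rw [map_add]
    have e1 : ((w.re : ℂ)) = w.re • (1 : ℂ) := by simp
    have e2 : ((w.im : ℂ)) * I = w.im • I := by simp
    rw [e1, e2, map_smul, map_smul]
    simp
  rw [hw]
  calc ‖w.re * T 1 + w.im * T I‖ ≤ ‖w.re * T 1‖ + ‖w.im * T I‖ := norm_add_le _ _
    _ ≤ ‖w‖ * ‖T 1‖ + ‖w‖ * ‖T I‖ := by
        rw [norm_mul, norm_mul]
        gcongr
        · exact Complex.abs_re_le_norm w
        · exact Complex.abs_im_le_norm w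
    _ = _ := by ring

theorem crit_low (hH : IsProfile H) {α : ℝ} (hα : 0 < α) {k : ℕ} (hk : α < k) {Ω : Set ℂ}
    (hΩ : MeasurableSet Ω) (h : AdmW α k Ω) :
    (∫⁻ z, ‖fderiv ℝ (moll H 0 Ω) z‖ₑ) < ⊤ := by
  obtain ⟨C', hC'0, hC'⟩ := nec_low hH hα hk hΩ h
  have hus : ContDiff ℝ ∞ (moll H 0 Ω) := moll_contDiff hH hΩ 0
  have hcd : Continuous (fun z => fderiv ℝ (moll H 0 Ω) z) := hus.continuous_fderiv (by simp)
  have hlim : Tendsto (fun n : ℕ => ∫⁻ z in closedBall (0:ℂ) n, ‖fderiv ℝ (moll H 0 Ω) z‖ₑ) atTop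
      (𝓝 (∫⁻ z, ‖fderiv ℝ (moll H 0 Ω) z‖ₑ)) :=
    (aecover_closedBall (μ := volume) (x := (0:ℂ))
      tendsto_natCast_atTop_atTop).lintegral_tendsto_of_countably_generated
      hcd.measurable.enorm.aemeasurable
  have key : ∀ n : ℕ, ∫⁻ z in closedBall (0:ℂ) n, ‖fderiv ℝ (moll H 0 Ω) z‖ₑ ≤
      ENNReal.ofReal (C' + C') := by
    intro n
    have hcont : ∀ w : ℂ, Continuous (fun z => fderiv ℝ (moll H 0 Ω) z w) := fun w =>
      hcd.clm_apply continuous_const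
    have hint : ∀ w : ℂ, IntegrableOn (fun z => fderiv ℝ (moll H 0 Ω) z w) (closedBall (0:ℂ) n) :=
      fun w => (hcont w).continuousOn.integrableOn_compact (isCompact_closedBall _ _)
    calc ∫⁻ z in closedBall (0:ℂ) n, ‖fderiv ℝ (moll H 0 Ω) z‖ₑ
        ≤ ∫⁻ z in closedBall (0:ℂ) n, (‖fderiv ℝ (moll H 0 Ω) z 1‖ₑ +
          ‖fderiv ℝ (moll H 0 Ω) z I‖ₑ) := by
          apply lintegral_mono
          intro z
          have h1 := norm_le_parts (fderiv ℝ (moll H 0 Ω) z)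
          change ‖fderiv ℝ (moll H 0 Ω) z‖ₑ ≤ ‖fderiv ℝ (moll H 0 Ω) z 1‖ₑ +
            ‖fderiv ℝ (moll H 0 Ω) z I‖ₑ
          rw [← ofReal_norm, ← ofReal_norm, ← ofReal_norm,
            ← ENNReal.ofReal_add (norm_nonneg _) (norm_nonneg _)]
          exact ENNReal.ofReal_le_ofReal h1
      _ = (∫⁻ z in closedBall (0:ℂ) n, ‖fderiv ℝ (moll H 0 Ω) z 1‖ₑ) +
          ∫⁻ z in closedBall (0:ℂ) n, ‖fderiv ℝ (moll H 0 Ω) z I‖ₑ :=
          lintegral_add_left ((hcont 1).measurable.enorm) _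
      _ = ENNReal.ofReal (∫ z in closedBall (0:ℂ) n, ‖fderiv ℝ (moll H 0 Ω) z 1‖) +
          ENNReal.ofReal (∫ z in closedBall (0:ℂ) n, ‖fderiv ℝ (moll H 0 Ω) z I‖) := by
          rw [ofReal_integral_norm_eq_lintegral_enorm (hint 1),
            ofReal_integral_norm_eq_lintegral_enorm (hint I)]
      _ ≤ ENNReal.ofReal C' + ENNReal.ofReal C' := by
          gcongr
          · exact hC' 1 (Or.inl rfl) n
          · exact hC' I (Or.inr rfl) n
      _ = ENNReal.ofReal (C' + C') := (ENNReal.ofReal_add hC'0 hC'0).symm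
  exact lt_of_le_of_lt (le_of_tendsto' hlim key) ENNReal.ofReal_lt_top

/-- **The criterion.** -/
theorem adm_iff_crit (hH : IsProfile H) {α : ℝ} (hα : 0 < α) {k : ℕ} (hk : α < k) {Ω : Set ℂ}
    (hΩ : MeasurableSet Ω) : AdmW α k Ω ↔ Crit H α Ω :=
  ⟨fun h => ⟨crit_low hH hα hk hΩ h, crit_high hH hα hk hΩ h⟩, sufficiency hH hα hΩ⟩

end H98.Dbar
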