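import Mathlib
import Pool.Agent.H98.Dbar.Nec4

/-! # Fractional perimeter -/

open MeasureTheory Complex Metric Set Filter Topology
open scoped ContDiff ENNReal NNReal Convolution

namespace H98.Dbar

variable {H : ℝ → ℝ}

/-- The local fractional perimeter. -/
noncomputable def fracPer (α : ℝ) (Ω : Set ℂ) : ℝ≥0∞ :=
  ∫⁻ z in Ω, ∫⁻ w in Ωᶜ ∩ ball z 1, ENNReal.ofReal (‖z - w‖ ^ (α - 3))

/-- `‖χ(·+h) - χ‖₁`. -/
noncomputable def Wf (Ω : Set ℂ) (h : ℂ) : ℝ≥0∞ := ∫⁻ z, ‖chi Ω (z + h) - chi Ω z‖ₑ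

lemma chi_meas {Ω : Set ℂ} (hΩ : MeasurableSet Ω) : Measurable (chi Ω) := (chi_bm hΩ).meas

lemma Wf_neg (Ω : Set ℂ) (h : ℂ) : Wf Ω (-h) = Wf Ω h := by
  unfold Wf
  rw [← lintegral_add_right_eq_self (fun z => ‖chi Ω (z + -h) - chi Ω z‖ₑ) h]
  congr 1
  ext z
  rw [← enorm_neg]
  congr 1
  rw [add_neg_cancel_right]
  ring

lemma Wf_zero (Ω : Set ℂ) : Wf Ω 0 = 0 := by
  unfold Wf
  simp

lemma Wf_add {Ω : Set ℂ} (hΩ : MeasurableSet Ω) (h h' : ℂ) :
    Wf Ω (h + h') ≤ Wf Ω h + Wf Ω h' := by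
  unfold Wf
  have e1 : ∫⁻ z, ‖chi Ω (z + h) - chi Ω z‖ₑ = ∫⁻ z, ‖chi Ω (z + h' + h) - chi Ω (z + h')‖ₑ :=
    (lintegral_add_right_eq_self (fun z => ‖chi Ω (z + h) - chi Ω z‖ₑ) h').symm
  rw [e1, ← lintegral_add_left]
  · apply lintegral_mono
    intro z
    have e2 : chi Ω (z + (h + h')) - chi Ω z =
        (chi Ω (z + h' + h) - chi Ω (z + h')) + (chi Ω (z + h') - chi Ω z) := by
      rw [show z + (h + h') = z + h' + h by ring]; ring
    simp only
    rw [e2]
    exact enorm_add_le _ _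
  · exact (((chi_meas hΩ).comp (measurable_add_const _ |>.comp (measurable_add_const _))).sub
      ((chi_meas hΩ).comp (measurable_add_const _))).enorm

lemma Wf_nsmul {Ω : Set ℂ} (hΩ : MeasurableSet Ω) (h : ℂ) (n : ℕ) :
    Wf Ω (n * h) ≤ n * Wf Ω h := by
  induction n with
  | zero => simp [Wf_zero]
  | succ n ih =>
    have : ((n + 1 : ℕ) : ℂ) * h = n * h + h := by push_cast; ring
    rw [this]
    refine (Wf_add hΩ _ _).trans ?_
    push_cast
    rw [add_mul, one_mul]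
    gcongr

lemma Wf_joint {Ω : Set ℂ} (hΩ : MeasurableSet Ω) :
    Measurable (fun p : ℂ × ℂ => ‖chi Ω (p.2 + p.1) - chi Ω p.2‖ₑ) := by
  have h1 : Measurable (fun p : ℂ × ℂ => chi Ω (p.2 + p.1)) :=
    (chi_meas hΩ).comp (measurable_snd.add measurable_fst)
  have h2 : Measurable (fun p : ℂ × ℂ => chi Ω p.2) := (chi_meas hΩ).comp measurable_snd
  exact (h1.sub h2).enorm

lemma Wf_meas {Ω : Set ℂ} (hΩ : MeasurableSet Ω) : Measurable (Wf Ω) :=
  (Wf_joint hΩ).lintegral_prod_right'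

/-- Mean zero kernels are controlled by `W`. -/
lemma cv_chi_le {κ : ℂ → ℂ} (hκ : κ ∈ V) (h0 : ∫ z, κ z = 0) {Ω : Set ℂ} (hΩ : MeasurableSet Ω) :
    ∫⁻ z, ‖cv κ (chi Ω) z‖ₑ ≤ ∫⁻ h, ‖κ h‖ₑ * Wf Ω h := by
  have e1 : ∀ z, cv κ (chi Ω) z = ∫ h, κ h * (chi Ω (z - h) - chi Ω z) := by
    intro z
    simp_rw [mul_sub]
    rw [integral_sub (cv_integrand hκ (chi_bm hΩ).locInt z) ((V_integrable hκ).mul_const _),
      integral_mul_const, h0, zero_mul, sub_zero]
    rfl
  calc ∫⁻ z, ‖cv κ (chi Ω) z‖ₑ ≤ ∫⁻ z, ∫⁻ h, ‖κ h‖ₑ * ‖chi Ω (z - h) - chi Ω z‖ₑ := by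
        apply lintegral_mono
        intro z
        simp only
        rw [e1]
        refine (enorm_integral_le_lintegral_enorm _).trans (le_of_eq ?_)
        congr 1
        ext h
        exact enorm_mul _ _
    _ = ∫⁻ h, ∫⁻ z, ‖κ h‖ₑ * ‖chi Ω (z - h) - chi Ω z‖ₑ := by
        apply lintegral_lintegral_swap
        apply Measurable.aemeasurable
        have h1 : Measurable (fun p : ℂ × ℂ => chi Ω (p.1 - p.2)) :=
          (chi_meas hΩ).comp (measurable_fst.sub measurable_snd)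
        have h2 : Measurable (fun p : ℂ × ℂ => chi Ω p.1) := (chi_meas hΩ).comp measurable_fst
        have h3 : Measurable (fun p : ℂ × ℂ => κ p.2) :=
          (V_cont hκ).measurable.comp measurable_snd
        exact h3.enorm.mul (h1.sub h2).enorm
    _ = ∫⁻ h, ‖κ h‖ₑ * Wf Ω h := by
        congr 1
        ext h
        rw [lintegral_const_mul _ (by
          exact (((chi_meas hΩ).comp (measurable_sub_const _)).sub (chi_meas hΩ)).enorm)]
        congr 1
        rw [← Wf_neg]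
        unfold Wf
        simp only [sub_eq_add_neg]

/-- The kernel weight. -/
noncomputable def Kw (α : ℝ) (h : ℂ) : ℝ≥0∞ :=
  (ball (0:ℂ) 1).indicator (fun h => ENNReal.ofReal (‖h‖ ^ (α - 3))) h

lemma Kw_meas (α : ℝ) : Measurable (Kw α) := by
  unfold Kw
  apply Measurable.indicator _ measurableSet_ball
  exact (measurable_norm.pow_const _).ennreal_ofReal

lemma Kw_neg (α : ℝ) (h : ℂ) : Kw α (-h) = Kw α h := by
  unfold Kw
  by_cases hh : h ∈ ball (0:ℂ) 1
  · have : -h ∈ ball (0:ℂ) 1 := by simpa using hh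
    rw [indicator_of_mem hh, indicator_of_mem this, norm_neg]
  · have : -h ∉ ball (0:ℂ) 1 := by simpa using hh
    rw [indicator_of_notMem hh, indicator_of_notMem this]

/-- Mass leaving. -/
noncomputable def Ef (Ω : Set ℂ) (h : ℂ) : ℝ≥0∞ :=
  ∫⁻ z, Ω.indicator (fun _ => 1) z * (Ωᶜ).indicator (fun _ => 1) (z + h)

lemma Wf_eq {Ω : Set ℂ} (hΩ : MeasurableSet Ω) (h : ℂ) : Wf Ω h = Ef Ω h + Ef Ω (-h) := by
  have m1 : Measurable (Ω.indicator (fun _ => (1 : ℝ≥0∞))) := measurable_const.indicator hΩ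
  have m2 : Measurable ((Ωᶜ).indicator (fun _ => (1 : ℝ≥0∞))) :=
    measurable_const.indicator hΩ.compl
  have e1 : Ef Ω (-h) = ∫⁻ z, Ω.indicator (fun _ => 1) (z + h) * (Ωᶜ).indicator (fun _ => 1) z := by
    unfold Ef
    rw [← lintegral_add_right_eq_self (fun z => Ω.indicator (fun _ => (1 : ℝ≥0∞)) z *
      (Ωᶜ).indicator (fun _ => 1) (z + -h)) h]
    simp only [add_neg_cancel_right]
  rw [e1]
  unfold Wf Ef
  have m3 : Measurable (fun z => Ω.indicator (fun _ => (1 : ℝ≥0∞)) z *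
      (Ωᶜ).indicator (fun _ => 1) (z + h)) := m1.mul (m2.comp (measurable_add_const _))
  rw [← lintegral_add_left m3]
  congr 1
  ext z
  unfold chi
  by_cases h1 : z ∈ Ω <;> by_cases h2 : z + h ∈ Ω <;> simp [h1, h2]

lemma Ef_meas {Ω : Set ℂ} (hΩ : MeasurableSet Ω) : Measurable (Ef Ω) := by
  have m1 : Measurable (Ω.indicator (fun _ => (1 : ℝ≥0∞))) := measurable_const.indicator hΩ
  have m2 : Measurable ((Ωᶜ).indicator (fun _ => (1 : ℝ≥0∞))) :=
    measurable_const.indicator hΩ.compl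
  have : Measurable (fun p : ℂ × ℂ => Ω.indicator (fun _ => (1 : ℝ≥0∞)) p.2 *
      (Ωᶜ).indicator (fun _ => 1) (p.2 + p.1)) :=
    (m1.comp measurable_snd).mul (m2.comp (measurable_snd.add measurable_fst))
  exact this.lintegral_prod_right'

lemma fracPer_eq (α : ℝ) {Ω : Set ℂ} (hΩ : MeasurableSet Ω) :
    fracPer α Ω = ∫⁻ h, Kw α h * Ef Ω h := by
  have m1 : Measurable (Ω.indicator (fun _ => (1 : ℝ≥0∞))) := measurable_const.indicator hΩ
  have m2 : Measurable ((Ωᶜ).indicator (fun _ => (1 : ℝ≥0∞))) :=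
    measurable_const.indicator hΩ.compl
  have e1 : fracPer α Ω = ∫⁻ z, ∫⁻ w, Ω.indicator (fun _ => 1) z *
      ((Ωᶜ).indicator (fun _ => 1) w * Kw α (w - z)) := by
    unfold fracPer
    rw [← lintegral_indicator hΩ]
    congr 1
    ext z
    by_cases hz : z ∈ Ω
    · simp only [indicator_of_mem hz, one_mul]
      rw [← lintegral_indicator (hΩ.compl.inter measurableSet_ball)]
      congr 1
      ext w
      by_cases hw : w ∈ Ωᶜ <;> by_cases hb : w ∈ ball z 1
      · have hb' : w - z ∈ ball (0:ℂ) 1 := by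
          rw [mem_ball, dist_zero_right]; rwa [mem_ball, dist_eq_norm] at hb
        have hwb : w ∈ Ωᶜ ∩ ball z 1 := ⟨hw, hb⟩
        rw [indicator_of_mem hwb, indicator_of_mem hw, one_mul]
        unfold Kw
        rw [indicator_of_mem hb', norm_sub_rev]
      · have hb' : w - z ∉ ball (0:ℂ) 1 := by
          rw [mem_ball, dist_zero_right]; rwa [mem_ball, dist_eq_norm] at hb
        rw [indicator_of_notMem (fun h => hb h.2)]
        unfold Kw
        rw [indicator_of_notMem hb', mul_zero]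
      · rw [indicator_of_notMem (fun h => hw h.1), indicator_of_notMem hw, zero_mul]
      · rw [indicator_of_notMem (fun h => hw h.1), indicator_of_notMem hw, zero_mul]
    · simp [indicator_of_notMem hz]
  have e2 : ∀ z, ∫⁻ w, Ω.indicator (fun _ => 1) z *
      ((Ωᶜ).indicator (fun _ => 1) w * Kw α (w - z)) = ∫⁻ h, Kw α h * (Ω.indicator (fun _ => 1) z *
      (Ωᶜ).indicator (fun _ => 1) (z + h)) := by
    intro z
    rw [← lintegral_add_right_eq_self (fun w => Ω.indicator (fun _ => 1) z *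
      ((Ωᶜ).indicator (fun _ => 1) w * Kw α (w - z))) z]
    congr 1
    ext h
    rw [add_sub_cancel_right, add_comm h z]
    ring
  rw [e1]
  simp_rw [e2]
  rw [lintegral_lintegral_swap]
  · congr 1
    ext h
    rw [lintegral_const_mul]
    · rfl
    · exact m1.mul (m2.comp (measurable_add_const _))
  · apply Measurable.aemeasurable
    exact ((Kw_meas α).comp measurable_snd).mul ((m1.comp measurable_fst).mul
      (m2.comp (measurable_fst.add measurable_snd)))

lemma two_fracPer (α : ℝ) {Ω : Set ℂ} (hΩ : MeasurableSet Ω) :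
    ∫⁻ h, Kw α h * Wf Ω h = 2 * fracPer α Ω := by
  have e1 : ∫⁻ h, Kw α h * Ef Ω (-h) = ∫⁻ h, Kw α h * Ef Ω h := by
    rw [← lintegral_neg_eq_self (fun h => Kw α h * Ef Ω h)]
    congr 1
    ext h
    rw [Kw_neg]
  simp_rw [Wf_eq hΩ, mul_add]
  have m3 : Measurable (fun h => Kw α h * Ef Ω h) := (Kw_meas α).mul (Ef_meas hΩ)
  rw [lintegral_add_left m3, e1, ← fracPer_eq α hΩ, two_mul]

end H98.Dbar
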