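import Mathlib
import Pool.Agent.H98.Dbar.Per1

/-! # Finite local fractional perimeter implies the criterion -/

open MeasureTheory Complex Metric Set Filter Topology
open scoped ContDiff ENNReal NNReal Convolution

namespace H98.Dbar

variable {H : ℝ → ℝ}

lemma IsProfile.deriv_one' (hH : IsProfile H) {s : ℝ} (hs : 1 ≤ s) : deriv H s = 0 := by
  have hmax : IsLocalMax H s := by
    apply Filter.Eventually.of_forall
    intro x
    rw [hH.one s hs]
    calc H x ≤ H (max x 1) := hH.mono (le_max_left _ _)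
      _ = 1 := hH.one _ (le_max_right _ _)
  exact hmax.deriv_eq_zero

lemma bumpAt_eq_zero' (hH : IsProfile H) (j : ℕ) {z : ℂ} (hz : (1 / 2 : ℝ) ^ j ≤ ‖z‖) :
    bumpAt H j z = 0 := by
  unfold bumpAt bump
  rw [hH.deriv_one']
  · simp
  · rw [norm_mul, norm_pow, Complex.norm_ofNat]
    rw [one_div, inv_pow] at hz
    have h2 : (0:ℝ) < 2 ^ j := by positivity
    have h3 : (1:ℝ) ≤ 2 ^ j * ‖z‖ := by
      calc (1:ℝ) = 2 ^ j * (2 ^ j)⁻¹ := by field_simp
        _ ≤ 2 ^ j * ‖z‖ := by gcongr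
    nlinarith

lemma bump_bound (hH : IsProfile H) : ∃ C : ℝ, 0 ≤ C ∧ ∀ z, bump H z ≤ C := by
  obtain ⟨C, hC⟩ := (bump_hasCompactSupport hH).exists_bound_of_continuous
    (bump_contDiff hH).continuous
  exact ⟨C, (norm_nonneg _).trans (hC 0), fun z => (le_abs_self _).trans (hC z)⟩

/-- difference kernel -/
noncomputable def psi (H : ℝ → ℝ) (j : ℕ) (z : ℂ) : ℂ := bumpC H (j + 1) z - bumpC H j z

lemma psi_mem (hH : IsProfile H) (j : ℕ) : psi H j ∈ V :=
  V.sub_mem (bV hH (j + 1)).2 (bV hH j).2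

lemma psi_int (hH : IsProfile H) (j : ℕ) : ∫ z, psi H j z = 0 := by
  have i1 : Integrable (bumpC H (j + 1)) := V_integrable (bV hH (j + 1)).2
  have i2 : Integrable (bumpC H j) := V_integrable (bV hH j).2
  unfold psi
  rw [integral_sub i1 i2]
  rw [show (∫ z, bumpC H (j + 1) z) = 1 from (bV_prob hH (j + 1)).int,
    show (∫ z, bumpC H j z) = 1 from (bV_prob hH j).int, sub_self]

lemma psi_bound (hH : IsProfile H) {C : ℝ} (hC : ∀ z, bump H z ≤ C) (j : ℕ) (z : ℂ) :
    ‖psi H j z‖ₑ ≤ (ball (0:ℂ) ((1 / 2) ^ j)).indicator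
      (fun _ => ENNReal.ofReal (5 * C * 4 ^ j)) z := by
  by_cases hz : z ∈ ball (0:ℂ) ((1 / 2) ^ j)
  · rw [indicator_of_mem hz, ← ofReal_norm]
    apply ENNReal.ofReal_le_ofReal
    unfold psi bumpC
    calc ‖((bumpAt H (j + 1) z : ℝ) : ℂ) - ((bumpAt H j z : ℝ) : ℂ)‖
        ≤ ‖((bumpAt H (j + 1) z : ℝ) : ℂ)‖ + ‖((bumpAt H j z : ℝ) : ℂ)‖ := norm_sub_le _ _
      _ = bumpAt H (j + 1) z + bumpAt H j z := by
          rw [Complex.norm_real, Complex.norm_real, Real.norm_eq_abs, Real.norm_eq_abs,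
            abs_of_nonneg (bumpAt_nonneg hH _ _), abs_of_nonneg (bumpAt_nonneg hH _ _)]
      _ ≤ 4 ^ (j + 1) * C + 4 ^ j * C := by
          unfold bumpAt
          gcongr
          · exact hC _
          · exact hC _
      _ = 5 * C * 4 ^ j := by ring
  · rw [indicator_of_notMem hz]
    rw [mem_ball, dist_zero_right, not_lt] at hz
    have h1 : bumpAt H j z = 0 := bumpAt_eq_zero' hH j hz
    have h2 : bumpAt H (j + 1) z = 0 := by
      apply bumpAt_eq_zero' hH
      exact (pow_le_pow_of_le_one (by norm_num) (by norm_num) (Nat.le_succ j)).trans hz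
    unfold psi bumpC
    rw [h1, h2]
    simp

lemma moll_diff_enorm (hH : IsProfile H) {Ω : Set ℂ} (hΩ : MeasurableSet Ω) (j : ℕ) (z : ℂ) :
    ‖moll H (j + 1) Ω z - moll H j Ω z‖ₑ = ‖cv (psi H j) (chi Ω) z‖ₑ := by
  have e : cv (psi H j) (chi Ω) z = ((moll H (j + 1) Ω z - moll H j Ω z : ℝ) : ℂ) := by
    push_cast
    rw [moll_eq hΩ, moll_eq hΩ]
    exact cv_sub_left (bV hH (j + 1)).2 (bV hH j).2 (chi_bm hΩ).locInt z
  rw [e, ← ofReal_norm, ← ofReal_norm, Complex.norm_real]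

lemma geom_ball {α : ℝ} (hα : α < 3) {x : ℝ} (hx0 : 0 < x) (hx1 : x < 1) (J : ℕ) :
    ∑ j ∈ Finset.range J, (if x < (1 / 2 : ℝ) ^ j then (2:ℝ) ^ ((1 - α) * j) * 4 ^ j else 0) ≤
      2 ^ (3 - α) / (2 ^ (3 - α) - 1) * x ^ (α - 3) := by
  set r : ℝ := (2:ℝ) ^ (3 - α) with hr
  have hr1 : 1 < r := Real.one_lt_rpow (by norm_num) (by linarith)
  have hr0 : 0 < r - 1 := by linarith
  have hw : ∀ j : ℕ, (2:ℝ) ^ ((1 - α) * j) * 4 ^ j = r ^ j := by
    intro j
    have : (4:ℝ) ^ j = (2:ℝ) ^ ((2:ℝ) * j) := by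
      rw [Real.rpow_mul (by norm_num), Real.rpow_natCast]; norm_num
    rw [this, ← Real.rpow_add (by norm_num), hr, ← Real.rpow_natCast, ← Real.rpow_mul (by norm_num)]
    congr 1; ring
  obtain ⟨N, hN1, hN2⟩ := exists_nat_pow_near_of_lt_one hx0 hx1.le (y := (1 / 2 : ℝ))
        (by norm_num) (by norm_num)
  calc ∑ j ∈ Finset.range J, (if x < (1 / 2 : ℝ) ^ j then (2:ℝ) ^ ((1 - α) * j) * 4 ^ j else 0)
      ≤ ∑ j ∈ Finset.range (N + 1 + J),
        (if x < (1 / 2 : ℝ) ^ j then (2:ℝ) ^ ((1 - α) * j) * 4 ^ j else 0) := by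
        apply Finset.sum_le_sum_of_subset_of_nonneg
        · intro i hi
          simp only [Finset.mem_range] at hi ⊢
          omega
        · intro i _ _
          split_ifs <;> positivity
    _ = ∑ j ∈ Finset.range (N + 1),
        (if x < (1 / 2 : ℝ) ^ j then (2:ℝ) ^ ((1 - α) * j) * 4 ^ j else 0) +
        ∑ j ∈ Finset.range J, (if x < (1 / 2 : ℝ) ^ (N + 1 + j) then
          (2:ℝ) ^ ((1 - α) * (N + 1 + j : ℕ)) * 4 ^ (N + 1 + j) else 0) :=
        Finset.sum_range_add _ _ _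
    _ ≤ ∑ j ∈ Finset.range (N + 1), r ^ j + ∑ j ∈ Finset.range J, 0 := by
        apply add_le_add
        · apply Finset.sum_le_sum
          intro j _
          rw [← hw]
          split_ifs
          · exact le_rfl
          · positivity
        · apply Finset.sum_le_sum
          intro j _
          rw [if_neg]
          rw [not_lt]
          refine le_trans ?_ hN1.le
          exact pow_le_pow_of_le_one (by norm_num) (by norm_num) (by omega)
    _ = (r ^ (N + 1) - 1) / (r - 1) := by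
        rw [geom_sum_eq hr1.ne']; simp
    _ ≤ (r * x ^ (α - 3)) / (r - 1) := by
        apply div_le_div_of_nonneg_right _ hr0.le
        have h1 : r ^ (N + 1) ≤ r * x ^ (α - 3) := by
          rw [pow_succ, mul_comm]
          gcongr
          have h2 : (2:ℝ) ^ N ≤ x⁻¹ := by
            rw [le_inv_comm₀ (by positivity) hx0]
            simpa [one_div, inv_pow] using hN2
          calc r ^ N = ((2:ℝ) ^ N) ^ (3 - α) := by
                rw [hr, ← Real.rpow_natCast, ← Real.rpow_mul (by norm_num), mul_comm,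
                  Real.rpow_mul (by norm_num), Real.rpow_natCast]
            _ ≤ (x⁻¹) ^ (3 - α) := Real.rpow_le_rpow (by positivity) h2 (by linarith)
            _ = x ^ (α - 3) := by
                rw [Real.inv_rpow hx0.le, ← Real.rpow_neg hx0.le]; congr 1; ring
        linarith
    _ = _ := by ring

lemma weighted_psi {α : ℝ} (hα : α < 3) (hH : IsProfile H) {C : ℝ} (hC0 : 0 ≤ C)
    (hC : ∀ z, bump H z ≤ C) (h : ℂ) (hh : h ≠ 0) (J : ℕ) :
    ∑ j ∈ Finset.range J, ENNReal.ofReal ((2:ℝ) ^ ((1 - α) * j)) * ‖psi H j h‖ₑ ≤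
      ENNReal.ofReal (5 * C * (2 ^ (3 - α) / (2 ^ (3 - α) - 1))) * Kw α h := by
  have hx0 : 0 < ‖h‖ := norm_pos_iff.2 hh
  by_cases h1 : ‖h‖ < 1
  · have hb : h ∈ ball (0:ℂ) 1 := by simpa using h1
    unfold Kw
    rw [indicator_of_mem hb]
    have hr1 : 1 < (2:ℝ) ^ (3 - α) := Real.one_lt_rpow (by norm_num) (by linarith)
    have hr0 : 0 < (2:ℝ) ^ (3 - α) - 1 := by linarith
    calc ∑ j ∈ Finset.range J, ENNReal.ofReal ((2:ℝ) ^ ((1 - α) * j)) * ‖psi H j h‖ₑ
        ≤ ∑ j ∈ Finset.range J, ENNReal.ofReal (5 * C *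
          (if ‖h‖ < (1 / 2 : ℝ) ^ j then (2:ℝ) ^ ((1 - α) * j) * 4 ^ j else 0)) := by
          apply Finset.sum_le_sum
          intro j _
          refine (mul_le_mul_right (psi_bound hH hC j h) _).trans ?_
          by_cases hj : ‖h‖ < (1 / 2 : ℝ) ^ j
          · have : h ∈ ball (0:ℂ) ((1 / 2) ^ j) := by simpa using hj
            rw [indicator_of_mem this, if_pos hj, ← ENNReal.ofReal_mul (by positivity)]
            apply le_of_eq
            congr 1; ring
          · have : h ∉ ball (0:ℂ) ((1 / 2) ^ j) := by simpa using hj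
            rw [indicator_of_notMem this]; simp
      _ = ENNReal.ofReal (∑ j ∈ Finset.range J, 5 * C *
          (if ‖h‖ < (1 / 2 : ℝ) ^ j then (2:ℝ) ^ ((1 - α) * j) * 4 ^ j else 0)) := by
          rw [ENNReal.ofReal_sum_of_nonneg]
          intro j _
          apply mul_nonneg (by positivity)
          split_ifs <;> positivity
      _ ≤ ENNReal.ofReal (5 * C * (2 ^ (3 - α) / (2 ^ (3 - α) - 1)) * ‖h‖ ^ (α - 3)) := by
          apply ENNReal.ofReal_le_ofReal
          rw [← Finset.mul_sum, mul_assoc (5 * C)]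
          gcongr
          exact geom_ball hα hx0 h1 J
      _ = _ := by rw [ENNReal.ofReal_mul (by positivity)]
  · have : ∑ j ∈ Finset.range J, ENNReal.ofReal ((2:ℝ) ^ ((1 - α) * j)) * ‖psi H j h‖ₑ = 0 := by
      apply Finset.sum_eq_zero
      intro j _
      have h2 := psi_bound hH hC j h
      have h3 : h ∉ ball (0:ℂ) ((1 / 2) ^ j) := by
        rw [mem_ball, dist_zero_right, not_lt]
        exact (pow_le_one₀ (by norm_num) (by norm_num)).trans (not_lt.1 h1)
      rw [indicator_of_notMem h3, nonpos_iff_eq_zero] at h2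
      rw [h2, mul_zero]
    rw [this]
    exact zero_le

/-- derivative kernel -/
noncomputable def dk (H : ℝ → ℝ) (v z : ℂ) : ℂ := fderiv ℝ (bumpC H 0) z v

lemma dk_mem (hH : IsProfile H) (v : ℂ) : dk H v ∈ V := fderiv_apply_mem_V (bV hH 0).2 v

lemma dk_neg (hH : IsProfile H) (v z : ℂ) : dk H v (-z) = - dk H v z := by
  unfold dk
  have hd := V_differentiable (bV hH 0).2
  have h1 : (fun w => bumpC H 0 (-w)) = bumpC H 0 := by ext w; exact bumpC_neg 0 w
  have h2 : HasFDerivAt (fun w : ℂ => -w) (-(ContinuousLinearMap.id ℝ ℂ)) z := (hasFDerivAt_id z).neg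
  have h3 := ((hd (-z)).hasFDerivAt).comp z h2
  have h4 : fderiv ℝ (fun w => bumpC H 0 (-w)) z = _ := h3.fderiv
  rw [h1] at h4
  rw [h4]
  simp [bV]

lemma dk_int (hH : IsProfile H) (v : ℂ) : ∫ z, dk H v z = 0 := by
  have h1 : ∫ z, dk H v (-z) = ∫ z, dk H v z := integral_neg_eq_self _ _
  simp_rw [dk_neg hH] at h1
  rw [integral_neg] at h1
  have h2 : (2:ℂ) * ∫ z, dk H v z = 0 := by
    linear_combination -h1
  simpa using h2

lemma dk_zero (hH : IsProfile H) (v : ℂ) {z : ℂ} (hz : 1 ≤ ‖z‖) : dk H v z = 0 := by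
  have h1 : fderiv ℝ (bumpAt H 0) z = 0 := by
    apply IsLocalMin.fderiv_eq_zero
    apply Filter.Eventually.of_forall
    intro w
    rw [bumpAt_eq_zero' hH 0 (by simpa using hz)]
    exact bumpAt_nonneg hH 0 w
  unfold dk
  have hd : DifferentiableAt ℝ (bumpAt H 0) z := ((bumpAt_contDiff hH 0).differentiable (by simp)) z
  have h0 : fderiv ℝ (bumpC H 0) z = Complex.ofRealCLM.comp (fderiv ℝ (bumpAt H 0) z) :=
    (Complex.ofRealCLM.hasFDerivAt.comp z hd.hasFDerivAt).fderiv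
  rw [h0, h1]
  simp

lemma fderiv_moll_enorm (hH : IsProfile H) {Ω : Set ℂ} (hΩ : MeasurableSet Ω) (v z : ℂ) :
    ‖fderiv ℝ (moll H 0 Ω) z v‖ₑ = ‖cv (dk H v) (chi Ω) z‖ₑ := by
  have e0 : (fun z => (moll H 0 Ω z : ℂ)) = cv (bumpC H 0) (chi Ω) := by
    ext z; exact moll_eq hΩ 0 z
  have e1 : cv (dk H v) (chi Ω) z = ((fderiv ℝ (moll H 0 Ω) z v : ℝ) : ℂ) := by
    have h1 := fderiv_cv (bV hH 0).2 (chi_bm hΩ).locInt z v
    have h2 : cv (dk H v) (chi Ω) z = fderiv ℝ (cv (bumpC H 0) (chi Ω)) z v := h1.symm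
    rw [h2, ← e0]
    have hd : DifferentiableAt ℝ (moll H 0 Ω) z := ((moll_contDiff hH hΩ 0).differentiable (by simp)) z
    have h0 : fderiv ℝ (fun w => (moll H 0 Ω w : ℂ)) z =
        Complex.ofRealCLM.comp (fderiv ℝ (moll H 0 Ω) z) :=
      (Complex.ofRealCLM.hasFDerivAt.comp z hd.hasFDerivAt).fderiv
    rw [h0]; simp
  rw [e1, ← ofReal_norm, ← ofReal_norm, Complex.norm_real]

lemma grad_part {α : ℝ} (hα : α < 3) (hH : IsProfile H) {Ω : Set ℂ} (hΩ : MeasurableSet Ω)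
    (h : fracPer α Ω < ⊤) (v : ℂ) : ∫⁻ z, ‖fderiv ℝ (moll H 0 Ω) z v‖ₑ < ⊤ := by
  obtain ⟨C, hC⟩ := (dk_mem hH v).2.exists_bound_of_continuous (V_cont (dk_mem hH v))
  have hC0 : 0 ≤ C := (norm_nonneg _).trans (hC 0)
  simp_rw [fderiv_moll_enorm hH hΩ]
  calc ∫⁻ z, ‖cv (dk H v) (chi Ω) z‖ₑ ≤ ∫⁻ h, ‖dk H v h‖ₑ * Wf Ω h :=
        cv_chi_le (dk_mem hH v) (dk_int hH v) hΩ
    _ ≤ ∫⁻ h, ENNReal.ofReal C * (Kw α h * Wf Ω h) := by
        apply lintegral_mono
        intro w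
        simp only
        by_cases hw0 : w = 0
        · rw [hw0, Wf_zero]; simp
        · rw [← mul_assoc]
          gcongr
          by_cases hw : ‖w‖ < 1
          · have hb : w ∈ ball (0:ℂ) 1 := by simpa using hw
            unfold Kw
            rw [indicator_of_mem hb, ← ENNReal.ofReal_mul hC0, ← ofReal_norm]
            apply ENNReal.ofReal_le_ofReal
            have h1 : 1 ≤ ‖w‖ ^ (α - 3) :=
              Real.one_le_rpow_of_pos_of_le_one_of_nonpos (norm_pos_iff.2 hw0) hw.le (by linarith)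
            calc ‖dk H v w‖ ≤ C := hC w
              _ = C * 1 := (mul_one C).symm
              _ ≤ C * ‖w‖ ^ (α - 3) := by gcongr
          · rw [dk_zero hH v (not_lt.1 hw)]
            simp
    _ = ENNReal.ofReal C * (2 * fracPer α Ω) := by
        have m3 : Measurable (fun h => Kw α h * Wf Ω h) := (Kw_meas α).mul (Wf_meas hΩ)
        rw [lintegral_const_mul _ m3, two_fracPer α hΩ]
    _ < ⊤ := ENNReal.mul_lt_top ENNReal.ofReal_lt_top (ENNReal.mul_lt_top (by simp) h)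

theorem crit_of_fracPer {α : ℝ} (hα : α < 3) (hH : IsProfile H) {Ω : Set ℂ}
    (hΩ : MeasurableSet Ω) (h : fracPer α Ω < ⊤) : Crit H α Ω := by
  constructor
  · calc ∫⁻ z, ‖fderiv ℝ (moll H 0 Ω) z‖ₑ
        ≤ ∫⁻ z, (‖fderiv ℝ (moll H 0 Ω) z 1‖ₑ + ‖fderiv ℝ (moll H 0 Ω) z I‖ₑ) := by
          apply lintegral_mono
          intro z
          have h1 := norm_le_parts (fderiv ℝ (moll H 0 Ω) z)
          change ‖fderiv ℝ (moll H 0 Ω) z‖ₑ ≤ ‖fderiv ℝ (moll H 0 Ω) z 1‖ₑ +
            ‖fderiv ℝ (moll H 0 Ω) z I‖ₑ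
          rw [← ofReal_norm, ← ofReal_norm, ← ofReal_norm,
            ← ENNReal.ofReal_add (norm_nonneg _) (norm_nonneg _)]
          exact ENNReal.ofReal_le_ofReal h1
      _ = (∫⁻ z, ‖fderiv ℝ (moll H 0 Ω) z 1‖ₑ) + ∫⁻ z, ‖fderiv ℝ (moll H 0 Ω) z I‖ₑ := by
          apply lintegral_add_left
          have hcd : Continuous (fun z => fderiv ℝ (moll H 0 Ω) z) :=
            (moll_contDiff hH hΩ 0).continuous_fderiv (by simp)
          exact ((hcd.clm_apply continuous_const).measurable).enorm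
      _ < ⊤ := ENNReal.add_lt_top.2 ⟨grad_part hα hH hΩ h 1, grad_part hα hH hΩ h I⟩
  · obtain ⟨C, hC0, hC⟩ := bump_bound hH
    have key : ∀ J : ℕ, ∑ j ∈ Finset.range J, ENNReal.ofReal ((2:ℝ) ^ ((1 - α) * j)) *
        ∫⁻ z, ‖moll H (j + 1) Ω z - moll H j Ω z‖ₑ ≤
        ENNReal.ofReal (5 * C * (2 ^ (3 - α) / (2 ^ (3 - α) - 1))) * (2 * fracPer α Ω) := by
      intro J
      calc ∑ j ∈ Finset.range J, ENNReal.ofReal ((2:ℝ) ^ ((1 - α) * j)) *
            ∫⁻ z, ‖moll H (j + 1) Ω z - moll H j Ω z‖ₑ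
          ≤ ∑ j ∈ Finset.range J, ENNReal.ofReal ((2:ℝ) ^ ((1 - α) * j)) *
            ∫⁻ h, ‖psi H j h‖ₑ * Wf Ω h := by
            apply Finset.sum_le_sum
            intro j _
            simp_rw [moll_diff_enorm hH hΩ]
            exact mul_le_mul_right (cv_chi_le (psi_mem hH j) (psi_int hH j) hΩ) _
        _ = ∑ j ∈ Finset.range J, ∫⁻ h, ENNReal.ofReal ((2:ℝ) ^ ((1 - α) * j)) *
            (‖psi H j h‖ₑ * Wf Ω h) := by
            apply Finset.sum_congr rfl
            intro j _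
            rw [lintegral_const_mul]
            exact ((V_cont (psi_mem hH j)).measurable.enorm).mul (Wf_meas hΩ)
        _ = ∫⁻ h, ∑ j ∈ Finset.range J, ENNReal.ofReal ((2:ℝ) ^ ((1 - α) * j)) *
            (‖psi H j h‖ₑ * Wf Ω h) := by
            rw [lintegral_finsetSum]
            intro j _
            exact (((V_cont (psi_mem hH j)).measurable.enorm).mul (Wf_meas hΩ)).const_mul _
        _ ≤ ∫⁻ h, ENNReal.ofReal (5 * C * (2 ^ (3 - α) / (2 ^ (3 - α) - 1))) *
            (Kw α h * Wf Ω h) := by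
            apply lintegral_mono
            intro w
            simp only
            by_cases hw0 : w = 0
            · rw [hw0, Wf_zero]; simp
            · simp_rw [← mul_assoc]
              rw [← Finset.sum_mul]
              gcongr
              exact weighted_psi hα hH hC0 hC w hw0 J
        _ = _ := by
            have m3 : Measurable (fun h => Kw α h * Wf Ω h) := (Kw_meas α).mul (Wf_meas hΩ)
            rw [lintegral_const_mul _ m3, two_fracPer α hΩ]
    refine lt_of_le_of_lt (ENNReal.tsum_le_of_sum_range_le key) ?_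
    exact ENNReal.mul_lt_top ENNReal.ofReal_lt_top (ENNReal.mul_lt_top (by simp) h)

end H98.Dbar
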