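import Mathlib
import Pool.Agent.H98.Dbar.Per2

/-! # The criterion implies finite local fractional perimeter when `α < 1` -/

open MeasureTheory Complex Metric Set Filter Topology
open scoped ContDiff ENNReal NNReal Convolution

namespace H98.Dbar

variable {H : ℝ → ℝ}

lemma moll_ae_tendsto (hH : IsProfile H) {Ω : Set ℂ} (hΩ : MeasurableSet Ω) :
    ∀ᵐ z, Tendsto (fun J => ‖chi Ω z - (moll H J Ω z : ℂ)‖) atTop (𝓝 0) := by
  obtain ⟨C, hC0, hC⟩ := bump_bound hH
  have h1 := IsUnifLocDoublingMeasure.ae_tendsto_average_norm_sub (μ := (volume : Measure ℂ))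
    (chi_bm hΩ).locInt 1
  filter_upwards [h1] with z hz
  have h2 := hz (l := atTop) (fun _ : ℕ => z) (fun j : ℕ => (1 / 2 : ℝ) ^ j)
    (by
      rw [tendsto_nhdsWithin_iff]
      refine ⟨tendsto_pow_atTop_nhds_zero_of_lt_one (by norm_num) (by norm_num), ?_⟩
      exact Eventually.of_forall fun j => by simp)
    (Eventually.of_forall fun j => by simp)
  have h3 : Tendsto (fun j : ℕ => C * Real.pi *
      ⨍ y in closedBall z ((1 / 2 : ℝ) ^ j), ‖chi Ω y - chi Ω z‖) atTop (𝓝 0) := by
    simpa using h2.const_mul (C * Real.pi)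
  refine squeeze_zero (fun _ => norm_nonneg _) ?_ h3
  intro J
  have hφ : bumpC H J ∈ V := (bV hH J).2
  have e1 : (moll H J Ω z : ℂ) - chi Ω z = ∫ w, bumpC H J (z - w) * (chi Ω w - chi Ω z) := by
    simp_rw [mul_sub]
    rw [integral_sub (cv_integrand' hφ (chi_bm hΩ).locInt z) (((V_integrable hφ).comp_sub_left z).mul_const _),
      integral_mul_const, integral_sub_left_eq_self (fun w => bumpC H J w) volume z,
      show (∫ w, bumpC H J w) = 1 from (bV_prob hH J).int, one_mul, moll_eq hΩ, cv_swap]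
  rw [← norm_neg, neg_sub, e1]
  set r : ℝ := (1 / 2 : ℝ) ^ J with hr
  have hr0 : 0 < r := by rw [hr]; positivity
  have hmeas : Measurable (fun w => ‖chi Ω w - chi Ω z‖) :=
    ((chi_meas hΩ).sub measurable_const).norm
  have hint : IntegrableOn (fun w => C * 4 ^ J * ‖chi Ω w - chi Ω z‖) (closedBall z r) := by
    apply Integrable.const_mul
    apply Measure.integrableOn_of_bounded (M := 2) measure_closedBall_lt_top.ne
      hmeas.aestronglyMeasurable
    filter_upwards with w
    rw [norm_norm]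
    calc ‖chi Ω w - chi Ω z‖ ≤ ‖chi Ω w‖ + ‖chi Ω z‖ := norm_sub_le _ _
      _ ≤ 1 + 1 := add_le_add ((chi_bm hΩ).bd _) ((chi_bm hΩ).bd _)
      _ = 2 := by norm_num
  calc ‖∫ w, bumpC H J (z - w) * (chi Ω w - chi Ω z)‖
      ≤ ∫ w, (closedBall z r).indicator (fun w => C * 4 ^ J * ‖chi Ω w - chi Ω z‖) w := by
        apply norm_integral_le_of_norm_le
        · rw [integrable_indicator_iff measurableSet_closedBall]
          exact hint
        · filter_upwards with w
          by_cases hw : w ∈ closedBall z r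
          · rw [indicator_of_mem hw, norm_mul]
            gcongr
            unfold bumpC
            rw [Complex.norm_real, Real.norm_eq_abs, abs_of_nonneg (bumpAt_nonneg hH _ _)]
            unfold bumpAt
            rw [mul_comm]
            gcongr
            exact hC _
          · rw [indicator_of_notMem hw]
            have : bumpAt H J (z - w) = 0 := by
              apply bumpAt_eq_zero hH
              rw [mem_closedBall, dist_comm, dist_eq_norm, not_le] at hw
              exact hw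
            unfold bumpC
            rw [this]
            simp
    _ = C * 4 ^ J * ∫ w in closedBall z r, ‖chi Ω w - chi Ω z‖ := by
        rw [integral_indicator measurableSet_closedBall, integral_const_mul]
    _ = C * Real.pi * ⨍ y in closedBall z r, ‖chi Ω y - chi Ω z‖ := by
        rw [setAverage_eq, smul_eq_mul, measureReal_def, Complex.volume_closedBall]
        have e2 : (ENNReal.ofReal r ^ 2 * (NNReal.pi : ℝ≥0∞)).toReal = r ^ 2 * Real.pi := by
          rw [ENNReal.toReal_mul, ENNReal.toReal_pow, ENNReal.toReal_ofReal hr0.le]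
          rfl
        rw [e2]
        have e3 : (4:ℝ) ^ J * r ^ 2 = 1 := by
          rw [hr, ← pow_mul, mul_comm J 2, pow_mul, ← mul_pow]; norm_num
        have hpi := Real.pi_pos
        have : (r ^ 2 * Real.pi)⁻¹ = 4 ^ J / Real.pi := by
          rw [inv_eq_iff_eq_inv, inv_div]
          rw [eq_div_iff (by positivity)]
          calc _ = (4 ^ J * r ^ 2) * Real.pi := by ring
            _ = _ := by rw [e3, one_mul]
        rw [this]
        field_simp

/-- `‖χ - χ * φ_j‖₁`. -/
noncomputable def aj (H : ℝ → ℝ) (Ω : Set ℂ) (j : ℕ) : ℝ≥0∞ :=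
  ∫⁻ z, ‖chi Ω z - (moll H j Ω z : ℂ)‖ₑ

lemma aj_le (hH : IsProfile H) {Ω : Set ℂ} (hΩ : MeasurableSet Ω) (j : ℕ) :
    aj H Ω j ≤ ∑' i : ℕ, ∫⁻ z, ‖moll H (j + i + 1) Ω z - moll H (j + i) Ω z‖ₑ := by
  unfold aj
  rw [← lintegral_tsum]
  · apply lintegral_mono_ae
    filter_upwards [moll_ae_tendsto hH hΩ] with z hz
    have tel : ∀ n : ℕ, ‖chi Ω z - (moll H j Ω z : ℂ)‖ₑ ≤ ‖chi Ω z - (moll H (j + n) Ω z : ℂ)‖ₑ +
        ∑ i ∈ Finset.range n, ‖moll H (j + i + 1) Ω z - moll H (j + i) Ω z‖ₑ := by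
      intro n
      induction n with
      | zero => simp
      | succ n ih =>
        refine ih.trans ?_
        rw [Finset.sum_range_succ]
        have e : chi Ω z - (moll H (j + n) Ω z : ℂ) = (chi Ω z - (moll H (j + (n + 1)) Ω z : ℂ)) +
          ((moll H (j + n + 1) Ω z - moll H (j + n) Ω z : ℝ) : ℂ) := by
          push_cast
          rw [show j + (n + 1) = j + n + 1 by ring]
          ring
        have h2 : ‖chi Ω z - (moll H (j + n) Ω z : ℂ)‖ₑ ≤
            ‖chi Ω z - (moll H (j + (n + 1)) Ω z : ℂ)‖ₑ +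
            ‖moll H (j + n + 1) Ω z - moll H (j + n) Ω z‖ₑ := by
          rw [e]
          refine (enorm_add_le _ _).trans ?_
          gcongr
          rw [← ofReal_norm, ← ofReal_norm, Complex.norm_real]
        calc _ ≤ (‖chi Ω z - (moll H (j + (n + 1)) Ω z : ℂ)‖ₑ +
            ‖moll H (j + n + 1) Ω z - moll H (j + n) Ω z‖ₑ) +
            ∑ i ∈ Finset.range n, ‖moll H (j + i + 1) Ω z - moll H (j + i) Ω z‖ₑ := by gcongr
          _ = _ := by ring
    have hz' : Tendsto (fun n => ‖chi Ω z - (moll H (j + n) Ω z : ℂ)‖ₑ) atTop (𝓝 0) := by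
      have h1 : Tendsto (fun n => ‖chi Ω z - (moll H (j + n) Ω z : ℂ)‖) atTop (𝓝 0) := by
        have := hz.comp (tendsto_add_atTop_nat j)
        refine this.congr ?_
        intro n
        simp only [Function.comp_apply]
        rw [add_comm]
      have h2 := ENNReal.tendsto_ofReal h1
      simp only [ENNReal.ofReal_zero] at h2
      refine h2.congr ?_
      intro n
      exact ofReal_norm _
    have hlim : Tendsto (fun n => ‖chi Ω z - (moll H (j + n) Ω z : ℂ)‖ₑ +
        ∑' i : ℕ, ‖moll H (j + i + 1) Ω z - moll H (j + i) Ω z‖ₑ) atTop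
        (𝓝 (0 + ∑' i : ℕ, ‖moll H (j + i + 1) Ω z - moll H (j + i) Ω z‖ₑ)) :=
      hz'.add tendsto_const_nhds
    rw [zero_add] at hlim
    refine ge_of_tendsto' hlim ?_
    intro n
    refine (tel n).trans ?_
    gcongr
    exact ENNReal.sum_le_tsum _
  · intro i
    exact (((moll_contDiff hH hΩ _).continuous.sub
      (moll_contDiff hH hΩ _).continuous).measurable.enorm).aemeasurable

/-- sign trick -/
lemma sign_trick (hH : IsProfile H) {Ω : Set ℂ} (hΩ : MeasurableSet Ω) (j : ℕ) (z : ℂ) :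
    ‖chi Ω z - (moll H j Ω z : ℂ)‖ₑ =
      ∫⁻ h, ENNReal.ofReal (bumpAt H j h) * ‖chi Ω (z - h) - chi Ω z‖ₑ := by
  have hφ : bumpC H j ∈ V := (bV hH j).2
  have e1 : chi Ω z - (moll H j Ω z : ℂ) = ∫ h, bumpC H j h * (chi Ω z - chi Ω (z - h)) := by
    simp_rw [mul_sub]
    rw [integral_sub ((V_integrable hφ).mul_const _) (cv_integrand hφ (chi_bm hΩ).locInt z),
      integral_mul_const,
      show (∫ w, bumpC H j w) = 1 from (bV_prob hH j).int, one_mul, moll_eq hΩ]
    rfl
  -- choose the sign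
  obtain ⟨s, hs, hsig⟩ : ∃ s : ℂ, ‖s‖ = 1 ∧ ∀ h, chi Ω z - chi Ω (z - h) =
      s * ((‖chi Ω (z - h) - chi Ω z‖ : ℝ) : ℂ) := by
    by_cases hz : z ∈ Ω
    · refine ⟨1, by simp, fun h => ?_⟩
      unfold chi
      by_cases h2 : z - h ∈ Ω <;> simp [hz, h2]
    · refine ⟨-1, by simp, fun h => ?_⟩
      unfold chi
      by_cases h2 : z - h ∈ Ω <;> simp [hz, h2]
  have hmeas : Measurable (fun h => ‖chi Ω (z - h) - chi Ω z‖) :=
    (((chi_meas hΩ).comp (measurable_const.sub measurable_id)).sub measurable_const).norm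
  have hint : Integrable (fun h => bumpAt H j h * ‖chi Ω (z - h) - chi Ω z‖) := by
    have h1 : Integrable (bumpAt H j) :=
      (bumpAt_contDiff hH j).continuous.integrable_of_hasCompactSupport (bumpAt_hasCompactSupport hH j)
    refine h1.mul_bdd (c := 2) hmeas.aestronglyMeasurable ?_
    filter_upwards with h
    rw [norm_norm]
    calc ‖chi Ω (z - h) - chi Ω z‖ ≤ ‖chi Ω (z - h)‖ + ‖chi Ω z‖ := norm_sub_le _ _
      _ ≤ 1 + 1 := add_le_add ((chi_bm hΩ).bd _) ((chi_bm hΩ).bd _)
      _ = 2 := by norm_num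
  have e2 : chi Ω z - (moll H j Ω z : ℂ) =
      s * ((∫ h, bumpAt H j h * ‖chi Ω (z - h) - chi Ω z‖ : ℝ) : ℂ) := by
    rw [e1, ← integral_complex_ofReal, ← integral_const_mul]
    congr 1
    ext h
    rw [hsig h]
    unfold bumpC
    push_cast
    ring
  have hnn : ∀ h, 0 ≤ bumpAt H j h * ‖chi Ω (z - h) - chi Ω z‖ := fun h =>
    mul_nonneg (bumpAt_nonneg hH j h) (norm_nonneg _)
  rw [← ofReal_norm, e2, norm_mul, hs, one_mul, Complex.norm_real, Real.norm_eq_abs,
    abs_of_nonneg (integral_nonneg hnn),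
    ofReal_integral_eq_lintegral_ofReal hint (Eventually.of_forall hnn)]
  congr 1
  ext h
  rw [ENNReal.ofReal_mul (bumpAt_nonneg hH j h), ofReal_norm]

lemma aj_eq (hH : IsProfile H) {Ω : Set ℂ} (hΩ : MeasurableSet Ω) (j : ℕ) :
    aj H Ω j = ∫⁻ h, ENNReal.ofReal (bumpAt H j h) * Wf Ω h := by
  unfold aj
  simp_rw [sign_trick hH hΩ]
  rw [lintegral_lintegral_swap]
  · congr 1
    ext h
    rw [lintegral_const_mul _ (by
          exact (((chi_meas hΩ).comp (measurable_sub_const _)).sub (chi_meas hΩ)).enorm)]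
    congr 1
    rw [← Wf_neg]
    unfold Wf
    simp only [sub_eq_add_neg]
  · apply Measurable.aemeasurable
    have h1 : Measurable (fun p : ℂ × ℂ => chi Ω (p.1 - p.2)) :=
      (chi_meas hΩ).comp (measurable_fst.sub measurable_snd)
    have h2 : Measurable (fun p : ℂ × ℂ => chi Ω p.1) := (chi_meas hΩ).comp measurable_fst
    have h3 : Measurable (fun p : ℂ × ℂ => ENNReal.ofReal (bumpAt H j p.2)) :=
      ((bumpAt_contDiff hH j).continuous.measurable.comp measurable_snd).ennreal_ofReal
    exact h3.mul (h1.sub h2).enorm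

end H98.Dbar
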