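import Mathlib
import Pool.Agent.H98.Dbar.Per3

/-! # The criterion implies finite local fractional perimeter when `α < 1`, end -/

open MeasureTheory Complex Metric Set Filter Topology
open scoped ContDiff ENNReal NNReal Convolution

namespace H98.Dbar

variable {H : ℝ → ℝ}

/-- weights -/
noncomputable def wt (α : ℝ) (j : ℕ) : ℝ≥0∞ := ENNReal.ofReal ((2:ℝ) ^ ((1 - α) * j))

lemma sum_aj (hH : IsProfile H) {α : ℝ} (hα : α < 1) {Ω : Set ℂ} (hΩ : MeasurableSet Ω)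
    (h : Crit H α Ω) : ∑' j : ℕ, wt α j * aj H Ω j < ⊤ := by
  set b : ℕ → ℝ≥0∞ := fun j => ∫⁻ z, ‖moll H (j + 1) Ω z - moll H j Ω z‖ₑ with hb
  set q : ℝ := (2:ℝ) ^ (α - 1) with hq
  have hq0 : 0 < q := by rw [hq]; positivity
  have hq1 : q < 1 := Real.rpow_lt_one_of_one_lt_of_neg (by norm_num) (by linarith)
  have hw : ∀ i j : ℕ, wt α j = ENNReal.ofReal (q ^ i) * wt α (j + i) := by
    intro i j
    unfold wt
    rw [← ENNReal.ofReal_mul (by positivity), hq, ← Real.rpow_natCast, ← Real.rpow_mul (by norm_num),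
      ← Real.rpow_add (by norm_num)]
    congr 2
    push_cast
    ring
  calc ∑' j : ℕ, wt α j * aj H Ω j ≤ ∑' j : ℕ, wt α j * ∑' i : ℕ, b (j + i) := by
        apply ENNReal.tsum_le_tsum
        intro j
        gcongr
        exact aj_le hH hΩ j
    _ = ∑' j : ℕ, ∑' i : ℕ, ENNReal.ofReal (q ^ i) * (wt α (j + i) * b (j + i)) := by
        congr 1
        ext j
        rw [← ENNReal.tsum_mul_left]
        congr 1
        ext i
        rw [hw i j]
        ring
    _ = ∑' i : ℕ, ∑' j : ℕ, ENNReal.ofReal (q ^ i) * (wt α (j + i) * b (j + i)) :=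
        ENNReal.tsum_comm
    _ = ∑' i : ℕ, ENNReal.ofReal (q ^ i) * ∑' j : ℕ, (wt α (j + i) * b (j + i)) := by
        congr 1
        ext i
        rw [ENNReal.tsum_mul_left]
    _ ≤ ∑' i : ℕ, ENNReal.ofReal (q ^ i) * ∑' n : ℕ, (wt α n * b n) := by
        apply ENNReal.tsum_le_tsum
        intro i
        exact mul_le_mul_right
          (ENNReal.tsum_comp_le_tsum_of_injective (add_left_injective i) (fun n => wt α n * b n)) _
    _ = (∑' i : ℕ, ENNReal.ofReal (q ^ i)) * ∑' n : ℕ, (wt α n * b n) := ENNReal.tsum_mul_right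
    _ < ⊤ := by
        apply ENNReal.mul_lt_top _ h.2
        have h1 : ∑' i : ℕ, ENNReal.ofReal (q ^ i) = ENNReal.ofReal (∑' i : ℕ, q ^ i) :=
          (ENNReal.ofReal_tsum_of_nonneg (fun i => by positivity)
            (summable_geometric_of_lt_one hq0.le hq1)).symm
        rw [h1]
        exact ENNReal.ofReal_lt_top

lemma bump_lower (hH : IsProfile H) : ∃ z₀ : ℂ, ∃ r₀ c₀ : ℝ, 0 < r₀ ∧ 0 < c₀ ∧
    ∀ z ∈ ball z₀ r₀, c₀ ≤ bump H z := by
  have hne : ∃ z₀, 0 < bump H z₀ := by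
    by_contra hcon
    push Not at hcon
    have h0 : ∀ z, bump H z = 0 := fun z => le_antisymm (hcon z) (bump_nonneg hH z)
    have h1 := integral_bump hH
    simp_rw [h0] at h1
    simp at h1
  obtain ⟨z₀, hz₀⟩ := hne
  have hc : ContinuousAt (bump H) z₀ := (bump_contDiff hH).continuous.continuousAt
  have h2 : ∀ᶠ z in 𝓝 z₀, bump H z₀ / 2 < bump H z :=
    hc.eventually (lt_mem_nhds (by linarith))
  obtain ⟨r₀, hr₀, hb⟩ := Metric.eventually_nhds_iff_ball.1 h2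
  exact ⟨z₀, r₀, bump H z₀ / 2, hr₀, by positivity, fun z hz => (hb z hz).le⟩

lemma Wf_pointwise (hH : IsProfile H) {Ω : Set ℂ} (hΩ : MeasurableSet Ω) {z₀ : ℂ} {r₀ c₀ : ℝ}
    (hr : 0 < r₀) (hc : 0 < c₀) (hb : ∀ z ∈ ball z₀ r₀, c₀ ≤ bump H z) (j : ℕ) (h : ℂ)
    (hh : ‖h‖ ≤ (1 / 2) ^ j * (r₀ / 2)) :
    ENNReal.ofReal (c₀ * (r₀ / 2) ^ 2) * Wf Ω h ≤ 2 * aj H Ω j := by
  set B' := ball ((2 ^ j : ℂ)⁻¹ * z₀) ((1 / 2) ^ j * (r₀ / 2)) with hB'
  have h2j : (0:ℝ) < 2 ^ j := by positivity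
  have hlow : ∀ w, ‖w - (2 ^ j : ℂ)⁻¹ * z₀‖ < (1 / 2) ^ j * r₀ → c₀ * 4 ^ j ≤ bumpAt H j w := by
    intro w hw
    unfold bumpAt
    rw [mul_comm]
    gcongr
    apply hb
    rw [mem_ball, dist_eq_norm]
    have e : 2 ^ j * w - z₀ = 2 ^ j * (w - (2 ^ j : ℂ)⁻¹ * z₀) := by
      rw [mul_sub, mul_inv_cancel_left₀ (pow_ne_zero j two_ne_zero)]
    rw [e, norm_mul, norm_pow, Complex.norm_ofNat]
    calc (2:ℝ) ^ j * ‖w - (2 ^ j : ℂ)⁻¹ * z₀‖ < 2 ^ j * ((1 / 2) ^ j * r₀) := by gcongr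
      _ = r₀ := by rw [← mul_assoc, ← mul_pow]; norm_num
  have hφm : Measurable (fun w => ENNReal.ofReal (bumpAt H j w)) :=
    (bumpAt_contDiff hH j).continuous.measurable.ennreal_ofReal
  have hpt : ∀ w ∈ B', ENNReal.ofReal (c₀ * 4 ^ j) * Wf Ω h ≤
      ENNReal.ofReal (bumpAt H j w) * Wf Ω w +
      ENNReal.ofReal (bumpAt H j (w - h)) * Wf Ω (w - h) := by
    intro w hw
    rw [hB', mem_ball, dist_eq_norm] at hw
    have hpj : (0:ℝ) < (1 / 2) ^ j := by positivity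
    have l1 : c₀ * 4 ^ j ≤ bumpAt H j w := by
      apply hlow
      refine hw.trans ?_
      nlinarith
    have l2 : c₀ * 4 ^ j ≤ bumpAt H j (w - h) := by
      apply hlow
      calc ‖w - h - (2 ^ j : ℂ)⁻¹ * z₀‖ = ‖(w - (2 ^ j : ℂ)⁻¹ * z₀) - h‖ := by congr 1; ring
        _ ≤ ‖w - (2 ^ j : ℂ)⁻¹ * z₀‖ + ‖h‖ := norm_sub_le _ _
        _ < (1 / 2) ^ j * (r₀ / 2) + (1 / 2) ^ j * (r₀ / 2) := add_lt_add_of_lt_of_le hw hh
        _ = (1 / 2) ^ j * r₀ := by ring
    have hW : Wf Ω h ≤ Wf Ω w + Wf Ω (w - h) := by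
      have e : h = w + -(w - h) := by ring
      calc Wf Ω h = Wf Ω (w + -(w - h)) := by rw [← e]
        _ ≤ Wf Ω w + Wf Ω (-(w - h)) := Wf_add hΩ _ _
        _ = Wf Ω w + Wf Ω (w - h) := by rw [Wf_neg]
    calc ENNReal.ofReal (c₀ * 4 ^ j) * Wf Ω h
        ≤ ENNReal.ofReal (c₀ * 4 ^ j) * (Wf Ω w + Wf Ω (w - h)) := by gcongr
      _ = ENNReal.ofReal (c₀ * 4 ^ j) * Wf Ω w + ENNReal.ofReal (c₀ * 4 ^ j) * Wf Ω (w - h) :=
          mul_add _ _ _
      _ ≤ _ := by gcongr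
  have hint : ∫⁻ _ in B', ENNReal.ofReal (c₀ * 4 ^ j) * Wf Ω h ≤ 2 * aj H Ω j := by
    calc ∫⁻ _ in B', ENNReal.ofReal (c₀ * 4 ^ j) * Wf Ω h
        ≤ ∫⁻ w in B', (ENNReal.ofReal (bumpAt H j w) * Wf Ω w +
          ENNReal.ofReal (bumpAt H j (w - h)) * Wf Ω (w - h)) :=
          setLIntegral_mono' measurableSet_ball hpt
      _ ≤ ∫⁻ w, (ENNReal.ofReal (bumpAt H j w) * Wf Ω w +
          ENNReal.ofReal (bumpAt H j (w - h)) * Wf Ω (w - h)) := setLIntegral_le_lintegral _ _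
      _ = (∫⁻ w, ENNReal.ofReal (bumpAt H j w) * Wf Ω w) +
          ∫⁻ w, ENNReal.ofReal (bumpAt H j (w - h)) * Wf Ω (w - h) := by
          have m : Measurable (fun w => ENNReal.ofReal (bumpAt H j w) * Wf Ω w) :=
            hφm.mul (Wf_meas hΩ)
          exact lintegral_add_left m _
      _ = 2 * aj H Ω j := by
          rw [lintegral_sub_right_eq_self (fun w => ENNReal.ofReal (bumpAt H j w) * Wf Ω w) h,
            ← aj_eq hH hΩ, two_mul]
  rw [setLIntegral_const, hB', Complex.volume_ball] at hint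
  refine le_trans ?_ hint
  have e1 : ENNReal.ofReal (c₀ * 4 ^ j) * Wf Ω h *
      (ENNReal.ofReal ((1 / 2) ^ j * (r₀ / 2)) ^ 2 * (NNReal.pi : ℝ≥0∞)) =
      (ENNReal.ofReal (c₀ * (r₀ / 2) ^ 2) * (NNReal.pi : ℝ≥0∞)) * Wf Ω h := by
    have : ENNReal.ofReal (c₀ * 4 ^ j) * ENNReal.ofReal ((1 / 2) ^ j * (r₀ / 2)) ^ 2 =
        ENNReal.ofReal (c₀ * (r₀ / 2) ^ 2) := by
      rw [← ENNReal.ofReal_pow (by positivity), ← ENNReal.ofReal_mul (by positivity)]
      congr 1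
      rw [mul_pow, ← pow_mul, mul_comm j 2, pow_mul]
      have : (4:ℝ) ^ j * ((1 / 2) ^ 2) ^ j = 1 := by rw [← mul_pow]; norm_num
      calc c₀ * 4 ^ j * (((1 / 2) ^ 2) ^ j * (r₀ / 2) ^ 2) =
          c₀ * (r₀ / 2) ^ 2 * (4 ^ j * ((1 / 2) ^ 2) ^ j) := by ring
        _ = _ := by rw [this, mul_one]
    rw [← this]; ring
  rw [e1]
  gcongr
  have hpi : (1 : ℝ≥0∞) ≤ (NNReal.pi : ℝ≥0∞) := by
    have : (1 : ℝ≥0) ≤ NNReal.pi := by
      rw [← NNReal.coe_le_coe, NNReal.coe_real_pi]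
      have := Real.pi_gt_three
      push_cast; linarith
    exact_mod_cast this
  calc ENNReal.ofReal (c₀ * (r₀ / 2) ^ 2) = ENNReal.ofReal (c₀ * (r₀ / 2) ^ 2) * 1 := (mul_one _).symm
    _ ≤ _ := by gcongr

theorem fracPer_of_crit (hH : IsProfile H) {α : ℝ} (hα : α < 1) {Ω : Set ℂ}
    (hΩ : MeasurableSet Ω) (h : Crit H α Ω) : fracPer α Ω < ⊤ := by
  obtain ⟨z₀, r₀, c₀, hr, hc, hb⟩ := bump_lower hH
  obtain ⟨N, hN⟩ := exists_nat_ge (2 / r₀)
  have hN0 : 0 < (N : ℝ) := lt_of_lt_of_le (by positivity) hN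
  set κ : ℝ := c₀ * (r₀ / 2) ^ 2 with hκ
  have hκ0 : 0 < κ := by rw [hκ]; positivity
  set K : ℝ≥0∞ := N * ((ENNReal.ofReal κ)⁻¹ * 2) with hK
  have hκ' : ENNReal.ofReal κ ≠ 0 := by simpa using hκ0
  have hKtop : K < ⊤ := by
    rw [hK]
    exact ENNReal.mul_lt_top (ENNReal.natCast_lt_top N)
      (ENNReal.mul_lt_top (ENNReal.inv_lt_top.2 (pos_iff_ne_zero.2 hκ')) (by simp))
  -- pointwise bound of W
  have hW : ∀ (j : ℕ) (h : ℂ), ‖h‖ ≤ (1 / 2) ^ j → Wf Ω h ≤ K * aj H Ω j := by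
    intro j h hh
    have e : h = (N : ℂ) * (h / N) := by
      rw [mul_div_cancel₀]
      have : (N : ℂ) ≠ 0 := by exact_mod_cast hN0.ne'
      exact this
    have h1 : ‖h / N‖ ≤ (1 / 2) ^ j * (r₀ / 2) := by
      rw [norm_div, Complex.norm_natCast, div_le_iff₀ hN0]
      have h3 : 1 ≤ r₀ / 2 * N := by
        have : 2 / r₀ * (r₀ / 2) = 1 := by field_simp
        nlinarith
      have h4 : (0:ℝ) < (1 / 2) ^ j := by positivity
      calc ‖h‖ ≤ (1 / 2) ^ j := hh
        _ = (1 / 2) ^ j * 1 := (mul_one _).symm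
        _ ≤ (1 / 2) ^ j * (r₀ / 2 * N) := by gcongr
        _ = _ := by ring
    have h2 := Wf_pointwise hH hΩ hr hc hb j (h / N) h1
    rw [← hκ] at h2
    have h3 : Wf Ω (h / N) ≤ (ENNReal.ofReal κ)⁻¹ * (2 * aj H Ω j) := by
      rw [← ENNReal.div_eq_inv_mul, ENNReal.le_div_iff_mul_le (Or.inl hκ') (Or.inl ENNReal.ofReal_ne_top),
        mul_comm]
      exact h2
    calc Wf Ω h = Wf Ω ((N : ℂ) * (h / N)) := by rw [← e]
      _ ≤ N * Wf Ω (h / N) := Wf_nsmul hΩ _ _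
      _ ≤ N * ((ENNReal.ofReal κ)⁻¹ * (2 * aj H Ω j)) := by gcongr
      _ = K * aj H Ω j := by rw [hK]; ring
  -- annuli
  set A : ℕ → Set ℂ := fun j => closedBall (0:ℂ) ((1 / 2) ^ j) \ closedBall (0:ℂ) ((1 / 2) ^ (j + 1)) with hA
  set c : ℕ → ℝ≥0∞ := fun j => ENNReal.ofReal (((1 / 2 : ℝ) ^ (j + 1)) ^ (α - 3)) * (K * aj H Ω j) with hcdef
  have hpt : ∀ h, Kw α h * Wf Ω h ≤ ∑' j, (A j).indicator (fun _ => c j) h := by
    intro h
    by_cases h0 : h = 0
    · rw [h0, Wf_zero, mul_zero]; exact zero_le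
    · by_cases h1 : h ∈ ball (0:ℂ) 1
      · have hx0 : 0 < ‖h‖ := norm_pos_iff.2 h0
        have hx1 : ‖h‖ < 1 := by simpa using h1
        obtain ⟨n, hn1, hn2⟩ := exists_nat_pow_near_of_lt_one hx0 hx1.le (y := (1 / 2 : ℝ))
          (by norm_num) (by norm_num)
        have hmem : h ∈ A n := by
          rw [hA]
          refine ⟨by simpa using hn2, ?_⟩
          simpa using hn1
        refine le_trans ?_ (ENNReal.le_tsum n)
        rw [indicator_of_mem hmem, hcdef]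
        unfold Kw
        rw [indicator_of_mem h1]
        apply mul_le_mul' _ (hW n h hn2)
        apply ENNReal.ofReal_le_ofReal
        exact Real.rpow_le_rpow_of_nonpos (by positivity) hn1.le (by linarith)
      · unfold Kw
        rw [indicator_of_notMem h1, zero_mul]
        exact zero_le
  have hfin : ∫⁻ h, Kw α h * Wf Ω h < ⊤ := by
    calc ∫⁻ h, Kw α h * Wf Ω h ≤ ∫⁻ h, ∑' j, (A j).indicator (fun _ => c j) h :=
          lintegral_mono hpt
      _ = ∑' j, ∫⁻ h, (A j).indicator (fun _ => c j) h := by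
          apply lintegral_tsum
          intro j
          apply Measurable.aemeasurable
          exact measurable_const.indicator (measurableSet_closedBall.diff measurableSet_closedBall)
      _ = ∑' j, c j * volume (A j) := by
          congr 1
          ext j
          rw [lintegral_indicator (measurableSet_closedBall.diff measurableSet_closedBall),
            setLIntegral_const]
      _ ≤ ∑' j, (ENNReal.ofReal ((2:ℝ) ^ (3 - α)) * (NNReal.pi : ℝ≥0∞) * K) *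
          (wt α j * aj H Ω j) := by
          apply ENNReal.tsum_le_tsum
          intro j
          have hv : volume (A j) ≤ ENNReal.ofReal (((1 / 2 : ℝ) ^ j) ^ 2) * (NNReal.pi : ℝ≥0∞) := by
            calc volume (A j) ≤ volume (closedBall (0:ℂ) ((1 / 2) ^ j)) := measure_mono sdiff_subset
              _ = _ := by
                rw [Complex.volume_closedBall, ← ENNReal.ofReal_pow (by positivity)]
          calc c j * volume (A j) ≤ c j * (ENNReal.ofReal (((1 / 2 : ℝ) ^ j) ^ 2) * (NNReal.pi : ℝ≥0∞)) := by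
                gcongr
            _ = (ENNReal.ofReal (((1 / 2 : ℝ) ^ (j + 1)) ^ (α - 3)) *
                ENNReal.ofReal (((1 / 2 : ℝ) ^ j) ^ 2)) * ((NNReal.pi : ℝ≥0∞) * K * aj H Ω j) := by
                rw [hcdef]; ring
            _ = (ENNReal.ofReal ((2:ℝ) ^ (3 - α)) * wt α j) * ((NNReal.pi : ℝ≥0∞) * K * aj H Ω j) := by
                congr 1
                unfold wt
                rw [← ENNReal.ofReal_mul (by positivity), ← ENNReal.ofReal_mul (by positivity)]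
                congr 1
                have e1 : ∀ n : ℕ, (1 / 2 : ℝ) ^ n = (2:ℝ) ^ (-(n:ℝ)) := by
                  intro n
                  rw [one_div, inv_pow, Real.rpow_neg (by norm_num), Real.rpow_natCast]
                rw [e1, e1, ← Real.rpow_natCast, ← Real.rpow_mul (by norm_num),
                  ← Real.rpow_mul (by norm_num), ← Real.rpow_add (by norm_num),
                  ← Real.rpow_add (by norm_num)]
                congr 1
                push_cast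
                ring
            _ = _ := by ring
      _ = (ENNReal.ofReal ((2:ℝ) ^ (3 - α)) * (NNReal.pi : ℝ≥0∞) * K) *
          ∑' j, (wt α j * aj H Ω j) := ENNReal.tsum_mul_left
      _ < ⊤ := by
          apply ENNReal.mul_lt_top _ (sum_aj hH hα hΩ h)
          exact ENNReal.mul_lt_top (ENNReal.mul_lt_top ENNReal.ofReal_lt_top ENNReal.coe_lt_top) hKtop
  rw [two_fracPer α hΩ] at hfin
  exact lt_of_le_of_lt (by
    calc fracPer α Ω = 1 * fracPer α Ω := (one_mul _).symm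
      _ ≤ 2 * fracPer α Ω := by gcongr; norm_num) hfin

end H98.Dbar
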