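import Mathlib
import Pool.Agent.H98.Dbar.Per4

/-! # Finite or cofinite area when `α ≤ 1` -/

open MeasureTheory Complex Metric Set Filter Topology
open scoped ContDiff ENNReal NNReal Convolution

namespace H98.Dbar

variable {H : ℝ → ℝ}

lemma line_ftc {g : ℝ → ℝ} (hg : ContDiff ℝ 1 g) (a b : ℝ) :
    ‖g b - g a‖ₑ ≤ ∫⁻ t, ‖deriv g t‖ₑ := by
  wlog hab : a ≤ b generalizing a b
  · have := this b a (not_le.1 hab).le
    rw [← enorm_neg, neg_sub]
    exact this
  have hd : Continuous (deriv g) := hg.continuous_deriv le_rfl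
  have h1 : ∫ t in a..b, deriv g t = g b - g a := by
    apply intervalIntegral.integral_deriv_eq_sub
    · intro x _
      exact (hg.differentiable one_ne_zero) x
    · exact hd.intervalIntegrable _ _
  rw [← h1, intervalIntegral.integral_of_le hab]
  exact (enorm_integral_le_lintegral_enorm _).trans (setLIntegral_le_lintegral _ _)

/-- point of the plane -/
def pt (x y : ℝ) : ℂ := ⟨x, y⟩

lemma pt_eq (x y : ℝ) : pt x y = (x : ℂ) + (y : ℂ) * I := by
  apply Complex.ext <;> simp [pt]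

lemma vert {v : ℂ → ℝ} (hv : ContDiff ℝ ∞ v) (x y y' : ℝ) :
    ‖v (pt x y) - v (pt x y')‖ₑ ≤ ∫⁻ t, ‖fderiv ℝ v (pt x t)‖ₑ := by
  have hc : ContDiff ℝ ∞ (fun t : ℝ => pt x t) := by
    have : (fun t : ℝ => pt x t) = fun t : ℝ => (x : ℂ) + (t : ℂ) * I := by
      ext t; exact pt_eq x t
    rw [this]
    have h1 : ContDiff ℝ ∞ (fun t : ℝ => (t : ℂ)) := Complex.ofRealCLM.contDiff
    fun_prop
  have hg : ContDiff ℝ 1 (fun t : ℝ => v (pt x t)) := (hv.comp hc).of_le (by simp)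
  refine (line_ftc hg y' y).trans ?_
  apply lintegral_mono
  intro t
  have hd : HasDerivAt (fun t : ℝ => pt x t) I t := by
    have : (fun t : ℝ => pt x t) = fun t : ℝ => (x : ℂ) + (t : ℂ) * I := by
      ext t; exact pt_eq x t
    rw [this]
    have h1 : HasDerivAt (fun t : ℝ => (t : ℂ)) 1 t := Complex.ofRealCLM.hasDerivAt
    simpa using (h1.mul_const I).const_add (x : ℂ)
  have hvd := ((hv.differentiable (by simp)) (pt x t)).hasFDerivAt
  have h2 : deriv (fun t : ℝ => v (pt x t)) t = fderiv ℝ v (pt x t) I :=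
    (hvd.comp_hasDerivAt t hd).deriv
  simp only
  rw [h2, ← ofReal_norm, ← ofReal_norm]
  apply ENNReal.ofReal_le_ofReal
  simpa using (fderiv ℝ v (pt x t)).le_opNorm I

lemma horiz {v : ℂ → ℝ} (hv : ContDiff ℝ ∞ v) (x x' y : ℝ) :
    ‖v (pt x y) - v (pt x' y)‖ₑ ≤ ∫⁻ t, ‖fderiv ℝ v (pt t y)‖ₑ := by
  have hc : ContDiff ℝ ∞ (fun t : ℝ => pt t y) := by
    have : (fun t : ℝ => pt t y) = fun t : ℝ => (t : ℂ) + (y : ℂ) * I := by
      ext t; exact pt_eq t y
    rw [this]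
    have h1 : ContDiff ℝ ∞ (fun t : ℝ => (t : ℂ)) := Complex.ofRealCLM.contDiff
    fun_prop
  have hg : ContDiff ℝ 1 (fun t : ℝ => v (pt t y)) := (hv.comp hc).of_le (by simp)
  refine (line_ftc hg x' x).trans ?_
  apply lintegral_mono
  intro t
  have hd : HasDerivAt (fun t : ℝ => pt t y) 1 t := by
    have : (fun t : ℝ => pt t y) = fun t : ℝ => (t : ℂ) + (y : ℂ) * I := by
      ext t; exact pt_eq t y
    rw [this]
    have h1 : HasDerivAt (fun t : ℝ => (t : ℂ)) 1 t := Complex.ofRealCLM.hasDerivAt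
    simpa using h1.add_const ((y : ℂ) * I)
  have hvd := ((hv.differentiable (by simp)) (pt t y)).hasFDerivAt
  have h2 : deriv (fun t : ℝ => v (pt t y)) t = fderiv ℝ v (pt t y) 1 :=
    (hvd.comp_hasDerivAt t hd).deriv
  simp only
  rw [h2, ← ofReal_norm, ← ofReal_norm]
  apply ENNReal.ofReal_le_ofReal
  simpa using (fderiv ℝ v (pt t y)).le_opNorm 1

/-- The crossing lines argument. -/
lemma cross {v : ℂ → ℝ} (hv : ContDiff ℝ ∞ v) (hint : ∫⁻ z, ‖fderiv ℝ v z‖ₑ < ⊤) {ε : ℝ}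
    (hε : 0 < ε) : ∃ c : ℝ, volume {z : ℂ | ε ≤ |v z - c|} < ⊤ := by
  have hcont : Continuous (fun z => fderiv ℝ v z) := hv.continuous_fderiv (by simp)
  have hptm : Measurable (fun p : ℝ × ℝ => pt p.1 p.2) := by
    have : (fun p : ℝ × ℝ => pt p.1 p.2) = Complex.measurableEquivRealProd.symm := by
      ext p; rfl
    rw [this]
    exact Complex.measurableEquivRealProd.symm.measurable
  set f : ℝ → ℝ → ℝ≥0∞ := fun x y => ‖fderiv ℝ v (pt x y)‖ₑ with hf
  have hfm : Measurable (fun p : ℝ × ℝ => f p.1 p.2) := (hcont.measurable.comp hptm).enorm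
  have htot : ∫⁻ z, ‖fderiv ℝ v z‖ₑ = ∫⁻ p : ℝ × ℝ, f p.1 p.2 := by
    rw [← (Complex.volume_preserving_equiv_real_prod.symm).lintegral_comp_emb
      (Complex.measurableEquivRealProd.symm.measurableEmbedding)]
    rfl
  have hG : ∫⁻ x, ∫⁻ y, f x y = ∫⁻ z, ‖fderiv ℝ v z‖ₑ := by
    rw [htot]
    exact (lintegral_prod _ hfm.aemeasurable).symm
  have hK : ∫⁻ y, ∫⁻ x, f x y = ∫⁻ z, ‖fderiv ℝ v z‖ₑ := by
    rw [← hG]
    exact (lintegral_lintegral_swap hfm.aemeasurable).symm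
  set η : ℝ≥0∞ := ENNReal.ofReal (ε / 2) with hη
  have hη0 : η ≠ 0 := by
    rw [hη]; simp; linarith
  have hηt : η ≠ ⊤ := ENNReal.ofReal_ne_top
  set Gf : ℝ → ℝ≥0∞ := fun x => ∫⁻ y, f x y with hGf
  set Kf : ℝ → ℝ≥0∞ := fun y => ∫⁻ x, f x y with hKf
  have hGm : Measurable Gf := hfm.lintegral_prod_right'
  have hKm : Measurable Kf := hfm.lintegral_prod_left'
  have hXc : volume {x | η ≤ Gf x} < ⊤ := by
    refine lt_of_le_of_lt (meas_ge_le_lintegral_div hGm.aemeasurable hη0 hηt) ?_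
    rw [show ∫⁻ a, Gf a = ∫⁻ z, ‖fderiv ℝ v z‖ₑ from hG]
    exact ENNReal.div_lt_top hint.ne hη0
  have hYc : volume {y | η ≤ Kf y} < ⊤ := by
    refine lt_of_le_of_lt (meas_ge_le_lintegral_div hKm.aemeasurable hη0 hηt) ?_
    rw [show ∫⁻ a, Kf a = ∫⁻ z, ‖fderiv ℝ v z‖ₑ from hK]
    exact ENNReal.div_lt_top hint.ne hη0
  obtain ⟨x0, hx0⟩ : ∃ x0, Gf x0 < η := by
    by_contra hcon
    push Not at hcon
    have : {x | η ≤ Gf x} = univ := by ext x; simp [hcon x]
    rw [this] at hXc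
    simp at hXc
  obtain ⟨y0, hy0⟩ : ∃ y0, Kf y0 < η := by
    by_contra hcon
    push Not at hcon
    have : {x | η ≤ Kf x} = univ := by ext x; simp [hcon x]
    rw [this] at hYc
    simp at hYc
  refine ⟨v (pt x0 y0), ?_⟩
  have hsub : {z : ℂ | ε ≤ |v z - v (pt x0 y0)|} ⊆
      Complex.measurableEquivRealProd ⁻¹' ({x | η ≤ Gf x} ×ˢ {y | η ≤ Kf y}) := by
    intro z hz
    rw [mem_preimage, Complex.measurableEquivRealProd_apply, mem_prod]
    have hzpt : z = pt z.re z.im := rfl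
    have hz' : ENNReal.ofReal ε ≤ ‖v z - v (pt x0 y0)‖ₑ := by
      rw [← ofReal_norm, Real.norm_eq_abs]
      exact ENNReal.ofReal_le_ofReal hz
    have hεη : ENNReal.ofReal ε = η + η := by
      rw [hη, ← ENNReal.ofReal_add (by linarith) (by linarith)]
      congr 1; ring
    have tri : ∀ a b c : ℝ, ‖a - c‖ₑ ≤ ‖a - b‖ₑ + ‖b - c‖ₑ := by
      intro a b c
      have : a - c = (a - b) + (b - c) := by ring
      rw [this]
      exact enorm_add_le _ _
    constructor
    · simp only [Set.mem_ofPred_eq]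
      by_contra hcon
      rw [not_le] at hcon
      have h1 := vert hv z.re z.im y0
      have h2 := horiz hv z.re x0 y0
      have h3 : ‖v z - v (pt x0 y0)‖ₑ < η + η := by
        calc ‖v z - v (pt x0 y0)‖ₑ ≤ ‖v (pt z.re z.im) - v (pt z.re y0)‖ₑ +
              ‖v (pt z.re y0) - v (pt x0 y0)‖ₑ := tri _ _ _
          _ < η + η := ENNReal.add_lt_add (lt_of_le_of_lt h1 hcon) (lt_of_le_of_lt h2 hy0)
      rw [hεη] at hz'
      exact absurd (lt_of_le_of_lt hz' h3) (lt_irrefl _)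
    · simp only [Set.mem_ofPred_eq]
      by_contra hcon
      rw [not_le] at hcon
      have h1 := horiz hv z.re x0 z.im
      have h2 := vert hv x0 z.im y0
      have h3 : ‖v z - v (pt x0 y0)‖ₑ < η + η := by
        calc ‖v z - v (pt x0 y0)‖ₑ ≤ ‖v (pt z.re z.im) - v (pt x0 z.im)‖ₑ +
              ‖v (pt x0 z.im) - v (pt x0 y0)‖ₑ := tri _ _ _
          _ < η + η := ENNReal.add_lt_add (lt_of_le_of_lt h1 hcon) (lt_of_le_of_lt h2 hx0)
      rw [hεη] at hz'
      exact absurd (lt_of_le_of_lt hz' h3) (lt_irrefl _)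
  refine lt_of_le_of_lt (measure_mono hsub) ?_
  rw [(Complex.volume_preserving_equiv_real_prod).measure_preimage_equiv, Measure.volume_eq_prod,
    Measure.prod_prod]
  exact ENNReal.mul_lt_top hXc hYc

lemma aj_zero_lt (hH : IsProfile H) {α : ℝ} (hα : α ≤ 1) {Ω : Set ℂ} (hΩ : MeasurableSet Ω)
    (h : Crit H α Ω) : aj H Ω 0 < ⊤ := by
  refine lt_of_le_of_lt (aj_le hH hΩ 0) ?_
  refine lt_of_le_of_lt ?_ h.2
  apply ENNReal.tsum_le_tsum
  intro i
  rw [zero_add]
  calc ∫⁻ z, ‖moll H (i + 1) Ω z - moll H i Ω z‖ₑ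
      = 1 * ∫⁻ z, ‖moll H (i + 1) Ω z - moll H i Ω z‖ₑ := (one_mul _).symm
    _ ≤ _ := by
        gcongr
        rw [← ENNReal.ofReal_one]
        apply ENNReal.ofReal_le_ofReal
        apply Real.one_le_rpow (by norm_num)
        have : 0 ≤ 1 - α := by linarith
        positivity

theorem finite_or_cofinite (hH : IsProfile H) {α : ℝ} (hα : α ≤ 1) {Ω : Set ℂ}
    (hΩ : MeasurableSet Ω) (h : Crit H α Ω) : volume Ω < ⊤ ∨ volume Ωᶜ < ⊤ := by
  obtain ⟨c, hc⟩ := cross (moll_contDiff hH hΩ 0) h.1 (ε := 1 / 8) (by norm_num)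
  have ha := aj_zero_lt hH hα hΩ h
  have hm : Measurable (fun z => ‖chi Ω z - (moll H 0 Ω z : ℂ)‖ₑ) :=
    ((chi_meas hΩ).sub (Complex.measurable_ofReal.comp
      (moll_contDiff hH hΩ 0).continuous.measurable)).enorm
  have hbad : volume {z | ENNReal.ofReal (3 / 8) ≤ ‖chi Ω z - (moll H 0 Ω z : ℂ)‖ₑ} < ⊤ := by
    have h38 : ENNReal.ofReal (3 / 8) ≠ 0 := by simp
    refine lt_of_le_of_lt (meas_ge_le_lintegral_div hm.aemeasurable h38 ENNReal.ofReal_ne_top) ?_
    exact ENNReal.div_lt_top ha.ne h38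
  rcases le_total c (1 / 2) with hc2 | hc2
  · left
    refine lt_of_le_of_lt (measure_mono ?_) (lt_of_le_of_lt (measure_union_le _ _)
      (ENNReal.add_lt_top.2 ⟨hc, hbad⟩))
    intro z hz
    by_cases h1 : 1 / 8 ≤ |moll H 0 Ω z - c|
    · left; exact h1
    · right
      simp only [Set.mem_ofPred_eq]
      have h2 : moll H 0 Ω z ≤ 5 / 8 := by
        have := (abs_lt.1 (not_le.1 h1)).2
        linarith
      have h3 : chi Ω z = 1 := by unfold chi; simp [hz]
      rw [h3, ← ofReal_norm]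
      apply ENNReal.ofReal_le_ofReal
      have h4 : ((1:ℂ) - (moll H 0 Ω z : ℂ)) = ((1 - moll H 0 Ω z : ℝ) : ℂ) := by push_cast; rfl
      rw [h4, Complex.norm_real, Real.norm_eq_abs]
      refine le_trans ?_ (le_abs_self _)
      linarith
  · right
    refine lt_of_le_of_lt (measure_mono ?_) (lt_of_le_of_lt (measure_union_le _ _)
      (ENNReal.add_lt_top.2 ⟨hc, hbad⟩))
    intro z hz
    by_cases h1 : 1 / 8 ≤ |moll H 0 Ω z - c|
    · left; exact h1
    · right
      simp only [Set.mem_ofPred_eq]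
      have h2 : 3 / 8 ≤ moll H 0 Ω z := by
        have := (abs_lt.1 (not_le.1 h1)).1
        linarith
      have hz' : z ∉ Ω := hz
      have h3 : chi Ω z = 0 := by unfold chi; simp [hz']
      rw [h3, zero_sub, enorm_neg, ← ofReal_norm]
      apply ENNReal.ofReal_le_ofReal
      rw [Complex.norm_real, Real.norm_eq_abs]
      exact h2.trans (le_abs_self _)

end H98.Dbar
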