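import Mathlib
import Pool.Agent.H98.Dbar.Fin

/-! # For `α > 1` there are admissible sets with infinite area and infinite co-area -/

open MeasureTheory Complex Metric Set Filter Topology
open scoped ContDiff ENNReal NNReal Convolution

namespace H98.Dbar

variable {H : ℝ → ℝ}

/-- number of stripes in a cell -/
def Nc (c : ℤ × ℤ) : ℕ := 2 ^ (c.1.natAbs + c.2.natAbs)

lemma Nc_pos (c : ℤ × ℤ) : (0:ℝ) < Nc c := by
  unfold Nc; positivity

/-- left stripes -/
def Lc (c : ℤ × ℤ) : Set ℂ :=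
  {z | ⌊z.re⌋ = c.1 ∧ ⌊z.im⌋ = c.2 ∧ Int.fract ((Nc c : ℝ) * z.re) < 1 / 2}

/-- right stripes -/
def Rc (c : ℤ × ℤ) : Set ℂ :=
  {z | ⌊z.re⌋ = c.1 ∧ ⌊z.im⌋ = c.2 ∧ 1 / 2 ≤ Int.fract ((Nc c : ℝ) * z.re)}

/-- The example set. -/
def exS : Set ℂ := ⋃ c, Lc c

/-- the translation -/
noncomputable def hc (c : ℤ × ℤ) : ℝ := 1 / (2 * Nc c)

lemma exS_compl : exSᶜ = ⋃ c, Rc c := by
  ext z
  rw [mem_compl_iff]
  unfold exS
  rw [mem_iUnion, mem_iUnion]
  constructor
  · intro h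
    refine ⟨(⌊z.re⌋, ⌊z.im⌋), rfl, rfl, ?_⟩
    by_contra hcon
    exact h ⟨(⌊z.re⌋, ⌊z.im⌋), rfl, rfl, not_le.1 hcon⟩
  · rintro ⟨c, h1, h2, h3⟩ ⟨c', h1', h2', h3'⟩
    have : c = c' := by
      apply Prod.ext
      · rw [← h1, ← h1']
      · rw [← h2, ← h2']
    subst this
    exact absurd h3' (not_lt.2 h3)

lemma Lc_meas (c : ℤ × ℤ) : MeasurableSet (Lc c) := by
  have h1 : MeasurableSet {z : ℂ | ⌊z.re⌋ = c.1} :=
    (Int.measurable_floor.comp Complex.measurable_re) (measurableSet_singleton c.1)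
  have h2 : MeasurableSet {z : ℂ | ⌊z.im⌋ = c.2} :=
    (Int.measurable_floor.comp Complex.measurable_im) (measurableSet_singleton c.2)
  have h3 : MeasurableSet {z : ℂ | Int.fract ((Nc c : ℝ) * z.re) < 1 / 2} :=
    measurableSet_lt (measurable_fract.comp (Complex.measurable_re.const_mul _)) measurable_const
  exact h1.inter (h2.inter h3)

lemma Rc_meas (c : ℤ × ℤ) : MeasurableSet (Rc c) := by
  have h1 : MeasurableSet {z : ℂ | ⌊z.re⌋ = c.1} :=
    (Int.measurable_floor.comp Complex.measurable_re) (measurableSet_singleton c.1)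
  have h2 : MeasurableSet {z : ℂ | ⌊z.im⌋ = c.2} :=
    (Int.measurable_floor.comp Complex.measurable_im) (measurableSet_singleton c.2)
  have h3 : MeasurableSet {z : ℂ | 1 / 2 ≤ Int.fract ((Nc c : ℝ) * z.re)} :=
    measurableSet_le measurable_const (measurable_fract.comp (Complex.measurable_re.const_mul _))
  exact h1.inter (h2.inter h3)

lemma exS_meas : MeasurableSet exS := MeasurableSet.iUnion Lc_meas

lemma shift_iff (c : ℤ × ℤ) (z : ℂ) : z + (hc c : ℂ) ∈ Rc c ↔ z ∈ Lc c := by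
  have hN := Nc_pos c
  have hre : (z + (hc c : ℂ)).re = z.re + hc c := by simp
  have him : (z + (hc c : ℂ)).im = z.im := by simp
  have hNh : (Nc c : ℝ) * (z.re + hc c) = Nc c * z.re + 1 / 2 := by
    unfold hc; field_simp
  have hh : 0 < hc c := by unfold hc; positivity
  unfold Rc Lc
  simp only [Set.mem_ofPred_eq]
  rw [hre, him, hNh]
  set x := z.re with hx
  set N : ℝ := (Nc c : ℝ) with hNdef
  constructor
  · rintro ⟨h1, h2, h3⟩
    set k := ⌊N * x + 1 / 2⌋ with hk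
    have hk1 : (k : ℝ) ≤ N * x + 1 / 2 := Int.floor_le _
    have hk2 : N * x + 1 / 2 < k + 1 := Int.lt_floor_add_one _
    have hf : Int.fract (N * x + 1 / 2) = N * x + 1 / 2 - k := rfl
    rw [hf] at h3
    have h4 : (k : ℝ) ≤ N * x := by linarith
    have hfl : ⌊N * x⌋ = k := by
      rw [Int.floor_eq_iff]
      constructor <;> linarith
    have h5 : Int.fract (N * x) = N * x - k := by
      rw [← hfl]; rfl
    refine ⟨?_, h2, by rw [h5]; linarith⟩
    rw [Int.floor_eq_iff] at h1 ⊢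
    refine ⟨?_, by linarith⟩
    have h6 : ((Nc c * c.1 : ℤ) : ℝ) ≤ N * x + 1 / 2 := by
      push_cast
      rw [← hNh]
      have : (Nc c : ℝ) * (c.1 : ℝ) ≤ N * (x + hc c) := by
        rw [← hNdef]
        exact mul_le_mul_of_nonneg_left h1.1 hN.le
      exact this
    have h7 : (Nc c * c.1 : ℤ) ≤ k := Int.le_floor.2 h6
    have h8 : ((Nc c * c.1 : ℤ) : ℝ) ≤ N * x := le_trans (by exact_mod_cast h7) h4
    push_cast at h8
    exact le_of_mul_le_mul_left h8 hN
  · rintro ⟨h1, h2, h3⟩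
    set k := ⌊N * x⌋ with hk
    have hk1 : (k : ℝ) ≤ N * x := Int.floor_le _
    have hf : Int.fract (N * x) = N * x - k := rfl
    rw [hf] at h3
    have hfl : ⌊N * x + 1 / 2⌋ = k := by
      rw [Int.floor_eq_iff]
      constructor <;> linarith
    have h5 : Int.fract (N * x + 1 / 2) = N * x + 1 / 2 - k := by
      rw [← hfl]; rfl
    refine ⟨?_, h2, by rw [h5]; linarith⟩
    rw [Int.floor_eq_iff] at h1 ⊢
    refine ⟨by linarith, ?_⟩
    have h6 : N * x < ((Nc c * (c.1 + 1) : ℤ) : ℝ) := by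
      push_cast
      exact mul_lt_mul_of_pos_left h1.2 hN
    have h7 : k < (Nc c * (c.1 + 1) : ℤ) := Int.floor_lt.2 h6
    have h8 : k + 1 ≤ (Nc c * (c.1 + 1) : ℤ) := h7
    have h9 : ((k + 1 : ℤ) : ℝ) ≤ ((Nc c * (c.1 + 1) : ℤ) : ℝ) := by exact_mod_cast h8
    push_cast at h9
    have h10 : N * (x + hc c) < N * (c.1 + 1) := by
      rw [hNh]
      linarith
    exact lt_of_mul_lt_mul_left h10 hN.le

lemma Lc_disj : Pairwise (Function.onFun Disjoint Lc) := by
  intro c c' hcc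
  rw [Function.onFun, Set.disjoint_left]
  rintro z ⟨h1, h2, _⟩ ⟨h1', h2', _⟩
  exact hcc (Prod.ext (by rw [← h1, ← h1']) (by rw [← h2, ← h2']))

lemma Rc_disj : Pairwise (Function.onFun Disjoint Rc) := by
  intro c c' hcc
  rw [Function.onFun, Set.disjoint_left]
  rintro z ⟨h1, h2, _⟩ ⟨h1', h2', _⟩
  exact hcc (Prod.ext (by rw [← h1, ← h1']) (by rw [← h2, ← h2']))

lemma vol_Rc (c : ℤ × ℤ) : volume (Rc c) = volume (Lc c) := by
  have : Lc c = (fun z => z + (hc c : ℂ)) ⁻¹' (Rc c) := by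
    ext z; exact (shift_iff c z).symm
  rw [this, measure_preimage_add_right]

lemma vol_Lc_le (c : ℤ × ℤ) : volume (Lc c) ≤ 1 := by
  have hsub : Lc c ⊆ Complex.measurableEquivRealProd ⁻¹'
      (Ico (c.1 : ℝ) (c.1 + 1) ×ˢ Ico (c.2 : ℝ) (c.2 + 1)) := by
    rintro z ⟨h1, h2, _⟩
    rw [Int.floor_eq_iff] at h1 h2
    exact ⟨h1, h2⟩
  refine (measure_mono hsub).trans ?_
  rw [(Complex.volume_preserving_equiv_real_prod).measure_preimage_equiv, Measure.volume_eq_prod,
    Measure.prod_prod, Real.volume_Ico, Real.volume_Ico]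
  simp

lemma vol_exS : volume exS = ⊤ ∧ volume exSᶜ = ⊤ := by
  have h1 : volume exS = ∑' c, volume (Lc c) := measure_iUnion Lc_disj Lc_meas
  have h2 : volume exSᶜ = ∑' c, volume (Rc c) := by
    rw [exS_compl]; exact measure_iUnion Rc_disj Rc_meas
  have h3 : volume exSᶜ = volume exS := by
    rw [h1, h2]; congr 1; ext c; exact vol_Rc c
  have h4 : volume exS + volume exSᶜ = ⊤ := by
    rw [measure_add_measure_compl exS_meas]
    simp
  rw [h3] at h4
  have h5 : volume exS = ⊤ := by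
    by_contra hcon
    have : volume exS + volume exS < ⊤ := ENNReal.add_lt_top.2
      ⟨lt_top_iff_ne_top.2 hcon, lt_top_iff_ne_top.2 hcon⟩
    rw [h4] at this
    exact lt_irrefl _ this
  exact ⟨h5, h3.trans h5⟩

/-- L1 modulus of a kernel -/
noncomputable def Dm (κ : ℂ → ℂ) (h : ℂ) : ℝ≥0∞ := ∫⁻ z, ‖κ z - κ (z - h)‖ₑ

lemma enorm_le_tsum {ι : Type*} {f : ι → ℂ} {a : ℂ} (h : HasSum f a) : ‖a‖ₑ ≤ ∑' i, ‖f i‖ₑ := by
  have h1 : Tendsto (fun s : Finset ι => ‖∑ i ∈ s, f i‖ₑ) atTop (𝓝 ‖a‖ₑ) :=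
    (continuous_enorm.tendsto a).comp h
  refine le_of_tendsto' h1 ?_
  intro s
  refine (enorm_sum_le _ _).trans ?_
  exact ENNReal.sum_le_tsum s

lemma ex_pointwise {κ : ℂ → ℂ} (hκ : κ ∈ V) (h0 : ∫ z, κ z = 0) (z : ℂ) :
    ‖cv κ (chi exS) z‖ₑ ≤ ∑' c, ∫⁻ w in Lc c, ‖κ (z - w) - κ (z - w - hc c)‖ₑ := by
  have hint : Integrable (fun w => κ (z - w)) := (V_integrable hκ).comp_sub_left z
  have e1 : cv κ (chi exS) z = ∫ w in exS, κ (z - w) := by
    rw [cv_swap, ← integral_indicator exS_meas]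
    congr 1
    ext w
    unfold chi
    by_cases h : w ∈ exS <;> simp [h]
  have e2 : (∫ w in exS, κ (z - w)) + ∫ w in exSᶜ, κ (z - w) = 0 := by
    rw [integral_add_compl exS_meas hint, integral_sub_left_eq_self (fun w => κ w) volume z, h0]
  have s1 : HasSum (fun c => ∫ w in Lc c, κ (z - w)) (∫ w in exS, κ (z - w)) :=
    hasSum_integral_iUnion Lc_meas Lc_disj hint.integrableOn
  have s2 : HasSum (fun c => ∫ w in Rc c, κ (z - w)) (∫ w in exSᶜ, κ (z - w)) := by
    rw [exS_compl]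
    exact hasSum_integral_iUnion Rc_meas Rc_disj hint.integrableOn
  have e3 : ∀ c, ∫ w in Rc c, κ (z - w) = ∫ w in Lc c, κ (z - w - hc c) := by
    intro c
    rw [← integral_indicator (Rc_meas c), ← integral_indicator (Lc_meas c),
      ← integral_add_right_eq_self (fun w => (Rc c).indicator (fun w => κ (z - w)) w) (hc c : ℂ)]
    congr 1
    ext w
    by_cases hw : w ∈ Lc c
    · rw [indicator_of_mem hw, indicator_of_mem ((shift_iff c w).2 hw)]
      congr 1; ring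
    · rw [indicator_of_notMem hw, indicator_of_notMem (fun h => hw ((shift_iff c w).1 h))]
  have s3 := s1.sub s2
  have e4 : (∫ w in exS, κ (z - w)) - ∫ w in exSᶜ, κ (z - w) = 2 * cv κ (chi exS) z := by
    rw [e1]
    linear_combination (-1 : ℂ) * e2
  rw [e4] at s3
  have e5 := enorm_le_tsum s3
  have e6 : ‖cv κ (chi exS) z‖ₑ ≤ ‖2 * cv κ (chi exS) z‖ₑ := by
    rw [← ofReal_norm, ← ofReal_norm]
    apply ENNReal.ofReal_le_ofReal
    rw [norm_mul, Complex.norm_ofNat]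
    nlinarith [norm_nonneg (cv κ (chi exS) z)]
  refine e6.trans (e5.trans ?_)
  apply ENNReal.tsum_le_tsum
  intro c
  rw [e3, ← integral_sub hint.integrableOn]
  · exact enorm_integral_le_lintegral_enorm _
  · have h1 : Integrable (fun w => κ (z - hc c - w)) := (V_integrable hκ).comp_sub_left (z - hc c)
    have h2 : (fun w => κ (z - w - hc c)) = fun w => κ (z - hc c - w) := by
      ext w; congr 1; ring
    rw [h2]
    exact h1.integrableOn

lemma ex_l1 {κ : ℂ → ℂ} (hκ : κ ∈ V) (h0 : ∫ z, κ z = 0) :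
    ∫⁻ z, ‖cv κ (chi exS) z‖ₑ ≤ ∑' c, Dm κ (hc c) := by
  have hm : ∀ c : ℤ × ℤ, Measurable (fun p : ℂ × ℂ => ‖κ (p.1 - p.2) - κ (p.1 - p.2 - hc c)‖ₑ) := by
    intro c
    have hk := (V_cont hκ).measurable
    exact ((hk.comp (measurable_fst.sub measurable_snd)).sub
      (hk.comp ((measurable_fst.sub measurable_snd).sub measurable_const))).enorm
  calc ∫⁻ z, ‖cv κ (chi exS) z‖ₑ
      ≤ ∫⁻ z, ∑' c, ∫⁻ w in Lc c, ‖κ (z - w) - κ (z - w - hc c)‖ₑ :=
        lintegral_mono fun z => ex_pointwise hκ h0 z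
    _ = ∑' c, ∫⁻ z, ∫⁻ w in Lc c, ‖κ (z - w) - κ (z - w - hc c)‖ₑ := by
        apply lintegral_tsum
        intro c
        exact ((hm c).lintegral_prod_right').aemeasurable
    _ ≤ ∑' c, Dm κ (hc c) := by
        apply ENNReal.tsum_le_tsum
        intro c
        rw [lintegral_lintegral_swap (hm c).aemeasurable]
        have e1 : ∀ w : ℂ, ∫⁻ z, ‖κ (z - w) - κ (z - w - hc c)‖ₑ = Dm κ (hc c) := by
          intro w
          exact lintegral_sub_right_eq_self (fun z => ‖κ z - κ (z - hc c)‖ₑ) w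
        simp_rw [e1]
        rw [setLIntegral_const]
        calc Dm κ (hc c) * volume (Lc c) ≤ Dm κ (hc c) * 1 := by
              gcongr; exact vol_Lc_le c
          _ = _ := mul_one _

end H98.Dbar
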