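import Mathlib
import Pool.Agent.H98.Dbar.Ex

/-! # For `α > 1` there are admissible sets with infinite area and infinite co-area, end -/

open MeasureTheory Complex Metric Set Filter Topology
open scoped ContDiff ENNReal NNReal Convolution

namespace H98.Dbar

variable {H : ℝ → ℝ}

lemma Dm_eq {κ : ℂ → ℂ} (hκ : κ ∈ V) (h : ℂ) :
    Dm κ h = ENNReal.ofReal (∫ z, ‖(fwdDiff (-h))^[1] κ z‖) := by
  have h1 : Integrable ((fwdDiff (-h))^[1] κ) := V_integrable (fdk_mem_V hκ (-h) 1)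
  rw [ofReal_integral_norm_eq_lintegral_enorm h1]
  unfold Dm
  congr 1
  ext z
  rw [← enorm_neg]
  congr 1
  rw [Function.iterate_one]
  unfold fwdDiff
  rw [neg_sub, sub_eq_add_neg z h]

lemma Dm_bound {κ : ℂ → ℂ} (hκ : κ ∈ V) : ∃ M : ℝ, 0 ≤ M ∧ ∀ h,
    Dm κ h ≤ ENNReal.ofReal (M * min 1 (‖h‖ ^ 1)) := by
  obtain ⟨M, hM, hb⟩ := fdk_l1_bound hκ 1
  refine ⟨M, hM, fun h => ?_⟩
  rw [Dm_eq hκ]
  apply ENNReal.ofReal_le_ofReal
  have := hb (-h)
  rwa [norm_neg] at this

lemma psi_scale (H : ℝ → ℝ) (j : ℕ) (z : ℂ) : psi H j z = 4 ^ j * psi H 0 (2 ^ j * z) := by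
  unfold psi bumpC bumpAt
  push_cast
  have e : (2:ℂ) ^ (0 + 1) * ((2:ℂ) ^ j * z) = 2 ^ (j + 1) * z := by ring
  rw [e]
  simp only [pow_zero, one_mul]
  ring

lemma Dm_psi (hH : IsProfile H) (j : ℕ) (h : ℂ) : Dm (psi H j) h = Dm (psi H 0) (2 ^ j * h) := by
  rw [Dm_eq (psi_mem hH j), Dm_eq (psi_mem hH 0)]
  congr 1
  have e : ∀ z, ‖(fwdDiff (-h))^[1] (psi H j) z‖ =
      4 ^ j * ‖(fwdDiff (-(2 ^ j * h)))^[1] (psi H 0) (2 ^ j * z)‖ := by
    intro z
    rw [Function.iterate_one, Function.iterate_one]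
    unfold fwdDiff
    rw [psi_scale H j, psi_scale H j z, ← mul_sub, norm_mul, norm_pow, Complex.norm_ofNat]
    congr 3
    ring_nf
  simp_rw [e]
  rw [integral_const_mul, integral_comp_two_pow_mul
    (fun z => ‖(fwdDiff (-(2 ^ j * h)))^[1] (psi H 0) z‖) j, smul_eq_mul, ← mul_assoc,
    mul_inv_cancel₀ (by positivity), one_mul]

lemma hc_pos (c : ℤ × ℤ) : 0 < hc c := by
  have := Nc_pos c
  unfold hc; positivity

lemma sum_geom_int {q : ℝ} (hq0 : 0 < q) (hq1 : q < 1) :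
    ∑' n : ℤ, ENNReal.ofReal (q ^ n.natAbs) < ⊤ := by
  have hs : Summable (fun n : ℤ => q ^ n.natAbs) := by
    rw [summable_int_iff_summable_nat_and_neg]
    constructor
    · simpa using summable_geometric_of_lt_one hq0.le hq1
    · simpa using summable_geometric_of_lt_one hq0.le hq1
  rw [← ENNReal.ofReal_tsum_of_nonneg (fun n => by positivity) hs]
  exact ENNReal.ofReal_lt_top

lemma sum_hc {γ : ℝ} (hγ : 0 < γ) : ∑' c, ENNReal.ofReal (hc c ^ γ) < ⊤ := by
  set q : ℝ := (1 / 2 : ℝ) ^ γ with hq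
  have hq0 : 0 < q := by rw [hq]; positivity
  have hq1 : q < 1 := Real.rpow_lt_one (by norm_num) (by norm_num) hγ
  have hle : ∀ c : ℤ × ℤ, ENNReal.ofReal (hc c ^ γ) ≤
      ENNReal.ofReal (q ^ c.1.natAbs) * ENNReal.ofReal (q ^ c.2.natAbs) := by
    intro c
    rw [← ENNReal.ofReal_mul (by positivity), ← pow_add]
    apply ENNReal.ofReal_le_ofReal
    rw [hq, ← half_pow_rpow]
    apply Real.rpow_le_rpow (hc_pos c).le _ hγ.le
    unfold hc Nc
    push_cast
    rw [one_div_pow]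
    apply one_div_le_one_div_of_le (by positivity)
    have : (0:ℝ) < 2 ^ (c.1.natAbs + c.2.natAbs) := by positivity
    linarith
  calc ∑' c, ENNReal.ofReal (hc c ^ γ)
      ≤ ∑' c : ℤ × ℤ, ENNReal.ofReal (q ^ c.1.natAbs) * ENNReal.ofReal (q ^ c.2.natAbs) :=
        ENNReal.tsum_le_tsum hle
    _ = ∑' m : ℤ, ∑' n : ℤ, ENNReal.ofReal (q ^ m.natAbs) * ENNReal.ofReal (q ^ n.natAbs) :=
        ENNReal.tsum_prod (f := fun m n : ℤ =>
          ENNReal.ofReal (q ^ m.natAbs) * ENNReal.ofReal (q ^ n.natAbs))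
    _ = (∑' m : ℤ, ENNReal.ofReal (q ^ m.natAbs)) * ∑' n : ℤ, ENNReal.ofReal (q ^ n.natAbs) := by
        rw [← ENNReal.tsum_mul_right]
        congr 1
        ext m
        rw [ENNReal.tsum_mul_left]
    _ < ⊤ := ENNReal.mul_lt_top (sum_geom_int hq0 hq1) (sum_geom_int hq0 hq1)

lemma ex_kernel {κ : ℂ → ℂ} (hκ : κ ∈ V) (h0 : ∫ z, κ z = 0) :
    ∫⁻ z, ‖cv κ (chi exS) z‖ₑ < ⊤ := by
  obtain ⟨M, hM, hb⟩ := Dm_bound hκ
  refine lt_of_le_of_lt (ex_l1 hκ h0) ?_
  calc ∑' c, Dm κ (hc c) ≤ ∑' c, ENNReal.ofReal M * ENNReal.ofReal (hc c ^ (1 / 2 : ℝ)) := by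
        apply ENNReal.tsum_le_tsum
        intro c
        refine (hb _).trans ?_
        rw [← ENNReal.ofReal_mul hM]
        apply ENNReal.ofReal_le_ofReal
        gcongr
        have h1 := min_one_pow_le (α := 1 / 2) (by norm_num) (k := 1) (by norm_num)
          (norm_nonneg (hc c : ℂ))
        rwa [Complex.norm_real, Real.norm_eq_abs, abs_of_pos (hc_pos c)] at h1 ⊢
    _ = ENNReal.ofReal M * ∑' c, ENNReal.ofReal (hc c ^ (1 / 2 : ℝ)) := ENNReal.tsum_mul_left
    _ < ⊤ := ENNReal.mul_lt_top ENNReal.ofReal_lt_top (sum_hc (by norm_num))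

theorem ex_crit (hH : IsProfile H) {α : ℝ} (hα : 1 < α) : Crit H α exS := by
  have hΩ := exS_meas
  constructor
  · calc ∫⁻ z, ‖fderiv ℝ (moll H 0 exS) z‖ₑ
        ≤ ∫⁻ z, (‖fderiv ℝ (moll H 0 exS) z 1‖ₑ + ‖fderiv ℝ (moll H 0 exS) z I‖ₑ) := by
          apply lintegral_mono
          intro z
          have h1 := norm_le_parts (fderiv ℝ (moll H 0 exS) z)
          change ‖fderiv ℝ (moll H 0 exS) z‖ₑ ≤ ‖fderiv ℝ (moll H 0 exS) z 1‖ₑ +
            ‖fderiv ℝ (moll H 0 exS) z I‖ₑ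
          rw [← ofReal_norm, ← ofReal_norm, ← ofReal_norm,
            ← ENNReal.ofReal_add (norm_nonneg _) (norm_nonneg _)]
          exact ENNReal.ofReal_le_ofReal h1
      _ = (∫⁻ z, ‖fderiv ℝ (moll H 0 exS) z 1‖ₑ) + ∫⁻ z, ‖fderiv ℝ (moll H 0 exS) z I‖ₑ := by
          apply lintegral_add_left
          have hcd : Continuous (fun z => fderiv ℝ (moll H 0 exS) z) :=
            (moll_contDiff hH hΩ 0).continuous_fderiv (by simp)
          exact ((hcd.clm_apply continuous_const).measurable).enorm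
      _ < ⊤ := by
          simp_rw [fderiv_moll_enorm hH hΩ]
          exact ENNReal.add_lt_top.2 ⟨ex_kernel (dk_mem hH 1) (dk_int hH 1),
            ex_kernel (dk_mem hH I) (dk_int hH I)⟩
  · obtain ⟨M, hM, hb⟩ := Dm_bound (psi_mem hH 0)
    set γ : ℝ := min ((α - 1) / 2) (1 / 2) with hγ
    have hγ0 : 0 < γ := by
      rw [hγ]; apply lt_min <;> linarith
    have hγ1 : γ < (1 : ℕ) := by
      rw [hγ]
      refine lt_of_le_of_lt (min_le_right _ _) (by norm_num)
    have hγ2 : γ ≤ (α - 1) / 2 := min_le_left _ _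
    set q : ℝ := (2:ℝ) ^ (1 - α + γ) with hq
    have hq0 : 0 < q := by rw [hq]; positivity
    have hq1 : q < 1 := Real.rpow_lt_one_of_one_lt_of_neg (by norm_num) (by linarith)
    calc ∑' j : ℕ, ENNReal.ofReal ((2:ℝ) ^ ((1 - α) * j)) *
          ∫⁻ z, ‖moll H (j + 1) exS z - moll H j exS z‖ₑ
        ≤ ∑' j : ℕ, ENNReal.ofReal (q ^ j) *
          (ENNReal.ofReal M * ∑' c, ENNReal.ofReal (hc c ^ γ)) := by
          apply ENNReal.tsum_le_tsum
          intro j
          simp_rw [moll_diff_enorm hH hΩ]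
          calc ENNReal.ofReal ((2:ℝ) ^ ((1 - α) * j)) * ∫⁻ z, ‖cv (psi H j) (chi exS) z‖ₑ
              ≤ ENNReal.ofReal ((2:ℝ) ^ ((1 - α) * j)) * ∑' c, Dm (psi H j) (hc c) :=
                mul_le_mul_right (ex_l1 (psi_mem hH j) (psi_int hH j)) _
            _ ≤ ENNReal.ofReal ((2:ℝ) ^ ((1 - α) * j)) *
                ∑' c, (ENNReal.ofReal (((2:ℝ) ^ j) ^ γ) *
                  (ENNReal.ofReal M * ENNReal.ofReal (hc c ^ γ))) := by
                gcongr with c
                rw [Dm_psi hH]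
                refine (hb _).trans ?_
                rw [← ENNReal.ofReal_mul hM, ← ENNReal.ofReal_mul (by positivity)]
                apply ENNReal.ofReal_le_ofReal
                have h1 := min_one_pow_le hγ0 hγ1 (norm_nonneg ((2:ℂ) ^ j * (hc c : ℂ)))
                have h2 : ‖(2:ℂ) ^ j * (hc c : ℂ)‖ = 2 ^ j * hc c := by
                  rw [norm_mul, norm_pow, Complex.norm_ofNat, Complex.norm_real, Real.norm_eq_abs,
                    abs_of_pos (hc_pos c)]
                rw [h2] at h1 ⊢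
                calc M * min 1 ((2 ^ j * hc c) ^ 1) ≤ M * (2 ^ j * hc c) ^ γ := by gcongr
                  _ = (2 ^ j) ^ γ * (M * hc c ^ γ) := by
                      rw [Real.mul_rpow (by positivity) (hc_pos c).le]; ring
            _ = ENNReal.ofReal (q ^ j) * (ENNReal.ofReal M * ∑' c, ENNReal.ofReal (hc c ^ γ)) := by
                rw [ENNReal.tsum_mul_left, ENNReal.tsum_mul_left, ← mul_assoc,
                  ← ENNReal.ofReal_mul (by positivity)]
                congr 2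
                rw [hq, ← Real.rpow_natCast, ← Real.rpow_natCast, ← Real.rpow_mul (by norm_num),
                  ← Real.rpow_mul (by norm_num), ← Real.rpow_add (by norm_num)]
                congr 1; ring
      _ = (∑' j : ℕ, ENNReal.ofReal (q ^ j)) *
          (ENNReal.ofReal M * ∑' c, ENNReal.ofReal (hc c ^ γ)) := ENNReal.tsum_mul_right
      _ < ⊤ := by
          apply ENNReal.mul_lt_top
          · rw [← ENNReal.ofReal_tsum_of_nonneg (fun n => by positivity)
              (summable_geometric_of_lt_one hq0.le hq1)]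
            exact ENNReal.ofReal_lt_top
          · exact ENNReal.mul_lt_top ENNReal.ofReal_lt_top (sum_hc hγ0)

end H98.Dbar
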