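import Mathlib
import Pool.Agent.H98.Dbar.Ex2

/-! # Admissible sets: final form -/

open MeasureTheory Complex Metric Set Filter Topology
open scoped ContDiff ENNReal NNReal Convolution

namespace H98.Dbar

variable {H : ℝ → ℝ}

/-- The `Lip α` norm, with differences of order `k`, as an element of `[0, ∞]`. -/
noncomputable def lipNorm (α : ℝ) (k : ℕ) (f : ℂ → ℂ) : ℝ≥0∞ :=
  (⨆ z, ‖f z‖ₑ) +
    ⨆ h : ℂ, ⨆ _ : h ≠ 0, (⨆ z, ‖(fwdDiff h)^[k] f z‖ₑ) / ENNReal.ofReal (‖h‖ ^ α)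

/-- `α`-admissible sets: `|⟨∂χ_Ω/∂z̄, f⟩| ≤ C ‖f‖_{Lip α}` for all `f ∈ C_c^∞(ℂ)`. -/
def Admissible (α : ℝ) (k : ℕ) (Ω : Set ℂ) : Prop :=
  ∃ C : ℝ≥0, ∀ f : ℂ → ℂ, ContDiff ℝ ∞ f → HasCompactSupport f →
    ‖-∫ z in Ω, dbar f z‖ₑ ≤ C * lipNorm α k f

lemma fwdDiff_zero_iter (f : ℂ → ℂ) {k : ℕ} (hk : 0 < k) (z : ℂ) :
    (fwdDiff (0:ℂ))^[k] f z = 0 := by
  obtain ⟨n, rfl⟩ : ∃ n, k = n + 1 := ⟨k - 1, by omega⟩
  rw [Function.iterate_succ_apply']
  unfold fwdDiff
  simp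

lemma adm_iff_admW {α : ℝ} {k : ℕ} (hk : 0 < k) (Ω : Set ℂ) :
    Admissible α k Ω ↔ AdmW α k Ω := by
  constructor
  · rintro ⟨C, hC⟩
    refine ⟨C, NNReal.coe_nonneg C, ?_⟩
    intro f A B hA hB hfA hfB
    have h1 := hC f.1 f.2.1 f.2.2
    have h2 : lipNorm α k f.1 ≤ ENNReal.ofReal A + ENNReal.ofReal B := by
      unfold lipNorm
      apply add_le_add
      · apply iSup_le
        intro z
        rw [← ofReal_norm]
        exact ENNReal.ofReal_le_ofReal (hfA z)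
      · apply iSup_le
        intro h
        apply iSup_le
        intro hh
        have hpos : 0 < ‖h‖ ^ α := Real.rpow_pos_of_pos (norm_pos_iff.2 hh) _
        rw [ENNReal.div_le_iff (by simpa using hpos) ENNReal.ofReal_ne_top,
          ← ENNReal.ofReal_mul hB]
        apply iSup_le
        intro z
        rw [← ofReal_norm]
        exact ENNReal.ofReal_le_ofReal (hfB h z)
    have h3 : ‖-∫ z in Ω, dbar f.1 z‖ₑ ≤ ENNReal.ofReal (C * (A + B)) := by
      refine h1.trans ?_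
      rw [ENNReal.ofReal_mul (NNReal.coe_nonneg C), ENNReal.ofReal_add hA hB, ENNReal.ofReal_coe_nnreal]
      gcongr
    rw [enorm_neg, ← ofReal_norm] at h3
    exact (ENNReal.ofReal_le_ofReal_iff (by positivity)).1 h3
  · rintro ⟨C, hC0, hC⟩
    refine ⟨Real.toNNReal (C + 1), ?_⟩
    intro f hf hf'
    by_cases htop : lipNorm α k f = ⊤
    · rw [htop, ENNReal.mul_top]
      · exact le_top
      · have : (0:ℝ) < C + 1 := by positivity
        intro h0
        rw [ENNReal.coe_eq_zero, Real.toNNReal_eq_zero] at h0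
        linarith
    · set S1 : ℝ≥0∞ := ⨆ z, ‖f z‖ₑ with hS1
      set S2 : ℝ≥0∞ := ⨆ h : ℂ, ⨆ _ : h ≠ 0, (⨆ z, ‖(fwdDiff h)^[k] f z‖ₑ) /
        ENNReal.ofReal (‖h‖ ^ α) with hS2
      have hsum : lipNorm α k f = S1 + S2 := rfl
      rw [hsum] at htop
      have h1t : S1 ≠ ⊤ := fun h => htop (by rw [h, top_add])
      have h2t : S2 ≠ ⊤ := fun h => htop (by rw [h, add_top])
      have hA : ∀ z, ‖f z‖ ≤ S1.toReal := by
        intro z
        have : ‖f z‖ₑ ≤ S1 := le_iSup (fun z => ‖f z‖ₑ) z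
        have h3 := ENNReal.toReal_mono h1t this
        rwa [toReal_enorm] at h3
      have hB : ∀ h z, ‖(fwdDiff h)^[k] f z‖ ≤ S2.toReal * ‖h‖ ^ α := by
        intro h z
        by_cases hh : h = 0
        · rw [hh, fwdDiff_zero_iter f hk]
          simp only [norm_zero]
          positivity
        · have hpos : 0 < ‖h‖ ^ α := Real.rpow_pos_of_pos (norm_pos_iff.2 hh) _
          have h4 : (⨆ z, ‖(fwdDiff h)^[k] f z‖ₑ) / ENNReal.ofReal (‖h‖ ^ α) ≤ S2 :=
            le_iSup₂ (f := fun (h : ℂ) (_ : h ≠ 0) => (⨆ z, ‖(fwdDiff h)^[k] f z‖ₑ) /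
              ENNReal.ofReal (‖h‖ ^ α)) h hh
          rw [ENNReal.div_le_iff (by simpa using hpos) ENNReal.ofReal_ne_top] at h4
          have h5 : ‖(fwdDiff h)^[k] f z‖ₑ ≤ S2 * ENNReal.ofReal (‖h‖ ^ α) :=
            (le_iSup (fun z => ‖(fwdDiff h)^[k] f z‖ₑ) z).trans h4
          have h6 := ENNReal.toReal_mono (ENNReal.mul_ne_top h2t ENNReal.ofReal_ne_top) h5
          rwa [toReal_enorm, ENNReal.toReal_mul, ENNReal.toReal_ofReal hpos.le] at h6
      have h7 := hC ⟨f, hf, hf'⟩ S1.toReal S2.toReal ENNReal.toReal_nonneg ENNReal.toReal_nonneg hA hB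
      rw [enorm_neg, ← ofReal_norm, hsum]
      calc ENNReal.ofReal ‖∫ z in Ω, dbar f z‖ ≤ ENNReal.ofReal (C * (S1.toReal + S2.toReal)) :=
            ENNReal.ofReal_le_ofReal h7
        _ ≤ ENNReal.ofReal ((C + 1) * (S1.toReal + S2.toReal)) := by
            apply ENNReal.ofReal_le_ofReal
            gcongr
            linarith
        _ = ENNReal.ofReal (C + 1) * (S1 + S2) := by
            rw [ENNReal.ofReal_mul (by positivity), ENNReal.ofReal_add ENNReal.toReal_nonneg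
              ENNReal.toReal_nonneg, ENNReal.ofReal_toReal h1t, ENNReal.ofReal_toReal h2t]
        _ = _ := rfl

lemma pos_of_lt {α : ℝ} (hα : 0 < α) {k : ℕ} (hk : α < k) : 0 < k := by
  have : (0:ℝ) < k := hα.trans hk
  exact_mod_cast this

/-- The criterion for every `α > 0`. -/
theorem admissible_iff_crit (hH : IsProfile H) {α : ℝ} (hα : 0 < α) {k : ℕ} (hk : α < k)
    {Ω : Set ℂ} (hΩ : MeasurableSet Ω) : Admissible α k Ω ↔ Crit H α Ω :=
  (adm_iff_admW (pos_of_lt hα hk) Ω).trans (adm_iff_crit hH hα hk hΩ)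

lemma exists_profile : ∃ H : ℝ → ℝ, IsProfile H := by
  refine ⟨fun s => Real.smoothTransition (2 * s - 1), ?_, ?_, ⟨1 / 2, by norm_num, ?_⟩, ?_⟩
  · exact Real.smoothTransition.contDiff.comp (by fun_prop)
  · intro s t hst
    exact Real.smoothTransition.monotone (by linarith)
  · intro s hs
    exact Real.smoothTransition.zero_of_nonpos (by linarith)
  · intro s hs
    exact Real.smoothTransition.one_of_one_le (by linarith)

/-- For `α < 1`: local fractional perimeter. -/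
theorem admissible_iff_fracPer {α : ℝ} (hα : 0 < α) (hα1 : α < 1) {k : ℕ} (hk : α < k)
    {Ω : Set ℂ} (hΩ : MeasurableSet Ω) : Admissible α k Ω ↔ fracPer α Ω < ⊤ := by
  obtain ⟨H, hH⟩ := exists_profile
  rw [admissible_iff_crit hH hα hk hΩ]
  exact ⟨fracPer_of_crit hH hα1 hΩ, crit_of_fracPer (by linarith) hH hΩ⟩

/-- For `α ≤ 1` an admissible set has finite or cofinite area. -/
theorem area_of_admissible {α : ℝ} (hα : 0 < α) (hα1 : α ≤ 1) {k : ℕ} (hk : α < k)
    {Ω : Set ℂ} (hΩ : MeasurableSet Ω) (h : Admissible α k Ω) : volume Ω < ⊤ ∨ volume Ωᶜ < ⊤ := by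
  obtain ⟨H, hH⟩ := exists_profile
  exact finite_or_cofinite hH hα1 hΩ ((admissible_iff_crit hH hα hk hΩ).1 h)

/-- One set of infinite area and infinite co-area which is `α`-admissible for all `α > 1`. -/
theorem exists_infinite : ∃ S : Set ℂ, MeasurableSet S ∧ volume S = ⊤ ∧ volume Sᶜ = ⊤ ∧
    ∀ (α : ℝ), 1 < α → ∀ k : ℕ, α < k → Admissible α k S := by
  obtain ⟨H, hH⟩ := exists_profile
  refine ⟨exS, exS_meas, vol_exS.1, vol_exS.2, ?_⟩
  intro α hα k hk
  exact (admissible_iff_crit hH (by linarith) hk exS_meas).2 (ex_crit hH hα)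

end H98.Dbar
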