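import Mathlib

/-!
# Comparison of two families of averages: the algebraic part
-/

open scoped ENNReal NNReal

namespace H98.Dens

section abs

variable {A M : Type*} [CommRing A] [AddCommGroup M] [Module A M]

/-- Extended seminorms. -/
structure ESN (p : M → ℝ≥0∞) : Prop where
  zero : p 0 = 0
  add : ∀ x y, p (x + y) ≤ p x + p y
  neg : ∀ x, p (-x) = p x

/-- `T` is bounded by `c`. -/
def OP (p : M → ℝ≥0∞) (T : A) (c : ℝ≥0∞) : Prop := ∀ x : M, p (T • x) ≤ c * p x

variable {p : M → ℝ≥0∞}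

lemma ESN.sub (hp : ESN p) (x y : M) : p (x - y) ≤ p x + p y := by
  rw [sub_eq_add_neg, ← hp.neg y]
  exact hp.add _ _

lemma ESN.sum (hp : ESN p) {ι : Type*} (s : Finset ι) (f : ι → M) :
    p (∑ i ∈ s, f i) ≤ ∑ i ∈ s, p (f i) := by
  classical
  induction s using Finset.induction_on with
  | empty => simp [hp.zero]
  | insert a s ha ih =>
    rw [Finset.sum_insert ha, Finset.sum_insert ha]
    exact (hp.add _ _).trans (add_le_add le_rfl ih)

lemma OP.one (p : M → ℝ≥0∞) : OP p (1 : A) 1 := fun x => by simp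

lemma OP.mono {T : A} {c d : ℝ≥0∞} (h : OP p T c) (hcd : c ≤ d) : OP p T d := fun x =>
  (h x).trans (mul_le_mul_left hcd _)

lemma OP.add (hp : ESN p) {S T : A} {c d : ℝ≥0∞} (hS : OP p S c) (hT : OP p T d) :
    OP p (S + T) (c + d) := fun x => by
  rw [add_smul, add_mul]
  exact (hp.add _ _).trans (add_le_add (hS x) (hT x))

lemma OP.sub (hp : ESN p) {S T : A} {c d : ℝ≥0∞} (hS : OP p S c) (hT : OP p T d) :
    OP p (S - T) (c + d) := fun x => by
  rw [sub_smul, add_mul]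
  exact (hp.sub _ _).trans (add_le_add (hS x) (hT x))

lemma OP.mul {S T : A} {c d : ℝ≥0∞} (hS : OP p S c) (hT : OP p T d) :
    OP p (S * T) (c * d) := fun x => by
  rw [mul_smul, mul_assoc]
  exact (hS _).trans (mul_le_mul_right (hT x) _)

/-- The reproducing element. -/
def Kq (a : A) : A := 1 - (1 - a) ^ 2

lemma Kq_bd (hp : ESN p) {a : A} (ha : OP p a 1) : OP p (Kq a) 5 := by
  have h1 : OP p (1 - a) 2 := ((OP.one p).sub hp ha).mono (by norm_num)
  have h2 : OP p ((1 - a) ^ 2) 4 := by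
    rw [pow_two]
    exact (h1.mul h1).mono (by norm_num)
  exact ((OP.one p).sub hp h2).mono (by norm_num)

/-- High frequencies. -/
lemma high (hp : ESN p) {a a' b b' : A} (ha : OP p a 1) (ha' : OP p a' 1) {c : ℝ≥0∞}
    (h1 : OP p ((1 - a) * b) c) (h2 : OP p ((1 - a) * b') (2 * c))
    (h3 : OP p ((1 - a') * b) c) (h4 : OP p ((1 - a') * b') (2 * c)) (x : M) :
    p (((b' - b) * (Kq a' ^ 2 - Kq a ^ 2)) • x) ≤ 60 * c * p ((a' - a) • x) := by
  have e : (b' - b) * (Kq a' ^ 2 - Kq a ^ 2) =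
      (((1 - a) * b' - (1 - a) * b) + ((1 - a') * b' - (1 - a') * b)) * (Kq a' + Kq a) *
        (a' - a) := by
    unfold Kq; ring
  rw [e, mul_smul]
  have h5 := ((h2.sub hp h1).add hp (h4.sub hp h3)).mul
    ((Kq_bd hp ha').add hp (Kq_bd hp ha))
  refine (h5.mono (le_of_eq ?_)) _
  ring

/-- Low frequencies. -/
lemma low (hp : ESN p) {a a' b b' : A} (ha : OP p a 1) (ha' : OP p a' 1) {c : ℝ≥0∞}
    (h1 : OP p ((1 - b) * a) c) (h2 : OP p ((1 - b) * a') (2 * c))
    (h3 : OP p ((1 - b') * a) c) (h4 : OP p ((1 - b') * a') (2 * c)) (x : M) :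
    p (((b' - b) * (Kq a' ^ 2 - Kq a ^ 2)) • x) ≤ 72 * c * p ((a' - a) • x) := by
  have h0 : OP p (1 - a) 2 := ((OP.one p).sub hp ha).mono (by norm_num)
  have h0' : OP p (1 - a') 2 := ((OP.one p).sub hp ha').mono (by norm_num)
  have e : (b' - b) * (Kq a' ^ 2 - Kq a ^ 2) =
      (((1 - b) * a' - (1 - b') * a') * (1 + (1 - a')) +
        ((1 - b) * a - (1 - b') * a) * (1 + (1 - a))) * ((1 - a) + (1 - a')) *
        (a' - a) := by
    unfold Kq; ring
  rw [e, mul_smul]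
  have h5 := (((h2.sub hp h4).mul ((OP.one p).add hp h0')).add hp
    ((h1.sub hp h3).mul ((OP.one p).add hp h0))).mul (h0.add hp h0')
  refine (h5.mono (le_of_eq ?_)) _
  ring

/-- The lowest frequency. -/
lemma lowest (hp : ESN p) {a b b' : A} (ha : OP p a 1) {c : ℝ≥0∞}
    (h1 : OP p ((1 - b) * a) c) (h3 : OP p ((1 - b') * a) c) (x : M) :
    p (((b' - b) * Kq a ^ 2) • x) ≤ 30 * c * p x := by
  have h0 : OP p (1 - a) 2 := ((OP.one p).sub hp ha).mono (by norm_num)
  have e : (b' - b) * Kq a ^ 2 =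
      (((1 - b) * a - (1 - b') * a) * (1 + (1 - a))) * Kq a := by
    unfold Kq; ring
  rw [e]
  have h5 := ((h1.sub hp h3).mul ((OP.one p).add hp h0)).mul (Kq_bd hp ha)
  refine (h5.mono (le_of_eq ?_)) _
  ring

/-- The error of the reproducing formula. -/
lemma err (hp : ESN p) {a b b' : A} (ha : OP p a 1) {c : ℝ≥0∞}
    (h1 : OP p ((1 - a) * b) c) (h3 : OP p ((1 - a) * b') (2 * c)) (x : M) :
    p (((b' - b) * (1 - Kq a ^ 2)) • x) ≤ 36 * c * p x := by
  have h0 : OP p (1 - a) 2 := ((OP.one p).sub hp ha).mono (by norm_num)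
  have e : (b' - b) * (1 - Kq a ^ 2) =
      (((1 - a) * b' - (1 - a) * b) * (1 - a)) * (1 + Kq a) := by
    unfold Kq; ring
  rw [e]
  have h5 := ((h3.sub hp h1).mul h0).mul ((OP.one p).add hp (Kq_bd hp ha))
  refine (h5.mono (le_of_eq ?_)) _
  ring

/-- `2^{-|i-j|}` -/
noncomputable def dec (i j : ℕ) : ℝ≥0∞ := min (2 ^ i * 2⁻¹ ^ j) (2 ^ j * 2⁻¹ ^ i)

lemma two_mul_half : (2:ℝ≥0∞) * 2⁻¹ = 1 := ENNReal.mul_inv_cancel (by norm_num) (by norm_num)

/-- The abstract comparison at the scale `j`. -/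
theorem compare (hp : ESN p) (a b : ℕ → A) (ha : ∀ i, OP p (a i) 1) {C : ℝ≥0∞}
    (h1 : ∀ i j, OP p ((1 - a i) * b j) (C * (2 ^ j * 2⁻¹ ^ i)))
    (h2 : ∀ i j, OP p ((1 - b j) * a i) (C * (2 ^ i * 2⁻¹ ^ j))) (x : M) (J j : ℕ) :
    p (((b (j + 1) - b j) * Kq (a J) ^ 2) • x) ≤
      30 * C * 2⁻¹ ^ j * p x +
      ∑ i ∈ Finset.range J, 72 * C * dec i j * p ((a (i + 1) - a i) • x) := by
  have hsplit : (b (j + 1) - b j) * Kq (a J) ^ 2 = (b (j + 1) - b j) * Kq (a 0) ^ 2 +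
      ∑ i ∈ Finset.range J, (b (j + 1) - b j) * (Kq (a (i + 1)) ^ 2 - Kq (a i) ^ 2) := by
    rw [← Finset.mul_sum, Finset.sum_range_sub (fun i => Kq (a i) ^ 2)]
    ring
  rw [hsplit, add_smul, Finset.sum_smul]
  have hhalf : (2⁻¹ : ℝ≥0∞) ≤ 1 := by simp
  refine (hp.add _ _).trans (add_le_add ?_ ((hp.sum _ _).trans (Finset.sum_le_sum ?_)))
  · have h3 := lowest hp (ha 0) (c := C * 2⁻¹ ^ j) ((h2 0 j).mono (by simp))
      ((h2 0 (j + 1)).mono (by
        rw [pow_zero, one_mul, pow_succ]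
        exact mul_le_mul_right ((mul_le_mul_right hhalf _).trans (by simp)) _)) x
    refine h3.trans (le_of_eq ?_)
    ring
  · intro i _
    unfold dec
    rcases min_choice ((2:ℝ≥0∞) ^ i * 2⁻¹ ^ j) (2 ^ j * 2⁻¹ ^ i) with hm | hm
    · rw [hm]
      have h3 := low hp (ha i) (ha (i + 1)) (b := b j) (b' := b (j + 1))
        (c := C * (2 ^ i * 2⁻¹ ^ j)) (h2 i j)
        ((h2 (i + 1) j).mono (le_of_eq (by rw [pow_succ]; ring)))
        ((h2 i (j + 1)).mono (by
          rw [pow_succ (2⁻¹ : ℝ≥0∞)]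
          refine mul_le_mul_right (mul_le_mul_right ?_ _) _
          exact (mul_le_mul_right hhalf _).trans (by simp)))
        ((h2 (i + 1) (j + 1)).mono (by
          rw [pow_succ (2⁻¹ : ℝ≥0∞), pow_succ (2 : ℝ≥0∞)]
          have : C * (2 ^ i * 2 * (2⁻¹ ^ j * 2⁻¹)) = 2 * (C * (2 ^ i * 2⁻¹ ^ j)) * 2⁻¹ := by ring
          rw [this]
          exact (mul_le_mul_right hhalf _).trans (by simp))) x
      refine h3.trans (le_of_eq ?_)
      ring
    · rw [hm]
      have h3 := high hp (ha i) (ha (i + 1)) (b := b j) (b' := b (j + 1))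
        (c := C * (2 ^ j * 2⁻¹ ^ i)) (h1 i j)
        ((h1 i (j + 1)).mono (le_of_eq (by rw [pow_succ]; ring)))
        ((h1 (i + 1) j).mono (by
          rw [pow_succ (2⁻¹ : ℝ≥0∞)]
          refine mul_le_mul_right (mul_le_mul_right ?_ _) _
          exact (mul_le_mul_right hhalf _).trans (by simp)))
        ((h1 (i + 1) (j + 1)).mono (by
          rw [pow_succ (2⁻¹ : ℝ≥0∞), pow_succ (2 : ℝ≥0∞)]
          have : C * (2 ^ j * 2 * (2⁻¹ ^ i * 2⁻¹)) = 2 * (C * (2 ^ j * 2⁻¹ ^ i)) * 2⁻¹ := by ring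
          rw [this]
          exact (mul_le_mul_right hhalf _).trans (by simp))) x
      refine h3.trans ?_
      rw [← mul_assoc 60 C]
      gcongr
      norm_num

end abs

/-- The weights. -/
noncomputable def wt (α : ℝ) (j : ℕ) : ℝ≥0∞ := ENNReal.ofReal ((2:ℝ) ^ ((1 - α) * j))

lemma wt_half (α : ℝ) (j : ℕ) : wt α j * 2⁻¹ ^ j = ENNReal.ofReal (((2:ℝ) ^ (-α)) ^ j) := by
  have h2 : (2⁻¹ : ℝ≥0∞) ^ j = ENNReal.ofReal ((2:ℝ) ^ (-(j:ℝ))) := by
    rw [Real.rpow_neg (by norm_num), Real.rpow_natCast, ← inv_pow,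
      ENNReal.ofReal_pow (by norm_num), ENNReal.ofReal_inv_of_pos (by norm_num)]
    norm_num
  unfold wt
  rw [h2, ← ENNReal.ofReal_mul (by positivity), ← Real.rpow_add (by norm_num),
    ← Real.rpow_natCast, ← Real.rpow_mul (by norm_num)]
  congr 2; ring

lemma geom_fin {q : ℝ} (h0 : 0 < q) (h1 : q < 1) : ∑' m : ℕ, ENNReal.ofReal (q ^ m) < ⊤ := by
  rw [← ENNReal.ofReal_tsum_of_nonneg (fun n => by positivity)
    (summable_geometric_of_lt_one h0.le h1)]
  exact ENNReal.ofReal_lt_top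

lemma rpow_lt_one' {β : ℝ} (hβ : 0 < β) : (2:ℝ) ^ (-β) < 1 :=
  Real.rpow_lt_one_of_one_lt_of_neg (by norm_num) (by linarith)

/-- Schur's bound for the weights. -/
lemma schur {α : ℝ} (h0 : 0 < α) (h2 : α < 2) : ∃ S : ℝ≥0∞, S < ⊤ ∧
    ∀ i : ℕ, ∑' j : ℕ, wt α j * dec i j ≤ S * wt α i := by
  set q : ℝ := (2:ℝ) ^ (-α) with hq
  set r : ℝ := (2:ℝ) ^ (-(2 - α)) with hr
  have hq0 : 0 < q := by positivity
  have hr0 : 0 < r := by positivity
  refine ⟨∑' m : ℕ, ENNReal.ofReal (r ^ m) + ∑' m : ℕ, ENNReal.ofReal (q ^ m),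
    ENNReal.add_lt_top.2 ⟨geom_fin hr0 (rpow_lt_one' (by linarith)),
      geom_fin hq0 (rpow_lt_one' h0)⟩, ?_⟩
  intro i
  have hpow : ∀ n : ℕ, (2 : ℝ≥0∞) ^ n = ENNReal.ofReal ((2:ℝ) ^ (n : ℝ)) := by
    intro n
    rw [Real.rpow_natCast, ENNReal.ofReal_pow (by norm_num)]
    norm_num
  have hpow' : ∀ n : ℕ, (2⁻¹ : ℝ≥0∞) ^ n = ENNReal.ofReal ((2:ℝ) ^ (-(n : ℝ))) := by
    intro n
    rw [Real.rpow_neg (by norm_num), Real.rpow_natCast, ← inv_pow,
      ENNReal.ofReal_pow (by norm_num), ENNReal.ofReal_inv_of_pos (by norm_num)]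
    norm_num
  rw [← Summable.sum_add_tsum_nat_add' (f := fun j => wt α j * dec i j) (k := i)
    ENNReal.summable, add_mul]
  apply add_le_add
  · calc ∑ j ∈ Finset.range i, wt α j * dec i j
        = ∑ m ∈ Finset.range i, wt α (i - 1 - m) * dec i (i - 1 - m) :=
          (Finset.sum_range_reflect (fun j => wt α j * dec i j) i).symm
      _ ≤ ∑ m ∈ Finset.range i, ENNReal.ofReal (r ^ m) * wt α i := by
          apply Finset.sum_le_sum
          intro m hm
          rw [Finset.mem_range] at hm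
          refine (mul_le_mul_right (min_le_right _ _) _).trans ?_
          unfold wt
          rw [hpow, hpow', ← ENNReal.ofReal_mul (by positivity),
            ← ENNReal.ofReal_mul (by positivity), ← ENNReal.ofReal_mul (by positivity)]
          apply ENNReal.ofReal_le_ofReal
          rw [hr, ← Real.rpow_natCast, ← Real.rpow_mul (by norm_num),
            ← Real.rpow_add (by norm_num), ← Real.rpow_add (by norm_num),
            ← Real.rpow_add (by norm_num)]
          apply Real.rpow_le_rpow_of_exponent_le (by norm_num)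
          have e1 : ((i - 1 - m : ℕ) : ℝ) = (i:ℝ) - 1 - m := by
            have : i - 1 - m = i - (1 + m) := by omega
            rw [this, Nat.cast_sub (by omega)]
            push_cast; ring
          rw [e1]
          nlinarith
      _ = (∑ m ∈ Finset.range i, ENNReal.ofReal (r ^ m)) * wt α i := by
          rw [Finset.sum_mul]
      _ ≤ _ := by
          gcongr
          exact ENNReal.sum_le_tsum _
  · rw [← ENNReal.tsum_mul_right]
    apply ENNReal.tsum_le_tsum
    intro m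
    refine (mul_le_mul_right (min_le_left _ _) _).trans (le_of_eq ?_)
    unfold wt
    rw [hpow, hpow', ← ENNReal.ofReal_mul (by positivity),
      ← ENNReal.ofReal_mul (by positivity), ← ENNReal.ofReal_mul (by positivity)]
    congr 1
    rw [hq, ← Real.rpow_natCast, ← Real.rpow_mul (by norm_num),
      ← Real.rpow_add (by norm_num), ← Real.rpow_add (by norm_num),
      ← Real.rpow_add (by norm_num)]
    congr 1
    push_cast
    ring

end H98.Dens
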