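import Pool.Agent.H98.Dbar.Dens1

/-!
# Convolution operators on bounded measurable functions
-/

open MeasureTheory Metric Set Filter Topology
open scoped ENNReal NNReal

namespace H98.Dens

/-- Bounded measurable real functions. -/
def BM : Submodule ℝ (ℂ → ℝ) where
  carrier := {F | Measurable F ∧ ∃ M : ℝ, ∀ z, ‖F z‖ ≤ M}
  add_mem' := by
    rintro F G ⟨hF, M, hM⟩ ⟨hG, N, hN⟩
    exact ⟨hF.add hG, M + N, fun z => (norm_add_le _ _).trans (add_le_add (hM z) (hN z))⟩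
  zero_mem' := ⟨measurable_const, 0, fun z => by simp⟩
  smul_mem' := by
    rintro c F ⟨hF, M, hM⟩
    refine ⟨hF.const_smul c, ‖c‖ * M, fun z => ?_⟩
    rw [Pi.smul_apply, norm_smul]
    exact mul_le_mul_of_nonneg_left (hM z) (norm_nonneg _)

/-- Integrable kernels. -/
structure Ik (κ : ℂ → ℝ) : Prop where
  meas : Measurable κ
  int : Integrable κ

/-- Convolution. -/
noncomputable def cr (κ F : ℂ → ℝ) (z : ℂ) : ℝ := ∫ w, κ w * F (z - w)

lemma cr_integrand {κ F : ℂ → ℝ} (hκ : Ik κ) (hF : F ∈ BM) (z : ℂ) :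
    Integrable (fun w => κ w * F (z - w)) := by
  obtain ⟨hm, M, hM⟩ := hF
  exact hκ.int.mul_bdd (c := M)
    (hm.comp (measurable_const.sub measurable_id)).aestronglyMeasurable
    (Eventually.of_forall fun w => hM _)

lemma cr_mem {κ F : ℂ → ℝ} (hκ : Ik κ) (hF : F ∈ BM) : cr κ F ∈ BM := by
  refine ⟨?_, ?_⟩
  · have h1 : StronglyMeasurable (fun p : ℂ × ℂ => κ p.2 * F (p.1 - p.2)) :=
      ((hκ.meas.comp measurable_snd).mul
        (hF.1.comp (measurable_fst.sub measurable_snd))).stronglyMeasurable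
    exact h1.integral_prod_right'.measurable
  · obtain ⟨hm, M, hM⟩ := hF
    refine ⟨(∫ w, ‖κ w‖) * M, fun z => ?_⟩
    unfold cr
    rw [← integral_mul_const]
    apply norm_integral_le_of_norm_le (hκ.int.norm.mul_const M)
    filter_upwards with w
    rw [norm_mul]
    exact mul_le_mul_of_nonneg_left (hM _) (norm_nonneg _)

/-- The convolution operator. -/
noncomputable def crOp {κ : ℂ → ℝ} (hκ : Ik κ) : Module.End ℝ BM where
  toFun F := ⟨cr κ F.1, cr_mem hκ F.2⟩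
  map_add' F G := by
    apply Subtype.ext
    ext z
    change cr κ (F.1 + G.1) z = cr κ F.1 z + cr κ G.1 z
    unfold cr
    simp only [Pi.add_apply, mul_add]
    exact integral_add (cr_integrand hκ F.2 z) (cr_integrand hκ G.2 z)
  map_smul' c F := by
    apply Subtype.ext
    ext z
    change cr κ (c • F.1) z = c * cr κ F.1 z
    unfold cr
    rw [← integral_const_mul]
    congr 1
    ext w
    simp only [Pi.smul_apply, smul_eq_mul]
    ring

lemma crOp_apply {κ : ℂ → ℝ} (hκ : Ik κ) (F : BM) (z : ℂ) : (crOp hκ F).1 z = cr κ F.1 z := rfl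

lemma cr_comm {κ μ F : ℂ → ℝ} (hκ : Ik κ) (hμ : Ik μ) (hF : F ∈ BM) :
    cr κ (cr μ F) = cr μ (cr κ F) := by
  ext z
  unfold cr
  simp_rw [← integral_const_mul]
  rw [integral_integral_swap]
  · congr 1
    ext v
    congr 1
    ext w
    rw [show z - w - v = z - v - w by ring]
    ring
  · obtain ⟨hm, M, hM⟩ := hF
    have h1 : Integrable (fun p : ℂ × ℂ => κ p.1 * μ p.2) (volume.prod volume) :=
      hκ.int.mul_prod hμ.int
    have h2 := h1.mul_bdd (c := M) (g := fun p : ℂ × ℂ => F (z - p.1 - p.2))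
      (hm.comp ((measurable_const.sub measurable_fst).sub measurable_snd)).aestronglyMeasurable
      (Eventually.of_forall fun w => hM _)
    refine h2.congr (Eventually.of_forall fun p => ?_)
    simp only [Function.uncurry]
    ring

lemma crOp_comm {κ μ : ℂ → ℝ} (hκ : Ik κ) (hμ : Ik μ) : crOp hκ * crOp hμ = crOp hμ * crOp hκ := by
  apply LinearMap.ext
  intro F
  apply Subtype.ext
  exact cr_comm hκ hμ F.2

/-- Translation. -/
def tauB (w : ℂ) (F : BM) : BM :=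
  ⟨fun z => F.1 (z - w), F.2.1.comp (measurable_id.sub_const w), by
    obtain ⟨M, hM⟩ := F.2.2
    exact ⟨M, fun z => hM _⟩⟩

/-- `L¹` norm. -/
noncomputable def NB (F : BM) : ℝ≥0∞ := ∫⁻ z, ‖F.1 z‖ₑ

/-- sup norm. -/
noncomputable def SB (F : BM) : ℝ≥0∞ := ⨆ z, ‖F.1 z‖ₑ

lemma NB_esn : ESN NB where
  zero := by simp [NB]
  add F G := by
    unfold NB
    rw [← lintegral_add_left F.2.1.enorm]
    exact lintegral_mono fun z => enorm_add_le _ _
  neg F := by
    unfold NB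
    congr 1
    ext z
    change ‖-F.1 z‖ₑ = _
    rw [enorm_neg]

lemma SB_esn : ESN SB where
  zero := by simp [SB]
  add F G := by
    unfold SB
    apply iSup_le
    intro z
    calc ‖F.1 z + G.1 z‖ₑ ≤ ‖F.1 z‖ₑ + ‖G.1 z‖ₑ := enorm_add_le _ _
      _ ≤ _ := add_le_add (le_iSup (fun z => ‖F.1 z‖ₑ) z) (le_iSup (fun z => ‖G.1 z‖ₑ) z)
  neg F := by
    unfold SB
    congr 1
    ext z
    change ‖-F.1 z‖ₑ = _
    rw [enorm_neg]

lemma SB_lt (F : BM) : SB F < ⊤ := by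
  obtain ⟨M, hM⟩ := F.2.2
  refine lt_of_le_of_lt (iSup_le fun z => ?_) (ENNReal.ofReal_lt_top (r := M))
  rw [← ofReal_norm]
  exact ENNReal.ofReal_le_ofReal (hM z)

/-- The norms we use. -/
def Good (p : BM → ℝ≥0∞) : Prop := p = NB ∨ p = SB

lemma Good.esn {p : BM → ℝ≥0∞} (h : Good p) : ESN p := by
  rcases h with rfl | rfl
  · exact NB_esn
  · exact SB_esn

/-- Young's inequality. -/
lemma young {p : BM → ℝ≥0∞} (hp : Good p) {κ : ℂ → ℝ} (hκ : Ik κ) (F : BM) :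
    p (crOp hκ F) ≤ (∫⁻ w, ‖κ w‖ₑ) * p F := by
  have h0 : ∀ z, ‖(crOp hκ F).1 z‖ₑ ≤ ∫⁻ w, ‖κ w‖ₑ * ‖F.1 (z - w)‖ₑ := by
    intro z
    refine (enorm_integral_le_lintegral_enorm _).trans (le_of_eq ?_)
    congr 1
    ext w
    exact enorm_mul _ _
  rcases hp with rfl | rfl
  · calc ∫⁻ z, ‖(crOp hκ F).1 z‖ₑ ≤ ∫⁻ z, ∫⁻ w, ‖κ w‖ₑ * ‖F.1 (z - w)‖ₑ := lintegral_mono h0
      _ = ∫⁻ w, ∫⁻ z, ‖κ w‖ₑ * ‖F.1 (z - w)‖ₑ := by
          rw [lintegral_lintegral_swap]
          exact ((hκ.meas.comp measurable_snd).enorm.mul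
            (F.2.1.comp (measurable_fst.sub measurable_snd)).enorm).aemeasurable
      _ = ∫⁻ w, ‖κ w‖ₑ * NB F := by
          congr 1
          ext w
          have hm : Measurable (fun z => ‖F.1 (z - w)‖ₑ) :=
            (F.2.1.comp (measurable_id.sub_const w)).enorm
          rw [lintegral_const_mul _ hm]
          congr 1
          exact lintegral_sub_right_eq_self (fun z => ‖F.1 z‖ₑ) w
      _ = _ := lintegral_mul_const _ hκ.meas.enorm
  · apply iSup_le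
    intro z
    refine (h0 z).trans ?_
    rw [← lintegral_mul_const _ hκ.meas.enorm]
    apply lintegral_mono
    intro w
    exact mul_le_mul_right (le_iSup (fun z => ‖F.1 z‖ₑ) _) _

/-- Averages of small differences are small. -/
lemma avg {p : BM → ℝ≥0∞} (hp : Good p) {κ : ℂ → ℝ} (hκ : Ik κ) (h1 : ∫ w, κ w = 1)
    (h0 : ∀ w, 0 ≤ κ w) {ρ : ℝ} (hs : ∀ w, ρ < ‖w‖ → κ w = 0) (F : BM) {D : ℝ≥0∞}
    (hD : ∀ w, ‖w‖ ≤ ρ → p (F - tauB w F) ≤ D) : p ((1 - crOp hκ) F) ≤ D := by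
  have hmass : ∫⁻ w, ‖κ w‖ₑ = 1 := by
    have e : ∀ w, ‖κ w‖ₑ = ENNReal.ofReal (κ w) := fun w => Real.enorm_of_nonneg (h0 w)
    simp_rw [e]
    rw [← ofReal_integral_eq_lintegral_ofReal hκ.int (Eventually.of_forall h0), h1]
    simp
  have hz : ∀ z, ‖((1 - crOp hκ) F).1 z‖ₑ ≤ ∫⁻ w, ‖κ w‖ₑ * ‖(F - tauB w F).1 z‖ₑ := by
    intro z
    have e1 : ((1 - crOp hκ) F).1 z = ∫ w, κ w * (F - tauB w F).1 z := by
      change F.1 z - cr κ F.1 z = ∫ w, κ w * (F.1 z - F.1 (z - w))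
      simp_rw [mul_sub]
      rw [integral_sub (hκ.int.mul_const _) (cr_integrand hκ F.2 z), integral_mul_const, h1,
        one_mul]
      rfl
    rw [e1]
    refine (enorm_integral_le_lintegral_enorm _).trans (le_of_eq ?_)
    congr 1
    ext w
    exact enorm_mul _ _
  have hw : ∀ w, ‖κ w‖ₑ * p (F - tauB w F) ≤ ‖κ w‖ₑ * D := by
    intro w
    by_cases h : ‖w‖ ≤ ρ
    · exact mul_le_mul_right (hD w h) _
    · rw [hs w (not_le.1 h)]
      simp
  rcases hp with rfl | rfl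
  · calc ∫⁻ z, ‖((1 - crOp hκ) F).1 z‖ₑ
        ≤ ∫⁻ z, ∫⁻ w, ‖κ w‖ₑ * ‖(F - tauB w F).1 z‖ₑ := lintegral_mono hz
      _ = ∫⁻ w, ∫⁻ z, ‖κ w‖ₑ * ‖(F - tauB w F).1 z‖ₑ := by
          rw [lintegral_lintegral_swap]
          exact ((hκ.meas.comp measurable_snd).enorm.mul
            ((F.2.1.comp measurable_fst).sub
              (F.2.1.comp (measurable_fst.sub measurable_snd))).enorm).aemeasurable
      _ = ∫⁻ w, ‖κ w‖ₑ * NB (F - tauB w F) := by
          congr 1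
          ext w
          exact lintegral_const_mul _ (F - tauB w F).2.1.enorm
      _ ≤ ∫⁻ w, ‖κ w‖ₑ * D := lintegral_mono hw
      _ = D := by rw [lintegral_mul_const _ hκ.meas.enorm, hmass, one_mul]
  · apply iSup_le
    intro z
    calc ‖((1 - crOp hκ) F).1 z‖ₑ ≤ ∫⁻ w, ‖κ w‖ₑ * ‖(F - tauB w F).1 z‖ₑ := hz z
      _ ≤ ∫⁻ w, ‖κ w‖ₑ * SB (F - tauB w F) := by
          apply lintegral_mono
          intro w
          exact mul_le_mul_right (le_iSup (fun z => ‖(F - tauB w F).1 z‖ₑ) _) _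
      _ ≤ ∫⁻ w, ‖κ w‖ₑ * D := lintegral_mono hw
      _ = D := by rw [lintegral_mul_const _ hκ.meas.enorm, hmass, one_mul]

/-- Averages vary slowly. -/
lemma shift {p : BM → ℝ≥0∞} (hp : Good p) {κ : ℂ → ℝ} (hκ : Ik κ) (w : ℂ) (F : BM) :
    p (crOp hκ F - tauB w (crOp hκ F)) ≤ (∫⁻ v, ‖κ (v - w) - κ v‖ₑ) * p F := by
  have hκ' : Ik (fun v => κ v - κ (v - w)) :=
    ⟨hκ.meas.sub (hκ.meas.comp (measurable_id.sub_const w)), hκ.int.sub (hκ.int.comp_sub_right w)⟩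
  have e : crOp hκ F - tauB w (crOp hκ F) = crOp hκ' F := by
    apply Subtype.ext
    ext z
    change cr κ F.1 z - cr κ F.1 (z - w) = cr (fun v => κ v - κ (v - w)) F.1 z
    have e1 : cr κ F.1 (z - w) = ∫ v, κ (v - w) * F.1 (z - v) := by
      unfold cr
      rw [← integral_sub_right_eq_self (fun v => κ v * F.1 (z - w - v)) w]
      congr 1
      ext v
      rw [show z - w - (v - w) = z - v by ring]
    rw [e1]
    unfold cr
    simp_rw [sub_mul]
    rw [integral_sub (cr_integrand hκ F.2 z)]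
    have hκ2 : Ik (fun v => κ (v - w)) :=
      ⟨hκ.meas.comp (measurable_id.sub_const w), hκ.int.comp_sub_right w⟩
    exact cr_integrand hκ2 F.2 z
  rw [e]
  refine (young hp hκ' F).trans (le_of_eq ?_)
  congr 1
  congr 1
  ext v
  rw [← enorm_neg, neg_sub]

/-- A family of averages at the scales `2^{-j}`. -/
structure Fam (κ : ℕ → ℂ → ℝ) (C : ℝ≥0∞) : Prop where
  meas : ∀ j, Measurable (κ j)
  int : ∀ j, Integrable (κ j)
  one : ∀ j, ∫ w, κ j w = 1
  nonneg : ∀ j w, 0 ≤ κ j w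
  supp : ∀ j w, (1 / 2 : ℝ) ^ j < ‖w‖ → κ j w = 0
  lip : ∀ j w, ∫⁻ v, ‖κ j (v - w) - κ j v‖ₑ ≤ C * (2 ^ j * ‖w‖ₑ)

/-- All convolution operators. -/
def crSet : Set (Module.End ℝ BM) := {T | ∃ (κ : ℂ → ℝ) (hκ : Ik κ), T = crOp hκ}

lemma crSet_comm : ∀ S ∈ crSet, ∀ T ∈ crSet, S * T = T * S := by
  rintro _ ⟨κ, hκ, rfl⟩ _ ⟨μ, hμ, rfl⟩
  exact crOp_comm hκ hμ

/-- The commutative ring of convolution operators. -/
abbrev CR : Type := Subring.closure crSet

noncomputable instance : CommRing CR :=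
  { (inferInstance : Ring (Subring.closure crSet)) with
    mul_comm := (Subring.isMulCommutative_closure crSet_comm).is_comm.comm }

section fam

variable {κ : ℕ → ℂ → ℝ} {C : ℝ≥0∞}

lemma Fam.ik (h : Fam κ C) (j : ℕ) : Ik (κ j) := ⟨h.meas j, h.int j⟩

/-- The average at the scale `j`. -/
noncomputable def Fam.op (h : Fam κ C) (j : ℕ) : CR :=
  ⟨crOp (h.ik j), Subring.subset_closure ⟨κ j, h.ik j, rfl⟩⟩

noncomputable instance : Module CR BM := inferInstance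

lemma Fam.op_smul (h : Fam κ C) (j : ℕ) (F : BM) : h.op j • F = crOp (h.ik j) F := rfl

lemma Fam.mass (h : Fam κ C) (j : ℕ) : ∫⁻ w, ‖κ j w‖ₑ = 1 := by
  have e : ∀ w, ‖κ j w‖ₑ = ENNReal.ofReal (κ j w) := fun w => Real.enorm_of_nonneg (h.nonneg j w)
  simp_rw [e]
  rw [← ofReal_integral_eq_lintegral_ofReal (h.int j) (Eventually.of_forall (h.nonneg j)), h.one j]
  simp

lemma Fam.op_le {p : BM → ℝ≥0∞} (hp : Good p) (h : Fam κ C) (j : ℕ) : OP p (h.op j) 1 := by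
  intro F
  rw [h.op_smul, ← h.mass j]
  exact young hp (h.ik j) F

lemma Fam.mixed {p : BM → ℝ≥0∞} (hp : Good p) (h : Fam κ C) {μ : ℕ → ℂ → ℝ} {D : ℝ≥0∞}
    (h' : Fam μ D) (i j : ℕ) : OP p ((1 - h.op i) * h'.op j) (D * (2 ^ j * 2⁻¹ ^ i)) := by
  intro F
  rw [mul_smul, h'.op_smul]
  change p ((1 - crOp (h.ik i)) (crOp (h'.ik j) F)) ≤ _
  apply avg hp (h.ik i) (h.one i) (h.nonneg i) (h.supp i)
  intro w hw
  refine (shift hp (h'.ik j) w F).trans ?_
  gcongr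
  refine (h'.lip j w).trans ?_
  gcongr
  rw [← ofReal_norm]
  refine (ENNReal.ofReal_le_ofReal hw).trans (le_of_eq ?_)
  rw [one_div, ENNReal.ofReal_pow (by norm_num), ENNReal.ofReal_inv_of_pos (by norm_num)]
  norm_num

end fam

end H98.Dens
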