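import Pool.Agent.H98.Dbar.Dens2
import Pool.Agent.H98.Dbar.Final

/-!
# The density criterion
-/

open MeasureTheory Metric Set Filter Topology
open scoped ContDiff ENNReal NNReal
open H98.Dbar (IsProfile moll bumpAt Crit chi Wf)

namespace H98.Dens

section transfer

variable {κ μ : ℕ → ℂ → ℝ} {C D : ℝ≥0∞}

lemma limit (hκ : Fam κ C) (hμ : Fam μ D) (hD : D < ⊤) (F : BM) (j : ℕ)
    (z : ℂ) : Tendsto (fun J => (((hμ.op (j + 1) - hμ.op j) * Kq (hκ.op J) ^ 2) • F).1 z) atTop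
      (𝓝 (((hμ.op (j + 1) - hμ.op j) • F).1 z)) := by
  rw [tendsto_iff_edist_tendsto_0]
  have hb : ∀ J, edist ((((hμ.op (j + 1) - hμ.op j) * Kq (hκ.op J) ^ 2) • F).1 z)
      (((hμ.op (j + 1) - hμ.op j) • F).1 z) ≤ (36 * (D * 2 ^ j) * SB F) * 2⁻¹ ^ J := by
    intro J
    have e : ((hμ.op (j + 1) - hμ.op j) * (1 - Kq (hκ.op J) ^ 2)) • F =
        (hμ.op (j + 1) - hμ.op j) • F - ((hμ.op (j + 1) - hμ.op j) * Kq (hκ.op J) ^ 2) • F := by
      rw [mul_sub, mul_one, sub_smul]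
    have h1 := err SB_esn (hκ.op_le (Or.inr rfl) J) (b := hμ.op j) (b' := hμ.op (j + 1))
      (c := D * (2 ^ j * 2⁻¹ ^ J)) (hκ.mixed (Or.inr rfl) hμ J j)
      ((hκ.mixed (Or.inr rfl) hμ J (j + 1)).mono (le_of_eq (by rw [pow_succ]; ring))) F
    rw [e] at h1
    rw [edist_comm, edist_eq_enorm_sub]
    refine (le_iSup (fun z => ‖((hμ.op (j + 1) - hμ.op j) • F -
      ((hμ.op (j + 1) - hμ.op j) * Kq (hκ.op J) ^ 2) • F).1 z‖ₑ) z).trans (h1.trans (le_of_eq ?_))
    ring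
  have h0 : Tendsto (fun J : ℕ => (36 * (D * 2 ^ j) * SB F) * (2⁻¹ : ℝ≥0∞) ^ J) atTop (𝓝 0) := by
    have h2 : Tendsto (fun J : ℕ => (2⁻¹ : ℝ≥0∞) ^ J) atTop (𝓝 0) :=
      ENNReal.tendsto_pow_atTop_nhds_zero_of_lt_one (by
        rw [ENNReal.inv_lt_one]; norm_num)
    have h3 : 36 * (D * 2 ^ j) * SB F ≠ ⊤ := by
      refine (ENNReal.mul_lt_top (ENNReal.mul_lt_top (by norm_num)
        (ENNReal.mul_lt_top hD (ENNReal.pow_lt_top (by norm_num)))) (SB_lt F)).ne
    have h4 := ENNReal.Tendsto.const_mul h2 (Or.inr h3)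
    rwa [mul_zero] at h4
  exact tendsto_of_tendsto_of_tendsto_of_le_of_le tendsto_const_nhds h0 (fun _ => zero_le) hb

/-- The comparison at one scale. -/
lemma compare_one (hκ : Fam κ C) (hμ : Fam μ D) (hD : D < ⊤) (F : BM) (j : ℕ) :
    NB ((hμ.op (j + 1) - hμ.op j) • F) ≤ 30 * max C D * 2⁻¹ ^ j * NB F +
      ∑' i, 72 * max C D * dec i j * NB ((hκ.op (i + 1) - hκ.op i) • F) := by
  have hJ : ∀ J, NB (((hμ.op (j + 1) - hμ.op j) * Kq (hκ.op J) ^ 2) • F) ≤
      30 * max C D * 2⁻¹ ^ j * NB F +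
      ∑' i, 72 * max C D * dec i j * NB ((hκ.op (i + 1) - hκ.op i) • F) := by
    intro J
    have h1 := compare NB_esn hκ.op hμ.op (fun i => hκ.op_le (Or.inl rfl) i) (C := max C D)
      (fun i j => (hκ.mixed (Or.inl rfl) hμ i j).mono (mul_le_mul_left (le_max_right _ _) _))
      (fun i j => (hμ.mixed (Or.inl rfl) hκ j i).mono (mul_le_mul_left (le_max_left _ _) _)) F J j
    refine h1.trans (add_le_add le_rfl ?_)
    exact ENNReal.sum_le_tsum _
  have hlim := limit hκ hμ hD F j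
  calc NB ((hμ.op (j + 1) - hμ.op j) • F)
      = ∫⁻ z, liminf (fun J => ‖(((hμ.op (j + 1) - hμ.op j) * Kq (hκ.op J) ^ 2) • F).1 z‖ₑ)
          atTop := by
        unfold NB
        congr 1
        ext z
        exact ((continuous_enorm.tendsto _).comp (hlim z)).liminf_eq.symm
    _ ≤ liminf (fun J => ∫⁻ z, ‖(((hμ.op (j + 1) - hμ.op j) * Kq (hκ.op J) ^ 2) • F).1 z‖ₑ)
          atTop := lintegral_liminf_le fun J => (_ : BM).2.1.enorm
    _ ≤ liminf (fun _ : ℕ => 30 * max C D * 2⁻¹ ^ j * NB F +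
          ∑' i, 72 * max C D * dec i j * NB ((hκ.op (i + 1) - hκ.op i) • F)) atTop :=
        liminf_le_liminf (Eventually.of_forall hJ)
    _ = _ := by simp

/-- The sums of two families of averages are comparable. -/
theorem transfer (hκ : Fam κ C) (hμ : Fam μ D) (hC : C < ⊤) (hD : D < ⊤) {α : ℝ} (h0 : 0 < α)
    (h2 : α < 2) (F : BM) (hF : NB F < ⊤)
    (hs : ∑' j, wt α j * NB ((hκ.op (j + 1) - hκ.op j) • F) < ⊤) :
    ∑' j, wt α j * NB ((hμ.op (j + 1) - hμ.op j) • F) < ⊤ := by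
  obtain ⟨S, hS, hschur⟩ := schur h0 h2
  have hE : max C D < ⊤ := max_lt hC hD
  calc ∑' j, wt α j * NB ((hμ.op (j + 1) - hμ.op j) • F)
      ≤ ∑' j, (30 * max C D * NB F * (wt α j * 2⁻¹ ^ j) +
          ∑' i, 72 * max C D * NB ((hκ.op (i + 1) - hκ.op i) • F) * (wt α j * dec i j)) := by
        apply ENNReal.tsum_le_tsum
        intro j
        refine (mul_le_mul_right (compare_one hκ hμ hD F j) _).trans (le_of_eq ?_)
        rw [mul_add, ← ENNReal.tsum_mul_left]
        congr 1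
        · ring
        · congr 1
          ext i
          ring
    _ = 30 * max C D * NB F * (∑' j, wt α j * 2⁻¹ ^ j) +
          ∑' i, 72 * max C D * NB ((hκ.op (i + 1) - hκ.op i) • F) * ∑' j, wt α j * dec i j := by
        rw [ENNReal.tsum_add, ENNReal.tsum_mul_left, ENNReal.tsum_comm]
        congr 1
        congr 1
        ext i
        rw [ENNReal.tsum_mul_left]
    _ ≤ 30 * max C D * NB F * (∑' j, wt α j * 2⁻¹ ^ j) +
          ∑' i, 72 * max C D * S * (wt α i * NB ((hκ.op (i + 1) - hκ.op i) • F)) := by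
        apply add_le_add le_rfl
        apply ENNReal.tsum_le_tsum
        intro i
        refine (mul_le_mul_right (hschur i) _).trans (le_of_eq ?_)
        ring
    _ = 30 * max C D * NB F * (∑' j, wt α j * 2⁻¹ ^ j) +
          72 * max C D * S * ∑' i, wt α i * NB ((hκ.op (i + 1) - hκ.op i) • F) := by
        rw [ENNReal.tsum_mul_left]
    _ < ⊤ := by
        apply ENNReal.add_lt_top.2
        constructor
        · apply ENNReal.mul_lt_top (ENNReal.mul_lt_top (ENNReal.mul_lt_top (by norm_num) hE) hF)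
          simp_rw [wt_half]
          exact geom_fin (by positivity) (rpow_lt_one' h0)
        · exact ENNReal.mul_lt_top (ENNReal.mul_lt_top (ENNReal.mul_lt_top (by norm_num) hE) hS) hs

end transfer

/-! ### The two families -/

lemma vol_ball (x : ℂ) {r : ℝ} (hr : 0 ≤ r) : volume (ball x r) = ENNReal.ofReal (Real.pi * r ^ 2) := by
  rw [Complex.volume_ball, mul_comm, ENNReal.ofReal_mul Real.pi_pos.le, ENNReal.ofReal_pow hr]
  congr 1
  rw [← NNReal.coe_real_pi, ENNReal.ofReal_coe_nnreal]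

lemma vol_annulus (x : ℂ) {r t : ℝ} (hr : 0 ≤ r) (ht : 0 ≤ t) :
    volume (ball x (r + t) \ ball x r) = ENNReal.ofReal (Real.pi * (2 * r * t + t ^ 2)) := by
  rw [measure_sdiff (ball_subset_ball (by linarith)) measurableSet_ball.nullMeasurableSet
    (measure_ball_lt_top.ne), vol_ball x (by linarith), vol_ball x hr,
    ← ENNReal.ofReal_sub _ (by positivity)]
  congr 1
  ring

/-- The normalised indicator of the disc of radius `2^{-j}`. -/
noncomputable def dk (j : ℕ) : ℂ → ℝ :=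
  (ball (0:ℂ) ((1 / 2) ^ j)).indicator (fun _ => (Real.pi * ((1 / 2) ^ j) ^ 2)⁻¹)

lemma dk_int (j : ℕ) : Integrable (dk j) := by
  unfold dk
  rw [integrable_indicator_iff measurableSet_ball]
  exact integrableOn_const measure_ball_lt_top.ne

lemma dk_one (j : ℕ) : ∫ w, dk j w = 1 := by
  unfold dk
  have hr : (0:ℝ) < (1 / 2) ^ j := by positivity
  rw [integral_indicator measurableSet_ball, setIntegral_const, measureReal_def, vol_ball 0 hr.le,
    ENNReal.toReal_ofReal (by positivity), smul_eq_mul]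
  exact mul_inv_cancel₀ (by positivity)

lemma dk_nonneg (j : ℕ) (w : ℂ) : 0 ≤ dk j w := by
  unfold dk
  apply indicator_nonneg
  intro _ _
  positivity

lemma dk_meas (j : ℕ) : Measurable (dk j) := measurable_const.indicator measurableSet_ball

lemma dk_lip (j : ℕ) (w : ℂ) : ∫⁻ v, ‖dk j (v - w) - dk j v‖ₑ ≤ 6 * (2 ^ j * ‖w‖ₑ) := by
  set r : ℝ := (1 / 2) ^ j with hr
  have hr0 : 0 < r := by positivity
  have hr2 : (2:ℝ) ^ j = r⁻¹ := by rw [hr, one_div, inv_pow, inv_inv]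
  have hgoal : (6:ℝ≥0∞) * (2 ^ j * ‖w‖ₑ) = ENNReal.ofReal (6 * (r⁻¹ * ‖w‖)) := by
    rw [ENNReal.ofReal_mul (by norm_num), ENNReal.ofReal_mul (by positivity), ofReal_norm, ← hr2,
      ENNReal.ofReal_pow (by norm_num)]
    norm_num
  rw [hgoal]
  rcases le_total ‖w‖ r with hw | hw
  · set t : ℝ := ‖w‖ with ht
    have ht0 : 0 ≤ t := norm_nonneg _
    set c : ℝ := (Real.pi * r ^ 2)⁻¹ with hc
    have hc0 : 0 ≤ c := by positivity
    have hpt : ∀ v, ‖dk j (v - w) - dk j v‖ₑ ≤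
        (ball (0:ℂ) (r + t) \ ball 0 r).indicator (fun _ => ENNReal.ofReal c) v +
        (ball w (r + t) \ ball w r).indicator (fun _ => ENNReal.ofReal c) v := by
      intro v
      unfold dk
      by_cases h1 : v ∈ ball (0:ℂ) r
      · by_cases h2 : v - w ∈ ball (0:ℂ) r
        · rw [indicator_of_mem h1, indicator_of_mem h2, sub_self]
          simp
        · rw [indicator_of_mem h1, indicator_of_notMem h2, zero_sub, enorm_neg]
          have h3 : v ∈ ball w (r + t) \ ball w r := by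
            constructor
            · rw [mem_ball, dist_eq_norm]
              rw [mem_ball, dist_zero_right] at h1
              calc ‖v - w‖ ≤ ‖v‖ + ‖w‖ := norm_sub_le _ _
                _ < r + t := by linarith
            · rw [mem_ball, dist_eq_norm]
              rwa [mem_ball, dist_zero_right] at h2
          rw [indicator_of_mem h3, Real.enorm_of_nonneg hc0]
          exact le_add_self
      · by_cases h2 : v - w ∈ ball (0:ℂ) r
        · rw [indicator_of_notMem h1, indicator_of_mem h2, sub_zero]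
          have h3 : v ∈ ball (0:ℂ) (r + t) \ ball 0 r := by
            refine ⟨?_, h1⟩
            rw [mem_ball, dist_zero_right] at h2 ⊢
            calc ‖v‖ = ‖(v - w) + w‖ := by rw [sub_add_cancel]
              _ ≤ ‖v - w‖ + ‖w‖ := norm_add_le _ _
              _ < r + t := by linarith
          rw [indicator_of_mem h3, Real.enorm_of_nonneg hc0]
          exact le_self_add
        · rw [indicator_of_notMem h1, indicator_of_notMem h2, sub_self]
          simp
    have hm : ∀ x : ℂ, MeasurableSet (ball x (r + t) \ ball x r) := fun x =>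
      measurableSet_ball.diff measurableSet_ball
    calc ∫⁻ v, ‖dk j (v - w) - dk j v‖ₑ
        ≤ ∫⁻ v, ((ball (0:ℂ) (r + t) \ ball 0 r).indicator (fun _ => ENNReal.ofReal c) v +
          (ball w (r + t) \ ball w r).indicator (fun _ => ENNReal.ofReal c) v) :=
          lintegral_mono hpt
      _ = ENNReal.ofReal (2 * (c * (Real.pi * (2 * r * t + t ^ 2)))) := by
          rw [lintegral_add_left (measurable_const.indicator (hm 0)), lintegral_indicator (hm 0),
            lintegral_indicator (hm w), setLIntegral_const, setLIntegral_const,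
            vol_annulus _ hr0.le ht0, vol_annulus _ hr0.le ht0, ← ENNReal.ofReal_mul hc0,
            ← ENNReal.ofReal_add (by positivity) (by positivity)]
          congr 1
          ring
      _ ≤ _ := by
          apply ENNReal.ofReal_le_ofReal
          rw [hc]
          have hpi := Real.pi_pos
          have e : 2 * ((Real.pi * r ^ 2)⁻¹ * (Real.pi * (2 * r * t + t ^ 2))) =
              (4 * r * t + 2 * t ^ 2) / r ^ 2 := by
            field_simp
            ring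
          have e2 : 6 * (r⁻¹ * t) = (6 * r * t) / r ^ 2 := by
            field_simp
          rw [e, e2]
          gcongr
          nlinarith
  · calc ∫⁻ v, ‖dk j (v - w) - dk j v‖ₑ ≤ ∫⁻ v, (‖dk j (v - w)‖ₑ + ‖dk j v‖ₑ) := by
          apply lintegral_mono
          intro v
          exact enorm_sub_le
      _ = 1 + 1 := by
          have hmass : ∫⁻ v, ‖dk j v‖ₑ = 1 := by
            have e : ∀ w, ‖dk j w‖ₑ = ENNReal.ofReal (dk j w) :=
              fun w => Real.enorm_of_nonneg (dk_nonneg j w)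
            simp_rw [e]
            rw [← ofReal_integral_eq_lintegral_ofReal (dk_int j)
              (Eventually.of_forall (dk_nonneg j)), dk_one j]
            simp
          rw [lintegral_add_right _ (dk_meas j).enorm, hmass]
          congr 1
          rw [lintegral_sub_right_eq_self (fun v => ‖dk j v‖ₑ) w, hmass]
      _ ≤ _ := by
          have : (1:ℝ) + 1 ≤ 6 * (r⁻¹ * ‖w‖) := by
            have h1 : 1 ≤ r⁻¹ * ‖w‖ := by
              rw [inv_mul_eq_div, le_div_iff₀ hr0]; linarith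
            linarith
          calc (1:ℝ≥0∞) + 1 = ENNReal.ofReal (1 + 1) := by
                rw [ENNReal.ofReal_add (by norm_num) (by norm_num)]; simp
            _ ≤ _ := ENNReal.ofReal_le_ofReal this

lemma dk_fam : Fam dk 6 where
  meas := dk_meas
  int := dk_int
  one := dk_one
  nonneg := dk_nonneg
  supp j w hw := by
    unfold dk
    apply indicator_of_notMem
    rw [mem_ball, dist_zero_right]
    linarith
  lip := dk_lip

lemma bump_fam {H : ℝ → ℝ} (hH : IsProfile H) : ∃ C : ℝ≥0∞, C < ⊤ ∧ Fam (bumpAt H) C := by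
  obtain ⟨L, hL⟩ := ContDiff.lipschitzWith_of_hasCompactSupport
    (H98.Dbar.bump_hasCompactSupport hH) (H98.Dbar.bump_contDiff hH) (by simp)
  refine ⟨ENNReal.ofReal (2 * (Real.pi * 4 * L)), ENNReal.ofReal_lt_top, ?_⟩
  refine ⟨fun j => (H98.Dbar.bumpAt_contDiff hH j).continuous.measurable,
    fun j => (H98.Dbar.bumpAt_contDiff hH j).continuous.integrable_of_hasCompactSupport
      (H98.Dbar.bumpAt_hasCompactSupport hH j), H98.Dbar.integral_bumpAt hH,
    H98.Dbar.bumpAt_nonneg hH, fun j w hw => H98.Dbar.bumpAt_eq_zero hH j hw, ?_⟩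
  intro j w
  set r : ℝ := (1 / 2) ^ j with hr
  have hr0 : 0 < r := by positivity
  have hr2 : (2:ℝ) ^ j = r⁻¹ := by rw [hr, one_div, inv_pow, inv_inv]
  have h4 : (4:ℝ) ^ j = (r ^ 2)⁻¹ := by
    rw [show (4:ℝ) = 2 ^ 2 by norm_num, ← pow_mul, mul_comm, pow_mul, hr2, inv_pow]
  have hlip : ∀ v, ‖bumpAt H j (v - w) - bumpAt H j v‖ ≤ (r ^ 2)⁻¹ * (L * (r⁻¹ * ‖w‖)) := by
    intro v
    unfold bumpAt
    rw [← mul_sub, norm_mul, h4, Real.norm_of_nonneg (by positivity)]
    gcongr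
    have := hL.dist_le_mul (2 ^ j * (v - w)) (2 ^ j * v)
    rw [dist_eq_norm, dist_eq_norm] at this
    refine this.trans (le_of_eq ?_)
    rw [← mul_sub, norm_mul, norm_pow, Complex.norm_ofNat, hr2, sub_sub_cancel_left, norm_neg]
  set c : ℝ := (r ^ 2)⁻¹ * (L * (r⁻¹ * ‖w‖)) with hc
  have hc0 : 0 ≤ c := by positivity
  have hpt : ∀ v, ‖bumpAt H j (v - w) - bumpAt H j v‖ₑ ≤
      (ball (0:ℂ) (2 * r)).indicator (fun _ => ENNReal.ofReal c) v +
      (ball w (2 * r)).indicator (fun _ => ENNReal.ofReal c) v := by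
    intro v
    by_cases h1 : v ∈ ball (0:ℂ) (2 * r)
    · rw [indicator_of_mem h1, ← ofReal_norm]
      exact (ENNReal.ofReal_le_ofReal (hlip v)).trans le_self_add
    · by_cases h2 : v ∈ ball w (2 * r)
      · rw [indicator_of_mem h2, ← ofReal_norm]
        exact (ENNReal.ofReal_le_ofReal (hlip v)).trans le_add_self
      · rw [mem_ball, dist_zero_right] at h1
        rw [mem_ball, dist_eq_norm] at h2
        rw [H98.Dbar.bumpAt_eq_zero hH j (show r < ‖v‖ by linarith),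
          H98.Dbar.bumpAt_eq_zero hH j (show r < ‖v - w‖ by linarith)]
        simp
  calc ∫⁻ v, ‖bumpAt H j (v - w) - bumpAt H j v‖ₑ
      ≤ ∫⁻ v, ((ball (0:ℂ) (2 * r)).indicator (fun _ => ENNReal.ofReal c) v +
        (ball w (2 * r)).indicator (fun _ => ENNReal.ofReal c) v) := lintegral_mono hpt
    _ = ENNReal.ofReal (2 * (c * (Real.pi * (2 * r) ^ 2))) := by
        rw [lintegral_add_left (measurable_const.indicator measurableSet_ball),
          lintegral_indicator measurableSet_ball, lintegral_indicator measurableSet_ball,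
          setLIntegral_const, setLIntegral_const, vol_ball _ (by positivity),
          vol_ball _ (by positivity), ← ENNReal.ofReal_mul hc0,
          ← ENNReal.ofReal_add (by positivity) (by positivity)]
        congr 1
        ring
    _ = ENNReal.ofReal (2 * (Real.pi * 4 * L)) * (2 ^ j * ‖w‖ₑ) := by
        have e : (2:ℝ≥0∞) ^ j * ‖w‖ₑ = ENNReal.ofReal (r⁻¹ * ‖w‖) := by
          rw [ENNReal.ofReal_mul (by positivity), ofReal_norm, ← hr2,
            ENNReal.ofReal_pow (by norm_num)]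
          norm_num
        rw [e, ← ENNReal.ofReal_mul (by positivity)]
        congr 1
        rw [hc]
        field_simp
        ring

/-! ### The indicator -/

/-- The indicator function of a measurable set. -/
noncomputable def ind {Ω : Set ℂ} (hΩ : MeasurableSet Ω) : BM :=
  ⟨Ω.indicator (fun _ => 1), measurable_const.indicator hΩ, 1, fun z => by
    by_cases h : z ∈ Ω <;> simp [h]⟩

lemma NB_ind {Ω : Set ℂ} (hΩ : MeasurableSet Ω) : NB (ind hΩ) = volume Ω := by
  unfold NB ind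
  have e : ∀ z, ‖Ω.indicator (fun _ => (1:ℝ)) z‖ₑ = Ω.indicator (fun _ => (1:ℝ≥0∞)) z := by
    intro z
    by_cases h : z ∈ Ω <;> simp [h]
  simp_rw [e]
  rw [lintegral_indicator hΩ, setLIntegral_const, one_mul]

/-- `area(Ω ∩ disc(z, 2^{-j})) / area(disc(z, 2^{-j}))` -/
noncomputable def dens (Ω : Set ℂ) (j : ℕ) (z : ℂ) : ℝ :=
  volume.real (Ω ∩ ball z ((1 / 2) ^ j)) / volume.real (ball z ((1 / 2 : ℝ) ^ j))

lemma cr_moll {H : ℝ → ℝ} {Ω : Set ℂ} (hΩ : MeasurableSet Ω) (j : ℕ) (z : ℂ) :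
    cr (bumpAt H j) (ind hΩ).1 z = moll H j Ω z := by
  unfold cr moll ind
  rw [← integral_indicator hΩ,
    ← integral_sub_left_eq_self (fun w => bumpAt H j w * Ω.indicator (fun _ => (1:ℝ)) (z - w))
      volume z]
  congr 1
  ext w
  rw [sub_sub_cancel]
  by_cases h : w ∈ Ω <;> simp [h]

lemma cr_dens {Ω : Set ℂ} (hΩ : MeasurableSet Ω) (j : ℕ) (z : ℂ) :
    cr (dk j) (ind hΩ).1 z = dens Ω j z := by
  have hr : (0:ℝ) < (1 / 2) ^ j := by positivity
  unfold cr dens ind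
  rw [← integral_sub_left_eq_self (fun w => dk j w * Ω.indicator (fun _ => (1:ℝ)) (z - w))
      volume z]
  have e : ∀ w, dk j (z - w) * Ω.indicator (fun _ => (1:ℝ)) (z - (z - w)) =
      (Ω ∩ ball z ((1 / 2) ^ j)).indicator (fun _ => (Real.pi * ((1 / 2) ^ j) ^ 2)⁻¹) w := by
    intro w
    rw [sub_sub_cancel]
    unfold dk
    have hb : z - w ∈ ball (0:ℂ) ((1 / 2) ^ j) ↔ w ∈ ball z ((1 / 2) ^ j) := by
      rw [mem_ball, mem_ball, dist_zero_right, dist_comm, dist_eq_norm]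
    by_cases h : w ∈ Ω
    · by_cases h' : w ∈ ball z ((1 / 2) ^ j)
      · rw [indicator_of_mem (hb.2 h'), indicator_of_mem h, indicator_of_mem (show w ∈ Ω ∩ ball z ((1 / 2) ^ j) from ⟨h, h'⟩),
          mul_one]
      · rw [indicator_of_notMem (fun hh => h' (hb.1 hh)),
          indicator_of_notMem (show w ∉ Ω ∩ ball z ((1 / 2) ^ j) from fun hh => h' hh.2), zero_mul]
    · rw [indicator_of_notMem h,
        indicator_of_notMem (show w ∉ Ω ∩ ball z ((1 / 2) ^ j) from fun hh => h hh.1), mul_zero]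
  simp_rw [e]
  rw [integral_indicator (hΩ.inter measurableSet_ball), setIntegral_const, smul_eq_mul,
    measureReal_def (s := ball z _), vol_ball z hr.le, ENNReal.toReal_ofReal (by positivity)]
  exact (div_eq_mul_inv _ _).symm

/-- The sum of the density criterion. -/
noncomputable def densSum (α : ℝ) (Ω : Set ℂ) : ℝ≥0∞ :=
  ∑' j : ℕ, ENNReal.ofReal ((2:ℝ) ^ ((1 - α) * j)) *
    ∫⁻ z, ENNReal.ofReal |dens Ω (j + 1) z - dens Ω j z|

lemma densSum_eq (α : ℝ) {Ω : Set ℂ} (hΩ : MeasurableSet Ω) :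
    densSum α Ω = ∑' j, wt α j * NB ((dk_fam.op (j + 1) - dk_fam.op j) • ind hΩ) := by
  unfold densSum wt
  congr 1
  ext j
  congr 1
  unfold NB
  congr 1
  ext z
  have e : ((dk_fam.op (j + 1) - dk_fam.op j) • ind hΩ).1 z = dens Ω (j + 1) z - dens Ω j z := by
    rw [← cr_dens hΩ, ← cr_dens hΩ]
    rfl
  rw [e, ← Real.norm_eq_abs, ofReal_norm]

lemma mollSum_eq {H : ℝ → ℝ} (α : ℝ) {C : ℝ≥0∞} (h : Fam (bumpAt H) C) {Ω : Set ℂ}
    (hΩ : MeasurableSet Ω) :
    ∑' j : ℕ, ENNReal.ofReal ((2:ℝ) ^ ((1 - α) * j)) *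
      ∫⁻ z, ‖moll H (j + 1) Ω z - moll H j Ω z‖ₑ =
      ∑' j, wt α j * NB ((h.op (j + 1) - h.op j) • ind hΩ) := by
  unfold wt
  congr 1
  ext j
  congr 1
  unfold NB
  congr 1
  ext z
  have e : ((h.op (j + 1) - h.op j) • ind hΩ).1 z = moll H (j + 1) Ω z - moll H j Ω z := by
    rw [← cr_moll hΩ, ← cr_moll hΩ]
    rfl
  rw [e]

/-- Complements. -/
lemma NB_compl {κ : ℕ → ℂ → ℝ} {C : ℝ≥0∞} (h : Fam κ C) {Ω : Set ℂ} (hΩ : MeasurableSet Ω)
    (j : ℕ) : NB ((h.op (j + 1) - h.op j) • ind hΩ.compl) =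
      NB ((h.op (j + 1) - h.op j) • ind hΩ) := by
  unfold NB
  congr 1
  ext z
  have key : ∀ i, (h.op i • ind hΩ.compl).1 z = 1 - (h.op i • ind hΩ).1 z := by
    intro i
    change cr (κ i) (ind hΩ.compl).1 z = 1 - cr (κ i) (ind hΩ).1 z
    rw [← h.one i]
    unfold cr
    rw [← integral_sub (h.int i) (cr_integrand (h.ik i) (ind hΩ).2 z)]
    congr 1
    ext w
    unfold ind
    by_cases hw : z - w ∈ Ω
    · simp [hw]
    · simp [hw]
  have e : ((h.op (j + 1) - h.op j) • ind hΩ.compl).1 z =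
      -((h.op (j + 1) - h.op j) • ind hΩ).1 z := by
    rw [sub_smul, sub_smul]
    change (h.op (j + 1) • ind hΩ.compl).1 z - (h.op j • ind hΩ.compl).1 z =
      -((h.op (j + 1) • ind hΩ).1 z - (h.op j • ind hΩ).1 z)
    rw [key, key]
    ring
  rw [e, enorm_neg]

lemma Wf_le_two {Ω : Set ℂ} (hΩ : MeasurableSet Ω) (h : ℂ) : Wf Ω h ≤ 2 * volume Ω := by
  have e : ∀ z, ‖chi Ω z‖ₑ = Ω.indicator (fun _ => (1:ℝ≥0∞)) z := by
    intro z
    unfold chi
    by_cases h : z ∈ Ω <;> simp [h]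
  have e2 : ∫⁻ z, ‖chi Ω z‖ₑ = volume Ω := by
    simp_rw [e]
    rw [lintegral_indicator hΩ, setLIntegral_const, one_mul]
  calc Wf Ω h ≤ ∫⁻ z, (‖chi Ω (z + h)‖ₑ + ‖chi Ω z‖ₑ) := lintegral_mono fun z => enorm_sub_le
    _ = 2 * volume Ω := by
        rw [lintegral_add_right _ (H98.Dbar.chi_meas hΩ).enorm, e2,
          lintegral_add_right_eq_self (fun z => ‖chi Ω z‖ₑ) h, e2, two_mul]

lemma Wf_compl {Ω : Set ℂ} (h : ℂ) : Wf Ωᶜ h = Wf Ω h := by
  unfold Wf
  congr 1
  ext z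
  have e : ∀ z, chi Ωᶜ z = 1 - chi Ω z := by
    intro z
    unfold chi
    by_cases h : z ∈ Ω <;> simp [h]
  rw [e, e, ← enorm_neg]
  congr 1
  ring

lemma Wf_fin {Ω : Set ℂ} (hΩ : MeasurableSet Ω) (h : volume Ω < ⊤ ∨ volume Ωᶜ < ⊤) :
    ∃ M : ℝ≥0∞, M < ⊤ ∧ ∀ w, Wf Ω w ≤ M := by
  rcases h with h | h
  · exact ⟨2 * volume Ω, ENNReal.mul_lt_top (by norm_num) h, Wf_le_two hΩ⟩
  · refine ⟨2 * volume Ωᶜ, ENNReal.mul_lt_top (by norm_num) h, fun w => ?_⟩
    rw [← Wf_compl]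
    exact Wf_le_two hΩ.compl w

lemma low_fin {H : ℝ → ℝ} (hH : IsProfile H) {Ω : Set ℂ} (hΩ : MeasurableSet Ω)
    (h : volume Ω < ⊤ ∨ volume Ωᶜ < ⊤) : (∫⁻ z, ‖fderiv ℝ (moll H 0 Ω) z‖ₑ) < ⊤ := by
  obtain ⟨M, hM, hW⟩ := Wf_fin hΩ h
  have hpart : ∀ v : ℂ, ∫⁻ z, ‖fderiv ℝ (moll H 0 Ω) z v‖ₑ < ⊤ := by
    intro v
    simp_rw [H98.Dbar.fderiv_moll_enorm hH hΩ]
    refine lt_of_le_of_lt (H98.Dbar.cv_chi_le (H98.Dbar.dk_mem hH v) (H98.Dbar.dk_int hH v) hΩ) ?_
    refine lt_of_le_of_lt (lintegral_mono fun w => mul_le_mul_right (hW w) _) ?_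
    rw [lintegral_mul_const _ (H98.Dbar.V_cont (H98.Dbar.dk_mem hH v)).measurable.enorm]
    exact ENNReal.mul_lt_top (H98.Dbar.V_integrable (H98.Dbar.dk_mem hH v)).2 hM
  calc ∫⁻ z, ‖fderiv ℝ (moll H 0 Ω) z‖ₑ
      ≤ ∫⁻ z, (‖fderiv ℝ (moll H 0 Ω) z 1‖ₑ + ‖fderiv ℝ (moll H 0 Ω) z Complex.I‖ₑ) := by
        apply lintegral_mono
        intro z
        have h1 := H98.Dbar.norm_le_parts (fderiv ℝ (moll H 0 Ω) z)
        change ‖fderiv ℝ (moll H 0 Ω) z‖ₑ ≤ ‖fderiv ℝ (moll H 0 Ω) z 1‖ₑ +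
          ‖fderiv ℝ (moll H 0 Ω) z Complex.I‖ₑ
        rw [← ofReal_norm, ← ofReal_norm, ← ofReal_norm,
          ← ENNReal.ofReal_add (norm_nonneg _) (norm_nonneg _)]
        exact ENNReal.ofReal_le_ofReal h1
    _ = (∫⁻ z, ‖fderiv ℝ (moll H 0 Ω) z 1‖ₑ) +
        ∫⁻ z, ‖fderiv ℝ (moll H 0 Ω) z Complex.I‖ₑ := by
        apply lintegral_add_left
        have hcd : Continuous (fun z => fderiv ℝ (moll H 0 Ω) z) :=
          (H98.Dbar.moll_contDiff hH hΩ 0).continuous_fderiv (by simp)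
        exact ((hcd.clm_apply continuous_const).measurable).enorm
    _ < ⊤ := ENNReal.add_lt_top.2 ⟨hpart 1, hpart Complex.I⟩

/-- The transfer between two families for a set of finite or cofinite area. -/
lemma transfer_set {κ μ : ℕ → ℂ → ℝ} {C D : ℝ≥0∞} (hκ : Fam κ C) (hμ : Fam μ D) (hC : C < ⊤)
    (hD : D < ⊤) {α : ℝ} (h0 : 0 < α) (h2 : α < 2) {Ω : Set ℂ} (hΩ : MeasurableSet Ω)
    (h : volume Ω < ⊤ ∨ volume Ωᶜ < ⊤)
    (hs : ∑' j, wt α j * NB ((hκ.op (j + 1) - hκ.op j) • ind hΩ) < ⊤) :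
    ∑' j, wt α j * NB ((hμ.op (j + 1) - hμ.op j) • ind hΩ) < ⊤ := by
  rcases h with h | h
  · exact transfer hκ hμ hC hD h0 h2 (ind hΩ) (by rwa [NB_ind]) hs
  · simp_rw [← NB_compl hκ hΩ] at hs
    simp_rw [← NB_compl hμ hΩ]
    exact transfer hκ hμ hC hD h0 h2 (ind hΩ.compl) (by rwa [NB_ind]) hs

/-- For sets of finite or cofinite area and `0 < α < 2`. -/
theorem crit_iff_dens {H : ℝ → ℝ} (hH : IsProfile H) {α : ℝ} (h0 : 0 < α) (h2 : α < 2) {Ω : Set ℂ}
    (hΩ : MeasurableSet Ω) (h : volume Ω < ⊤ ∨ volume Ωᶜ < ⊤) :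
    Crit H α Ω ↔ densSum α Ω < ⊤ := by
  obtain ⟨C, hC, hF⟩ := bump_fam hH
  unfold Crit
  rw [densSum_eq α hΩ, mollSum_eq α hF hΩ]
  constructor
  · rintro ⟨-, h1⟩
    exact transfer_set hF dk_fam hC (by norm_num) h0 h2 hΩ h h1
  · intro h1
    exact ⟨low_fin hH hΩ h, transfer_set dk_fam hF (by norm_num) hC h0 h2 hΩ h h1⟩

/-- The density criterion for `0 < α ≤ 1`. -/
theorem admissible_iff_dens {α : ℝ} (h0 : 0 < α) (h1 : α ≤ 1) {k : ℕ} (hk : α < k) {Ω : Set ℂ}
    (hΩ : MeasurableSet Ω) : H98.Dbar.Admissible α k Ω ↔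
      (volume Ω < ⊤ ∨ volume Ωᶜ < ⊤) ∧ densSum α Ω < ⊤ := by
  obtain ⟨H, hH⟩ := H98.Dbar.exists_profile
  constructor
  · intro h
    have ha := H98.Dbar.area_of_admissible h0 h1 hk hΩ h
    exact ⟨ha, (crit_iff_dens hH h0 (by linarith) hΩ ha).1
      ((H98.Dbar.admissible_iff_crit hH h0 hk hΩ).1 h)⟩
  · rintro ⟨ha, hd⟩
    exact (H98.Dbar.admissible_iff_crit hH h0 hk hΩ).2
      ((crit_iff_dens hH h0 (by linarith) hΩ ha).2 hd)

end H98.Dens
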