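import Pool.Agent.H98.Dbar.Mom6
import Pool.Agent.H98.Dbar.Fin

/-!
# The density criterion without the area condition
-/

open MeasureTheory Metric Set Filter Topology
open scoped ContDiff ENNReal NNReal
open H98.Dbar (IsProfile moll bumpAt Crit chi Wf bump)

namespace H98.Dens

lemma dens_ball (Ω : Set ℂ) (j : ℕ) (z : ℂ) : dens Ω j z =
    (volume (Ω ∩ closedBall z ((1 / 2) ^ j)) / volume (closedBall z ((1 / 2) ^ j))).toReal := by
  unfold dens
  set r : ℝ := (1 / 2) ^ j with hr
  have h0 : volume (sphere z r) = 0 := Measure.addHaar_sphere _ _ _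
  have hcb : closedBall z r ⊆ ball z r ∪ sphere z r := (ball_union_sphere (x := z) (ε := r)).ge
  have h2 : ∀ S : Set ℂ, volume (S ∩ ball z r) = volume (S ∩ closedBall z r) := by
    intro S
    apply le_antisymm (measure_mono (inter_subset_inter_right _ ball_subset_closedBall))
    calc volume (S ∩ closedBall z r) ≤ volume ((S ∩ ball z r) ∪ sphere z r) := by
          apply measure_mono
          rintro w ⟨h3, h4⟩
          rcases hcb h4 with h5 | h5
          · exact Or.inl ⟨h3, h5⟩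
          · exact Or.inr h5
      _ ≤ volume (S ∩ ball z r) + volume (sphere z r) := measure_union_le _ _
      _ = _ := by rw [h0, add_zero]
  have h1 := h2 univ
  rw [univ_inter, univ_inter] at h1
  rw [ENNReal.toReal_div, measureReal_def, measureReal_def, h1, h2]

lemma dens_tendsto {Ω : Set ℂ} (hΩ : MeasurableSet Ω) : ∀ᵐ z : ℂ,
    Tendsto (fun j : ℕ => dens Ω j z) atTop (𝓝 (Ω.indicator (fun _ => (1:ℝ)) z)) := by
  filter_upwards [Besicovitch.ae_tendsto_measure_inter_div_of_measurableSet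
    (volume : Measure ℂ) hΩ] with z hz
  have h1 : Tendsto (fun j : ℕ => ((1:ℝ) / 2) ^ j) atTop (𝓝[>] 0) := by
    rw [tendsto_nhdsWithin_iff]
    refine ⟨tendsto_pow_atTop_nhds_zero_of_lt_one (by norm_num) (by norm_num),
      Eventually.of_forall fun j => ?_⟩
    rw [mem_Ioi]
    positivity
  have h3 : Ω.indicator (1 : ℂ → ℝ≥0∞) z ≠ ⊤ := by by_cases h : z ∈ Ω <;> simp [h]
  have h4 := (ENNReal.tendsto_toReal h3).comp (hz.comp h1)
  have h5 : (Ω.indicator (1 : ℂ → ℝ≥0∞) z).toReal = Ω.indicator (fun _ => (1:ℝ)) z := by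
    by_cases h : z ∈ Ω <;> simp [h]
  rw [h5] at h4
  refine h4.congr fun j => ?_
  exact (dens_ball Ω j z).symm

lemma dens_meas {Ω : Set ℂ} (hΩ : MeasurableSet Ω) (j : ℕ) : Measurable (dens Ω j) := by
  have e : dens Ω j = (crOp (dk_fam.ik j) (ind hΩ)).1 := by
    ext z
    exact (cr_dens hΩ j z).symm
  rw [e]
  exact (crOp (dk_fam.ik j) (ind hΩ)).2.1

lemma near_l1 {α : ℝ} (h1 : α ≤ 1) {Ω : Set ℂ} (hΩ : MeasurableSet Ω) :
    ∫⁻ z, ‖Ω.indicator (fun _ => (1:ℝ)) z - dens Ω 0 z‖ₑ ≤ densSum α Ω := by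
  have hm := dens_meas hΩ
  have hstep : ∀ J : ℕ, ∫⁻ z, ‖dens Ω J z - dens Ω 0 z‖ₑ ≤ densSum α Ω := by
    intro J
    calc ∫⁻ z, ‖dens Ω J z - dens Ω 0 z‖ₑ
        ≤ ∫⁻ z, ∑ i ∈ Finset.range J, ‖dens Ω (i + 1) z - dens Ω i z‖ₑ := by
          apply lintegral_mono
          intro z
          simp only
          rw [← Finset.sum_range_sub (fun i => dens Ω i z)]
          exact enorm_sum_le _ _
      _ = ∑ i ∈ Finset.range J, ∫⁻ z, ‖dens Ω (i + 1) z - dens Ω i z‖ₑ :=
          lintegral_finsetSum _ fun i _ => ((hm (i + 1)).sub (hm i)).enorm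
      _ ≤ ∑ i ∈ Finset.range J, ENNReal.ofReal ((2:ℝ) ^ ((1 - α) * i)) *
            ∫⁻ z, ENNReal.ofReal |dens Ω (i + 1) z - dens Ω i z| := by
          apply Finset.sum_le_sum
          intro i _
          have e : ∀ z, ‖dens Ω (i + 1) z - dens Ω i z‖ₑ =
              ENNReal.ofReal |dens Ω (i + 1) z - dens Ω i z| := by
            intro z
            rw [← ofReal_norm, Real.norm_eq_abs]
          simp_rw [e]
          refine le_mul_of_one_le_left zero_le ?_
          rw [← ENNReal.ofReal_one]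
          apply ENNReal.ofReal_le_ofReal
          apply Real.one_le_rpow (by norm_num)
          have : (0:ℝ) ≤ i := Nat.cast_nonneg i
          nlinarith
      _ ≤ _ := ENNReal.sum_le_tsum (Finset.range J)
  calc ∫⁻ z, ‖Ω.indicator (fun _ => (1:ℝ)) z - dens Ω 0 z‖ₑ
      = ∫⁻ z, liminf (fun J => ‖dens Ω J z - dens Ω 0 z‖ₑ) atTop := by
        apply lintegral_congr_ae
        filter_upwards [dens_tendsto hΩ] with z hz
        exact ((continuous_enorm.tendsto _).comp (hz.sub_const _)).liminf_eq.symm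
    _ ≤ liminf (fun J => ∫⁻ z, ‖dens Ω J z - dens Ω 0 z‖ₑ) atTop :=
        lintegral_liminf_le fun J => ((hm J).sub (hm 0)).enorm
    _ ≤ liminf (fun _ : ℕ => densSum α Ω) atTop := liminf_le_liminf (Eventually.of_forall hstep)
    _ = _ := by simp

lemma dens_mem (Ω : Set ℂ) (j : ℕ) (z : ℂ) : 0 ≤ dens Ω j z ∧ dens Ω j z ≤ 1 := by
  unfold dens
  refine ⟨div_nonneg measureReal_nonneg measureReal_nonneg, ?_⟩
  apply div_le_one_of_le₀ _ measureReal_nonneg
  exact measureReal_mono inter_subset_right measure_ball_lt_top.ne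

lemma SB_ind {Ω : Set ℂ} (hΩ : MeasurableSet Ω) : SB (ind hΩ) ≤ 1 := by
  apply iSup_le
  intro z
  change ‖Ω.indicator (fun _ => (1:ℝ)) z‖ₑ ≤ 1
  by_cases h : z ∈ Ω <;> simp [h]

lemma dens_lip (w : ℂ) :
    OP SB ((1 - top w) * kop (dk_fam.ik 0)) (6 * ‖w‖ₑ) := by
  intro F
  rw [one_sub_top, kop_smul]
  refine (shift (Or.inr rfl) (dk_fam.ik 0) w F).trans ?_
  gcongr
  refine (dk_lip 0 w).trans (le_of_eq ?_)
  rw [pow_zero, one_mul]

lemma cr_smooth {κ F : ℂ → ℝ} (hκ : ContDiff ℝ ∞ κ) (hc : HasCompactSupport κ)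
    (hF : LocallyIntegrable F) : ContDiff ℝ ∞ (cr κ F) := by
  rw [cr_eq_conv]
  exact hc.contDiff_convolution_left _ hκ hF

/-- A smooth step function. -/
noncomputable def stp (x : ℝ) : ℝ := Real.smoothTransition ((x - 5 / 16) * (8 / 3))

lemma stp_smooth : ContDiff ℝ ∞ stp := by
  unfold stp
  exact Real.smoothTransition.contDiff.comp ((contDiff_id.sub contDiff_const).mul contDiff_const)

lemma stp_zero {x : ℝ} (h : x ≤ 5 / 16) : stp x = 0 := by
  unfold stp
  apply Real.smoothTransition.zero_of_nonpos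
  nlinarith

lemma stp_one {x : ℝ} (h : 11 / 16 ≤ x) : stp x = 1 := by
  unfold stp
  apply Real.smoothTransition.one_of_one_le
  nlinarith

/-- For `α ≤ 1` the density sum decides the area. -/
theorem area_of_densSum {α : ℝ} (h1 : α ≤ 1) {Ω : Set ℂ} (hΩ : MeasurableSet Ω)
    (h : densSum α Ω < ⊤) : volume Ω < ⊤ ∨ volume Ωᶜ < ⊤ := by
  obtain ⟨H, hH⟩ := H98.Dbar.exists_profile
  obtain ⟨C, hC, hF⟩ := bump_fam hH
  have hl1 := lt_of_le_of_lt (near_l1 h1 hΩ) h
  set E : Set ℂ := {z | ENNReal.ofReal (1 / 4) ≤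
    ‖Ω.indicator (fun _ => (1:ℝ)) z - dens Ω 0 z‖ₑ} with hE
  have hmE : Measurable (fun z => ‖Ω.indicator (fun _ => (1:ℝ)) z - dens Ω 0 z‖ₑ) :=
    ((measurable_const.indicator hΩ).sub (dens_meas hΩ 0)).enorm
  have hEm : MeasurableSet E := measurableSet_le measurable_const hmE
  have hEv : volume E < ⊤ := by
    have h2 := meas_ge_le_lintegral_div (μ := volume) hmE.aemeasurable
      (ε := ENNReal.ofReal (1 / 4)) (by simp) ENNReal.ofReal_ne_top
    exact lt_of_le_of_lt h2 (ENNReal.div_lt_top hl1.ne (by simp))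
  have hout : ∀ z, z ∉ E → |Ω.indicator (fun _ => (1:ℝ)) z - dens Ω 0 z| < 1 / 4 := by
    intro z hz
    have hz' : ‖Ω.indicator (fun _ => (1:ℝ)) z - dens Ω 0 z‖ₑ < ENNReal.ofReal (1 / 4) :=
      not_le.1 hz
    rw [← ofReal_norm, ENNReal.ofReal_lt_ofReal_iff (by norm_num), Real.norm_eq_abs] at hz'
    exact hz'
  -- the smooth approximation
  set D0 : BM := kop (dk_fam.ik 0) • ind hΩ with hD0
  have hD0z : ∀ z, D0.1 z = dens Ω 0 z := fun z => cr_dens hΩ 0 z
  set U : BM := kop (hF.ik 7) • D0 with hU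
  have hUs : ContDiff ℝ ∞ U.1 := cr_smooth (H98.Dbar.bumpAt_contDiff hH 7)
    (H98.Dbar.bumpAt_hasCompactSupport hH 7) (bm_locInt D0)
  have hlipD : ∀ w, SB (D0 - tauB w D0) ≤ 6 * ‖w‖ₑ := by
    intro w
    have h2 := dens_lip w (ind hΩ)
    rw [one_sub_top] at h2
    refine h2.trans ?_
    calc 6 * ‖w‖ₑ * SB (ind hΩ) ≤ 6 * ‖w‖ₑ * 1 := by gcongr; exact SB_ind hΩ
      _ = _ := mul_one _
  have hlipU : ∀ w, SB (U - tauB w U) ≤ 6 * ‖w‖ₑ := by
    intro w
    have e : U - tauB w U = kop (hF.ik 7) • (D0 - tauB w D0) := by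
      have h2 := one_sub_top w (kop (hF.ik 7)) D0
      have h3 : ((1 - top w) * kop (hF.ik 7)) • D0 =
          kop (hF.ik 7) • ((1 - top w) • D0) := by
        rw [mul_comm, mul_smul]
      rw [h3, sub_smul, one_smul, top_smul] at h2
      exact h2.symm
    rw [e]
    refine (kop_bd (Or.inr rfl) (hF.ik 7) _).trans ?_
    rw [hF.mass 7, one_mul]
    exact hlipD w
  have hpt : ∀ (w z : ℂ), |U.1 z - U.1 (z - w)| ≤ 6 * ‖w‖ := by
    intro w z
    have h2 := (le_iSup (fun z => ‖(U - tauB w U).1 z‖ₑ) z).trans (hlipU w)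
    have h3 : (6:ℝ≥0∞) * ‖w‖ₑ = ENNReal.ofReal (6 * ‖w‖) := by
      rw [ENNReal.ofReal_mul (by norm_num), ofReal_norm]; norm_num
    rw [h3, ← ofReal_norm, ENNReal.ofReal_le_ofReal_iff (by positivity), Real.norm_eq_abs] at h2
    exact h2
  have hlip : LipschitzWith 6 U.1 := by
    apply LipschitzWith.of_dist_le_mul
    intro z z'
    have h2 := hpt (z - z') z
    rw [sub_sub_cancel] at h2
    rw [Real.dist_eq, dist_eq_norm]
    exact h2
  have hclose : ∀ z, |dens Ω 0 z - U.1 z| ≤ 6 / 128 := by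
    intro z
    have h2 := avg (Or.inr rfl) (hF.ik 7) (hF.one 7) (hF.nonneg 7) (hF.supp 7) D0
      (D := ENNReal.ofReal (6 / 128)) (fun w hw => by
        refine (hlipD w).trans ?_
        have h3 : (6:ℝ≥0∞) * ‖w‖ₑ = ENNReal.ofReal (6 * ‖w‖) := by
          rw [ENNReal.ofReal_mul (by norm_num), ofReal_norm]; norm_num
        rw [h3]
        apply ENNReal.ofReal_le_ofReal
        norm_num at hw
        linarith)
    have h4 := (le_iSup (fun z => ‖((1 - crOp (hF.ik 7)) D0).1 z‖ₑ) z).trans h2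
    rw [← ofReal_norm, ENNReal.ofReal_le_ofReal_iff (by norm_num), Real.norm_eq_abs] at h4
    rw [← hD0z]
    exact h4
  -- the step
  set v : ℂ → ℝ := fun z => stp (U.1 z) with hv
  have hvs : ContDiff ℝ ∞ v := stp_smooth.comp hUs
  obtain ⟨K, hK⟩ := (isCompact_Icc (a := (-1:ℝ)) (b := 2)).exists_bound_of_continuousOn
    (stp_smooth.continuous_deriv (by simp)).continuousOn
  have hbound : ∀ z, ‖fderiv ℝ v z‖ₑ ≤ E.indicator (fun _ => ENNReal.ofReal (K * 6)) z := by
    intro z
    have hc := hclose z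
    rw [abs_le] at hc
    by_cases hz : z ∈ E
    · rw [indicator_of_mem hz, ← ofReal_norm]
      apply ENNReal.ofReal_le_ofReal
      have h2 : HasFDerivAt v (deriv stp (U.1 z) • fderiv ℝ U.1 z) z :=
        ((stp_smooth.differentiable (by simp)) (U.1 z)).hasDerivAt.comp_hasFDerivAt z
          ((hUs.differentiable (by simp)) z).hasFDerivAt
      rw [h2.fderiv, norm_smul]
      have h3 := norm_fderiv_le_of_lipschitz ℝ hlip (x₀ := z)
      have h4 := dens_mem Ω 0 z
      have h5 := hK (U.1 z) ⟨by linarith, by linarith⟩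
      have h6 : ((6:ℝ≥0) : ℝ) = 6 := by norm_num
      rw [h6] at h3
      exact mul_le_mul h5 h3 (norm_nonneg _) ((norm_nonneg _).trans h5)
    · rw [indicator_of_notMem hz]
      have h2 := hout z hz
      have hcU : ContinuousAt U.1 z := hUs.continuous.continuousAt
      have h3 : fderiv ℝ v z = 0 := by
        by_cases hzΩ : z ∈ Ω
        · rw [indicator_of_mem hzΩ, abs_lt] at h2
          have h4 : 11 / 16 < U.1 z := by linarith
          have h5 : v =ᶠ[𝓝 z] fun _ => (1:ℝ) := by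
            filter_upwards [continuousAt_const.eventually_lt hcU h4] with y hy
            exact stp_one hy.le
          rw [h5.fderiv_eq]
          simp
        · rw [indicator_of_notMem hzΩ, abs_lt] at h2
          have h4 : U.1 z < 5 / 16 := by linarith
          have h5 : v =ᶠ[𝓝 z] fun _ => (0:ℝ) := by
            filter_upwards [hcU.eventually_lt continuousAt_const h4] with y hy
            exact stp_zero hy.le
          rw [h5.fderiv_eq]
          simp
      rw [← ofReal_norm, h3, norm_zero, ENNReal.ofReal_zero]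
  have hint : ∫⁻ z, ‖fderiv ℝ v z‖ₑ < ⊤ := by
    refine lt_of_le_of_lt (lintegral_mono hbound) ?_
    rw [lintegral_indicator hEm, setLIntegral_const]
    exact ENNReal.mul_lt_top ENNReal.ofReal_lt_top hEv
  obtain ⟨c, hc⟩ := H98.Dbar.cross hvs hint (ε := 1 / 4) (by norm_num)
  rcases le_total c (1 / 2) with hc2 | hc2
  · left
    have hsub : Ω ⊆ E ∪ {z | 1 / 4 ≤ |v z - c|} := by
      intro z hz
      by_cases hzE : z ∈ E
      · exact Or.inl hzE
      · right
        have h2 := hout z hzE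
        have h3 := hclose z
        rw [indicator_of_mem hz, abs_lt] at h2
        rw [abs_le] at h3
        have h4 : v z = 1 := stp_one (by linarith)
        rw [mem_ofPred_eq, h4, abs_of_nonneg (by linarith)]
        linarith
    exact lt_of_le_of_lt ((measure_mono hsub).trans (measure_union_le _ _))
      (ENNReal.add_lt_top.2 ⟨hEv, hc⟩)
  · right
    have hsub : Ωᶜ ⊆ E ∪ {z | 1 / 4 ≤ |v z - c|} := by
      intro z hz
      by_cases hzE : z ∈ E
      · exact Or.inl hzE
      · right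
        have h2 := hout z hzE
        have h3 := hclose z
        rw [indicator_of_notMem hz, abs_lt] at h2
        rw [abs_le] at h3
        have h4 : v z = 0 := stp_zero (by linarith)
        rw [mem_ofPred_eq, h4, abs_of_nonpos (by linarith)]
        linarith
    exact lt_of_le_of_lt ((measure_mono hsub).trans (measure_union_le _ _))
      (ENNReal.add_lt_top.2 ⟨hEv, hc⟩)

/-- **The density criterion** for `0 < α ≤ 1`. -/
theorem admissible_iff_densSum {α : ℝ} (h0 : 0 < α) (h1 : α ≤ 1) {k : ℕ} (hk : α < k) {Ω : Set ℂ}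
    (hΩ : MeasurableSet Ω) : H98.Dbar.Admissible α k Ω ↔ densSum α Ω < ⊤ :=
  (admissible_iff_dens h0 h1 hk hΩ).trans
    ⟨fun h => h.2, fun h => ⟨area_of_densSum h1 hΩ h, h⟩⟩

end H98.Dens
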