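import Pool.Agent.H98.Dbar.Dens1
import Pool.Agent.H98.Dbar.Ops

/-!
# The moment criterion: the algebraic part
-/

open scoped ENNReal NNReal

namespace H98.Dens

section abs2

variable {A M : Type*} [CommRing A] [AddCommGroup M] [Module A M] {p : M → ℝ≥0∞}

lemma OP.pow {T : A} {c : ℝ≥0∞} (hT : OP p T c) (n : ℕ) : OP p (T ^ n) (c ^ n) := by
  induction n with
  | zero => simpa using OP.one p
  | succ n ih => rw [pow_succ, pow_succ]; exact ih.mul hT

lemma OP.fsum (hp : ESN p) {T : ℕ → A} {c : ℕ → ℝ≥0∞} (n : ℕ) (hT : ∀ i < n, OP p (T i) (c i)) :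
    OP p (∑ i ∈ Finset.range n, T i) (∑ i ∈ Finset.range n, c i) := by
  induction n with
  | zero => intro x; simp [hp.zero]
  | succ n ih =>
    rw [Finset.sum_range_succ, Finset.sum_range_succ]
    exact (ih fun i hi => hT i (by omega)).add hp (hT n (by omega))

/-- The reproducing element of order `n`. -/
def Kn (n : ℕ) (a : A) : A := 1 - (1 - a) ^ (n + 1)

/-- The mixed sum. -/
def Sn (n : ℕ) (a a' : A) : A := ∑ i ∈ Finset.range (n + 1), (1 - a) ^ i * (1 - a') ^ (n - i)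

/-- The geometric sum. -/
def Gn (n : ℕ) (a : A) : A := ∑ i ∈ Finset.range (n + 1), (1 - a) ^ i

lemma Kn_geo (n : ℕ) (a : A) : Kn n a = Gn n a * a := H98.Dbar.geo a n

lemma Kn_tele (n : ℕ) (a a' : A) :
    Kn n a' ^ 2 - Kn n a ^ 2 = (a' - a) * (Sn n a a' * (Kn n a' + Kn n a)) :=
  H98.Dbar.tele (Commute.all a' a) n

/-- The constant. -/
noncomputable def cn (n : ℕ) : ℝ≥0∞ := (n + 1) * 2 ^ (n + 1)

lemma one_sub_bd (hp : ESN p) {a : A} (ha : OP p a 1) : OP p (1 - a) 2 :=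
  ((OP.one p).sub hp ha).mono (by norm_num)

lemma Gn_bd (hp : ESN p) (n : ℕ) {a : A} (ha : OP p a 1) : OP p (Gn n a) (cn n) := by
  have h := OP.fsum hp (n + 1) (T := fun i => (1 - a) ^ i) (c := fun _ => 2 ^ (n + 1))
    (fun i hi => ((one_sub_bd hp ha).pow i).mono (pow_le_pow_right₀ (by norm_num) (by omega)))
  refine h.mono (le_of_eq ?_)
  rw [Finset.sum_const, Finset.card_range, nsmul_eq_mul]
  unfold cn
  push_cast
  ring

lemma Kn_bd (hp : ESN p) (n : ℕ) {a : A} (ha : OP p a 1) : OP p (Kn n a) (cn n) := by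
  rw [Kn_geo]
  simpa using (Gn_bd hp n ha).mul ha

lemma Sn_bd (hp : ESN p) (n : ℕ) {a a' : A} {T : A} {c : ℝ≥0∞}
    (h : ∀ i ≤ n, OP p ((1 - a) ^ i * (1 - a') ^ (n - i) * T) c) :
    OP p (Sn n a a' * T) ((n + 1) * c) := by
  unfold Sn
  rw [Finset.sum_mul]
  have h := OP.fsum hp (n + 1) (T := fun i => (1 - a) ^ i * (1 - a') ^ (n - i) * T)
    (c := fun _ => c) (fun i hi => h i (by omega))
  refine h.mono (le_of_eq ?_)
  rw [Finset.sum_const, Finset.card_range, nsmul_eq_mul]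
  push_cast
  ring

lemma Sn_bd' (hp : ESN p) (n : ℕ) {a a' : A} (ha : OP p a 1) (ha' : OP p a' 1) :
    OP p (Sn n a a') (cn n) := by
  have h := Sn_bd hp n (a := a) (a' := a') (T := 1) (c := 2 ^ (n + 1)) (by
    intro i hi
    rw [mul_one]
    refine (((one_sub_bd hp ha).pow i).mul ((one_sub_bd hp ha').pow (n - i))).mono ?_
    rw [← pow_add]
    exact pow_le_pow_right₀ (by norm_num) (by omega))
  rwa [mul_one] at h

/-- High frequencies. -/
lemma highM (hp : ESN p) (n : ℕ) {a a' R : A} (ha : OP p a 1) (ha' : OP p a' 1) {c : ℝ≥0∞}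
    (h : ∀ i ≤ n, OP p ((1 - a) ^ i * (1 - a') ^ (n - i) * R) c) :
    OP p (R * (Sn n a a' * (Kn n a' + Kn n a))) ((n + 1) * c * (2 * cn n)) := by
  have e : R * (Sn n a a' * (Kn n a' + Kn n a)) = (Sn n a a' * R) * (Kn n a' + Kn n a) := by ring
  rw [e, two_mul]
  exact (Sn_bd hp n h).mul ((Kn_bd hp n ha').add hp (Kn_bd hp n ha))

/-- Low frequencies. -/
lemma lowM (hp : ESN p) (n : ℕ) {a a' R : A} (ha : OP p a 1) (ha' : OP p a' 1) {c : ℝ≥0∞}
    (h : OP p (R * a) c) (h' : OP p (R * a') c) :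
    OP p (R * (Sn n a a' * (Kn n a' + Kn n a))) (cn n * (2 * c * cn n)) := by
  have e : R * (Sn n a a' * (Kn n a' + Kn n a)) =
      Sn n a a' * ((R * a') * Gn n a' + (R * a) * Gn n a) := by
    rw [Kn_geo, Kn_geo]; ring
  rw [e]
  have h5 := (Sn_bd' hp n ha ha').mul ((h'.mul (Gn_bd hp n ha')).add hp (h.mul (Gn_bd hp n ha)))
  refine h5.mono (le_of_eq ?_)
  ring

lemma splitM (a : ℕ → A) (R : A) (n J : ℕ) : R * Kn n (a J) ^ 2 = R * Kn n (a 0) ^ 2 +
    ∑ i ∈ Finset.range J, R * (Kn n (a (i + 1)) ^ 2 - Kn n (a i) ^ 2) := by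
  rw [← Finset.mul_sum, Finset.sum_range_sub (fun i => Kn n (a i) ^ 2)]
  ring

/-- `(2^{i-j})^s ∧ (2^{j-i})^t` -/
noncomputable def decM (s t i j : ℕ) : ℝ≥0∞ :=
  min ((2 ^ i * 2⁻¹ ^ j) ^ s) ((2 ^ j * 2⁻¹ ^ i) ^ t)

/-- The comparison for an element `R` (scale `j`) of mean zero. -/
theorem compareR (hp : ESN p) (a : ℕ → A) (ha : ∀ i, OP p (a i) 1) (n j s : ℕ) {R : A} {C : ℝ≥0∞}
    (h1 : ∀ i, ∀ l ≤ n, OP p ((1 - a i) ^ l * (1 - a (i + 1)) ^ (n - l) * R)
      (C * (2 ^ j * 2⁻¹ ^ i) ^ n))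
    (h2 : ∀ i, OP p (R * a i) (C * (2 ^ i * 2⁻¹ ^ j) ^ s)) (x : M) (J : ℕ) :
    p ((R * Kn n (a J) ^ 2) • x) ≤ cn n ^ 2 * p ((R * a 0) • x) +
      ∑ i ∈ Finset.range J, 2 ^ (s + 1) * C * cn n ^ 2 * decM s n i j *
        p ((a (i + 1) - a i) • x) := by
  rw [splitM, add_smul, Finset.sum_smul]
  refine (hp.add _ _).trans (add_le_add ?_ ((hp.sum _ _).trans (Finset.sum_le_sum ?_)))
  · have e : R * Kn n (a 0) ^ 2 = (Gn n (a 0) * Kn n (a 0)) * (R * a 0) := by
      rw [pow_two, Kn_geo]; ring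
    rw [e, mul_smul, pow_two]
    exact ((Gn_bd hp n (ha 0)).mul (Kn_bd hp n (ha 0))) _
  · intro i _
    rw [Kn_tele]
    have e : R * ((a (i + 1) - a i) * (Sn n (a i) (a (i + 1)) * (Kn n (a (i + 1)) + Kn n (a i)))) =
      (R * (Sn n (a i) (a (i + 1)) * (Kn n (a (i + 1)) + Kn n (a i)))) * (a (i + 1) - a i) := by
      ring
    rw [e, mul_smul]
    unfold decM
    rcases min_choice (((2:ℝ≥0∞) ^ i * 2⁻¹ ^ j) ^ s) ((2 ^ j * 2⁻¹ ^ i) ^ n) with hm | hm
    · rw [hm]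
      have h3 := lowM hp n (ha i) (ha (i + 1)) (R := R)
        (c := 2 ^ s * (C * (2 ^ i * 2⁻¹ ^ j) ^ s))
        ((h2 i).mono (by
          calc C * (2 ^ i * 2⁻¹ ^ j) ^ s = 1 * (C * (2 ^ i * 2⁻¹ ^ j) ^ s) := by rw [one_mul]
            _ ≤ _ := by
              gcongr
              exact one_le_pow₀ (by norm_num)))
        ((h2 (i + 1)).mono (le_of_eq (by
          have e2 : (2:ℝ≥0∞) ^ (i + 1) * 2⁻¹ ^ j = 2 * (2 ^ i * 2⁻¹ ^ j) := by
            rw [pow_succ]
            ring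
          rw [e2, mul_pow]
          ring)))
      refine (h3 _).trans (le_of_eq ?_)
      rw [pow_succ]
      ring
    · rw [hm]
      have h3 := highM hp n (ha i) (ha (i + 1)) (R := R) (h1 i)
      refine (h3 _).trans ?_
      calc (n + 1) * (C * (2 ^ j * 2⁻¹ ^ i) ^ n) * (2 * cn n) * p ((a (i + 1) - a i) • x)
          = (2 * C * ((n + 1) * 1) * cn n) * (2 ^ j * 2⁻¹ ^ i) ^ n * p ((a (i + 1) - a i) • x) := by
            ring
        _ ≤ (2 ^ (s + 1) * C * ((n + 1) * 2 ^ (n + 1)) * cn n) * (2 ^ j * 2⁻¹ ^ i) ^ n *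
            p ((a (i + 1) - a i) • x) := by
            gcongr
            · calc (2:ℝ≥0∞) = 2 ^ 1 := (pow_one 2).symm
                _ ≤ 2 ^ (s + 1) := pow_le_pow_right₀ (by norm_num) (by omega)
            · exact one_le_pow₀ (by norm_num)
        _ = _ := by unfold cn; ring

/-- The comparison for a derivative: `d a_i = b e_i`. -/
theorem compareD (hp : ESN p) (a e : ℕ → A) (ha : ∀ i, OP p (a i) 1) (n j : ℕ) {d b : A}
    {C : ℝ≥0∞} (hde : ∀ i, d * a i = b * e i)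
    (h1 : ∀ i, ∀ l ≤ n, OP p ((1 - a i) ^ l * (1 - a (i + 1)) ^ (n - l) * b)
      (C * (2 ^ j * 2⁻¹ ^ i) ^ n))
    (h2 : OP p b C) (x : M) (J : ℕ) :
    p ((d * Kn n (a J) ^ 2) • x) ≤ C * cn n ^ 2 * p (e 0 • x) +
      ∑ i ∈ Finset.range J, 2 * C * cn n ^ 2 * decM 0 n i j *
        (p (e (i + 1) • x) + p (e i • x)) := by
  rw [splitM, add_smul, Finset.sum_smul]
  refine (hp.add _ _).trans (add_le_add ?_ ((hp.sum _ _).trans (Finset.sum_le_sum ?_)))
  · have e1 : d * Kn n (a 0) ^ 2 = (b * (Gn n (a 0) * Kn n (a 0))) * e 0 := by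
      rw [pow_two, Kn_geo]
      calc d * (Gn n (a 0) * a 0 * (Gn n (a 0) * a 0)) =
          (d * a 0) * (Gn n (a 0) * (Gn n (a 0) * a 0)) := by ring
        _ = _ := by rw [hde 0]; ring
    rw [e1, mul_smul, pow_two]
    exact (h2.mul ((Gn_bd hp n (ha 0)).mul (Kn_bd hp n (ha 0)))) _
  · intro i _
    rw [Kn_tele]
    have e1 : d * ((a (i + 1) - a i) * (Sn n (a i) (a (i + 1)) * (Kn n (a (i + 1)) + Kn n (a i)))) =
      (b * (Sn n (a i) (a (i + 1)) * (Kn n (a (i + 1)) + Kn n (a i)))) * (e (i + 1) - e i) := by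
      calc _ = (d * a (i + 1) - d * a i) *
            (Sn n (a i) (a (i + 1)) * (Kn n (a (i + 1)) + Kn n (a i))) := by ring
        _ = _ := by rw [hde, hde]; ring
    rw [e1, mul_smul]
    have h4 : p ((e (i + 1) - e i) • x) ≤ p (e (i + 1) • x) + p (e i • x) := by
      rw [sub_smul]
      exact hp.sub _ _
    unfold decM
    rcases min_choice (((2:ℝ≥0∞) ^ i * 2⁻¹ ^ j) ^ 0) ((2 ^ j * 2⁻¹ ^ i) ^ n) with hm | hm
    · rw [hm, pow_zero]
      have h3 := (h2.mul ((Sn_bd' hp n (ha i) (ha (i + 1))).mul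
        ((Kn_bd hp n (ha (i + 1))).add hp (Kn_bd hp n (ha i)))))
      refine (h3 _).trans ((mul_le_mul_right h4 _).trans (le_of_eq ?_))
      ring
    · rw [hm]
      have h3 := highM hp n (ha i) (ha (i + 1)) (R := b) (h1 i)
      refine (h3 _).trans ((mul_le_mul_right h4 _).trans ?_)
      calc (n + 1) * (C * (2 ^ j * 2⁻¹ ^ i) ^ n) * (2 * cn n) *
            (p (e (i + 1) • x) + p (e i • x))
          = (2 * C * ((n + 1) * 1) * cn n) * (2 ^ j * 2⁻¹ ^ i) ^ n *
            (p (e (i + 1) • x) + p (e i • x)) := by ring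
        _ ≤ (2 * C * ((n + 1) * 2 ^ (n + 1)) * cn n) * (2 ^ j * 2⁻¹ ^ i) ^ n *
            (p (e (i + 1) • x) + p (e i • x)) := by
            gcongr
            exact one_le_pow₀ (by norm_num)
        _ = _ := by unfold cn; ring

/-- The error of the reproducing formula. -/
lemma errM (hp : ESN p) (n : ℕ) {a R : A} (ha : OP p a 1) {c : ℝ≥0∞}
    (h1 : OP p ((1 - a) ^ (n + 1) * R) c) (x : M) :
    p ((R * (1 - Kn n a ^ 2)) • x) ≤ c * (1 + cn n) * p x := by
  have e : R * (1 - Kn n a ^ 2) = ((1 - a) ^ (n + 1) * R) * (1 + Kn n a) := by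
    unfold Kn; ring
  rw [e]
  exact (h1.mul ((OP.one p).add hp (Kn_bd hp n ha))) _

end abs2

/-- Weights `2^{βj}`. -/
noncomputable def wb (β : ℝ) (j : ℕ) : ℝ≥0∞ := ENNReal.ofReal ((2:ℝ) ^ (β * j))

lemma schurM {β : ℝ} {s t : ℕ} (h0 : β < s) (h2 : -t < β) : ∃ S : ℝ≥0∞, S < ⊤ ∧
    ∀ i : ℕ, ∑' j : ℕ, wb β j * decM s t i j ≤ S * wb β i := by
  set q : ℝ := (2:ℝ) ^ (-(s - β)) with hq
  set r : ℝ := (2:ℝ) ^ (-(β + t)) with hr
  have hq0 : 0 < q := by positivity
  have hr0 : 0 < r := by positivity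
  refine ⟨∑' m : ℕ, ENNReal.ofReal (r ^ m) + ∑' m : ℕ, ENNReal.ofReal (q ^ m),
    ENNReal.add_lt_top.2 ⟨geom_fin hr0 (rpow_lt_one' (by linarith)),
      geom_fin hq0 (rpow_lt_one' (by linarith))⟩, ?_⟩
  intro i
  have hpow : ∀ a b n : ℕ, ((2 : ℝ≥0∞) ^ a * 2⁻¹ ^ b) ^ n =
      ENNReal.ofReal ((2:ℝ) ^ (((a:ℝ) - b) * n)) := by
    intro a b n
    have h3 : (2 : ℝ≥0∞) ^ a = ENNReal.ofReal ((2:ℝ) ^ (a : ℝ)) := by
      rw [Real.rpow_natCast, ENNReal.ofReal_pow (by norm_num)]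
      norm_num
    have h4 : (2⁻¹ : ℝ≥0∞) ^ b = ENNReal.ofReal ((2:ℝ) ^ (-(b : ℝ))) := by
      rw [Real.rpow_neg (by norm_num), Real.rpow_natCast, ← inv_pow,
        ENNReal.ofReal_pow (by norm_num), ENNReal.ofReal_inv_of_pos (by norm_num)]
      norm_num
    rw [h3, h4, ← ENNReal.ofReal_mul (by positivity), ← ENNReal.ofReal_pow (by positivity),
      ← Real.rpow_add (by norm_num), ← Real.rpow_natCast, ← Real.rpow_mul (by norm_num)]
    congr 2
  rw [← Summable.sum_add_tsum_nat_add' (f := fun j => wb β j * decM s t i j) (k := i)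
    ENNReal.summable, add_mul]
  apply add_le_add
  · calc ∑ j ∈ Finset.range i, wb β j * decM s t i j
        = ∑ m ∈ Finset.range i, wb β (i - 1 - m) * decM s t i (i - 1 - m) :=
          (Finset.sum_range_reflect (fun j => wb β j * decM s t i j) i).symm
      _ ≤ ∑ m ∈ Finset.range i, ENNReal.ofReal (r ^ m) * wb β i := by
          apply Finset.sum_le_sum
          intro m hm
          rw [Finset.mem_range] at hm
          refine (mul_le_mul_right (min_le_right _ _) _).trans ?_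
          unfold wb
          rw [hpow, ← ENNReal.ofReal_mul (by positivity), ← ENNReal.ofReal_mul (by positivity)]
          apply ENNReal.ofReal_le_ofReal
          rw [hr, ← Real.rpow_natCast, ← Real.rpow_mul (by norm_num),
            ← Real.rpow_add (by norm_num), ← Real.rpow_add (by norm_num)]
          apply Real.rpow_le_rpow_of_exponent_le (by norm_num)
          have e1 : ((i - 1 - m : ℕ) : ℝ) = (i:ℝ) - 1 - m := by
            have : i - 1 - m = i - (1 + m) := by omega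
            rw [this, Nat.cast_sub (by omega)]
            push_cast; ring
          rw [e1]
          nlinarith
      _ = (∑ m ∈ Finset.range i, ENNReal.ofReal (r ^ m)) * wb β i := by
          rw [Finset.sum_mul]
      _ ≤ _ := by
          gcongr
          exact ENNReal.sum_le_tsum _
  · rw [← ENNReal.tsum_mul_right]
    apply ENNReal.tsum_le_tsum
    intro m
    refine (mul_le_mul_right (min_le_left _ _) _).trans (le_of_eq ?_)
    unfold wb
    rw [hpow, ← ENNReal.ofReal_mul (by positivity), ← ENNReal.ofReal_mul (by positivity)]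
    congr 1
    rw [hq, ← Real.rpow_natCast, ← Real.rpow_mul (by norm_num),
      ← Real.rpow_add (by norm_num), ← Real.rpow_add (by norm_num)]
    congr 1
    push_cast
    ring

end H98.Dens
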