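import Pool.Agent.H98.Dbar.Mom1
import Pool.Agent.H98.Dbar.Dens2

/-!
# Operators: convolutions and translations
-/

open MeasureTheory Metric Set Filter Topology
open scoped ENNReal NNReal

namespace H98.Dens

/-- Translation as a linear map. -/
noncomputable def tauL (w : ℂ) : Module.End ℝ BM where
  toFun F := tauB w F
  map_add' _ _ := rfl
  map_smul' _ _ := rfl

lemma tauL_apply (w : ℂ) (F : BM) : tauL w F = tauB w F := rfl

lemma tau_tau (w v : ℂ) : tauL w * tauL v = tauL v * tauL w := by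
  apply LinearMap.ext
  intro F
  apply Subtype.ext
  ext z
  change F.1 (z - w - v) = F.1 (z - v - w)
  rw [sub_right_comm]

lemma tau_cr (w : ℂ) {κ : ℂ → ℝ} (hκ : Ik κ) : tauL w * crOp hκ = crOp hκ * tauL w := by
  apply LinearMap.ext
  intro F
  apply Subtype.ext
  ext z
  change ∫ v, κ v * F.1 (z - w - v) = ∫ v, κ v * F.1 (z - v - w)
  congr 1
  ext v
  rw [sub_right_comm]

/-- Convolutions and translations. -/
def opSet : Set (Module.End ℝ BM) := crSet ∪ Set.range tauL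

lemma opSet_comm : ∀ S ∈ opSet, ∀ T ∈ opSet, S * T = T * S := by
  rintro S (hS | ⟨w, rfl⟩) T (hT | ⟨v, rfl⟩)
  · exact crSet_comm S hS T hT
  · obtain ⟨κ, hκ, rfl⟩ := hS
    exact (tau_cr v hκ).symm
  · obtain ⟨κ, hκ, rfl⟩ := hT
    exact tau_cr w hκ
  · exact tau_tau w v

/-- The commutative ring of operators. -/
abbrev CT : Type := Subring.closure opSet

noncomputable instance : CommRing CT :=
  { (inferInstance : Ring (Subring.closure opSet)) with
    mul_comm := (Subring.isMulCommutative_closure opSet_comm).is_comm.comm }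

noncomputable instance : Module CT BM := inferInstance

/-- Convolution. -/
noncomputable def kop {κ : ℂ → ℝ} (hκ : Ik κ) : CT :=
  ⟨crOp hκ, Subring.subset_closure (Or.inl ⟨κ, hκ, rfl⟩)⟩

/-- Translation. -/
noncomputable def top (w : ℂ) : CT := ⟨tauL w, Subring.subset_closure (Or.inr ⟨w, rfl⟩)⟩

lemma kop_smul {κ : ℂ → ℝ} (hκ : Ik κ) (F : BM) : kop hκ • F = crOp hκ F := rfl

lemma top_smul (w : ℂ) (F : BM) : top w • F = tauB w F := rfl

lemma ct_ext {S T : CT} (h : ∀ F : BM, S • F = T • F) : S = T :=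
  Subtype.ext (LinearMap.ext h)

lemma one_sub_top (w : ℂ) (T : CT) (F : BM) :
    ((1 - top w) * T) • F = T • F - tauB w (T • F) := by
  rw [mul_smul, sub_smul, one_smul, top_smul]

lemma kop_bd {p : BM → ℝ≥0∞} (hp : Good p) {κ : ℂ → ℝ} (hκ : Ik κ) :
    OP p (kop hκ) (∫⁻ w, ‖κ w‖ₑ) := fun F => young hp hκ F

/-- Averages. -/
lemma avgs {p : BM → ℝ≥0∞} (hp : Good p) {κ : ℂ → ℝ} (hκ : Ik κ) {s : ℝ} (h1 : ∫ w, κ w = s)
    {ρ : ℝ} (hs : ∀ w, ρ < ‖w‖ → κ w = 0) (F : BM) {D : ℝ≥0∞}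
    (hD : ∀ w, ‖w‖ ≤ ρ → p (F - tauB w F) ≤ D) :
    p (s • F - crOp hκ F) ≤ (∫⁻ w, ‖κ w‖ₑ) * D := by
  have hz : ∀ z, ‖(s • F - crOp hκ F).1 z‖ₑ ≤ ∫⁻ w, ‖κ w‖ₑ * ‖(F - tauB w F).1 z‖ₑ := by
    intro z
    have e1 : (s • F - crOp hκ F).1 z = ∫ w, κ w * (F - tauB w F).1 z := by
      change s * F.1 z - cr κ F.1 z = ∫ w, κ w * (F.1 z - F.1 (z - w))
      simp_rw [mul_sub]
      rw [integral_sub (hκ.int.mul_const _) (cr_integrand hκ F.2 z), integral_mul_const, h1]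
      rfl
    rw [e1]
    refine (enorm_integral_le_lintegral_enorm _).trans (le_of_eq ?_)
    congr 1
    ext w
    exact enorm_mul _ _
  have hw : ∀ w, ‖κ w‖ₑ * p (F - tauB w F) ≤ ‖κ w‖ₑ * D := by
    intro w
    by_cases h : ‖w‖ ≤ ρ
    · exact mul_le_mul_right (hD w h) _
    · rw [hs w (not_le.1 h)]
      simp
  rcases hp with rfl | rfl
  · calc ∫⁻ z, ‖(s • F - crOp hκ F).1 z‖ₑ
        ≤ ∫⁻ z, ∫⁻ w, ‖κ w‖ₑ * ‖(F - tauB w F).1 z‖ₑ := lintegral_mono hz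
      _ = ∫⁻ w, ∫⁻ z, ‖κ w‖ₑ * ‖(F - tauB w F).1 z‖ₑ := by
          rw [lintegral_lintegral_swap]
          exact ((hκ.meas.comp measurable_snd).enorm.mul
            ((F.2.1.comp measurable_fst).sub
              (F.2.1.comp (measurable_fst.sub measurable_snd))).enorm).aemeasurable
      _ = ∫⁻ w, ‖κ w‖ₑ * NB (F - tauB w F) := by
          congr 1
          ext w
          exact lintegral_const_mul _ (F - tauB w F).2.1.enorm
      _ ≤ ∫⁻ w, ‖κ w‖ₑ * D := lintegral_mono hw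
      _ = _ := by rw [lintegral_mul_const _ hκ.meas.enorm]
  · apply iSup_le
    intro z
    calc ‖(s • F - crOp hκ F).1 z‖ₑ ≤ ∫⁻ w, ‖κ w‖ₑ * ‖(F - tauB w F).1 z‖ₑ := hz z
      _ ≤ ∫⁻ w, ‖κ w‖ₑ * SB (F - tauB w F) := by
          apply lintegral_mono
          intro w
          exact mul_le_mul_right (le_iSup (fun z => ‖(F - tauB w F).1 z‖ₑ) _) _
      _ ≤ ∫⁻ w, ‖κ w‖ₑ * D := lintegral_mono hw
      _ = _ := by rw [lintegral_mul_const _ hκ.meas.enorm]

/-- `A` is bounded by differences at the scale `ρ`. -/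
def Av (p : BM → ℝ≥0∞) (ρ : ℝ) (A : CT) : Prop := ∀ (T : CT) (c : ℝ≥0∞),
  (∀ w, ‖w‖ ≤ ρ → OP p ((1 - top w) * T) c) → OP p (A * T) c

/-- Mean zero kernels. -/
lemma avg0 {p : BM → ℝ≥0∞} (hp : Good p) {κ : ℂ → ℝ} (hκ : Ik κ) (h1 : ∫ w, κ w = 0)
    {ρ : ℝ} (hs : ∀ w, ρ < ‖w‖ → κ w = 0) (F : BM) {D : ℝ≥0∞}
    (hD : ∀ w, ‖w‖ ≤ ρ → p (F - tauB w F) ≤ D) : p (kop hκ • F) ≤ (∫⁻ w, ‖κ w‖ₑ) * D := by
  have h := avgs hp hκ h1 hs F hD
  rwa [zero_smul, zero_sub, hp.esn.neg] at h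

/-- Averaging kernels. -/
lemma avg1 {p : BM → ℝ≥0∞} (hp : Good p) {κ : ℂ → ℝ} (hκ : Ik κ) (h1 : ∫ w, κ w = 1)
    (h0 : ∀ w, 0 ≤ κ w) {ρ : ℝ} (hs : ∀ w, ρ < ‖w‖ → κ w = 0) : Av p ρ (1 - kop hκ) := by
  intro T c hT F
  have hmass : ∫⁻ w, ‖κ w‖ₑ = 1 := by
    have e : ∀ w, ‖κ w‖ₑ = ENNReal.ofReal (κ w) := fun w => Real.enorm_of_nonneg (h0 w)
    simp_rw [e]
    rw [← ofReal_integral_eq_lintegral_ofReal hκ.int (Eventually.of_forall h0), h1]
    simp
  have h := avgs hp hκ h1 hs (T • F) (D := c * p F) (fun w hw => by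
    have := hT w hw F
    rwa [one_sub_top] at this)
  rw [hmass, one_mul, one_smul] at h
  rw [mul_smul, sub_smul, one_smul]
  exact h

/-- Regularity of operators at the scale `2^{-j}`. -/
def Rg (p : BM → ℝ≥0∞) (j : ℕ) : ℕ → CT → ℝ≥0∞ → Prop
  | 0, T, B => OP p T B
  | n + 1, T, B => ∀ w, Rg p j n ((1 - top w) * T) (B * (2 ^ j * ‖w‖ₑ))

lemma prod_le {p : BM → ℝ≥0∞} {j : ℕ} {ρ : ℝ} (l : List CT) (hl : ∀ A ∈ l, Av p ρ A) :
    ∀ (T : CT) (B : ℝ≥0∞), Rg p j l.length T B →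
      OP p (l.prod * T) (B * (2 ^ j * ENNReal.ofReal ρ) ^ l.length) := by
  induction l with
  | nil =>
    intro T B h
    have h' : OP p T B := h
    simpa using h'
  | cons A l ih =>
    intro T B h
    rw [List.prod_cons, mul_assoc]
    apply hl A (by simp)
    intro w hw
    have e : (1 - top w) * (l.prod * T) = l.prod * ((1 - top w) * T) := by ring
    rw [e]
    have h3 := ih (fun A hA => hl A (by simp [hA])) _ _ (h w)
    refine h3.mono ?_
    have hw' : ‖w‖ₑ ≤ ENNReal.ofReal ρ := by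
      rw [← ofReal_norm]
      exact ENNReal.ofReal_le_ofReal hw
    calc B * (2 ^ j * ‖w‖ₑ) * (2 ^ j * ENNReal.ofReal ρ) ^ l.length
        ≤ B * (2 ^ j * ENNReal.ofReal ρ) * (2 ^ j * ENNReal.ofReal ρ) ^ l.length := by gcongr
      _ = _ := by
        rw [List.length_cons, pow_succ]
        ring

lemma pows_le {p : BM → ℝ≥0∞} {j n : ℕ} {ρ : ℝ} {A A' : CT} (hA : Av p ρ A) (hA' : Av p ρ A')
    {T : CT} {B : ℝ≥0∞} (h : Rg p j n T B) {l : ℕ} (hl : l ≤ n) :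
    OP p (A ^ l * A' ^ (n - l) * T) (B * (2 ^ j * ENNReal.ofReal ρ) ^ n) := by
  have h1 := prod_le (p := p) (j := j) (ρ := ρ) (List.replicate l A ++ List.replicate (n - l) A')
    (by
      intro X hX
      rw [List.mem_append] at hX
      rcases hX with hX | hX
      · rw [List.eq_of_mem_replicate hX]; exact hA
      · rw [List.eq_of_mem_replicate hX]; exact hA') T B
    (by
      rw [List.length_append, List.length_replicate, List.length_replicate,
        Nat.add_sub_cancel' hl]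
      exact h)
  rw [List.prod_append, List.prod_replicate, List.prod_replicate, List.length_append,
    List.length_replicate, List.length_replicate, Nat.add_sub_cancel' hl] at h1
  exact h1

/-! ### Regularity of kernels -/

/-- `L¹`-regularity of order `n`. -/
def Rk : ℕ → (ℂ → ℝ) → ℝ≥0∞ → Prop
  | 0, f, B => ∫⁻ z, ‖f z‖ₑ ≤ B
  | n + 1, f, B => ∀ w : ℂ, Rk n (fun z => f z - f (z - w)) (B * ‖w‖ₑ)

lemma Rk.mono {n : ℕ} : ∀ {f : ℂ → ℝ} {B B' : ℝ≥0∞}, Rk n f B → B ≤ B' → Rk n f B' := by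
  induction n with
  | zero => intro f B B' h hB; exact h.trans hB
  | succ n ih => intro f B B' h hB w; exact ih (h w) (mul_le_mul_left hB _)

/-- Scaling. -/
noncomputable def sc (j : ℕ) (f : ℂ → ℝ) (w : ℂ) : ℝ := 4 ^ j * f (2 ^ j * w)

lemma lintegral_sc (j : ℕ) {f : ℂ → ℝ} (hf : Measurable f) :
    ∫⁻ w, ‖sc j f w‖ₑ = ∫⁻ w, ‖f w‖ₑ := by
  have h2 : (0:ℝ) < 2 ^ j := by positivity
  have e : ∀ w, ‖sc j f w‖ₑ = 4 ^ j * ‖f ((2:ℝ) ^ j • w)‖ₑ := by
    intro w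
    unfold sc
    rw [enorm_mul, Complex.real_smul]
    congr 1
    · rw [enorm_pow]
      congr 1
      rw [Real.enorm_of_nonneg (by norm_num)]
      norm_num
    · push_cast
      rfl
  simp_rw [e]
  have hm : Measurable (fun w : ℂ => ‖f ((2:ℝ) ^ j • w)‖ₑ) :=
    (hf.comp (measurable_const_smul _)).enorm
  rw [lintegral_const_mul _ hm]
  have h3 : ∫⁻ a : ℂ, ‖f ((2:ℝ) ^ j • a)‖ₑ =
      ENNReal.ofReal |(((2:ℝ) ^ j) ^ 2)⁻¹| * ∫⁻ w, ‖f w‖ₑ := by
    have h5 := MeasureTheory.Measure.map_addHaar_smul (volume : Measure ℂ) h2.ne'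
    rw [Complex.finrank_real_complex] at h5
    have h6 := lintegral_map (μ := (volume : Measure ℂ)) hf.enorm
      (measurable_const_smul ((2:ℝ) ^ j))
    rw [h5, lintegral_smul_measure] at h6
    exact h6.symm
  rw [h3, ← mul_assoc]
  have h4 : (4:ℝ≥0∞) ^ j * ENNReal.ofReal |(((2:ℝ) ^ j) ^ 2)⁻¹| = 1 := by
    rw [abs_of_nonneg (by positivity), ← pow_mul, mul_comm j 2, pow_mul,
      ENNReal.ofReal_inv_of_pos (by positivity), ENNReal.ofReal_pow (by norm_num)]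
    norm_num
    exact ENNReal.mul_inv_cancel (by simp) (by simp)
  rw [h4, one_mul]

lemma sc_ik (j : ℕ) {f : ℂ → ℝ} (hf : Ik f) : Ik (sc j f) := by
  have h2 : (2:ℝ) ^ j ≠ 0 := by positivity
  refine ⟨?_, ?_⟩
  · unfold sc
    exact (hf.meas.comp (measurable_const_mul _)).const_mul _
  · have h := (hf.int.comp_smul h2).const_mul ((4:ℝ) ^ j)
    refine h.congr (Eventually.of_forall fun w => ?_)
    simp only [sc]
    rw [Complex.real_smul]
    push_cast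
    rfl

lemma diff_ik {f : ℂ → ℝ} (hf : Ik f) (w : ℂ) : Ik (fun z => f z - f (z - w)) :=
  ⟨hf.meas.sub (hf.meas.comp (measurable_id.sub_const w)), hf.int.sub (hf.int.comp_sub_right w)⟩

lemma one_sub_top_kop {κ : ℂ → ℝ} (hκ : Ik κ) (w : ℂ) :
    (1 - top w) * kop hκ = kop (diff_ik hκ w) := by
  apply ct_ext
  intro F
  rw [one_sub_top, kop_smul, kop_smul]
  apply Subtype.ext
  ext z
  change cr κ F.1 z - cr κ F.1 (z - w) = cr (fun v => κ v - κ (v - w)) F.1 z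
  have e1 : cr κ F.1 (z - w) = ∫ v, κ (v - w) * F.1 (z - v) := by
    unfold cr
    rw [← integral_sub_right_eq_self (fun v => κ v * F.1 (z - w - v)) w]
    congr 1
    ext v
    rw [show z - w - (v - w) = z - v by ring]
  rw [e1]
  unfold cr
  simp_rw [sub_mul]
  rw [integral_sub (cr_integrand hκ F.2 z)]
  have hκ2 : Ik (fun v => κ (v - w)) :=
    ⟨hκ.meas.comp (measurable_id.sub_const w), hκ.int.comp_sub_right w⟩
  exact cr_integrand hκ2 F.2 z

lemma kop_congr {κ μ : ℂ → ℝ} (hκ : Ik κ) (hμ : Ik μ) (h : κ = μ) : kop hκ = kop hμ := by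
  subst h; rfl

lemma rg_of_rk {p : BM → ℝ≥0∞} (hp : Good p) (j : ℕ) {n : ℕ} : ∀ {f : ℂ → ℝ} {B : ℝ≥0∞}
    (hf : Ik f), Rk n f B → Rg p j n (kop (sc_ik j hf)) B := by
  induction n with
  | zero =>
    intro f B hf h
    refine (kop_bd hp (sc_ik j hf)).mono ?_
    rw [lintegral_sc j hf.meas]
    exact h
  | succ n ih =>
    intro f B hf h w
    have h1 := ih (diff_ik hf (2 ^ j * w)) (h (2 ^ j * w))
    have e : (1 - top w) * kop (sc_ik j hf) = kop (sc_ik j (diff_ik hf (2 ^ j * w))) := by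
      rw [one_sub_top_kop]
      apply kop_congr
      ext z
      unfold sc
      rw [mul_sub, mul_sub]
    rw [e]
    have e2 : ‖(2:ℂ) ^ j * w‖ₑ = 2 ^ j * ‖w‖ₑ := by
      rw [enorm_mul, enorm_pow]
      congr 2
      rw [← ofReal_norm, Complex.norm_ofNat]
      norm_num
    rw [← e2]
    exact h1

end H98.Dens
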