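import Pool.Agent.H98.Dbar.Mom2
import Pool.Agent.H98.Dbar.Dens3

/-!
# Regularity of kernels
-/

open MeasureTheory Metric Set Filter Topology
open scoped ContDiff ENNReal NNReal

namespace H98.Dens

/-- Measurable and bounded. -/
structure Mb (f : ℂ → ℝ) : Prop where
  meas : Measurable f
  bd : ∃ M : ℝ, ∀ z, ‖f z‖ ≤ M

/-- `f` is the integral of `fx`, `fy`. -/
def Rep (f fx fy : ℂ → ℝ) : Prop := ∀ z h : ℂ,
  f z - f (z - h) = ∫ t in (0:ℝ)..1, (h.re * fx (z - t * h) + h.im * fy (z - t * h))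

lemma Mb.diff {f : ℂ → ℝ} (h : Mb f) (w : ℂ) : Mb (fun z => f z - f (z - w)) := by
  obtain ⟨hm, M, hM⟩ := h
  exact ⟨hm.sub (hm.comp (measurable_id.sub_const w)), M + M,
    fun z => (norm_sub_le _ _).trans (add_le_add (hM _) (hM _))⟩

lemma line_int {fx fy : ℂ → ℝ} (hx : Mb fx) (hy : Mb fy) (c1 c2 : ℝ) (h z : ℂ) :
    IntervalIntegrable (fun t : ℝ => c1 * fx (z - t * h) + c2 * fy (z - t * h)) volume 0 1 := by
  obtain ⟨hxm, M, hM⟩ := hx
  obtain ⟨hym, M', hM'⟩ := hy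
  have hl : Measurable (fun t : ℝ => z - (t:ℂ) * h) := by fun_prop
  have hm : Measurable (fun t : ℝ => c1 * fx (z - t * h) + c2 * fy (z - t * h)) :=
    ((hxm.comp hl).const_mul c1).add ((hym.comp hl).const_mul c2)
  rw [intervalIntegrable_iff]
  refine Measure.integrableOn_of_bounded (M := |c1| * M + |c2| * M') (by simp)
    hm.aestronglyMeasurable (Eventually.of_forall fun t => ?_)
  calc ‖c1 * fx (z - t * h) + c2 * fy (z - t * h)‖
      ≤ ‖c1 * fx (z - t * h)‖ + ‖c2 * fy (z - t * h)‖ := norm_add_le _ _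
    _ ≤ _ := by
      rw [norm_mul, norm_mul, Real.norm_eq_abs c1, Real.norm_eq_abs c2]
      exact add_le_add (mul_le_mul_of_nonneg_left (hM _) (abs_nonneg _))
        (mul_le_mul_of_nonneg_left (hM' _) (abs_nonneg _))

lemma rk_avg (n : ℕ) : ∀ {fx fy : ℂ → ℝ} {B B' : ℝ≥0∞}, Mb fx → Mb fy → Rk n fx B → Rk n fy B' →
    ∀ (c1 c2 : ℝ) (h : ℂ),
      Rk n (fun z => ∫ t in (0:ℝ)..1, (c1 * fx (z - t * h) + c2 * fy (z - t * h)))
        (‖c1‖ₑ * B + ‖c2‖ₑ * B') := by
  induction n with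
  | zero =>
    intro fx fy B B' hx hy hB hB' c1 c2 h
    have hB1 : ∫⁻ z, ‖fx z‖ₑ ≤ B := hB
    have hB2 : ∫⁻ z, ‖fy z‖ₑ ≤ B' := hB'
    change ∫⁻ z, ‖∫ t in (0:ℝ)..1, (c1 * fx (z - t * h) + c2 * fy (z - t * h))‖ₑ ≤ _
    have hl : Measurable (fun p : ℂ × ℝ => p.1 - (p.2:ℂ) * h) := by fun_prop
    have hm : Measurable (fun p : ℂ × ℝ =>
        ‖c1‖ₑ * ‖fx (p.1 - p.2 * h)‖ₑ + ‖c2‖ₑ * ‖fy (p.1 - p.2 * h)‖ₑ) :=
      ((hx.meas.comp hl).enorm.const_mul _).add ((hy.meas.comp hl).enorm.const_mul _)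
    calc ∫⁻ z, ‖∫ t in (0:ℝ)..1, (c1 * fx (z - t * h) + c2 * fy (z - t * h))‖ₑ
        ≤ ∫⁻ z, ∫⁻ t in Ioc (0:ℝ) 1,
            (‖c1‖ₑ * ‖fx (z - t * h)‖ₑ + ‖c2‖ₑ * ‖fy (z - t * h)‖ₑ) := by
          apply lintegral_mono
          intro z
          simp only
          rw [intervalIntegral.integral_of_le zero_le_one]
          refine (enorm_integral_le_lintegral_enorm _).trans (lintegral_mono fun t => ?_)
          refine (enorm_add_le _ _).trans (le_of_eq ?_)
          rw [enorm_mul, enorm_mul]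
      _ = ∫⁻ t in Ioc (0:ℝ) 1, ∫⁻ z,
            (‖c1‖ₑ * ‖fx (z - t * h)‖ₑ + ‖c2‖ₑ * ‖fy (z - t * h)‖ₑ) := by
          rw [lintegral_lintegral_swap]
          exact hm.aemeasurable
      _ ≤ ∫⁻ _ in Ioc (0:ℝ) 1, (‖c1‖ₑ * B + ‖c2‖ₑ * B') := by
          apply lintegral_mono
          intro t
          simp only
          have hm1 : Measurable (fun z : ℂ => ‖fx (z - t * h)‖ₑ) :=
            (hx.meas.comp (measurable_id.sub_const _)).enorm
          have hm2 : Measurable (fun z : ℂ => ‖fy (z - t * h)‖ₑ) :=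
            (hy.meas.comp (measurable_id.sub_const _)).enorm
          rw [lintegral_add_left (hm1.const_mul _), lintegral_const_mul _ hm1,
            lintegral_const_mul _ hm2,
            lintegral_sub_right_eq_self (fun z => ‖fx z‖ₑ) ((t:ℂ) * h),
            lintegral_sub_right_eq_self (fun z => ‖fy z‖ₑ) ((t:ℂ) * h)]
          gcongr
      _ = _ := by
          rw [setLIntegral_const]
          simp
  | succ n ih =>
    intro fx fy B B' hx hy hB hB' c1 c2 h w
    have h1 := ih (hx.diff w) (hy.diff w) (hB w) (hB' w) c1 c2 h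
    have e : (fun z => (∫ t in (0:ℝ)..1, (c1 * fx (z - t * h) + c2 * fy (z - t * h))) -
        ∫ t in (0:ℝ)..1, (c1 * fx (z - w - t * h) + c2 * fy (z - w - t * h))) =
        fun z => ∫ t in (0:ℝ)..1, (c1 * (fx (z - t * h) - fx (z - t * h - w)) +
          c2 * (fy (z - t * h) - fy (z - t * h - w))) := by
      ext z
      rw [← intervalIntegral.integral_sub (line_int hx hy c1 c2 h z)
        (line_int hx hy c1 c2 h (z - w))]
      congr 1
      ext t
      rw [sub_right_comm z w]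
      ring
    change Rk n (fun z => (∫ t in (0:ℝ)..1, (c1 * fx (z - t * h) + c2 * fy (z - t * h))) -
        ∫ t in (0:ℝ)..1, (c1 * fx (z - w - t * h) + c2 * fy (z - w - t * h))) _
    rw [e]
    refine h1.mono (le_of_eq ?_)
    ring

lemma rk_step {n : ℕ} {f fx fy : ℂ → ℝ} {B B' : ℝ≥0∞} (hr : Rep f fx fy) (hx : Mb fx)
    (hy : Mb fy) (hB : Rk n fx B) (hB' : Rk n fy B') : Rk (n + 1) f (B + B') := by
  intro h
  have h1 := rk_avg n hx hy hB hB' h.re h.im h
  have e : (fun z => f z - f (z - h)) =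
      fun z => ∫ t in (0:ℝ)..1, (h.re * fx (z - t * h) + h.im * fy (z - t * h)) := by
    ext z
    exact hr z h
  rw [e]
  refine h1.mono ?_
  have h2 : ‖h.re‖ₑ ≤ ‖h‖ₑ := by
    rw [← ofReal_norm, ← ofReal_norm]
    exact ENNReal.ofReal_le_ofReal (Complex.abs_re_le_norm h)
  have h3 : ‖h.im‖ₑ ≤ ‖h‖ₑ := by
    rw [← ofReal_norm, ← ofReal_norm]
    exact ENNReal.ofReal_le_ofReal (Complex.abs_im_le_norm h)
  calc ‖h.re‖ₑ * B + ‖h.im‖ₑ * B' ≤ ‖h‖ₑ * B + ‖h‖ₑ * B' := by gcongr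
    _ = _ := by ring

/-! ### Smooth kernels -/

lemma clm_parts (T : ℂ →L[ℝ] ℝ) (w : ℂ) : T w = w.re * T 1 + w.im * T Complex.I := by
  conv_lhs => rw [← Complex.re_add_im w]
  rw [map_add]
  have e1 : ((w.re : ℂ)) = w.re • (1 : ℂ) := by simp
  have e2 : ((w.im : ℂ)) * Complex.I = w.im • Complex.I := by simp
  rw [e1, e2, map_smul, map_smul]
  simp

lemma line_hasDeriv (z h : ℂ) (t : ℝ) : HasDerivAt (fun s : ℝ => z - (s:ℂ) * h) (-h) t := by
  have h1 : HasDerivAt (fun s : ℝ => (s:ℂ)) 1 t := Complex.ofRealCLM.hasDerivAt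
  have h2 := (h1.mul_const h).const_sub z
  simpa using h2

lemma smooth_rep {f : ℂ → ℝ} (hf : ContDiff ℝ ∞ f) :
    Rep f (fun z => fderiv ℝ f z 1) (fun z => fderiv ℝ f z Complex.I) := by
  intro z h
  have hd : ∀ t ∈ uIcc (0:ℝ) 1, HasDerivAt (fun s : ℝ => f (z - (s:ℂ) * h))
      (-(h.re * fderiv ℝ f (z - t * h) 1 + h.im * fderiv ℝ f (z - t * h) Complex.I)) t := by
    intro t _
    have h1 := ((hf.differentiable (by simp)) (z - (t:ℂ) * h)).hasFDerivAt.comp_hasDerivAt t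
      (line_hasDeriv z h t)
    rw [map_neg, clm_parts] at h1
    exact h1
  have hc : Continuous (fun t : ℝ =>
      -(h.re * fderiv ℝ f (z - t * h) 1 + h.im * fderiv ℝ f (z - t * h) Complex.I)) := by
    have h2 : Continuous (fun z => fderiv ℝ f z) := hf.continuous_fderiv (by simp)
    have h3 : Continuous (fun t : ℝ => z - (t:ℂ) * h) := by fun_prop
    have h4 := h2.comp h3
    exact ((continuous_const.mul (h4.clm_apply continuous_const)).add
      (continuous_const.mul (h4.clm_apply continuous_const))).neg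
  have h5 := intervalIntegral.integral_eq_sub_of_hasDerivAt hd (hc.intervalIntegrable _ _)
  rw [intervalIntegral.integral_neg] at h5
  have h6 : ∫ t in (0:ℝ)..1, (h.re * fderiv ℝ f (z - t * h) 1 +
      h.im * fderiv ℝ f (z - t * h) Complex.I) = f (z - ((0:ℝ):ℂ) * h) - f (z - ((1:ℝ):ℂ) * h) := by
    linarith
  rw [h6]
  simp

lemma smooth_mb {f : ℂ → ℝ} (hf : Continuous f) (hc : HasCompactSupport f) : Mb f := by
  obtain ⟨M, hM⟩ := hc.exists_bound_of_continuous hf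
  exact ⟨hf.measurable, M, hM⟩

lemma smooth_ik {f : ℂ → ℝ} (hf : Continuous f) (hc : HasCompactSupport f) : Ik f :=
  ⟨hf.measurable, hf.integrable_of_hasCompactSupport hc⟩

lemma fd_smooth {f : ℂ → ℝ} (hf : ContDiff ℝ ∞ f) (v : ℂ) :
    ContDiff ℝ ∞ (fun z => fderiv ℝ f z v) := by
  have h := hf.fderiv_right (m := ∞) (by simp)
  fun_prop

lemma fd_supp {f : ℂ → ℝ} (hc : HasCompactSupport f) (v : ℂ) :
    HasCompactSupport (fun z => fderiv ℝ f z v) := by
  refine (hc.fderiv ℝ).mono ?_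
  intro z hz
  rw [Function.mem_support] at hz ⊢
  contrapose! hz
  rw [hz]
  rfl

lemma rk_smooth (n : ℕ) : ∀ {f : ℂ → ℝ}, ContDiff ℝ ∞ f → HasCompactSupport f →
    ∃ B : ℝ≥0∞, B < ⊤ ∧ Rk n f B := by
  induction n with
  | zero =>
    intro f hf hc
    exact ⟨_, (smooth_ik hf.continuous hc).int.2, le_rfl⟩
  | succ n ih =>
    intro f hf hc
    obtain ⟨B, hB, h1⟩ := ih (fd_smooth hf 1) (fd_supp hc 1)
    obtain ⟨B', hB', h2⟩ := ih (fd_smooth hf Complex.I) (fd_supp hc Complex.I)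
    exact ⟨B + B', ENNReal.add_lt_top.2 ⟨hB, hB'⟩, rk_step (smooth_rep hf)
      (smooth_mb (fd_smooth hf 1).continuous (fd_supp hc 1))
      (smooth_mb (fd_smooth hf Complex.I).continuous (fd_supp hc Complex.I)) h1 h2⟩

/-! ### The kernels `(1 - |z|²)₊ⁿ P` -/

/-- `(1 - |z|²)₊ⁿ P(z)` -/
noncomputable def wP (n : ℕ) (P : ℂ → ℝ) (z : ℂ) : ℝ :=
  (ball (0:ℂ) 1).indicator (fun z => (1 - ‖z‖ ^ 2) ^ n * P z) z

lemma wP_out {n : ℕ} {P : ℂ → ℝ} {z : ℂ} (hz : 1 ≤ ‖z‖) : wP n P z = 0 := by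
  unfold wP
  apply indicator_of_notMem
  rw [mem_ball, dist_zero_right]
  linarith

lemma wP_in {n : ℕ} {P : ℂ → ℝ} {z : ℂ} (hz : ‖z‖ < 1) : wP n P z = (1 - ‖z‖ ^ 2) ^ n * P z := by
  unfold wP
  apply indicator_of_mem
  rwa [mem_ball, dist_zero_right]

lemma wP_mb {n : ℕ} {P : ℂ → ℝ} (hP : Continuous P) : Mb (wP n P) := by
  obtain ⟨M, hM⟩ := (isCompact_closedBall (0:ℂ) 1).exists_bound_of_continuousOn hP.continuousOn
  refine ⟨?_, M, fun z => ?_⟩
  · unfold wP
    apply Measurable.indicator _ measurableSet_ball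
    exact ((measurable_const.sub (measurable_norm.pow_const 2)).pow_const n).mul hP.measurable
  · have hM0 : 0 ≤ M := (norm_nonneg _).trans (hM 0 (by simp))
    by_cases hz : ‖z‖ < 1
    · rw [wP_in hz, norm_mul]
      have h1 : ‖(1 - ‖z‖ ^ 2) ^ n‖ ≤ 1 := by
        have h2 : 0 ≤ 1 - ‖z‖ ^ 2 := by nlinarith [norm_nonneg z]
        rw [Real.norm_of_nonneg (by positivity)]
        exact pow_le_one₀ h2 (by nlinarith [sq_nonneg ‖z‖])
      have h3 := hM z (by rw [mem_closedBall, dist_zero_right]; exact hz.le)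
      calc ‖(1 - ‖z‖ ^ 2) ^ n‖ * ‖P z‖ ≤ 1 * M := by gcongr
        _ = M := one_mul M
    · rw [wP_out (not_lt.1 hz), norm_zero]
      exact hM0

lemma wP_ik {n : ℕ} {P : ℂ → ℝ} (hP : Continuous P) : Ik (wP n P) := by
  obtain ⟨hm, M, hM⟩ := wP_mb (n := n) hP
  refine ⟨hm, ?_⟩
  have h1 : IntegrableOn (wP n P) (ball (0:ℂ) 1) :=
    Measure.integrableOn_of_bounded measure_ball_lt_top.ne hm.aestronglyMeasurable
      (Eventually.of_forall hM)
  rw [← integrable_indicator_iff measurableSet_ball] at h1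
  refine h1.congr (Eventually.of_forall fun z => ?_)
  by_cases hz : z ∈ ball (0:ℂ) 1
  · rw [indicator_of_mem hz]
  · rw [indicator_of_notMem hz]
    rw [mem_ball, dist_zero_right, not_lt] at hz
    exact (wP_out hz).symm

lemma wP_cont {n : ℕ} {P : ℂ → ℝ} (hP : Continuous P) : Continuous (wP (n + 1) P) := by
  have e : wP (n + 1) P = fun z => (max 0 (1 - ‖z‖ ^ 2)) ^ (n + 1) * P z := by
    ext z
    by_cases hz : ‖z‖ < 1
    · rw [wP_in hz, max_eq_right]
      nlinarith [norm_nonneg z]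
    · rw [wP_out (not_lt.1 hz), max_eq_left]
      · rw [zero_pow (by omega), zero_mul]
      · nlinarith [not_lt.1 hz]
  rw [e]
  fun_prop

/-- the factor of the derivative in the direction `x` -/
noncomputable def Px (n : ℕ) (P : ℂ → ℝ) (z : ℂ) : ℝ :=
  (1 - ‖z‖ ^ 2) * fderiv ℝ P z 1 - 2 * (n + 1) * z.re * P z

/-- the factor of the derivative in the direction `y` -/
noncomputable def Py (n : ℕ) (P : ℂ → ℝ) (z : ℂ) : ℝ :=
  (1 - ‖z‖ ^ 2) * fderiv ℝ P z Complex.I - 2 * (n + 1) * z.im * P z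

lemma Px_smooth {n : ℕ} {P : ℂ → ℝ} (hP : ContDiff ℝ ∞ P) : ContDiff ℝ ∞ (Px n P) := by
  unfold Px
  have h1 := fd_smooth hP 1
  have h2 : ContDiff ℝ ∞ (fun z : ℂ => ‖z‖ ^ 2) := contDiff_norm_sq ℝ
  have h3 : ContDiff ℝ ∞ (fun z : ℂ => z.re) := Complex.reCLM.contDiff
  exact ((contDiff_const.sub h2).mul h1).sub ((contDiff_const.mul h3).mul hP)

lemma Py_smooth {n : ℕ} {P : ℂ → ℝ} (hP : ContDiff ℝ ∞ P) : ContDiff ℝ ∞ (Py n P) := by
  unfold Py
  have h1 := fd_smooth hP Complex.I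
  have h2 : ContDiff ℝ ∞ (fun z : ℂ => ‖z‖ ^ 2) := contDiff_norm_sq ℝ
  have h3 : ContDiff ℝ ∞ (fun z : ℂ => z.im) := Complex.imCLM.contDiff
  exact ((contDiff_const.sub h2).mul h1).sub ((contDiff_const.mul h3).mul hP)

lemma circle_countable (z : ℂ) {h : ℂ} (hh : h ≠ 0) :
    {t : ℝ | ‖z - (t:ℂ) * h‖ = 1}.Countable := by
  set a : ℝ := h.re ^ 2 + h.im ^ 2 with ha
  set b : ℝ := -(z.re * h.re + z.im * h.im) with hb
  set c : ℝ := z.re ^ 2 + z.im ^ 2 - 1 with hc
  have ha0 : a ≠ 0 := by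
    intro h0
    apply hh
    have h1 : h.re = 0 := by nlinarith [sq_nonneg h.re, sq_nonneg h.im]
    have h2 : h.im = 0 := by nlinarith [sq_nonneg h.re, sq_nonneg h.im]
    exact Complex.ext h1 h2
  have hsub : {t : ℝ | ‖z - (t:ℂ) * h‖ = 1} ⊆
      {(Real.sqrt (b ^ 2 - a * c) - b) / a, (-Real.sqrt (b ^ 2 - a * c) - b) / a} := by
    intro t ht
    have h1 : ‖z - (t:ℂ) * h‖ ^ 2 = 1 := by
      rw [show ‖z - (t:ℂ) * h‖ = 1 from ht]; norm_num
    rw [← Complex.normSq_eq_norm_sq, Complex.normSq_apply] at h1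
    simp only [Complex.sub_re, Complex.mul_re, Complex.ofReal_re, Complex.ofReal_im, zero_mul,
      sub_zero, Complex.sub_im, Complex.mul_im, add_zero] at h1
    have h2 : (a * t + b) ^ 2 = b ^ 2 - a * c := by
      have h3 : a * t ^ 2 + 2 * b * t + c = 0 := by
        rw [ha, hb, hc]; nlinarith
      nlinarith
    have h4 : 0 ≤ b ^ 2 - a * c := by rw [← h2]; positivity
    have h5 : a * t + b = Real.sqrt (b ^ 2 - a * c) ∨ a * t + b = -Real.sqrt (b ^ 2 - a * c) := by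
      rw [← sq_eq_sq_iff_eq_or_eq_neg, Real.sq_sqrt h4]
      exact h2
    rw [Set.mem_insert_iff, Set.mem_singleton_iff]
    rcases h5 with h5 | h5
    · left
      rw [eq_div_iff ha0]; linarith
    · right
      rw [eq_div_iff ha0]; linarith
  exact (Set.toFinite _).countable.mono hsub

lemma wP_rep (n : ℕ) {P : ℂ → ℝ} (hP : ContDiff ℝ ∞ P) :
    Rep (wP (n + 1) P) (wP n (Px n P)) (wP n (Py n P)) := by
  intro z h
  by_cases hh : h = 0
  · subst hh
    simp
  have hmx := wP_mb (n := n) (Px_smooth (n := n) hP).continuous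
  have hmy := wP_mb (n := n) (Py_smooth (n := n) hP).continuous
  have hd : ∀ t ∈ Ioo (0:ℝ) 1 \ {t : ℝ | ‖z - (t:ℂ) * h‖ = 1},
      HasDerivAt (fun s : ℝ => wP (n + 1) P (z - (s:ℂ) * h))
        (-(h.re * wP n (Px n P) (z - t * h) + h.im * wP n (Py n P) (z - t * h))) t := by
    rintro t ⟨-, ht⟩
    have ht' : ‖z - (t:ℂ) * h‖ ≠ 1 := ht
    have hcl : Continuous (fun s : ℝ => ‖z - (s:ℂ) * h‖) := by fun_prop
    rcases lt_or_gt_of_ne ht' with hlt | hgt
    · have hev : (fun s : ℝ => wP (n + 1) P (z - (s:ℂ) * h)) =ᶠ[𝓝 t]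
          fun s : ℝ => (1 - ‖z - (s:ℂ) * h‖ ^ 2) ^ (n + 1) * P (z - (s:ℂ) * h) := by
        filter_upwards [hcl.continuousAt.eventually_lt continuousAt_const hlt] with s hs
        exact wP_in hs
      refine HasDerivAt.congr_of_eventuallyEq ?_ hev
      rw [wP_in hlt, wP_in hlt]
      have h1 : HasDerivAt (fun s : ℝ => ‖z - (s:ℂ) * h‖ ^ 2)
          (-(2 * (h.re * (z - t * h).re + h.im * (z - t * h).im))) t := by
        have e : (fun s : ℝ => ‖z - (s:ℂ) * h‖ ^ 2) =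
            fun s : ℝ => (z.re - s * h.re) ^ 2 + (z.im - s * h.im) ^ 2 := by
          ext s
          rw [← Complex.normSq_eq_norm_sq, Complex.normSq_apply]
          simp only [Complex.sub_re, Complex.mul_re, Complex.ofReal_re, Complex.ofReal_im, zero_mul,
            sub_zero, Complex.sub_im, Complex.mul_im, add_zero]
          ring
        rw [e]
        have h2 : HasDerivAt (fun s : ℝ => z.re - s * h.re) (-h.re) t := by
          simpa using ((hasDerivAt_id t).mul_const h.re).const_sub z.re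
        have h3 : HasDerivAt (fun s : ℝ => z.im - s * h.im) (-h.im) t := by
          simpa using ((hasDerivAt_id t).mul_const h.im).const_sub z.im
        have h4 := (h2.pow 2).add (h3.pow 2)
        refine h4.congr_deriv ?_
        simp only [Complex.sub_re, Complex.mul_re, Complex.ofReal_re, Complex.ofReal_im, zero_mul,
            sub_zero, Complex.sub_im, Complex.mul_im, add_zero]
        norm_num
        ring
      have h5 : HasDerivAt (fun s : ℝ => P (z - (s:ℂ) * h))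
          (-(h.re * fderiv ℝ P (z - t * h) 1 + h.im * fderiv ℝ P (z - t * h) Complex.I)) t := by
        have h6 := ((hP.differentiable (by simp)) (z - (t:ℂ) * h)).hasFDerivAt.comp_hasDerivAt t
          (line_hasDeriv z h t)
        rw [map_neg, clm_parts] at h6
        exact h6
      have h7 := ((h1.const_sub 1).pow (n + 1)).mul h5
      refine h7.congr_deriv ?_
      unfold Px Py
      rw [Pi.pow_apply]
      simp only [Nat.add_sub_cancel]
      push_cast
      ring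
    · have hev : (fun s : ℝ => wP (n + 1) P (z - (s:ℂ) * h)) =ᶠ[𝓝 t] fun _ => (0:ℝ) := by
        filter_upwards [continuousAt_const.eventually_lt hcl.continuousAt hgt] with s hs
        exact wP_out hs.le
      refine HasDerivAt.congr_of_eventuallyEq ?_ hev
      rw [wP_out hgt.le, wP_out hgt.le]
      simpa using hasDerivAt_const t (0:ℝ)
  have hc : ContinuousOn (fun s : ℝ => wP (n + 1) P (z - (s:ℂ) * h)) (Icc 0 1) := by
    have h1 : Continuous (fun s : ℝ => z - (s:ℂ) * h) := by fun_prop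
    exact ((wP_cont hP.continuous).comp h1).continuousOn
  have h5 := MeasureTheory.integral_eq_of_hasDerivAt_off_countable_of_le _ _ zero_le_one
    (circle_countable z hh) hc hd (line_int hmx hmy h.re h.im h z).neg
  rw [intervalIntegral.integral_neg] at h5
  have h6 : ∫ t in (0:ℝ)..1, (h.re * wP n (Px n P) (z - t * h) + h.im * wP n (Py n P) (z - t * h)) =
      wP (n + 1) P (z - ((0:ℝ):ℂ) * h) - wP (n + 1) P (z - ((1:ℝ):ℂ) * h) := by
    linarith
  rw [h6]
  simp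

lemma rk_base {P : ℂ → ℝ} (hP : ContDiff ℝ ∞ P) : ∃ B : ℝ≥0∞, B < ⊤ ∧ Rk 1 (wP 0 P) B := by
  have hcf : Continuous (fun z => ‖fderiv ℝ P z‖) := (hP.continuous_fderiv (by simp)).norm
  obtain ⟨L, hL⟩ := (isCompact_closedBall (0:ℂ) 1).exists_bound_of_continuousOn
    hcf.continuousOn
  obtain ⟨M, hM⟩ := (isCompact_closedBall (0:ℂ) 1).exists_bound_of_continuousOn
    hP.continuous.continuousOn
  have hL0 : 0 ≤ L := (norm_nonneg _).trans (hL 0 (by simp))
  have hM0 : 0 ≤ M := (norm_nonneg _).trans (hM 0 (by simp))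
  have hlip : ∀ x ∈ ball (0:ℂ) 1, ∀ y ∈ ball (0:ℂ) 1, ‖P x - P y‖ ≤ L * ‖x - y‖ := by
    intro x hx y hy
    have h1 := Convex.norm_image_sub_le_of_norm_fderiv_le (𝕜 := ℝ) (f := P) (C := L)
      (s := ball (0:ℂ) 1) (fun z _ => (hP.differentiable (by simp)) z)
      (fun z hz => by
        have := hL z (ball_subset_closedBall hz)
        rwa [norm_norm] at this) (convex_ball _ _) hy hx
    exact h1
  refine ⟨ENNReal.ofReal (L * Real.pi) + ENNReal.ofReal (M * Real.pi) * 6,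
    ENNReal.add_lt_top.2 ⟨ENNReal.ofReal_lt_top, ENNReal.mul_lt_top ENNReal.ofReal_lt_top
      (by norm_num)⟩, ?_⟩
  intro w
  change ∫⁻ z, ‖wP 0 P z - wP 0 P (z - w)‖ₑ ≤ _
  have hpt : ∀ z, ‖wP 0 P z - wP 0 P (z - w)‖ₑ ≤
      (ball (0:ℂ) 1).indicator (fun _ => ENNReal.ofReal (L * ‖w‖)) z +
        ENNReal.ofReal (M * Real.pi) * ‖dk 0 (z - w) - dk 0 z‖ₑ := by
    intro z
    have hdk : ∀ v, v ∈ ball (0:ℂ) 1 → dk 0 v = Real.pi⁻¹ := by
      intro v hv
      unfold dk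
      rw [pow_zero, indicator_of_mem hv]
      simp
    have hdk' : ∀ v, v ∉ ball (0:ℂ) 1 → dk 0 v = 0 := by
      intro v hv
      unfold dk
      rw [pow_zero, indicator_of_notMem hv]
    have hin : ∀ v, v ∈ ball (0:ℂ) 1 → wP 0 P v = P v := by
      intro v hv
      rw [mem_ball, dist_zero_right] at hv
      rw [wP_in hv, pow_zero, one_mul]
    have hout : ∀ v, v ∉ ball (0:ℂ) 1 → wP 0 P v = 0 := by
      intro v hv
      rw [mem_ball, dist_zero_right, not_lt] at hv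
      exact wP_out hv
    have hpi : ENNReal.ofReal (M * Real.pi) * ‖Real.pi⁻¹‖ₑ = ENNReal.ofReal M := by
      rw [Real.enorm_of_nonneg (by positivity), ← ENNReal.ofReal_mul (by positivity)]
      congr 1
      field_simp
    by_cases h1 : z ∈ ball (0:ℂ) 1
    · by_cases h2 : z - w ∈ ball (0:ℂ) 1
      · rw [hin z h1, hin _ h2, indicator_of_mem h1]
        refine le_trans ?_ le_self_add
        rw [← ofReal_norm]
        apply ENNReal.ofReal_le_ofReal
        have h3 := hlip z h1 (z - w) h2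
        rwa [sub_sub_cancel] at h3
      · rw [hin z h1, hout _ h2, hdk z h1, hdk' _ h2, sub_zero, zero_sub, enorm_neg, hpi]
        refine le_trans ?_ le_add_self
        rw [← ofReal_norm]
        exact ENNReal.ofReal_le_ofReal (hM z (ball_subset_closedBall h1))
    · by_cases h2 : z - w ∈ ball (0:ℂ) 1
      · rw [hout z h1, hin _ h2, hdk' z h1, hdk _ h2, sub_zero, zero_sub, enorm_neg, hpi]
        refine le_trans ?_ le_add_self
        rw [← ofReal_norm]
        exact ENNReal.ofReal_le_ofReal (hM _ (ball_subset_closedBall h2))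
      · rw [hout z h1, hout _ h2, sub_zero, enorm_zero]
        exact zero_le
  have hmd : Measurable (fun z => ‖dk 0 (z - w) - dk 0 z‖ₑ) :=
    (((dk_meas 0).comp (measurable_id.sub_const w)).sub (dk_meas 0)).enorm
  calc ∫⁻ z, ‖wP 0 P z - wP 0 P (z - w)‖ₑ
      ≤ ∫⁻ z, ((ball (0:ℂ) 1).indicator (fun _ => ENNReal.ofReal (L * ‖w‖)) z +
        ENNReal.ofReal (M * Real.pi) * ‖dk 0 (z - w) - dk 0 z‖ₑ) := lintegral_mono hpt
    _ = ENNReal.ofReal (L * ‖w‖) * volume (ball (0:ℂ) 1) +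
        ENNReal.ofReal (M * Real.pi) * ∫⁻ z, ‖dk 0 (z - w) - dk 0 z‖ₑ := by
        rw [lintegral_add_left (measurable_const.indicator measurableSet_ball),
          lintegral_indicator measurableSet_ball, setLIntegral_const, lintegral_const_mul _ hmd]
    _ ≤ ENNReal.ofReal (L * ‖w‖) * ENNReal.ofReal (Real.pi * 1 ^ 2) +
        ENNReal.ofReal (M * Real.pi) * (6 * (2 ^ 0 * ‖w‖ₑ)) := by
        rw [vol_ball 0 zero_le_one]
        gcongr
        exact dk_lip 0 w
    _ = _ := by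
        rw [ENNReal.ofReal_mul hL0, ofReal_norm, ENNReal.ofReal_mul hL0]
        simp
        ring

lemma rk_wP (n : ℕ) : ∀ {P : ℂ → ℝ}, ContDiff ℝ ∞ P →
    ∃ B : ℝ≥0∞, B < ⊤ ∧ Rk (n + 1) (wP n P) B := by
  induction n with
  | zero => intro P hP; exact rk_base hP
  | succ n ih =>
    intro P hP
    obtain ⟨B, hB, h1⟩ := ih (Px_smooth (n := n) hP)
    obtain ⟨B', hB', h2⟩ := ih (Py_smooth (n := n) hP)
    exact ⟨B + B', ENNReal.add_lt_top.2 ⟨hB, hB'⟩, rk_step (wP_rep n hP)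
      (wP_mb (Px_smooth hP).continuous) (wP_mb (Py_smooth hP).continuous) h1 h2⟩

lemma rk_wP1 (n : ℕ) {P : ℂ → ℝ} (hP : ContDiff ℝ ∞ P) :
    ∃ B : ℝ≥0∞, B < ⊤ ∧ Rk 1 (wP n P) B := by
  rcases n with _ | n
  · exact rk_base hP
  · have h1 : Rk 0 (wP n (Px n P)) (∫⁻ z, ‖wP n (Px n P) z‖ₑ) := le_refl _
    have h2 : Rk 0 (wP n (Py n P)) (∫⁻ z, ‖wP n (Py n P) z‖ₑ) := le_refl _
    exact ⟨_, ENNReal.add_lt_top.2 ⟨(wP_ik (Px_smooth hP).continuous).int.2,
      (wP_ik (Py_smooth hP).continuous).int.2⟩, rk_step (wP_rep n hP)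
      (wP_mb (Px_smooth hP).continuous) (wP_mb (Py_smooth hP).continuous) h1 h2⟩

end H98.Dens
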