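import Pool.Agent.H98.Dbar.Mom3

/-!
# The derivative of a convolution, limits
-/

open MeasureTheory Metric Set Filter Topology
open scoped ContDiff ENNReal NNReal
open H98.Dbar (IsProfile moll bumpAt Crit chi Wf bump)

namespace H98.Dens

lemma add_ik {κ μ : ℂ → ℝ} (hκ : Ik κ) (hμ : Ik μ) : Ik (fun w => κ w + μ w) :=
  ⟨hκ.meas.add hμ.meas, hκ.int.add hμ.int⟩

lemma smul_ik {κ : ℂ → ℝ} (c : ℝ) (hκ : Ik κ) : Ik (fun w => c * κ w) :=
  ⟨hκ.meas.const_mul c, hκ.int.const_mul c⟩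

lemma sub_ik {κ μ : ℂ → ℝ} (hκ : Ik κ) (hμ : Ik μ) : Ik (fun w => κ w - μ w) :=
  ⟨hκ.meas.sub hμ.meas, hκ.int.sub hμ.int⟩

lemma kop_add {κ μ : ℂ → ℝ} (hκ : Ik κ) (hμ : Ik μ) : kop (add_ik hκ hμ) = kop hκ + kop hμ := by
  apply ct_ext
  intro F
  apply Subtype.ext
  ext z
  change cr (fun w => κ w + μ w) F.1 z = cr κ F.1 z + cr μ F.1 z
  unfold cr
  rw [← integral_add (cr_integrand hκ F.2 z) (cr_integrand hμ F.2 z)]
  congr 1
  ext w
  ring

lemma kop_smul_c {κ : ℂ → ℝ} (c : ℝ) (hκ : Ik κ) (F : BM) :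
    kop (smul_ik c hκ) • F = c • (kop hκ • F) := by
  apply Subtype.ext
  ext z
  change cr (fun w => c * κ w) F.1 z = c * cr κ F.1 z
  unfold cr
  rw [← integral_const_mul]
  congr 1
  ext w
  ring

/-- `fd` is the derivative of `f` in the direction `d`. -/
def RepD (f fd : ℂ → ℝ) (d : ℂ) : Prop := ∀ (z : ℂ) (t : ℝ),
  f z - f (z - t * d) = ∫ s in (0:ℝ)..1, t * fd (z - s * (t * d))

lemma Rep.one {f fx fy : ℂ → ℝ} (h : Rep f fx fy) : RepD f fx 1 := by
  intro z t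
  have := h z (t * 1)
  simpa using this

lemma Rep.I {f fx fy : ℂ → ℝ} (h : Rep f fx fy) : RepD f fy Complex.I := by
  intro z t
  have := h z (t * Complex.I)
  simpa using this

lemma RepD.smul {f fd : ℂ → ℝ} {d : ℂ} (h : RepD f fd d) (c : ℝ) :
    RepD (fun w => c * f w) (fun w => c * fd w) d := by
  intro z t
  rw [← mul_sub, h z t, ← intervalIntegral.integral_const_mul]
  congr 1
  ext s
  ring

lemma RepD.sc {f fd : ℂ → ℝ} {d : ℂ} (h : RepD f fd d) (j : ℕ) :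
    RepD (sc j f) (sc j (fun w => 2 ^ j * fd w)) d := by
  intro z t
  unfold Dens.sc
  have h1 := h (2 ^ j * z) (2 ^ j * t)
  have e1 : (2:ℂ) ^ j * (z - t * d) = 2 ^ j * z - ((2 ^ j * t : ℝ) : ℂ) * d := by
    push_cast; ring
  rw [← mul_sub, e1, h1, ← intervalIntegral.integral_const_mul]
  congr 1
  ext s
  have e2 : (2:ℂ) ^ j * (z - s * (t * d)) = 2 ^ j * z - s * (((2 ^ j * t : ℝ) : ℂ) * d) := by
    push_cast; ring
  rw [e2]
  ring

lemma Rk.smul (n : ℕ) : ∀ {f : ℂ → ℝ} {B : ℝ≥0∞}, Measurable f → Rk n f B → ∀ c : ℝ,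
    Rk n (fun w => c * f w) (‖c‖ₑ * B) := by
  induction n with
  | zero =>
    intro f B hf h c
    change ∫⁻ z, ‖c * f z‖ₑ ≤ _
    simp_rw [enorm_mul]
    rw [lintegral_const_mul _ hf.enorm]
    exact mul_le_mul_right h _
  | succ n ih =>
    intro f B hf h c w
    have h1 := ih (hf.sub (hf.comp (measurable_id.sub_const w))) (h w) c
    have e : (fun z => c * f z - c * f (z - w)) = fun z => c * (f z - f (z - w)) := by
      ext z; ring
    rw [e]
    refine h1.mono (le_of_eq ?_)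
    ring

lemma rk_sc (n : ℕ) (j : ℕ) : ∀ {f : ℂ → ℝ} {B : ℝ≥0∞}, Measurable f → Rk n f B →
    Rk n (sc j f) (B * (2 ^ j) ^ n) := by
  induction n with
  | zero =>
    intro f B hf h
    change ∫⁻ z, ‖sc j f z‖ₑ ≤ _
    rw [lintegral_sc j hf, pow_zero, mul_one]
    exact h
  | succ n ih =>
    intro f B hf h w
    have h1 := ih (hf.sub (hf.comp (measurable_id.sub_const (2 ^ j * w)))) (h (2 ^ j * w))
    have e : (fun z => sc j f z - sc j f (z - w)) =
        sc j (fun z => f z - f (z - 2 ^ j * w)) := by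
      ext z
      unfold sc
      rw [mul_sub ((4:ℝ) ^ j), mul_sub ((2:ℂ) ^ j)]
    rw [e]
    refine h1.mono (le_of_eq ?_)
    have e2 : ‖(2:ℂ) ^ j * w‖ₑ = 2 ^ j * ‖w‖ₑ := by
      rw [enorm_mul, enorm_pow]
      congr 2
      rw [← ofReal_norm, Complex.norm_ofNat]
      norm_num
    rw [e2, pow_succ]
    ring

/-- The error of the difference quotient. -/
lemma e_bound {f fd : ℂ → ℝ} {d : ℂ} {B : ℝ≥0∞} (hr : RepD f fd d) (hm : Mb fd)
    (hB : Rk 1 fd B) {t : ℝ} (ht : 0 ≤ t) :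
    ∫⁻ z, ‖f z - f (z - t * d) - t * fd z‖ₑ ≤ ENNReal.ofReal t * (B * (ENNReal.ofReal t * ‖d‖ₑ)) := by
  have hl : Measurable (fun p : ℂ × ℝ => p.1 - (p.2:ℂ) * (t * d)) := by fun_prop
  have hmm : Measurable (fun p : ℂ × ℝ =>
      ENNReal.ofReal t * ‖fd p.1 - fd (p.1 - (p.2:ℂ) * (t * d))‖ₑ) :=
    ((hm.meas.comp measurable_fst).sub (hm.meas.comp hl)).enorm.const_mul _
  have hte : ‖t‖ₑ = ENNReal.ofReal t := Real.enorm_of_nonneg ht
  calc ∫⁻ z, ‖f z - f (z - t * d) - t * fd z‖ₑ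
      ≤ ∫⁻ z, ∫⁻ s in Ioc (0:ℝ) 1, ENNReal.ofReal t * ‖fd z - fd (z - (s:ℂ) * (t * d))‖ₑ := by
        apply lintegral_mono
        intro z
        simp only
        have hi : IntervalIntegrable (fun s : ℝ => t * fd (z - s * (t * d))) volume 0 1 := by
          have := line_int hm hm t 0 (t * d) z
          simpa using this
        have e : f z - f (z - t * d) - t * fd z =
            -∫ s in (0:ℝ)..1, t * (fd z - fd (z - s * (t * d))) := by
          simp_rw [mul_sub]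
          rw [hr z t, intervalIntegral.integral_sub intervalIntegrable_const hi]
          simp
        rw [e, enorm_neg, intervalIntegral.integral_of_le zero_le_one]
        refine (enorm_integral_le_lintegral_enorm _).trans (lintegral_mono fun s => ?_)
        rw [enorm_mul, hte]
    _ = ∫⁻ s in Ioc (0:ℝ) 1, ∫⁻ z, ENNReal.ofReal t * ‖fd z - fd (z - (s:ℂ) * (t * d))‖ₑ := by
        rw [lintegral_lintegral_swap]
        exact hmm.aemeasurable
    _ ≤ ∫⁻ _ in Ioc (0:ℝ) 1, ENNReal.ofReal t * (B * (ENNReal.ofReal t * ‖d‖ₑ)) := by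
        apply setLIntegral_mono measurable_const
        intro s hs
        have hm1 : Measurable (fun z : ℂ => ‖fd z - fd (z - (s:ℂ) * (t * d))‖ₑ) :=
          (hm.meas.sub (hm.meas.comp (measurable_id.sub_const _))).enorm
        rw [lintegral_const_mul _ hm1]
        gcongr
        refine (hB ((s:ℂ) * (t * d))).trans ?_
        gcongr
        rw [← ofReal_norm, ← ofReal_norm, ← ENNReal.ofReal_mul ht]
        apply ENNReal.ofReal_le_ofReal
        rw [norm_mul, norm_mul, Complex.norm_real, Complex.norm_real, Real.norm_of_nonneg hs.1.le,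
          Real.norm_of_nonneg ht]
        have h0 : 0 ≤ t * ‖d‖ := by positivity
        nlinarith [hs.2]
    _ = _ := by
        rw [setLIntegral_const]
        simp

/-- The derivative of a convolution can be put on either factor. -/
lemma rel {f fd g gd : ℂ → ℝ} {d : ℂ} (hf : Ik f) (hfd : Ik fd) (hg : Ik g) (hgd : Ik gd)
    (hrf : RepD f fd d) (hrg : RepD g gd d) (hmf : Mb fd) (hmg : Mb gd) {B B' : ℝ≥0∞}
    (hB : B < ⊤) (hB' : B' < ⊤) (h1 : Rk 1 fd B) (h2 : Rk 1 gd B') :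
    kop hfd * kop hg = kop hf * kop hgd := by
  apply ct_ext
  intro F
  rw [← sub_eq_zero, ← sub_smul]
  set X : BM := (kop hfd * kop hg - kop hf * kop hgd) • F with hX
  set Cst : ℝ≥0∞ := ((∫⁻ w, ‖f w‖ₑ) * (B' * ‖d‖ₑ) + (B * ‖d‖ₑ) * (∫⁻ w, ‖g w‖ₑ)) * SB F with hC
  have hCst : Cst < ⊤ := by
    apply ENNReal.mul_lt_top _ (SB_lt F)
    apply ENNReal.add_lt_top.2
    exact ⟨ENNReal.mul_lt_top hf.int.2 (ENNReal.mul_lt_top hB' enorm_lt_top),
      ENNReal.mul_lt_top (ENNReal.mul_lt_top hB enorm_lt_top) hg.int.2⟩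
  have key : ∀ t : ℝ, 0 < t → SB (t • X) ≤ ENNReal.ofReal t * (ENNReal.ofReal t * Cst) := by
    intro t ht
    have hef : Ik (fun z => f z - f (z - t * d) - t * fd z) :=
      sub_ik (diff_ik hf (t * d)) (smul_ik t hfd)
    have heg : Ik (fun z => g z - g (z - t * d) - t * gd z) :=
      sub_ik (diff_ik hg (t * d)) (smul_ik t hgd)
    have e1 : (1 - top (t * d)) * kop hf = kop (smul_ik t hfd) + kop hef := by
      rw [one_sub_top_kop, ← kop_add]
      apply kop_congr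
      ext z
      ring
    have e2 : (1 - top (t * d)) * kop hg = kop (smul_ik t hgd) + kop heg := by
      rw [one_sub_top_kop, ← kop_add]
      apply kop_congr
      ext z
      ring
    have e3 : kop (smul_ik t hfd) * kop hg - kop hf * kop (smul_ik t hgd) =
        kop hf * kop heg - kop hef * kop hg := by
      have e4 : kop (smul_ik t hfd) = (1 - top (t * d)) * kop hf - kop hef := by rw [e1]; ring
      have e5 : kop (smul_ik t hgd) = (1 - top (t * d)) * kop hg - kop heg := by rw [e2]; ring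
      rw [e4, e5]; ring
    have e6 : t • X = (kop hf * kop heg - kop hef * kop hg) • F := by
      have a1 : (kop (smul_ik t hfd) * kop hg) • F = t • ((kop hfd * kop hg) • F) := by
        rw [mul_smul, mul_smul, kop_smul_c]
      have a2 : (kop hf * kop (smul_ik t hgd)) • F = t • ((kop hf * kop hgd) • F) := by
        rw [mul_comm (kop hf) (kop (smul_ik t hgd)), mul_comm (kop hf) (kop hgd), mul_smul,
          mul_smul, kop_smul_c]
      rw [← e3, hX, sub_smul, sub_smul, smul_sub, a1, a2]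
    rw [e6]
    have hp : Good SB := Or.inr rfl
    have h3 := ((kop_bd hp hf).mul (kop_bd hp heg)).sub SB_esn ((kop_bd hp hef).mul (kop_bd hp hg))
    refine (h3 F).trans ?_
    have h4 := e_bound hrf hmf h1 ht.le
    have h5 := e_bound hrg hmg h2 ht.le
    calc ((∫⁻ w, ‖f w‖ₑ) * (∫⁻ w, ‖g w - g (w - t * d) - t * gd w‖ₑ) +
          (∫⁻ w, ‖f w - f (w - t * d) - t * fd w‖ₑ) * ∫⁻ w, ‖g w‖ₑ) * SB F
        ≤ ((∫⁻ w, ‖f w‖ₑ) * (ENNReal.ofReal t * (B' * (ENNReal.ofReal t * ‖d‖ₑ))) +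
          (ENNReal.ofReal t * (B * (ENNReal.ofReal t * ‖d‖ₑ))) * ∫⁻ w, ‖g w‖ₑ) * SB F := by
          gcongr
      _ = _ := by
          rw [hC]
          ring
  apply Subtype.ext
  ext z
  have h6 : ∀ n : ℕ, ‖X.1 z‖ₑ ≤ ENNReal.ofReal ((1:ℝ) / ((n:ℝ) + 1)) * Cst := by
    intro n
    have ht : (0:ℝ) < 1 / ((n:ℝ) + 1) := by positivity
    have h7 := (le_iSup (fun z => ‖((((1:ℝ) / ((n:ℝ) + 1)) • X : BM)).1 z‖ₑ) z).trans (key _ ht)
    have e7 : ‖((((1:ℝ) / ((n:ℝ) + 1)) • X : BM)).1 z‖ₑ =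
        ENNReal.ofReal ((1:ℝ) / ((n:ℝ) + 1)) * ‖X.1 z‖ₑ := by
      change ‖((1:ℝ) / ((n:ℝ) + 1)) * X.1 z‖ₑ = _
      rw [enorm_mul, Real.enorm_of_nonneg ht.le]
    rw [e7] at h7
    exact (ENNReal.mul_le_mul_iff_right (by simpa using ht) ENNReal.ofReal_ne_top).1 h7
  have h8 : Tendsto (fun n : ℕ => ENNReal.ofReal ((1:ℝ) / ((n:ℝ) + 1)) * Cst) atTop (𝓝 0) := by
    have h9 : Tendsto (fun n : ℕ => ENNReal.ofReal ((1:ℝ) / ((n:ℝ) + 1))) atTop (𝓝 0) := by
      have := ENNReal.tendsto_ofReal tendsto_one_div_add_atTop_nhds_zero_nat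
      simpa using this
    have h10 := ENNReal.Tendsto.mul_const h9 (Or.inr hCst.ne)
    rwa [zero_mul] at h10
  have h11 : ‖X.1 z‖ₑ ≤ 0 := ge_of_tendsto' h8 h6
  have h12 : X.1 z = 0 := by
    rw [nonpos_iff_eq_zero, enorm_eq_zero] at h11
    exact h11
  exact h12

/-! ### Limits -/

lemma limR (N : ℕ) (a : ℕ → CT) (ha : ∀ i, OP SB (a i) 1) (R : CT) {c : ℕ → ℝ≥0∞}
    (hc : Tendsto c atTop (𝓝 0)) (h : ∀ J, OP SB ((1 - a J) ^ (N + 1) * R) (c J)) (F : BM)
    (z : ℂ) : Tendsto (fun J => ((R * Kn N (a J) ^ 2) • F).1 z) atTop (𝓝 ((R • F).1 z)) := by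
  rw [tendsto_iff_edist_tendsto_0]
  have hb : ∀ J, edist (((R * Kn N (a J) ^ 2) • F).1 z) ((R • F).1 z) ≤
      c J * ((1 + cn N) * SB F) := by
    intro J
    have e : (R * (1 - Kn N (a J) ^ 2)) • F = R • F - (R * Kn N (a J) ^ 2) • F := by
      rw [mul_sub, mul_one, sub_smul]
    have h1 := errM SB_esn N (ha J) (h J) F
    rw [e] at h1
    rw [edist_comm, edist_eq_enorm_sub, ← mul_assoc]
    exact (le_iSup (fun z => ‖(R • F - (R * Kn N (a J) ^ 2) • F).1 z‖ₑ) z).trans h1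
  have hcn : (1 + cn N) * SB F ≠ ⊤ := by
    apply (ENNReal.mul_lt_top _ (SB_lt F)).ne
    unfold cn
    exact ENNReal.add_lt_top.2 ⟨by simp, ENNReal.mul_lt_top
      (ENNReal.add_lt_top.2 ⟨by simp, by simp⟩) (ENNReal.pow_lt_top (by simp))⟩
  have h0 : Tendsto (fun J => c J * ((1 + cn N) * SB F)) atTop (𝓝 0) := by
    have h4 := ENNReal.Tendsto.mul_const hc (Or.inr hcn)
    rwa [zero_mul] at h4
  exact tendsto_of_tendsto_of_tendsto_of_le_of_le tendsto_const_nhds h0 (fun _ => zero_le) hb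

lemma fatouR (N : ℕ) (a : ℕ → CT) (R : CT) (F : BM)
    (hlim : ∀ z, Tendsto (fun J => ((R * Kn N (a J) ^ 2) • F).1 z) atTop (𝓝 ((R • F).1 z)))
    {D : ℝ≥0∞} (hD : ∀ J, NB ((R * Kn N (a J) ^ 2) • F) ≤ D) : NB (R • F) ≤ D := by
  calc NB (R • F) = ∫⁻ z, liminf (fun J => ‖((R * Kn N (a J) ^ 2) • F).1 z‖ₑ) atTop := by
        unfold NB
        congr 1
        ext z
        exact ((continuous_enorm.tendsto _).comp (hlim z)).liminf_eq.symm
    _ ≤ liminf (fun J => ∫⁻ z, ‖((R * Kn N (a J) ^ 2) • F).1 z‖ₑ) atTop :=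
        lintegral_liminf_le fun J => (_ : BM).2.1.enorm
    _ ≤ liminf (fun _ : ℕ => D) atTop := liminf_le_liminf (Eventually.of_forall hD)
    _ = D := by simp

section fam

variable {κ : ℕ → ℂ → ℝ} {C : ℝ≥0∞}

/-- The average at the scale `i`. -/
noncomputable def Fam.kp (h : Fam κ C) (i : ℕ) : CT := kop (h.ik i)

lemma Fam.kp_bd {p : BM → ℝ≥0∞} (hp : Good p) (h : Fam κ C) (i : ℕ) : OP p (h.kp i) 1 := by
  have h1 := Dens.kop_bd hp (h.ik i)
  rwa [h.mass i] at h1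

lemma Fam.kp_av {p : BM → ℝ≥0∞} (hp : Good p) (h : Fam κ C) (i : ℕ) :
    Av p ((1 / 2) ^ i) (1 - h.kp i) :=
  avg1 hp (h.ik i) (h.one i) (h.nonneg i) (h.supp i)

lemma Av.mono {p : BM → ℝ≥0∞} {ρ ρ' : ℝ} {A : CT} (h : Av p ρ A) (hρ : ρ ≤ ρ') : Av p ρ' A :=
  fun T c hT => h T c fun w hw => hT w (hw.trans hρ)

lemma Fam.kp_av' {p : BM → ℝ≥0∞} (hp : Good p) (h : Fam κ C) (i : ℕ) :
    Av p ((1 / 2) ^ i) (1 - h.kp (i + 1)) := by
  refine (h.kp_av hp (i + 1)).mono ?_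
  rw [pow_succ]
  have : (0:ℝ) < (1 / 2) ^ i := by positivity
  linarith

lemma half_ofReal (i : ℕ) : ENNReal.ofReal ((1 / 2 : ℝ) ^ i) = 2⁻¹ ^ i := by
  rw [one_div, ENNReal.ofReal_pow (by norm_num), ENNReal.ofReal_inv_of_pos (by norm_num)]
  norm_num

lemma Fam.high {p : BM → ℝ≥0∞} (hp : Good p) (h : Fam κ C) (i : ℕ) {j n : ℕ} {T : CT}
    {B : ℝ≥0∞} (hT : Rg p j n T B) {l : ℕ} (hl : l ≤ n) :
    OP p ((1 - h.kp i) ^ l * (1 - h.kp (i + 1)) ^ (n - l) * T) (B * (2 ^ j * 2⁻¹ ^ i) ^ n) := by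
  have h1 := pows_le (h.kp_av hp i) (h.kp_av' hp i) hT hl
  rwa [half_ofReal] at h1

lemma Fam.low {p : BM → ℝ≥0∞} (hp : Good p) (h : Fam κ C) (i : ℕ) (w : ℂ) (F : BM) :
    p (h.kp i • F - tauB w (h.kp i • F)) ≤ C * (2 ^ i * ‖w‖ₑ) * p F := by
  have h1 := kop_bd hp (diff_ik (h.ik i) w) F
  rw [← one_sub_top_kop, one_sub_top] at h1
  refine h1.trans (mul_le_mul_left ?_ _)
  refine le_trans (le_of_eq ?_) (h.lip i w)
  congr 1
  ext v
  rw [← enorm_neg, neg_sub]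

end fam

end H98.Dens
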