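import Pool.Agent.H98.Dbar.Mom4
import Pool.Agent.H32.Dbar.Per

/-!
# The moment criterion
-/

open MeasureTheory Metric Set Filter Topology
open scoped ContDiff ENNReal NNReal
open H98.Dbar (IsProfile moll bumpAt Crit chi Wf bump)

namespace H98.Dens

lemma cn_lt (N : ℕ) : cn N < ⊤ := by
  unfold cn
  exact ENNReal.mul_lt_top (ENNReal.add_lt_top.2 ⟨by simp, by simp⟩) (ENNReal.pow_lt_top (by simp))

lemma two_half (j : ℕ) : (2:ℝ≥0∞) ^ j * 2⁻¹ ^ j = 1 := by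
  rw [← mul_pow, ENNReal.mul_inv_cancel (by norm_num) (by norm_num), one_pow]

/-- Summation. -/
lemma sum_up {β : ℝ} {s t : ℕ} (h0 : β < s) (h2 : -t < β) {x y u : ℕ → ℝ≥0∞}
    (hu : ∑' j, wb β j * u j < ⊤) {K : ℝ≥0∞} (hK : K < ⊤)
    (hx : ∀ j, x j ≤ u j + ∑' i, K * decM s t i j * y i) (hy : ∑' i, wb β i * y i < ⊤) :
    ∑' j, wb β j * x j < ⊤ := by
  obtain ⟨S, hS, hschur⟩ := schurM h0 h2
  calc ∑' j, wb β j * x j
      ≤ ∑' j, (wb β j * u j + ∑' i, K * y i * (wb β j * decM s t i j)) := by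
        apply ENNReal.tsum_le_tsum
        intro j
        refine (mul_le_mul_right (hx j) _).trans (le_of_eq ?_)
        rw [mul_add, ← ENNReal.tsum_mul_left]
        congr 1
        congr 1
        ext i
        ring
    _ = ∑' j, wb β j * u j + ∑' i, K * y i * ∑' j, wb β j * decM s t i j := by
        rw [ENNReal.tsum_add, ENNReal.tsum_comm]
        congr 1
        congr 1
        ext i
        rw [ENNReal.tsum_mul_left]
    _ ≤ ∑' j, wb β j * u j + ∑' i, K * S * (wb β i * y i) := by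
        apply add_le_add le_rfl
        apply ENNReal.tsum_le_tsum
        intro i
        refine (mul_le_mul_right (hschur i) _).trans (le_of_eq ?_)
        ring
    _ = ∑' j, wb β j * u j + K * S * ∑' i, wb β i * y i := by rw [ENNReal.tsum_mul_left]
    _ < ⊤ := ENNReal.add_lt_top.2 ⟨hu, ENNReal.mul_lt_top (ENNReal.mul_lt_top hK hS) hy⟩

lemma wb_geo {β : ℝ} (hβ : β < 0) : ∑' j, wb β j < ⊤ := by
  have e : ∀ j, wb β j = ENNReal.ofReal (((2:ℝ) ^ (-(-β))) ^ j) := by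
    intro j
    unfold wb
    rw [← Real.rpow_natCast, ← Real.rpow_mul (by norm_num)]
    congr 2
    ring
  simp_rw [e]
  exact geom_fin (by positivity) (rpow_lt_one' (by linarith))

lemma wb_half (β : ℝ) (j : ℕ) : wb β j * 2⁻¹ ^ j = wb (β - 1) j := by
  unfold wb
  have h2 : (2⁻¹ : ℝ≥0∞) ^ j = ENNReal.ofReal ((2:ℝ) ^ (-(j:ℝ))) := by
    rw [Real.rpow_neg (by norm_num), Real.rpow_natCast, ← inv_pow,
      ENNReal.ofReal_pow (by norm_num), ENNReal.ofReal_inv_of_pos (by norm_num)]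
    norm_num
  rw [h2, ← ENNReal.ofReal_mul (by positivity), ← Real.rpow_add (by norm_num)]
  congr 2; ring

lemma wb_two (β : ℝ) (j : ℕ) : wb β j * 2 ^ j = wb (β + 1) j := by
  unfold wb
  have h2 : (2 : ℝ≥0∞) ^ j = ENNReal.ofReal ((2:ℝ) ^ (j:ℝ)) := by
    rw [Real.rpow_natCast, ENNReal.ofReal_pow (by norm_num)]
    norm_num
  rw [h2, ← ENNReal.ofReal_mul (by positivity), ← Real.rpow_add (by norm_num)]
  congr 2; ring

lemma wb_succ (β : ℝ) (j : ℕ) : wb β j = ENNReal.ofReal ((2:ℝ) ^ (-β)) * wb β (j + 1) := by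
  unfold wb
  rw [← ENNReal.ofReal_mul (by positivity), ← Real.rpow_add (by norm_num)]
  congr 2; push_cast; ring

lemma integral_sc (j : ℕ) (f : ℂ → ℝ) : ∫ w, sc j f w = ∫ w, f w := by
  unfold sc
  rw [integral_const_mul, H98.Dbar.integral_comp_two_pow_mul f j, smul_eq_mul, ← mul_assoc,
    mul_inv_cancel₀ (by positivity), one_mul]

lemma sc_supp {j : ℕ} {f : ℂ → ℝ} (h : ∀ w, 1 ≤ ‖w‖ → f w = 0) {w : ℂ}
    (hw : (1 / 2 : ℝ) ^ j < ‖w‖) : sc j f w = 0 := by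
  unfold sc
  rw [h, mul_zero]
  rw [norm_mul, norm_pow, Complex.norm_ofNat]
  have h2 : (0:ℝ) < 2 ^ j := by positivity
  have h3 : (2:ℝ) ^ j * (1 / 2) ^ j = 1 := by rw [← mul_pow]; norm_num
  have h4 := mul_lt_mul_of_pos_left hw h2
  linarith

lemma line_l1 {fx fy : ℂ → ℝ} (hx : Measurable fx) (hy : Measurable fy) (c1 c2 : ℝ) (h : ℂ) :
    ∫⁻ z, ‖∫ t in (0:ℝ)..1, (c1 * fx (z - t * h) + c2 * fy (z - t * h))‖ₑ ≤
      ‖c1‖ₑ * (∫⁻ z, ‖fx z‖ₑ) + ‖c2‖ₑ * ∫⁻ z, ‖fy z‖ₑ := by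
  have hl : Measurable (fun p : ℂ × ℝ => p.1 - (p.2:ℂ) * h) := by fun_prop
  have hm : Measurable (fun p : ℂ × ℝ =>
      ‖c1‖ₑ * ‖fx (p.1 - p.2 * h)‖ₑ + ‖c2‖ₑ * ‖fy (p.1 - p.2 * h)‖ₑ) :=
    ((hx.comp hl).enorm.const_mul _).add ((hy.comp hl).enorm.const_mul _)
  calc ∫⁻ z, ‖∫ t in (0:ℝ)..1, (c1 * fx (z - t * h) + c2 * fy (z - t * h))‖ₑ
      ≤ ∫⁻ z, ∫⁻ t in Ioc (0:ℝ) 1,
          (‖c1‖ₑ * ‖fx (z - t * h)‖ₑ + ‖c2‖ₑ * ‖fy (z - t * h)‖ₑ) := by
        apply lintegral_mono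
        intro z
        simp only
        rw [intervalIntegral.integral_of_le zero_le_one]
        refine (enorm_integral_le_lintegral_enorm _).trans (lintegral_mono fun t => ?_)
        refine (enorm_add_le _ _).trans (le_of_eq ?_)
        rw [enorm_mul, enorm_mul]
    _ = ∫⁻ t in Ioc (0:ℝ) 1, ∫⁻ z,
          (‖c1‖ₑ * ‖fx (z - t * h)‖ₑ + ‖c2‖ₑ * ‖fy (z - t * h)‖ₑ) := by
        rw [lintegral_lintegral_swap]
        exact hm.aemeasurable
    _ = ∫⁻ _ in Ioc (0:ℝ) 1, (‖c1‖ₑ * (∫⁻ z, ‖fx z‖ₑ) + ‖c2‖ₑ * ∫⁻ z, ‖fy z‖ₑ) := by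
        congr 1
        ext t
        have hm1 : Measurable (fun z : ℂ => ‖fx (z - t * h)‖ₑ) :=
          (hx.comp (measurable_id.sub_const _)).enorm
        have hm2 : Measurable (fun z : ℂ => ‖fy (z - t * h)‖ₑ) :=
          (hy.comp (measurable_id.sub_const _)).enorm
        rw [lintegral_add_left (hm1.const_mul _), lintegral_const_mul _ hm1,
          lintegral_const_mul _ hm2,
          lintegral_sub_right_eq_self (fun z => ‖fx z‖ₑ) ((t:ℂ) * h),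
          lintegral_sub_right_eq_self (fun z => ‖fy z‖ₑ) ((t:ℂ) * h)]
    _ = _ := by
        rw [setLIntegral_const]
        simp

variable {H : ℝ → ℝ}

/-- The lowest scale. -/
lemma low_grad (hH : IsProfile H) {C : ℝ≥0∞} (hF : Fam (bumpAt H) C) {Ω : Set ℂ}
    (hΩ : MeasurableSet Ω) (w : ℂ) :
    NB (hF.kp 0 • ind hΩ - tauB w (hF.kp 0 • ind hΩ)) ≤
      (2 * ∫⁻ z, ‖fderiv ℝ (moll H 0 Ω) z‖ₑ) * ‖w‖ₑ := by
  have hs : ContDiff ℝ ∞ (moll H 0 Ω) := H98.Dbar.moll_contDiff hH hΩ 0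
  have e : NB (hF.kp 0 • ind hΩ - tauB w (hF.kp 0 • ind hΩ)) =
      ∫⁻ z, ‖moll H 0 Ω z - moll H 0 Ω (z - w)‖ₑ := by
    unfold NB
    congr 1
    ext z
    rw [← cr_moll hΩ, ← cr_moll hΩ]
    rfl
  rw [e]
  have hrep := smooth_rep hs
  simp_rw [fun z => hrep z w]
  have hm1 : Measurable (fun z => fderiv ℝ (moll H 0 Ω) z 1) :=
    (fd_smooth hs 1).continuous.measurable
  have hm2 : Measurable (fun z => fderiv ℝ (moll H 0 Ω) z Complex.I) :=
    (fd_smooth hs Complex.I).continuous.measurable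
  refine (line_l1 hm1 hm2 w.re w.im w).trans ?_
  have h1 : ∫⁻ z, ‖fderiv ℝ (moll H 0 Ω) z 1‖ₑ ≤ ∫⁻ z, ‖fderiv ℝ (moll H 0 Ω) z‖ₑ := by
    apply lintegral_mono
    intro z
    have := (fderiv ℝ (moll H 0 Ω) z).le_opNorm 1
    rw [norm_one, mul_one] at this
    change ‖fderiv ℝ (moll H 0 Ω) z 1‖ₑ ≤ ‖fderiv ℝ (moll H 0 Ω) z‖ₑ
    rw [← ofReal_norm, ← ofReal_norm]
    exact ENNReal.ofReal_le_ofReal this
  have h2 : ∫⁻ z, ‖fderiv ℝ (moll H 0 Ω) z Complex.I‖ₑ ≤ ∫⁻ z, ‖fderiv ℝ (moll H 0 Ω) z‖ₑ := by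
    apply lintegral_mono
    intro z
    have := (fderiv ℝ (moll H 0 Ω) z).le_opNorm Complex.I
    rw [Complex.norm_I, mul_one] at this
    change ‖fderiv ℝ (moll H 0 Ω) z Complex.I‖ₑ ≤ ‖fderiv ℝ (moll H 0 Ω) z‖ₑ
    rw [← ofReal_norm, ← ofReal_norm]
    exact ENNReal.ofReal_le_ofReal this
  have h3 : ‖w.re‖ₑ ≤ ‖w‖ₑ := by
    rw [← ofReal_norm, ← ofReal_norm]
    exact ENNReal.ofReal_le_ofReal (Complex.abs_re_le_norm w)
  have h4 : ‖w.im‖ₑ ≤ ‖w‖ₑ := by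
    rw [← ofReal_norm, ← ofReal_norm]
    exact ENNReal.ofReal_le_ofReal (Complex.abs_im_le_norm w)
  calc ‖w.re‖ₑ * (∫⁻ z, ‖fderiv ℝ (moll H 0 Ω) z 1‖ₑ) +
        ‖w.im‖ₑ * ∫⁻ z, ‖fderiv ℝ (moll H 0 Ω) z Complex.I‖ₑ
      ≤ ‖w‖ₑ * (∫⁻ z, ‖fderiv ℝ (moll H 0 Ω) z‖ₑ) + ‖w‖ₑ * ∫⁻ z, ‖fderiv ℝ (moll H 0 Ω) z‖ₑ := by
        gcongr
    _ = _ := by ring

/-- The kernel of a moment. -/
noncomputable def mop (j : ℕ) {f : ℂ → ℝ} (hf : Ik f) : CT := kop (sc_ik j hf)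

/-- Necessity: mean zero kernels of regularity `n + 1`. -/
theorem nec_mom (hH : IsProfile H) {α : ℝ} (h0 : 0 < α) {n : ℕ} (hn : α < n + 2) {Ω : Set ℂ}
    (hΩ : MeasurableSet Ω) (hcrit : Crit H α Ω) {X : ℂ → ℝ} (hX : Ik X) {B : ℝ≥0∞} (hB : B < ⊤)
    (hR : Rk (n + 1) X B) (hX0 : ∫ w, X w = 0) (hXs : ∀ w, 1 ≤ ‖w‖ → X w = 0) :
    ∑' j, wb (1 - α) j * NB (mop j hX • ind hΩ) < ⊤ := by
  obtain ⟨C, hC, hF⟩ := bump_fam hH
  set M : ℝ≥0∞ := ∫⁻ w, ‖X w‖ₑ with hM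
  have hMt : M < ⊤ := hX.int.2
  set G : ℝ≥0∞ := 2 * ∫⁻ z, ‖fderiv ℝ (moll H 0 Ω) z‖ₑ with hG
  have hGt : G < ⊤ := ENNReal.mul_lt_top (by norm_num) hcrit.1
  set C' : ℝ≥0∞ := B + M * C with hC'
  have hC't : C' < ⊤ := ENNReal.add_lt_top.2 ⟨hB, ENNReal.mul_lt_top hMt hC⟩
  set N : ℕ := n + 1 with hN
  have hsupp : ∀ j w, (1 / 2 : ℝ) ^ j < ‖w‖ → sc j X w = 0 := fun j w hw => sc_supp hXs hw
  have hzero : ∀ j, ∫ w, sc j X w = 0 := fun j => by rw [integral_sc, hX0]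
  have hmass : ∀ j, ∫⁻ w, ‖sc j X w‖ₑ = M := fun j => lintegral_sc j hX.meas
  have hle : ∀ {j : ℕ} {w : ℂ}, ‖w‖ ≤ (1 / 2) ^ j → ‖w‖ₑ ≤ 2⁻¹ ^ j := by
    intro j w hw
    rw [← half_ofReal, ← ofReal_norm]
    exact ENNReal.ofReal_le_ofReal hw
  have hhigh : ∀ {p : BM → ℝ≥0∞}, Good p → ∀ j i, ∀ l ≤ N,
      OP p ((1 - hF.kp i) ^ l * (1 - hF.kp (i + 1)) ^ (N - l) * mop j hX)
        (B * (2 ^ j * 2⁻¹ ^ i) ^ N) := by
    intro p hp j i l hl
    exact hF.high hp i (rg_of_rk hp j hX hR) hl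
  have hlow : ∀ j i, OP NB (mop j hX * hF.kp i) (C' * (2 ^ i * 2⁻¹ ^ j) ^ 1) := by
    intro j i x
    rw [mul_smul, pow_one]
    have h1 := avg0 (Or.inl rfl) (sc_ik j hX) (hzero j) (hsupp j) (hF.kp i • x)
      (D := C * (2 ^ i * 2⁻¹ ^ j) * NB x) (fun w hw => by
        refine (hF.low (Or.inl rfl) i w x).trans ?_
        gcongr
        exact hle hw)
    rw [hmass] at h1
    refine h1.trans ?_
    rw [← mul_assoc, ← mul_assoc]
    gcongr
    exact le_add_self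
  have hone : ∀ j, NB (mop j hX • ind hΩ) ≤ cn N ^ 2 * (M * G) * 2⁻¹ ^ j +
      ∑' i, (4 * C' * cn N ^ 2) * decM 1 N i j * NB ((hF.kp (i + 1) - hF.kp i) • ind hΩ) := by
    intro j
    apply fatouR N hF.kp (mop j hX) (ind hΩ)
    · apply limR N hF.kp (fun i => hF.kp_bd (Or.inr rfl) i) (mop j hX)
        (c := fun J => 2 * B * 2 ^ (j * N) * 2⁻¹ ^ (J * N))
      · have h3 : Tendsto (fun J : ℕ => (2⁻¹ : ℝ≥0∞) ^ (J * N)) atTop (𝓝 0) := by
          have h4 : Tendsto (fun J : ℕ => (2⁻¹ : ℝ≥0∞) ^ J) atTop (𝓝 0) :=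
            ENNReal.tendsto_pow_atTop_nhds_zero_of_lt_one (by rw [ENNReal.inv_lt_one]; norm_num)
          have h5 : Tendsto (fun J : ℕ => J * N) atTop atTop :=
            tendsto_id.atTop_mul_const' (by omega)
          exact h4.comp h5
        have h6 : 2 * B * 2 ^ (j * N) ≠ ⊤ :=
          (ENNReal.mul_lt_top (ENNReal.mul_lt_top (by norm_num) hB)
            (ENNReal.pow_lt_top (by norm_num))).ne
        have h7 := ENNReal.Tendsto.const_mul h3 (Or.inr h6)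
        rwa [mul_zero] at h7
      · intro J
        have h8 := hhigh (Or.inr rfl) j J N le_rfl
        rw [Nat.sub_self, pow_zero, mul_one] at h8
        have h9 := (one_sub_bd SB_esn (hF.kp_bd (Or.inr rfl) J)).mul h8
        rw [← mul_assoc, ← pow_succ'] at h9
        refine h9.mono (le_of_eq ?_)
        rw [mul_pow, ← pow_mul, ← pow_mul]
        ring
    · intro J
      have h1 := compareR NB_esn hF.kp (fun i => hF.kp_bd (Or.inl rfl) i) N j 1 (R := mop j hX)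
        (C := C') (fun i l hl => (hhigh (Or.inl rfl) j i l hl).mono
          (mul_le_mul_left le_self_add _)) (hlow j) (ind hΩ) J
      refine h1.trans (add_le_add ?_ ?_)
      · rw [mul_assoc]
        gcongr
        rw [mul_smul]
        have h2 := avg0 (Or.inl rfl) (sc_ik j hX) (hzero j) (hsupp j) (hF.kp 0 • ind hΩ)
          (D := G * 2⁻¹ ^ j) (fun w hw => by
            refine (low_grad hH hF hΩ w).trans ?_
            gcongr
            exact hle hw)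
        rw [hmass] at h2
        refine h2.trans (le_of_eq ?_)
        ring
      · refine le_trans (le_of_eq ?_) (ENNReal.sum_le_tsum (Finset.range J))
        apply Finset.sum_congr rfl
        intro i _
        norm_num
  refine sum_up (s := 1) (t := N) (by push_cast; linarith) (by rw [hN]; push_cast; linarith)
    (u := fun j => cn N ^ 2 * (M * G) * 2⁻¹ ^ j) ?_
    (K := 4 * C' * cn N ^ 2) ?_ hone ?_
  · have e : ∀ j, wb (1 - α) j * (cn N ^ 2 * (M * G) * 2⁻¹ ^ j) =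
        cn N ^ 2 * (M * G) * wb (-α) j := by
      intro j
      have : wb (-α) j = wb (1 - α) j * 2⁻¹ ^ j := by rw [wb_half]; congr 1; ring
      rw [this]; ring
    simp_rw [e]
    rw [ENNReal.tsum_mul_left]
    exact ENNReal.mul_lt_top (ENNReal.mul_lt_top (ENNReal.pow_lt_top (cn_lt N))
      (ENNReal.mul_lt_top hMt hGt)) (wb_geo (by linarith))
  · exact ENNReal.mul_lt_top (ENNReal.mul_lt_top (by norm_num) hC't) (ENNReal.pow_lt_top (cn_lt N))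
  · have e : ∀ i, NB ((hF.kp (i + 1) - hF.kp i) • ind hΩ) =
        ∫⁻ z, ‖moll H (i + 1) Ω z - moll H i Ω z‖ₑ := by
      intro i
      unfold NB
      congr 1
      ext z
      rw [← cr_moll hΩ, ← cr_moll hΩ]
      rfl
    simp_rw [e]
    exact hcrit.2

end H98.Dens
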