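import Pool.Agent.H98.Dbar.Mom5

/-!
# The moment criterion: sufficiency
-/

open MeasureTheory Metric Set Filter Topology
open scoped ContDiff ENNReal NNReal
open H98.Dbar (IsProfile moll bumpAt Crit chi Wf bump)

namespace H98.Dens

/-! ### The averaging kernel -/

lemma wP_hcs {n : ℕ} {P : ℂ → ℝ} : HasCompactSupport (wP n P) := by
  apply HasCompactSupport.intro (isCompact_closedBall (0:ℂ) 1)
  intro z hz
  rw [mem_closedBall, dist_zero_right, not_le] at hz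
  exact wP_out hz.le

lemma w1_nonneg (n : ℕ) (z : ℂ) : 0 ≤ wP (n + 1) (fun _ => 1) z := by
  by_cases hz : ‖z‖ < 1
  · rw [wP_in hz, mul_one]
    have : 0 ≤ 1 - ‖z‖ ^ 2 := by nlinarith [norm_nonneg z]
    positivity
  · rw [wP_out (not_lt.1 hz)]

lemma w1_pos (n : ℕ) : 0 < ∫ z, wP (n + 1) (fun _ => (1:ℝ)) z := by
  apply (wP_cont continuous_const).integral_pos_of_hasCompactSupport_nonneg_nonzero (x := 0)
    wP_hcs (w1_nonneg n)
  rw [wP_in (by simp)]
  simp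

/-- The constant. -/
noncomputable def cw (n : ℕ) : ℝ := (∫ z, wP (n + 1) (fun _ => (1:ℝ)) z)⁻¹

/-- The kernel. -/
noncomputable def qk (n : ℕ) (z : ℂ) : ℝ := cw n * wP (n + 1) (fun _ => 1) z

lemma cw_pos (n : ℕ) : 0 < cw n := inv_pos.2 (w1_pos n)

lemma qk_ik (n : ℕ) : Ik (qk n) := smul_ik _ (wP_ik continuous_const)

lemma q_fam (n : ℕ) : ∃ C : ℝ≥0∞, C < ⊤ ∧ Fam (fun j => sc j (qk n)) C := by
  obtain ⟨B, hB, h1⟩ := rk_wP1 (n + 1) (P := fun _ => (1:ℝ)) contDiff_const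
  have h2 := Rk.smul 1 (wP_ik continuous_const).meas h1 (cw n)
  refine ⟨‖cw n‖ₑ * B, ENNReal.mul_lt_top enorm_lt_top hB, ?_⟩
  refine ⟨fun j => (sc_ik j (qk_ik n)).meas, fun j => (sc_ik j (qk_ik n)).int, ?_, ?_, ?_, ?_⟩
  · intro j
    rw [integral_sc]
    unfold qk
    rw [integral_const_mul]
    exact inv_mul_cancel₀ (w1_pos n).ne'
  · intro j w
    unfold sc qk
    have h3 := (cw_pos n).le
    have h4 := w1_nonneg n (2 ^ j * w)
    positivity
  · intro j w hw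
    apply sc_supp _ hw
    intro v hv
    unfold qk
    rw [wP_out hv, mul_zero]
  · intro j w
    have h4 : ∫⁻ z, ‖sc j (qk n) z - sc j (qk n) (z - w)‖ₑ ≤
        ‖cw n‖ₑ * B * (2 ^ j) ^ 1 * ‖w‖ₑ := rk_sc 1 j (qk_ik n).meas h2 w
    calc ∫⁻ v, ‖sc j (qk n) (v - w) - sc j (qk n) v‖ₑ
        = ∫⁻ z, ‖sc j (qk n) z - sc j (qk n) (z - w)‖ₑ := by
          congr 1
          ext v
          rw [← enorm_neg, neg_sub]
      _ ≤ _ := h4
      _ = _ := by ring

/-- The derivative of the averaging kernel. -/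
noncomputable def gk (n : ℕ) (x : ℂ → ℝ) (w : ℂ) : ℝ := -(2 * (n + 1) * cw n) * wP n x w

lemma wP_congr_mul {n : ℕ} {P Q : ℂ → ℝ} {c : ℝ} (h : ∀ z, P z = c * Q z) (z : ℂ) :
    wP n P z = c * wP n Q z := by
  by_cases hz : ‖z‖ < 1
  · rw [wP_in hz, wP_in hz, h z]; ring
  · rw [wP_out (not_lt.1 hz), wP_out (not_lt.1 hz), mul_zero]

lemma q_one (n : ℕ) : RepD (qk n) (gk n fun w => w.re) 1 := by
  have h := ((wP_rep n (P := fun _ => (1:ℝ)) contDiff_const).one).smul (cw n)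
  have e : (fun w => cw n * wP n (Px n fun _ => 1) w) = gk n fun w => w.re := by
    ext w
    rw [wP_congr_mul (P := Px n fun _ => 1) (Q := fun w => w.re) (c := -(2 * (n + 1)))]
    · unfold gk; ring
    · intro z
      unfold Px
      simp
  rw [e] at h
  exact h

lemma q_I (n : ℕ) : RepD (qk n) (gk n fun w => w.im) Complex.I := by
  have h := ((wP_rep n (P := fun _ => (1:ℝ)) contDiff_const).I).smul (cw n)
  have e : (fun w => cw n * wP n (Py n fun _ => 1) w) = gk n fun w => w.im := by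
    ext w
    rw [wP_congr_mul (P := Py n fun _ => 1) (Q := fun w => w.im) (c := -(2 * (n + 1)))]
    · unfold gk; ring
    · intro z
      unfold Py
      simp
  rw [e] at h
  exact h

lemma Mb.smul {f : ℂ → ℝ} (h : Mb f) (c : ℝ) : Mb (fun w => c * f w) := by
  obtain ⟨hm, M, hM⟩ := h
  refine ⟨hm.const_mul c, ‖c‖ * M, fun z => ?_⟩
  rw [norm_mul]
  exact mul_le_mul_of_nonneg_left (hM z) (norm_nonneg c)

lemma Mb.sc {f : ℂ → ℝ} (h : Mb f) (j : ℕ) : Mb (sc j f) := by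
  obtain ⟨hm, M, hM⟩ := h
  refine ⟨(hm.comp (measurable_const_mul _)).const_mul _, ‖(4:ℝ) ^ j‖ * M, fun z => ?_⟩
  unfold Dens.sc
  rw [norm_mul]
  exact mul_le_mul_of_nonneg_left (hM _) (norm_nonneg _)

lemma NB_smul (c : ℝ) (F : BM) : NB (c • F) = ‖c‖ₑ * NB F := by
  unfold NB
  rw [← lintegral_const_mul _ F.2.1.enorm]
  congr 1
  ext z
  exact enorm_mul c (F.1 z)

/-! ### The derivative of a mollification -/

lemma cr_eq_conv (κ F : ℂ → ℝ) :
    cr κ F = MeasureTheory.convolution κ F (ContinuousLinearMap.mul ℝ ℝ) volume := by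
  ext z
  rw [MeasureTheory.convolution_def]
  rfl

lemma fderiv_cr {κ F : ℂ → ℝ} (hκ : ContDiff ℝ ∞ κ) (hc : HasCompactSupport κ)
    (hF : LocallyIntegrable F) (z v : ℂ) :
    fderiv ℝ (cr κ F) z v = ∫ w, fderiv ℝ κ w v * F (z - w) := by
  have hκ1 : ContDiff ℝ 1 κ := hκ.of_le (by simp)
  have h1 := hc.hasFDerivAt_convolution_left (ContinuousLinearMap.mul ℝ ℝ) hκ1 hF z
  rw [← cr_eq_conv] at h1
  rw [h1.fderiv, MeasureTheory.convolution_def]
  rw [ContinuousLinearMap.integral_apply]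
  · rfl
  · have h2 := (hc.fderiv ℝ).convolutionExists_left ((ContinuousLinearMap.mul ℝ ℝ).precompL ℂ)
      (hκ1.continuous_fderiv (by simp)) hF z
    exact h2

lemma bm_locInt (F : BM) : LocallyIntegrable F.1 := by
  obtain ⟨f, hm, M, hM⟩ := F
  intro x
  refine ⟨ball x 1, ball_mem_nhds x one_pos, ?_⟩
  exact Measure.integrableOn_of_bounded measure_ball_lt_top.ne hm.aestronglyMeasurable
    (Eventually.of_forall hM)

variable {H : ℝ → ℝ}

/-- The kernel of the derivative. -/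
noncomputable def bd (H : ℝ → ℝ) (d : ℂ) (j : ℕ) (w : ℂ) : ℝ := 2 ^ j * fderiv ℝ (bump H) w d

lemma fderiv_bumpAt (hH : IsProfile H) (j : ℕ) (w d : ℂ) :
    fderiv ℝ (bumpAt H j) w d = sc j (bd H d j) w := by
  have h1 : HasFDerivAt (fun z : ℂ => (2:ℂ) ^ j * z) (((2:ℂ) ^ j) • (ContinuousLinearMap.id ℝ ℂ))
      w := (hasFDerivAt_id w).const_mul _
  have h2 := (((H98.Dbar.bump_contDiff hH).differentiable (by simp))
    ((2:ℂ) ^ j * w)).hasFDerivAt.comp w h1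
  have h3 := h2.const_mul ((4:ℝ) ^ j)
  have h4 : fderiv ℝ (bumpAt H j) w = _ := h3.fderiv
  rw [h4]
  unfold sc bd
  have e : (2:ℂ) ^ j * d = (2:ℝ) ^ j • d := by
    rw [Complex.real_smul]; push_cast; rfl
  change (4:ℝ) ^ j * (fderiv ℝ (bump H) ((2:ℂ) ^ j * w)) ((2:ℂ) ^ j * d) = _
  rw [e, map_smul, smul_eq_mul]

lemma bd_ik (hH : IsProfile H) (d : ℂ) (j : ℕ) : Ik (bd H d j) :=
  smul_ik _ (smooth_ik (fd_smooth (H98.Dbar.bump_contDiff hH) d).continuous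
    (fd_supp (H98.Dbar.bump_hasCompactSupport hH) d))

lemma bump_ik (hH : IsProfile H) : Ik (bump H) :=
  smooth_ik (H98.Dbar.bump_contDiff hH).continuous (H98.Dbar.bump_hasCompactSupport hH)

lemma fderiv_moll_dir (hH : IsProfile H) {Ω : Set ℂ} (hΩ : MeasurableSet Ω) (j : ℕ) (z d : ℂ) :
    fderiv ℝ (moll H j Ω) z d = (mop j (bd_ik hH d j) • ind hΩ).1 z := by
  have e : moll H j Ω = cr (bumpAt H j) (ind hΩ).1 := by
    ext z
    exact (cr_moll hΩ j z).symm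
  rw [e, fderiv_cr (H98.Dbar.bumpAt_contDiff hH j) (H98.Dbar.bumpAt_hasCompactSupport hH j)
    (bm_locInt _)]
  simp_rw [fderiv_bumpAt hH]
  rfl

/-! ### Sufficiency -/

lemma tendsto_half_pow {N : ℕ} (hN : 0 < N) :
    Tendsto (fun J : ℕ => (2⁻¹ : ℝ≥0∞) ^ (J * N)) atTop (𝓝 0) := by
  have h4 : Tendsto (fun J : ℕ => (2⁻¹ : ℝ≥0∞) ^ J) atTop (𝓝 0) :=
    ENNReal.tendsto_pow_atTop_nhds_zero_of_lt_one (by rw [ENNReal.inv_lt_one]; norm_num)
  have h5 : Tendsto (fun J : ℕ => J * N) atTop atTop :=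
    tendsto_id.atTop_mul_const' hN
  exact h4.comp h5

theorem suf_one (hH : IsProfile H) {α : ℝ} {n : ℕ} (h0 : 0 < α) (hn : α < n + 2) {Ω : Set ℂ}
    (hΩ : MeasurableSet Ω) {d : ℂ} {x : ℂ → ℝ} (hx : ContDiff ℝ ∞ x)
    (hq : RepD (qk n) (gk n x) d) (hb : RepD (bump H) (fun z => fderiv ℝ (bump H) z d) d)
    (hsum : ∑' j, wb (1 - α) j * NB (mop j (wP_ik (n := n) hx.continuous) • ind hΩ) < ⊤) :
    ∑' j, wb (-α) j * ∫⁻ z, ‖fderiv ℝ (moll H j Ω) z d‖ₑ < ⊤ := by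
  obtain ⟨C, hC, hF⟩ := q_fam n
  set N : ℕ := n + 2 with hN
  have hbs := H98.Dbar.bump_contDiff hH
  have hbc := H98.Dbar.bump_hasCompactSupport hH
  have hds := fd_smooth hbs d
  have hdc := fd_supp hbc d
  obtain ⟨Bb, hBb, hRb⟩ := rk_smooth N hbs hbc
  obtain ⟨Bd, hBd, hRd⟩ := rk_smooth (N + 1) hds hdc
  obtain ⟨B1, hB1, hR1⟩ := rk_smooth 1 hds hdc
  obtain ⟨B2, hB2, hR2⟩ := rk_wP1 n hx
  have hgi : Ik (gk n x) := smul_ik _ (wP_ik hx.continuous)
  have hgm : Mb (gk n x) := (wP_mb hx.continuous).smul _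
  have hR2' : Rk 1 (gk n x) (‖-(2 * ((n:ℝ) + 1) * cw n)‖ₑ * B2) :=
    Rk.smul 1 (wP_ik hx.continuous).meas hR2 _
  have hdm : Mb (fun z => fderiv ℝ (bump H) z d) := smooth_mb hds.continuous hdc
  have hdi : Ik (fun z => fderiv ℝ (bump H) z d) := smooth_ik hds.continuous hdc
  -- the relation
  set e : ℕ → CT := fun i => mop i (smul_ik (2 ^ i) hgi) with he
  have hrel : ∀ j i, mop j (bd_ik hH d j) * hF.kp i = mop j (bump_ik hH) * e i := by
    intro j i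
    have hp2 : ∀ m : ℕ, ((2:ℝ≥0∞) ^ m) ^ 1 < ⊤ := fun m =>
      ENNReal.pow_lt_top (ENNReal.pow_lt_top (by norm_num))
    exact rel (sc_ik j (bump_ik hH)) (sc_ik j (bd_ik hH d j)) (hF.ik i)
      (sc_ik i (smul_ik (2 ^ i) hgi)) (hb.sc j) (hq.sc i) ((hdm.smul (2 ^ j)).sc j)
      ((hgm.smul (2 ^ i)).sc i)
      (ENNReal.mul_lt_top (ENNReal.mul_lt_top enorm_lt_top hB1) (hp2 j))
      (ENNReal.mul_lt_top (ENNReal.mul_lt_top enorm_lt_top
        (ENNReal.mul_lt_top enorm_lt_top hB2)) (hp2 i))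
      (rk_sc 1 j (bd_ik hH d j).meas (Rk.smul 1 hdi.meas hR1 (2 ^ j)))
      (rk_sc 1 i (smul_ik (2 ^ i) hgi).meas (Rk.smul 1 hgi.meas hR2' (2 ^ i)))
  set M : ℝ≥0∞ := ∫⁻ w, ‖bump H w‖ₑ with hM
  have hMt : M < ⊤ := (bump_ik hH).int.2
  set C' : ℝ≥0∞ := Bb + M with hC'
  have hC't : C' < ⊤ := ENNReal.add_lt_top.2 ⟨hBb, hMt⟩
  set y : ℕ → ℝ≥0∞ := fun i => NB (e i • ind hΩ) with hy
  have hone : ∀ j, NB (mop j (bd_ik hH d j) • ind hΩ) ≤ C' * cn N ^ 2 * y 0 +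
      ∑' i, (2 * C' * cn N ^ 2) * decM 0 N i j * (y (i + 1) + y i) := by
    intro j
    apply fatouR N hF.kp (mop j (bd_ik hH d j)) (ind hΩ)
    · have hRd' : Rk (N + 1) (bd H d j) (‖(2:ℝ) ^ j‖ₑ * Bd) := Rk.smul (N + 1) hdi.meas hRd _
      apply limR N hF.kp (fun i => hF.kp_bd (Or.inr rfl) i) (mop j (bd_ik hH d j))
        (c := fun J => (‖(2:ℝ) ^ j‖ₑ * Bd) * 2 ^ (j * (N + 1)) * 2⁻¹ ^ (J * (N + 1)))
      · have h6 : (‖(2:ℝ) ^ j‖ₑ * Bd) * 2 ^ (j * (N + 1)) ≠ ⊤ :=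
          (ENNReal.mul_lt_top (ENNReal.mul_lt_top enorm_lt_top hBd)
            (ENNReal.pow_lt_top (by norm_num))).ne
        have h7 := ENNReal.Tendsto.const_mul (tendsto_half_pow (N := N + 1) (by omega))
          (Or.inr h6)
        rwa [mul_zero] at h7
      · intro J
        have h8 := hF.high (Or.inr rfl) J (rg_of_rk (Or.inr rfl) j (bd_ik hH d j) hRd') le_rfl
        rw [Nat.sub_self, pow_zero, mul_one] at h8
        refine h8.mono (le_of_eq ?_)
        rw [mul_pow, ← pow_mul, ← pow_mul]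
        ring
    · intro J
      have h1 := compareD NB_esn hF.kp e (fun i => hF.kp_bd (Or.inl rfl) i) N j
        (d := mop j (bd_ik hH d j)) (b := mop j (bump_ik hH)) (C := C') (hrel j)
        (fun i l hl => (hF.high (Or.inl rfl) i (rg_of_rk (Or.inl rfl) j (bump_ik hH) hRb) hl).mono
          (mul_le_mul_left le_self_add _))
        ((kop_bd (Or.inl rfl) (sc_ik j (bump_ik hH))).mono (by
          rw [lintegral_sc j (bump_ik hH).meas]
          exact le_add_self)) (ind hΩ) J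
      refine h1.trans (add_le_add le_rfl ?_)
      exact ENNReal.sum_le_tsum (Finset.range J)
  -- the sums
  have hey : ∀ i, y i = ‖-(2 * ((n:ℝ) + 1) * cw n)‖ₑ *
      (2 ^ i * NB (mop i (wP_ik (n := n) hx.continuous) • ind hΩ)) := by
    intro i
    have e1 : e i • ind hΩ = ((2:ℝ) ^ i * -(2 * ((n:ℝ) + 1) * cw n)) •
        (mop i (wP_ik (n := n) hx.continuous) • ind hΩ) := by
      apply Subtype.ext
      ext z
      change cr (sc i (fun w => 2 ^ i * gk n x w)) (ind hΩ).1 z =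
        ((2:ℝ) ^ i * -(2 * ((n:ℝ) + 1) * cw n)) * cr (sc i (wP n x)) (ind hΩ).1 z
      unfold cr
      rw [← integral_const_mul]
      congr 1
      ext w
      unfold sc gk
      ring
    rw [hy]
    simp only
    rw [e1, NB_smul, enorm_mul]
    have h2 : ‖(2:ℝ) ^ i‖ₑ = 2 ^ i := by
      rw [enorm_pow, Real.enorm_of_nonneg (by norm_num)]
      norm_num
    rw [h2]
    ring
  have hys : ∑' i, wb (-α) i * y i < ⊤ := by
    have e2 : ∀ i, wb (-α) i * y i = ‖-(2 * ((n:ℝ) + 1) * cw n)‖ₑ *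
        (wb (1 - α) i * NB (mop i (wP_ik (n := n) hx.continuous) • ind hΩ)) := by
      intro i
      have h3 : wb (1 - α) i = wb (-α) i * 2 ^ i := by rw [wb_two]; congr 1; ring
      rw [hey, h3]; ring
    simp_rw [e2]
    rw [ENNReal.tsum_mul_left]
    exact ENNReal.mul_lt_top enorm_lt_top hsum
  have hy0 : y 0 < ⊤ := by
    have h3 : wb (-α) 0 * y 0 < ⊤ := lt_of_le_of_lt (ENNReal.le_tsum 0) hys
    have h4 : wb (-α) 0 = 1 := by unfold wb; simp
    rwa [h4, one_mul] at h3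
  have hys' : ∑' i, wb (-α) i * (y (i + 1) + y i) < ⊤ := by
    simp_rw [mul_add]
    rw [ENNReal.tsum_add]
    apply ENNReal.add_lt_top.2 ⟨?_, hys⟩
    have e3 : ∀ i, wb (-α) i * y (i + 1) =
        ENNReal.ofReal ((2:ℝ) ^ (-(-α))) * (wb (-α) (i + 1) * y (i + 1)) := by
      intro i
      rw [wb_succ, mul_assoc]
    simp_rw [e3]
    rw [ENNReal.tsum_mul_left]
    apply ENNReal.mul_lt_top ENNReal.ofReal_lt_top
    exact lt_of_le_of_lt (ENNReal.tsum_comp_le_tsum_of_injective (add_left_injective 1)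
      (fun i => wb (-α) i * y i)) hys
  have hfin := sum_up (β := -α) (s := 0) (t := N) (by push_cast; linarith)
    (by rw [hN]; push_cast; linarith)
    (x := fun j => NB (mop j (bd_ik hH d j) • ind hΩ))
    (u := fun _ => C' * cn N ^ 2 * y 0) (y := fun i => y (i + 1) + y i) ?_
    (K := 2 * C' * cn N ^ 2) ?_ hone hys'
  · refine lt_of_le_of_lt (le_of_eq ?_) hfin
    congr 1
    ext j
    congr 1
    unfold NB
    congr 1
    ext z
    rw [fderiv_moll_dir hH hΩ]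
  · rw [ENNReal.tsum_mul_right]
    exact ENNReal.mul_lt_top (wb_geo (by linarith)) (ENNReal.mul_lt_top (ENNReal.mul_lt_top hC't
      (ENNReal.pow_lt_top (cn_lt N))) hy0)
  · exact ENNReal.mul_lt_top (ENNReal.mul_lt_top (by norm_num) hC't) (ENNReal.pow_lt_top (cn_lt N))

end H98.Dens
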