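import Pool.Agent.H98.Dbar.Mom6

/-!
# The moment criterion
-/

open MeasureTheory Metric Set Filter Topology
open scoped ContDiff ENNReal NNReal
open H98.Dbar (IsProfile moll bumpAt Crit chi Wf bump Admissible PerCrit)

namespace H98.Dens

/-- The first moment of `Ω ∩ disc(z, r)` about `z` with the weight `(1 - |w - z|²/r²)ⁿ`, in units
of `π r³`, where `r = 2^{-j}`. -/
noncomputable def mom (Ω : Set ℂ) (n j : ℕ) (z : ℂ) : ℂ :=
  (Real.pi * ((1 / 2 : ℝ) ^ j) ^ 2)⁻¹ • ∫ w in Ω ∩ ball z ((1 / 2) ^ j),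
    ((1 - (‖w - z‖ / (1 / 2) ^ j) ^ 2) ^ n : ℝ) • ((w - z) / (1 / 2) ^ j)

lemma mom_int (Ω : Set ℂ) (n j : ℕ) (z : ℂ) :
    IntegrableOn (fun w : ℂ => ((1 - (‖w - z‖ / (1 / 2) ^ j) ^ 2) ^ n : ℝ) •
      ((w - z) / (1 / 2) ^ j)) (Ω ∩ ball z ((1 / 2) ^ j)) := by
  have h1 : IntegrableOn (fun w : ℂ => ((1 - (‖w - z‖ / (1 / 2) ^ j) ^ 2) ^ n : ℝ) •
      ((w - z) / (1 / 2) ^ j)) (closedBall z ((1 / 2) ^ j)) := by
    apply ContinuousOn.integrableOn_compact (isCompact_closedBall _ _)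
    apply Continuous.continuousOn
    have h2 : Continuous (fun w : ℂ => (1 - (‖w - z‖ / (1 / 2) ^ j) ^ 2) ^ n) := by fun_prop
    have h3 : Continuous (fun w : ℂ => (w - z) / (1 / 2) ^ j) := by fun_prop
    exact h2.smul h3
  exact h1.mono_set (inter_subset_right.trans ball_subset_closedBall)

lemma mom_part (L : ℂ →L[ℝ] ℝ) {Ω : Set ℂ} (hΩ : MeasurableSet Ω) (n j : ℕ) (z : ℂ) :
    (mop j (wP_ik (n := n) L.continuous) • ind hΩ).1 z = -Real.pi * L (mom Ω n j z) := by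
  set r : ℝ := (1 / 2) ^ j with hr
  have hr0 : 0 < r := by positivity
  have hr2 : (2:ℝ) ^ j = r⁻¹ := by rw [hr, one_div, inv_pow, inv_inv]
  have hr2c : (2:ℂ) ^ j = (r⁻¹ : ℝ) := by rw [← hr2]; push_cast; rfl
  have h4 : (4:ℝ) ^ j = (r ^ 2)⁻¹ := by
    rw [show (4:ℝ) = 2 ^ 2 by norm_num, ← pow_mul, mul_comm, pow_mul, hr2, inv_pow]
  have hrc : ((1:ℂ) / 2) ^ j = (r : ℂ) := by rw [hr]; push_cast; rfl
  have e : ∀ w, sc j (wP n L) (z - w) * Ω.indicator (fun _ => (1:ℝ)) (z - (z - w)) =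
      (Ω ∩ ball z r).indicator (fun w => -(r ^ 2)⁻¹ *
        ((1 - (‖w - z‖ / r) ^ 2) ^ n * L ((w - z) / (1 / 2) ^ j))) w := by
    intro w
    rw [sub_sub_cancel]
    have hn : ‖(2:ℂ) ^ j * (z - w)‖ = ‖w - z‖ / r := by
      rw [hr2c, norm_mul, Complex.norm_real, Real.norm_of_nonneg (by positivity), norm_sub_rev]
      ring
    by_cases h : w ∈ Ω
    · by_cases h' : w ∈ ball z r
      · rw [indicator_of_mem h, indicator_of_mem (show w ∈ Ω ∩ ball z r from ⟨h, h'⟩), mul_one]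
        unfold sc
        have h5 : ‖(2:ℂ) ^ j * (z - w)‖ < 1 := by
          rw [hn, div_lt_one hr0, ← dist_eq_norm]
          exact h'
        rw [wP_in h5, hn, h4]
        have h6 : (2:ℂ) ^ j * (z - w) = -((w - z) / (1 / 2) ^ j) := by
          rw [hrc, hr2c]; push_cast; ring
        rw [h6, map_neg]
        ring
      · rw [indicator_of_notMem (show w ∉ Ω ∩ ball z r from fun hh => h' hh.2)]
        unfold sc
        rw [wP_out, mul_zero, zero_mul]
        rw [hn, le_div_iff₀ hr0, one_mul, ← dist_eq_norm]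
        exact not_lt.1 h'
    · rw [indicator_of_notMem h,
        indicator_of_notMem (show w ∉ Ω ∩ ball z r from fun hh => h hh.1), mul_zero]
  change ∫ v, sc j (wP n L) v * Ω.indicator (fun _ => (1:ℝ)) (z - v) = _
  rw [← integral_sub_left_eq_self (fun v => sc j (wP n L) v * Ω.indicator (fun _ => (1:ℝ)) (z - v))
    volume z]
  simp_rw [e]
  rw [integral_indicator (hΩ.inter measurableSet_ball), integral_const_mul]
  unfold mom
  rw [map_smul, ← L.integral_comp_comm (mom_int Ω n j z)]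
  have e2 : ∀ w : ℂ, L (((1 - (‖w - z‖ / (1 / 2) ^ j) ^ 2) ^ n : ℝ) • ((w - z) / (1 / 2) ^ j)) =
      (1 - (‖w - z‖ / r) ^ 2) ^ n * L ((w - z) / (1 / 2) ^ j) := by
    intro w
    rw [map_smul, smul_eq_mul]
  simp_rw [e2]
  rw [smul_eq_mul, ← hr]
  have hpi : Real.pi ≠ 0 := Real.pi_ne_zero
  generalize (∫ a in Ω ∩ ball z r, (1 - (‖a - z‖ / r) ^ 2) ^ n * L ((a - z) / (1 / 2) ^ j)) = I
  field_simp

lemma wP_odd (L : ℂ →L[ℝ] ℝ) (n : ℕ) : ∫ w, wP n L w = 0 := by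
  have h1 : ∫ w, wP n L (-w) = ∫ w, wP n L w := integral_neg_eq_self _ _
  have h2 : ∀ w, wP n L (-w) = -wP n L w := by
    intro w
    by_cases hw : ‖w‖ < 1
    · rw [wP_in (by rwa [norm_neg]), wP_in hw, norm_neg, map_neg]; ring
    · rw [wP_out (by rw [norm_neg]; exact not_lt.1 hw), wP_out (not_lt.1 hw), neg_zero]
  simp_rw [h2] at h1
  rw [integral_neg] at h1
  linarith

/-- The sum of the moment criterion. -/
noncomputable def momSum (α : ℝ) (n : ℕ) (Ω : Set ℂ) : ℝ≥0∞ :=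
  ∑' j : ℕ, ENNReal.ofReal ((2:ℝ) ^ ((1 - α) * j)) * ∫⁻ z, ‖mom Ω n j z‖ₑ

lemma part_le {L : ℂ →L[ℝ] ℝ} (hL : ∀ z, ‖L z‖ ≤ ‖z‖) {α : ℝ} {n : ℕ} {Ω : Set ℂ}
    (hΩ : MeasurableSet Ω) (h : momSum α n Ω < ⊤) :
    ∑' j, wb (1 - α) j * NB (mop j (wP_ik (n := n) L.continuous) • ind hΩ) < ⊤ := by
  have h1 : ∀ j, wb (1 - α) j * NB (mop j (wP_ik (n := n) L.continuous) • ind hΩ) ≤
      ‖Real.pi‖ₑ * (ENNReal.ofReal ((2:ℝ) ^ ((1 - α) * j)) * ∫⁻ z, ‖mom Ω n j z‖ₑ) := by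
    intro j
    have h2 : NB (mop j (wP_ik (n := n) L.continuous) • ind hΩ) ≤
        ‖Real.pi‖ₑ * ∫⁻ z, ‖mom Ω n j z‖ₑ := by
      unfold NB
      rw [← lintegral_const_mul' _ _ enorm_ne_top]
      apply lintegral_mono
      intro z
      simp only
      rw [mom_part L hΩ, enorm_mul, enorm_neg]
      gcongr
      rw [← ofReal_norm, ← ofReal_norm]
      exact ENNReal.ofReal_le_ofReal (hL _)
    refine (mul_le_mul_right h2 _).trans (le_of_eq ?_)
    unfold wb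
    ring
  refine lt_of_le_of_lt (ENNReal.tsum_le_tsum h1) ?_
  rw [ENNReal.tsum_mul_left]
  exact ENNReal.mul_lt_top enorm_lt_top h

/-- **The moment criterion**, for every `α > 0`. -/
theorem admissible_iff_mom {α : ℝ} (h0 : 0 < α) {n : ℕ} (hn : α < n + 2) {k : ℕ} (hk : α < k)
    {Ω : Set ℂ} (hΩ : MeasurableSet Ω) : Admissible α k Ω ↔ momSum α n Ω < ⊤ := by
  obtain ⟨H, hH⟩ := H98.Dbar.exists_profile
  have hre : ∀ z, ‖Complex.reCLM z‖ ≤ ‖z‖ := fun z => Complex.abs_re_le_norm z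
  have him : ∀ z, ‖Complex.imCLM z‖ ≤ ‖z‖ := fun z => Complex.abs_im_le_norm z
  constructor
  · intro h
    have hcrit := (H98.Dbar.admissible_iff_crit hH h0 hk hΩ).1 h
    have hone : ∀ L : ℂ →L[ℝ] ℝ,
        ∑' j, wb (1 - α) j * NB (mop j (wP_ik (n := n) L.continuous) • ind hΩ) < ⊤ := by
      intro L
      obtain ⟨B, hB, hR⟩ := rk_wP n (P := L) L.contDiff
      exact nec_mom hH h0 hn hΩ hcrit (wP_ik (n := n) L.continuous) hB hR (wP_odd L n)
        (fun w hw => wP_out hw)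
    have h1 : ∀ j : ℕ, ENNReal.ofReal ((2:ℝ) ^ ((1 - α) * j)) * ∫⁻ z, ‖mom Ω n j z‖ₑ ≤
        ‖Real.pi⁻¹‖ₑ * (wb (1 - α) j *
          NB (mop j (wP_ik (n := n) Complex.reCLM.continuous) • ind hΩ)) +
        ‖Real.pi⁻¹‖ₑ * (wb (1 - α) j *
          NB (mop j (wP_ik (n := n) Complex.imCLM.continuous) • ind hΩ)) := by
      intro j
      have h2 : ∫⁻ z, ‖mom Ω n j z‖ₑ ≤
          ‖Real.pi⁻¹‖ₑ * NB (mop j (wP_ik (n := n) Complex.reCLM.continuous) • ind hΩ) +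
          ‖Real.pi⁻¹‖ₑ * NB (mop j (wP_ik (n := n) Complex.imCLM.continuous) • ind hΩ) := by
        unfold NB
        rw [← lintegral_const_mul' _ _ enorm_ne_top, ← lintegral_const_mul' _ _ enorm_ne_top,
          ← lintegral_add_left (((mop j (wP_ik (n := n) Complex.reCLM.continuous) •
            ind hΩ : BM).2.1.enorm).const_mul _)]
        apply lintegral_mono
        intro z
        simp only
        rw [mom_part, mom_part, ← enorm_mul, ← enorm_mul]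
        have hpi : Real.pi ≠ 0 := Real.pi_ne_zero
        have e1 : ∀ x : ℝ, Real.pi⁻¹ * (-Real.pi * x) = -x := by
          intro x
          field_simp
        rw [e1, e1, enorm_neg, enorm_neg]
        rw [← ofReal_norm, ← ofReal_norm, ← ofReal_norm,
          ← ENNReal.ofReal_add (norm_nonneg _) (norm_nonneg _)]
        exact ENNReal.ofReal_le_ofReal (Complex.norm_le_abs_re_add_abs_im _)
      refine (mul_le_mul_right h2 _).trans (le_of_eq ?_)
      unfold wb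
      ring
    unfold momSum
    refine lt_of_le_of_lt (ENNReal.tsum_le_tsum h1) ?_
    rw [ENNReal.tsum_add, ENNReal.tsum_mul_left, ENNReal.tsum_mul_left]
    exact ENNReal.add_lt_top.2 ⟨ENNReal.mul_lt_top enorm_lt_top (hone _),
      ENNReal.mul_lt_top enorm_lt_top (hone _)⟩
  · intro h
    apply (H98.Dbar.admissible_iff_perCrit hH h0 hk hΩ).2
    have hrep := smooth_rep (H98.Dbar.bump_contDiff hH)
    have p1 := suf_one hH h0 hn hΩ Complex.reCLM.contDiff (q_one n) hrep.one (part_le hre hΩ h)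
    have p2 := suf_one hH h0 hn hΩ Complex.imCLM.contDiff (q_I n) hrep.I (part_le him hΩ h)
    have h1 : ∀ j : ℕ, ENNReal.ofReal ((2:ℝ) ^ (-(α * j))) * ∫⁻ z, ‖fderiv ℝ (moll H j Ω) z‖ₑ ≤
        wb (-α) j * (∫⁻ z, ‖fderiv ℝ (moll H j Ω) z 1‖ₑ) +
        wb (-α) j * ∫⁻ z, ‖fderiv ℝ (moll H j Ω) z Complex.I‖ₑ := by
      intro j
      have hcd : Continuous (fun z => fderiv ℝ (moll H j Ω) z) :=
        (H98.Dbar.moll_contDiff hH hΩ j).continuous_fderiv (by simp)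
      have h2 : ∫⁻ z, ‖fderiv ℝ (moll H j Ω) z‖ₑ ≤
          (∫⁻ z, ‖fderiv ℝ (moll H j Ω) z 1‖ₑ) +
          ∫⁻ z, ‖fderiv ℝ (moll H j Ω) z Complex.I‖ₑ := by
        rw [← lintegral_add_left ((hcd.clm_apply continuous_const).measurable).enorm]
        apply lintegral_mono
        intro z
        have h1 := H98.Dbar.norm_le_parts (fderiv ℝ (moll H j Ω) z)
        change ‖fderiv ℝ (moll H j Ω) z‖ₑ ≤ ‖fderiv ℝ (moll H j Ω) z 1‖ₑ +
          ‖fderiv ℝ (moll H j Ω) z Complex.I‖ₑ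
        rw [← ofReal_norm, ← ofReal_norm, ← ofReal_norm,
          ← ENNReal.ofReal_add (norm_nonneg _) (norm_nonneg _)]
        exact ENNReal.ofReal_le_ofReal h1
      refine (mul_le_mul_right h2 _).trans (le_of_eq ?_)
      unfold wb
      rw [neg_mul, mul_add]
    unfold PerCrit
    refine lt_of_le_of_lt (ENNReal.tsum_le_tsum h1) ?_
    rw [ENNReal.tsum_add]
    exact ENNReal.add_lt_top.2 ⟨p1, p2⟩

end H98.Dens
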